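import Mathlib
import Pool.Agent.Lib.MP_f9aece_nt_loc.Stmts
import Pool.Agent.Lib.MP_f9aece_nt_loc.E9

/-!
The rate in the central limit theorem for `log |zeta|`: statements of the modules.
Module `X` proves `theorem x : X`; modules using `X` take it as a hypothesis.  Parameters, windows,
torus and means are those of the libraries `GT` and `LC`.
-/

set_option autoImplicit false

namespace Pool.Agent.Lib.RA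

open MeasureTheory Set Filter Topology Complex ProbabilityTheory
open scoped ComplexConjugate
open Pool.Agent.Lib.GT
open Pool.Agent.Lib.LC
open Pool.Agent.Lib.LC.E9 (NN)
open Pool.Agent.Lib.MP_f9aece_nt (VV)

/-! ### A: weights -/

/-- A0: the weights and the exponential of a linear form over any set of primes, on the torus -/
def ExpW : Prop := ∃ C : ℝ, 1 ≤ C ∧ ∀ A : Par, A.Ok → ∀ S : Finset ℕ, (∀ p ∈ S, p.Prime ∧ 1000 ≤ p) →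
  ∀ c : ℕ → ℂ, (∀ p ∈ S, ‖c p‖ ≤ 4 / Real.sqrt p) → ∀ y : ℝ,
  ∫ x, A.W ∅ y x * Real.exp ((lin S c x).re) ∂mu
    ≤ C * Real.exp (∑ p ∈ S ∩ A.U, A.h p * ‖c p‖ + ∑ p ∈ S, ‖c p‖ ^ 2) * A.G y

/-- A1: the weights and the power of a linear form over any set of primes -/
def PowW : Prop := ∃ C T0 : ℝ, 1 ≤ C ∧ 3 ≤ T0 ∧ ∀ A : Par, A.Ok → ∀ T : ℝ, T0 ≤ T → Len A T →
  ∀ (S : Finset ℕ) (r : ℕ) (Y' : ℝ), (∀ p ∈ S, p.Prime ∧ 1000 ≤ p ∧ (p : ℝ) ≤ Real.exp Y') → 1 ≤ r →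
  VV S ≤ 2 * r → 10 ^ 5 * r * Y' ≤ Real.log T → ∀ c : ℕ → ℂ, (∀ p ∈ S, ‖c p‖ ≤ 1 / Real.sqrt p) →
  ∀ x y : ℝ, ∫⁻ t, ENNReal.ofReal (A.W ∅ y (om t) * bp r S c (om t)) ∂(un x T)
    ≤ ENNReal.ofReal (C * Real.exp (-(r : ℝ)) * A.G y)

/-- A2: the weights of one set of parameters and the bad heights of another one -/
def CrossBad : Prop := ∃ C T0 : ℝ, 1 ≤ C ∧ 3 ≤ T0 ∧ ∀ A A' : Par, A.Ok → A'.Ok → ∀ T : ℝ, T0 ≤ T →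
  Len A T → Len A' T → ∀ x y : ℝ,
  ∫⁻ t in {t | ¬ A'.Good ∅ (om t)}, ENNReal.ofReal (A.W ∅ y (om t)) ∂(un x T)
    ≤ ENNReal.ofReal (C * Real.exp (-A'.v) * A.G y)

/-- A3: fourth moments of linear forms over any set of primes under the weights -/
def MomFour : Prop := ∃ C T0 : ℝ, 1 ≤ C ∧ 3 ≤ T0 ∧ ∀ A : Par, A.Ok → ∀ T : ℝ, T0 ≤ T → Len A T →
  ∀ (S : Finset ℕ), (∀ p ∈ S, p.Prime ∧ 1000 ≤ p ∧ (p : ℝ) ≤ Real.exp (Real.log T / 10 ^ 5)) →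
  ∀ c : ℕ → ℂ, (∀ p ∈ S, ‖c p‖ ≤ 2 / Real.sqrt p) → ∀ D : ℝ, 1 ≤ D →
  ∑ p ∈ S ∩ A.U, A.h p * ‖c p‖ ≤ D → ∑ p ∈ S, ‖c p‖ ^ 2 ≤ D ^ 2 → ∀ x y : ℝ,
  ∫⁻ t, ENNReal.ofReal (A.W ∅ y (om t) * ((lin S c (om t)).re) ^ 4) ∂(un x T)
    ≤ ENNReal.ofReal (C * D ^ 4 * A.G y)

/-- A4: signed first moment of a linear form under the weights -/
def SignMean : Prop := ∃ C T0 : ℝ, 1 ≤ C ∧ 3 ≤ T0 ∧ ∀ A : Par, A.Ok → A.b = 1 / 20 → ∀ T : ℝ, T0 ≤ T →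
  Len A T → ∀ c : ℕ → ℂ, (∀ p : ℕ, ‖c p‖ ≤ 2 / Real.sqrt p) → ∀ D : ℝ, 1 ≤ D →
  ∑ p ∈ A.U, A.h p * ‖c p‖ ≤ D → ∑ p ∈ A.U, ‖c p‖ ^ 2 ≤ D ^ 2 → ∀ x y : ℝ,
  |∫ t, A.W ∅ y (om t) * (lin A.U c (om t)).re ∂(un x T)|
    ≤ C * D ^ 2 * (A.be + 1 / Real.sqrt A.s2 + Real.exp (-(A.v / 2 : ℝ)) + 1 / Real.sqrt A.p0
      + 1 / Real.sqrt T) * A.G y

/-- A5: from the weights to the windows -/
def WinUp : Prop := ∃ (C : ℝ) (v0 : ℕ), 1 ≤ C ∧ ∀ A : Par, A.Ok → v0 ≤ A.v → A.b = 1 / 20 →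
  ∀ m : Measure ℝ, SFinite m → ∀ κ : ℝ, 0 ≤ κ → ∀ H : ℝ → ENNReal, Measurable H →
  (∀ y : ℝ, ∫⁻ t, ENNReal.ofReal (A.W ∅ y (om t)) * H t ∂m ≤ ENNReal.ofReal (κ * A.G y)) →
  ∀ y : ℝ, ∫⁻ t in {t | A.Good ∅ (om t)}, ENNReal.ofReal (HH A.be A.b y (A.X ∅ (om t))
      + Env A.be A.b y (A.X ∅ (om t))) * H t ∂m ≤ ENNReal.ofReal (C * κ * A.G y)

/-- the Gaussian mean of the window -/
noncomputable def gw (A : Par) (y : ℝ) : ℝ :=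
  ∫ z, HH A.be A.b y z ∂(gaussianReal 0 (Real.toNNReal A.s2))

/-- A6: the windows, main term -/
def WinMain : Prop := ∃ (C T0 : ℝ) (v0 : ℕ), 1 ≤ C ∧ 3 ≤ T0 ∧ ∀ A : Par, A.Ok → v0 ≤ A.v →
  A.b = 1 / 20 → ∀ T : ℝ, T0 ≤ T → Len A T → ∀ (x κ : ℝ) (F : Set ℝ), 0 ≤ κ → MeasurableSet F →
  (∀ y : ℝ, ∫⁻ t in Fᶜ, ENNReal.ofReal (A.W ∅ y (om t)) ∂(un x T) ≤ ENNReal.ofReal (κ * A.G y)) →
  ∀ y : ℝ, |∫ t in {t | A.Good ∅ (om t)} ∩ F, HH A.be A.b y (A.X ∅ (om t)) ∂(un x T) - gw A y|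
    ≤ C * (Real.exp (-A.v) + 1 / A.p0 + 1 / Real.sqrt T + κ) * A.G y

/-- A7: the windows and a linear form, with sign -/
def WinSign : Prop := ∃ (C T0 : ℝ) (v0 : ℕ), 1 ≤ C ∧ 3 ≤ T0 ∧ ∀ A : Par, A.Ok → v0 ≤ A.v →
  A.b = 1 / 20 → ∀ T : ℝ, T0 ≤ T → Len A T → ∀ (x κ : ℝ) (F : Set ℝ), 0 ≤ κ → MeasurableSet F →
  (∀ y : ℝ, ∫⁻ t in Fᶜ, ENNReal.ofReal (A.W ∅ y (om t)) ∂(un x T) ≤ ENNReal.ofReal (κ * A.G y)) →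
  ∀ c : ℕ → ℂ, (∀ p : ℕ, ‖c p‖ ≤ 2 / Real.sqrt p) → ∀ D : ℝ, 1 ≤ D →
  ∑ p ∈ A.U, A.h p * ‖c p‖ ≤ D → ∑ p ∈ A.U, ‖c p‖ ^ 2 ≤ D ^ 2 → ∀ R : ℝ, 1 ≤ R → ∀ y : ℝ,
  |∫ t in {t | A.Good ∅ (om t)} ∩ F ∩ {t | |(lin A.U c (om t)).re| ≤ R},
      (lin A.U c (om t)).re * HH A.be A.b y (A.X ∅ (om t)) ∂(un x T)|
    ≤ C * D ^ 2 * (A.be + 1 / Real.sqrt A.s2 + Real.exp (-(A.v / 2 : ℝ)) + 1 / Real.sqrt A.p0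
      + 1 / Real.sqrt T + Real.sqrt κ + 1 / R) * A.G y

/-- A8: masses of intervals -/
def WinMass : Prop := ∃ (C : ℝ) (v0 : ℕ), 1 ≤ C ∧ ∀ A : Par, A.Ok → v0 ≤ A.v → A.b = 1 / 20 →
  ∀ x T κ : ℝ, 0 < T → 0 ≤ κ → ∀ F : Set ℝ, MeasurableSet F →
  (∀ y : ℝ, ∫⁻ t in F, ENNReal.ofReal (A.W ∅ y (om t)) ∂(un x T) ≤ ENNReal.ofReal (κ * A.G y)) →
  ∀ V1 V2 : ℝ, V1 ≤ V2 → un x T {t | t ∈ F ∧ A.Good ∅ (om t) ∧ V1 < A.X ∅ (om t) ∧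
      A.X ∅ (om t) ≤ V2} ≤ ENNReal.ofReal (C * κ * (V2 - V1 + 1) * A.G V1)

/-! ### B: the smooth step -/

/-- the smooth step at `V` -/
noncomputable def st (be V u : ℝ) : ℝ := ∫ y in Ioi V, HH be (1 / 20) y u

/-- B1: the smooth step, elementary facts -/
def StepBasic : Prop := ∀ be : ℝ, 0 < be → be ≤ 1 / 10 ^ 4 →
  (Continuous fun p : ℝ × ℝ => HH be (1 / 20) p.1 p.2) ∧ (∀ y u : ℝ, 0 ≤ HH be (1 / 20) y u) ∧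
  (∀ V u : ℝ, IntegrableOn (fun y => HH be (1 / 20) y u) (Ioi V)) ∧ (∀ V u : ℝ, 0 ≤ st be V u) ∧
  (Continuous fun p : ℝ × ℝ => st be p.1 p.2) ∧ (∀ V u d : ℝ, st be (V + d) (u + d) = st be V u) ∧
  (∀ V u h : ℝ, 0 ≤ h → st be V u - st be (V + h) u = ∫ y in V..(V + h), HH be (1 / 20) y u)

/-- B2: the smooth step and the step -/
def StepLaw : Prop := ∃ C : ℝ, 1 ≤ C ∧ ∀ be : ℝ, 0 < be → be ≤ 1 / 10 ^ 4 → ∀ (V G0 : ℝ), 0 ≤ G0 →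
  ∀ ν : Measure ℝ, IsFiniteMeasure ν →
  (∀ y : ℝ, ν (Ioc y (y + 1)) ≤ ENNReal.ofReal (G0 * Real.exp (-(be * (y - V))))) →
  Integrable (st be V) ν ∧ |∫ u, st be V u ∂ν - (ν (Ioi V)).toReal| ≤ C * G0

/-- B3: the smooth step under the Gaussian law -/
def StepGauss : Prop := ∃ C : ℝ, 1 ≤ C ∧ ∀ A : Par, A.Ok → A.b = 1 / 20 → A.be ≤ 1 / 10 ^ 4 → ∀ V : ℝ,
  IntegrableOn (gw A) (Ioi V) ∧ (∀ y : ℝ, |gw A y| ≤ C * A.G y) ∧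
  |(∫ y in Ioi V, gw A y) - (gaussianReal 0 (Real.toNNReal A.s2) (Ioi V)).toReal| ≤ C * A.G V

/-- B4: two Gaussian laws -/
def GaussFar : Prop := ∃ C : ℝ, 1 ≤ C ∧ ∀ A A' : Par, A.Ok → A'.Ok → A.b = 1 / 20 → A'.b = 1 / 20 →
  A'.be = A.be → A'.vt ≤ A.vt → ∀ V : ℝ,
  |(∫ y in Ioi V, gw A y) - ∫ y in Ioi V, gw A' y|
    ≤ C * (A.vt - A'.vt) * (A.be + 1 / Real.sqrt A'.s2) * (A.G V + A'.G V)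

/-- the remainder of the smooth step, averaged over the levels between `V + H` and `V + 2 * H` -/
noncomputable def rem (be H V u u' : ℝ) : ℝ :=
  (∫ h in H..(2 * H), (st be (V + h) u - st be (V + h) u')) / H

/-- B5: the difference of two smooth steps -/
def StepId : Prop := ∀ be H V u u' : ℝ, 0 < be → be ≤ 1 / 10 ^ 4 → 1 ≤ H →
  st be V u - st be V u'
    = (∫ h in H..(2 * H), ∫ y in V..(V + h), (HH be (1 / 20) y u - HH be (1 / 20) y u')) / H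
      + rem be H V u u' ∧
  (|u - u'| ≤ H / 2 → |rem be H V u u' - (u - u') / H * ∫ y in (V + H)..(V + 2 * H), HH be (1 / 20) y u|
    ≤ |u - u'| / H * ((∫ y in (V + H - |u - u'|)..(V + H + |u - u'|), HH be (1 / 20) y u)
      + ∫ y in (V + 2 * H - |u - u'|)..(V + 2 * H + |u - u'|), HH be (1 / 20) y u)) ∧
  |rem be H V u u'| ≤ |u - u'| / H
    * ∫ y in (V + H)..(V + 2 * H + |u - u'|), (HH be (1 / 20) y u + HH be (1 / 20) y u')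

/-! ### C: two levels -/

/-- C1: the prime sums of any two levels -/
def SpecPair : Prop := ∃ C N0 : ℝ, 1 ≤ C ∧ 1 ≤ N0 ∧ ∀ (A A' : Par) (T N N' : ℝ), Spec A T N →
  Spec A' T N' → N0 ≤ N → N ^ (3 / 2 : ℝ) ≤ N' → A'.vt ≤ A.vt ∧ A.vt - A'.vt ≤ C * Real.log N' ∧
  A'.U ⊆ A.U ∧ (∀ p : ℕ, A'.h p ≤ A.h p) ∧
  ∃ c : ℕ → ℂ, (∀ p : ℕ, ‖c p‖ ≤ 2 / Real.sqrt p) ∧
    (∀ x : Om, A.X ∅ x - A'.X ∅ x = (lin A.U c x).re) ∧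
    ∑ p ∈ A.U, A.h p * ‖c p‖ ≤ C * Real.log N' ∧ ∑ p ∈ A.U, ‖c p‖ ^ 2 ≤ (C * Real.log N') ^ 2

/-- the conditions on the event `F` for the parameters `A` -/
def Ev4 (A : Par) (x T κ : ℝ) (F : Set ℝ) : Prop := ∀ y : ℝ,
  ∫⁻ t in Fᶜ, ENNReal.ofReal (A.W ∅ y (om t)) ∂(un x T) ≤ ENNReal.ofReal (κ * A.G y)

/-- C2: near part -/
def StepNear : Prop := ∃ C N0 T0 : ℝ, 1 ≤ C ∧ 1 ≤ N0 ∧ 3 ≤ T0 ∧ ∀ (A A' : Par) (T N : ℝ), Spec A T N →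
  Spec A' T (N ^ (3 / 2 : ℝ)) → A'.be = A.be → N0 ≤ N → T0 ≤ T →
  N ^ (3 / 2 : ℝ) ≤ Real.log (Real.log T) → ∀ (x : ℝ) (F : Set ℝ),
  MeasurableSet F → F ⊆ {t | A.Good ∅ (om t) ∧ A'.Good ∅ (om t)} → Ev4 A x T (N ^ (-(4 : ℝ))) F →
  Ev4 A' x T (N ^ (-(4 : ℝ))) F → ∀ V : ℝ,
  |(∫ t in F, (∫ h in (N ^ (1 / 2 : ℝ))..(2 * N ^ (1 / 2 : ℝ)), ∫ y in V..(V + h),
        (HH A.be (1 / 20) y (A.X ∅ (om t)) - HH A.be (1 / 20) y (A'.X ∅ (om t))))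
        / N ^ (1 / 2 : ℝ) ∂(un x T))
      - (∫ h in (N ^ (1 / 2 : ℝ))..(2 * N ^ (1 / 2 : ℝ)), ∫ y in V..(V + h), (gw A y - gw A' y))
        / N ^ (1 / 2 : ℝ)|
    ≤ C / N * A.G V

/-- C3: far part, larger tilt -/
def StepFarA : Prop := ∃ C N0 T0 : ℝ, 1 ≤ C ∧ 1 ≤ N0 ∧ 3 ≤ T0 ∧ ∀ (A A' : Par) (T N : ℝ), Spec A T N →
  Spec A' T (N ^ (3 / 2 : ℝ)) → A'.be = A.be → N0 ≤ N → T0 ≤ T → N ^ (-(1 / 4) : ℝ) ≤ A.be →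
  N ^ (3 / 2 : ℝ) ≤ Real.log (Real.log T) → ∀ (x : ℝ) (F : Set ℝ), MeasurableSet F → F ⊆ {t | A.Good ∅ (om t) ∧ A'.Good ∅ (om t)} → ∀ V : ℝ,
  (∫ t in F, |rem A.be (N ^ (1 / 2 : ℝ)) V (A.X ∅ (om t)) (A'.X ∅ (om t))| ∂(un x T))
    ≤ C / N * A.G V

/-- C4: far part, smaller tilt -/
def StepFarB : Prop := ∃ C N0 T0 : ℝ, 1 ≤ C ∧ 1 ≤ N0 ∧ 3 ≤ T0 ∧ ∀ (A A' : Par) (T N : ℝ), Spec A T N →
  Spec A' T (N ^ (3 / 2 : ℝ)) → A'.be = A.be → N0 ≤ N → T0 ≤ T → A.be ≤ N ^ (-(1 / 4) : ℝ) →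
  N ^ (3 / 2 : ℝ) ≤ Real.log (Real.log T) → ∀ (x : ℝ) (F : Set ℝ),
  MeasurableSet F → F ⊆ {t | A.Good ∅ (om t) ∧ A'.Good ∅ (om t)} → Ev4 A x T (N ^ (-(4 : ℝ))) F →
  ∀ V : ℝ, |∫ t in F, rem A.be (N ^ (1 / 2 : ℝ)) V (A.X ∅ (om t)) (A'.X ∅ (om t)) ∂(un x T)|
    ≤ C * N ^ (-(1 / 5) : ℝ) * A.G V

/-- C5: one step -/
def StepPsi : Prop := ∃ C N0 T0 : ℝ, 1 ≤ C ∧ 1 ≤ N0 ∧ 3 ≤ T0 ∧ ∀ (A A' : Par) (T N : ℝ), Spec A T N →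
  Spec A' T (N ^ (3 / 2 : ℝ)) → A'.be = A.be → N0 ≤ N → T0 ≤ T → N ^ (3 / 2 : ℝ) ≤ Real.log (Real.log T) →
  ∀ (x : ℝ) (F : Set ℝ), MeasurableSet F → F ⊆ {t | A.Good ∅ (om t) ∧ A'.Good ∅ (om t)} →
  Ev4 A x T (N ^ (-(4 : ℝ))) F → Ev4 A' x T (N ^ (-(4 : ℝ))) F → ∀ V : ℝ,
  |(∫ t in F, (st A.be V (A.X ∅ (om t)) - st A.be V (A'.X ∅ (om t))) ∂(un x T))
      - ((∫ y in Ioi V, gw A y) - ∫ y in Ioi V, gw A' y)|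
    ≤ C * N ^ (-(1 / 10) : ℝ) * A.G V

/-! ### D: the chain of levels -/

/-- a chain of levels -/
structure Chain (A : ℕ → Par) (T N : ℝ) (m : ℕ) : Prop where
  spec : ∀ j, j ≤ m → Spec (A j) T (NN N j)
  be : ∀ j, j ≤ m → (A j).be = (A 0).be
  beL : 1 / Real.log (Real.log T) ≤ (A 0).be
  top : Real.log (Real.log T) ≤ NN N m ^ (9 / 5 : ℝ)
  size : NN N m ≤ Real.log (Real.log T)

/-- good at the levels from `i` to `m` -/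
def Gd (A : ℕ → Par) (m i : ℕ) : Set ℝ := {t | ∀ j, i ≤ j → j ≤ m → (A j).Good ∅ (om t)}

/-- good at the levels from `i` to `m` and not at the level before -/
def Lv (A : ℕ → Par) (m i : ℕ) : Set ℝ := {t | t ∈ Gd A m i ∧ ∀ k, k + 1 = i → ¬ (A k).Good ∅ (om t)}

/-- D1: numbers and exceptional sets of a chain -/
def ChainNum : Prop := ∃ N0 : ℝ, 1 ≤ N0 ∧ ∀ N : ℝ, N0 ≤ N → ∃ T0 : ℝ, 3 ≤ T0 ∧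
  ∀ (A : ℕ → Par) (T : ℝ) (m : ℕ), Chain A T N m → T0 ≤ T →
  (∀ i, MeasurableSet (Gd A m i) ∧ MeasurableSet (Lv A m i)) ∧
  (∀ i, i ≤ m → ∀ y : ℝ, 0 ≤ (A i).G y ∧ (A i).G y ≤ 2 * (A 0).G y) ∧
  (∀ i, i ≤ m → ∀ x : ℝ, Ev4 (A i) x T (NN N i ^ (-(4 : ℝ))) (Gd A m i)) ∧
  (∀ i, i + 1 ≤ m → ∀ x : ℝ, Ev4 (A (i + 1)) x T (NN N i ^ (-(4 : ℝ))) (Gd A m i)) ∧
  (∀ i, i + 1 ≤ m → ∀ x y : ℝ, ∫⁻ t in Lv A m (i + 1), ENNReal.ofReal ((A (i + 1)).W ∅ y (om t))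
    ∂(un x T) ≤ ENNReal.ofReal (NN N i ^ (-(4 : ℝ)) * (A (i + 1)).G y))

/-- D2: masses of intervals -/
def XMass : Prop := ∃ C N0 : ℝ, 1 ≤ C ∧ 1 ≤ N0 ∧ ∀ N : ℝ, N0 ≤ N → ∃ T0 : ℝ, 3 ≤ T0 ∧
  ∀ (A : ℕ → Par) (T : ℝ) (m : ℕ), Chain A T N m → T0 ≤ T → ∀ x y : ℝ,
  ∑ i ∈ Finset.range (m + 1), un x T {t | t ∈ Lv A m i ∧ y < (A i).X ∅ (om t) ∧
    (A i).X ∅ (om t) ≤ y + 1} ≤ ENNReal.ofReal (C * (A 0).G y)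

/-- D3: the smooth step and the first good level -/
def XTel : Prop := ∃ C N0 : ℝ, 1 ≤ C ∧ 1 ≤ N0 ∧ ∀ N : ℝ, N0 ≤ N → ∃ T0 : ℝ, 3 ≤ T0 ∧
  ∀ (A : ℕ → Par) (T : ℝ) (m : ℕ), Chain A T N m → T0 ≤ T → ∀ x V : ℝ,
  |∑ i ∈ Finset.range (m + 1), (∫ t in Lv A m i, st (A 0).be V ((A i).X ∅ (om t)) ∂(un x T))
      - ∫ y in Ioi V, gw (A 0) y| ≤ C * (A 0).G V

/-- D4: the law of the prime sum of the first good level -/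
def XLaw : Prop := ∃ C N0 : ℝ, 1 ≤ C ∧ 1 ≤ N0 ∧ ∀ N : ℝ, N0 ≤ N → ∃ T0 : ℝ, 3 ≤ T0 ∧
  ∀ (A : ℕ → Par) (T : ℝ) (m : ℕ), Chain A T N m → T0 ≤ T → ∀ x V : ℝ,
  |∑ i ∈ Finset.range (m + 1), (un x T {t | t ∈ Lv A m i ∧ V < (A i).X ∅ (om t)}).toReal
      - (gaussianReal 0 (Real.toNNReal (A 0).s2) (Ioi V)).toReal| ≤ C * (A 0).G V

/-! ### E: crossings -/

/-- E1: large values of zeta at heights with a small prime sum -/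
def UpPair : Prop := ∃ C N0 T0 : ℝ, 1 ≤ C ∧ 1 ≤ N0 ∧ 3 ≤ T0 ∧ ∀ (A : Par) (T N : ℝ), Spec A T N →
  N0 ≤ N → T0 ≤ T → ∀ x V w κ : ℝ, |x| ≤ T ^ (9 / 10 : ℝ) → 0 ≤ w → w * Real.log T ≤ N ^ (1 / 2 : ℝ) →
  0 ≤ κ → ∀ F : Set ℝ, MeasurableSet F →
  (∀ y : ℝ, ∫⁻ t in F, ENNReal.ofReal (A.W ∅ y (om t)) ∂(un x T) ≤ ENNReal.ofReal (κ * A.G y)) →
  un x T {t | t ∈ Icc (T ^ (19 / 20 : ℝ)) (x + T) ∧ t ∈ F ∧ A.Good ∅ (om t) ∧ A.X ∅ (om t) ≤ V ∧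
      Real.exp V < ‖riemannZeta (1 / 2 + I * (t + w : ℝ))‖}
    ≤ ENNReal.ofReal (C * (κ * N ^ (1 / 10 : ℝ) + 1 / N) * A.G V)

/-- E2: large values of zeta at bad heights -/
def TopUp : Prop := ∃ C N0 T0 : ℝ, 1 ≤ C ∧ 1 ≤ N0 ∧ 3 ≤ T0 ∧ ∀ (A : Par) (T N : ℝ), Spec A T N →
  N0 ≤ N → T0 ≤ T → ∀ x V w : ℝ, |x| ≤ T ^ (9 / 10 : ℝ) → 0 ≤ w → w * Real.log T ≤ N ^ (1 / 2 : ℝ) →
  un x T {t | t ∈ Icc (T ^ (19 / 20 : ℝ)) (x + T) ∧ ¬ A.Good ∅ (om t) ∧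
      Real.exp V < ‖riemannZeta (1 / 2 + I * (t + w : ℝ))‖}
    ≤ ENNReal.ofReal (C * (1 / (N ^ 4 * A.be) + 1 / N) * A.G V)

/-- E3: the prime sums of two levels far apart -/
def FarPair : Prop := ∃ C N0 T0 : ℝ, 1 ≤ C ∧ 1 ≤ N0 ∧ 3 ≤ T0 ∧ ∀ (A A' : Par) (T N N' : ℝ),
  Spec A T N → Spec A' T N' → N0 ≤ N → N ^ (3 / 2 : ℝ) ≤ N' → T0 ≤ T → ∀ x V : ℝ,
  un x T {t | A.Good ∅ (om t) ∧ V + N' < A.X ∅ (om t) ∧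
      A.X ∅ (om t) - V < 2 * |A.X ∅ (om t) - A'.X ∅ (om t)|}
    ≤ ENNReal.ofReal (C * N' ^ (-(1 / 2) : ℝ) * A.G V)

/-- E4: nice heights with a large prime sum, small values nearby; other heights -/
def LowNice : Prop := ∃ C C2 N0 T0 : ℝ, 1 ≤ C ∧ 1 ≤ C2 ∧ 1 ≤ N0 ∧ 3 ≤ T0 ∧ ∀ (A : Par) (T N : ℝ),
  Spec A T N → N0 ≤ N → T0 ≤ T → ∀ x V : ℝ, |x| ≤ T ^ (9 / 10 : ℝ) →
  MeasurableSet {t : ℝ | Nice C2 A T t} ∧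
  (∀ l0 : ℝ, 0 < l0 → l0 ≤ A.lam →
    ∫⁻ w in Icc 0 l0, un x T {t | t ∈ Icc (T ^ (19 / 20 : ℝ)) (x + T) ∧ A.Good ∅ (om t) ∧
        Nice C2 A T t ∧ V + N / 2 < A.X ∅ (om t) ∧ ‖riemannZeta (1 / 2 + I * (t + w : ℝ))‖ ≤ Real.exp V}
      ≤ ENNReal.ofReal (A.lam * Real.exp (-(N ^ (1 / 4 : ℝ))) * A.G V)) ∧
  (∀ h : ℝ, 1 ≤ h → un x T {t | t ∈ Icc (T ^ (19 / 20 : ℝ)) (x + T) ∧ A.Good ∅ (om t) ∧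
      ¬ Nice C2 A T t ∧ V < A.X ∅ (om t) ∧ A.X ∅ (om t) ≤ V + h}
    ≤ ENNReal.ofReal (C * h / N ^ 3 * A.G V)) ∧
  un x T {t | t ∈ Icc (T ^ (19 / 20 : ℝ)) (x + T) ∧ A.Good ∅ (om t) ∧ ¬ Nice C2 A T t ∧
      V < A.X ∅ (om t)}
    ≤ ENNReal.ofReal (C / (N ^ 3 * A.be) * A.G V)

/-- E5: large values of zeta and the first good level, upper bound -/
def CrossUp : Prop := ∃ N0 : ℝ, 1 ≤ N0 ∧ ∀ N : ℝ, N0 ≤ N → ∃ C T0 : ℝ, 1 ≤ C ∧ 3 ≤ T0 ∧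
  ∀ (A : ℕ → Par) (T : ℝ) (m : ℕ), Chain A T N m → T0 ≤ T → ∀ x V : ℝ, |x| ≤ T ^ (9 / 10 : ℝ) →
  (un x T {t | Real.exp V < ‖riemannZeta (1 / 2 + I * t)‖}).toReal
    ≤ ∑ i ∈ Finset.range (m + 1), (un x T {t | t ∈ Lv A m i ∧ V < (A i).X ∅ (om t)}).toReal
      + C * (A 0).G V + T ^ (-(1 / 30) : ℝ)

/-- E6: large values of zeta and the first good level, lower bound -/
def CrossLow : Prop := ∃ N0 : ℝ, 1 ≤ N0 ∧ ∀ N : ℝ, N0 ≤ N → ∃ C T0 : ℝ, 1 ≤ C ∧ 3 ≤ T0 ∧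
  ∀ (A : ℕ → Par) (T : ℝ) (m : ℕ), Chain A T N m → T0 ≤ T → ∀ x V : ℝ, |x| ≤ T ^ (9 / 10 : ℝ) →
  ∑ i ∈ Finset.range (m + 1), (un x T {t | t ∈ Lv A m i ∧ V < (A i).X ∅ (om t)}).toReal
    ≤ (un x T {t | Real.exp V < ‖riemannZeta (1 / 2 + I * t)‖}).toReal
      + C * (A 0).G V + T ^ (-(1 / 30) : ℝ)

/-! ### F: the rate -/

/-- F1: the rate, with the parameters -/
def RateLevel : Prop := ∃ N0 : ℝ, 1 ≤ N0 ∧ ∀ N : ℝ, N0 ≤ N → ∃ C T0 : ℝ, 1 ≤ C ∧ 3 ≤ T0 ∧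
  ∀ (A : Par) (T : ℝ), Spec A T N → T0 ≤ T → 1 / Real.log (Real.log T) ≤ A.be →
  ∀ x V : ℝ, |x| ≤ T ^ (9 / 10 : ℝ) →
  |(un x T {t | Real.exp V < ‖riemannZeta (1 / 2 + I * t)‖}).toReal
      - (gaussianReal 0 (Real.toNNReal A.s2) (Ioi V)).toReal| ≤ C * A.G V + T ^ (-(1 / 30) : ℝ)

/-- F2: the rate -/
def Rate : Prop := ∃ C δ T0 : ℝ, 0 < C ∧ 0 < δ ∧ ∀ x T V : ℝ, T0 ≤ T → |x| ≤ T ^ (9 / 10 : ℝ) →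
  V ≤ δ * Real.log (Real.log T) →
  |(volume {u : ℝ | u ∈ Icc (0 : ℝ) 1 ∧
      Real.exp V < ‖riemannZeta (1 / 2 + I * x + I * u * T)‖}).toReal
    - tl (V / Real.sqrt (Real.log (Real.log T) / 2))|
    ≤ C / Real.sqrt (Real.log (Real.log T)) * Real.exp (-((max V 0) ^ 2 / Real.log (Real.log T)))

end Pool.Agent.Lib.RA
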