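import Mathlib
import Pool.Agent.Lib.MP_f9aece_nt_rate.Stmts
import Pool.Agent.Lib.MP_f9aece_nt_loc.A6
import Pool.Agent.Lib.MP_f9aece_nt_gt.E3
import Pool.Agent.Lib.MP_f9aece_nt_gt.B7
import Pool.Agent.Lib.MP_f9aece_nt_j4.FBridge

/-!
The rate in the central limit theorem for `log |zeta|`, A0: the weights and the exponential of a
linear form over any set of primes, on the torus.
-/

set_option autoImplicit false

namespace Pool.Agent.Lib.RA

open MeasureTheory Set Filter Topology Complex ProbabilityTheory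
open scoped ComplexConjugate
open Pool.Agent.Lib.GT Pool.Agent.Lib.GT.EE
open Pool.Agent.Lib.LC
open Pool.Agent.Lib.J4 (V2)

namespace A0x

/-- the coefficients cut to `S` -/
noncomputable def cut (S : Finset ℕ) (c : ℕ → ℂ) (p : ℕ) : ℂ := if p ∈ S then c p else 0

lemma cut_le {S : Finset ℕ} {c : ℕ → ℂ} (hc : ∀ p ∈ S, ‖c p‖ ≤ 4 / Real.sqrt p) (p : ℕ) :
    ‖cut S c p‖ ≤ 4 / Real.sqrt p := by
  unfold cut
  split_ifs with h
  · exact hc p h
  · rw [norm_zero]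
    positivity

lemma sum_cut {U S : Finset ℕ} {c : ℕ → ℂ} (f : ℕ → ℂ → ℝ) (hf : ∀ p, f p 0 = 0) :
    ∑ p ∈ U, f p (cut S c p) = ∑ p ∈ S ∩ U, f p (c p) := by
  rw [Finset.inter_comm, ← Finset.filter_mem_eq_inter, Finset.sum_filter]
  refine Finset.sum_congr rfl fun p _ => ?_
  unfold cut
  split_ifs with h
  · rfl
  · exact hf p

lemma lin_cut (U S : Finset ℕ) (c : ℕ → ℂ) (x : Om) : lin U (cut S c) x = lin (S ∩ U) c x := by
  unfold lin
  rw [Finset.inter_comm, ← Finset.filter_mem_eq_inter, Finset.sum_filter]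
  refine Finset.sum_congr rfl fun p _ => ?_
  unfold cut
  split_ifs with h
  · rfl
  · rw [zero_mul]

lemma lin_split (U S : Finset ℕ) (c : ℕ → ℂ) (x : Om) :
    lin S c x = lin (S ∩ U) c x + lin (S \ U) c x := by
  unfold lin
  rw [← Finset.sum_inter_add_sum_sdiff S U]

/-- the coefficients are in the range of `WBd` -/
lemma Dt_ok' {c : ℕ → ℂ} (hc : ∀ p : ℕ, ‖c p‖ ≤ 4 / Real.sqrt p) : (Dt 1 c).Ok := by
  intro p
  have h1 : 0 ≤ 1 / Real.sqrt p := by positivity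
  have h3 : ‖((1 / 2 : ℝ) : ℂ)‖ = 1 / 2 := by
    rw [Complex.norm_real, Real.norm_eq_abs, abs_of_pos (by norm_num)]
  have h4 : ‖((1 / 2 : ℝ) : ℂ)‖ * ‖c p‖ ≤ 2 / Real.sqrt p := by
    rw [h3]
    have := hc p
    have e : 4 / Real.sqrt p = 2 * (2 / Real.sqrt p) := by ring
    rw [e] at this
    linarith
  refine ⟨?_, ?_, ?_, ?_⟩
  · simp only [Dt]
    rw [norm_mul]
    exact h4
  · simp only [Dt]
    rw [norm_mul, Complex.norm_conj]
    exact h4
  · simp only [Dt, norm_zero]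
    exact h1
  · simp only [Dt, norm_zero]
    exact h1

lemma dep_HF' (S : Finset ℕ) (D : Dat) : Dep (S : Set ℕ) (HF S D) := by
  intro x y hxy
  unfold HF
  congr 1
  · congr 1
    exact Finset.sum_congr rfl fun p hp => by rw [hxy p (Finset.mem_coe.mpr hp)]
  · exact Finset.prod_congr rfl fun p hp => by rw [hxy p (Finset.mem_coe.mpr hp)]

end A0x

open A0x

/-- A0 -/
theorem expW (hB : WBd) (_hN : GroupNum) (h2 : ProdPrimes) : ExpW := by
  obtain ⟨C1, hC1, hB⟩ := hB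
  obtain ⟨C2, hC2, h2⟩ := h2
  refine ⟨C1 * (1 + C2) + 1, ?_, fun A hA S hS c hc y => ?_⟩
  · have : 0 ≤ C1 * (1 + C2) := by positivity
    linarith
  have hG := hA.G_pos y
  set B1 : ℝ := ∑ p ∈ S ∩ A.U, A.h p * ‖c p‖ + ∑ p ∈ S ∩ A.U, ‖c p‖ ^ 2 with hB1
  have hWc : Continuous fun z : Om => A.W ∅ y z := A.continuous_W' hA ∅ y
  have hW0 : ∀ z, 0 ≤ A.W ∅ y z := A.W_nonneg hA.b_pos.le ∅ y
  -- first factor
  have hk : A.be / 2 * (1 * ∑ p ∈ A.U, A.h p * (cut S c p).re)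
      + 1 ^ 2 / 4 * ∑ p ∈ A.U, ‖cut S c p‖ ^ 2 ≤ B1 := by
    have e1 : ∑ p ∈ A.U, A.h p * (cut S c p).re = ∑ p ∈ S ∩ A.U, A.h p * (c p).re :=
      sum_cut (fun p z => A.h p * z.re) (by simp)
    have e2 : ∑ p ∈ A.U, ‖cut S c p‖ ^ 2 = ∑ p ∈ S ∩ A.U, ‖c p‖ ^ 2 :=
      sum_cut (fun p z => ‖z‖ ^ 2) (by simp)
    rw [e1, e2, hB1]
    have h3 : ∑ p ∈ S ∩ A.U, A.h p * (c p).re ≤ ∑ p ∈ S ∩ A.U, A.h p * ‖c p‖ :=
      Finset.sum_le_sum fun p _ => mul_le_mul_of_nonneg_left (Complex.re_le_norm _) (h_nonneg p)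
    have h4 : 0 ≤ ∑ p ∈ S ∩ A.U, A.h p * ‖c p‖ :=
      Finset.sum_nonneg fun p _ => mul_nonneg (h_nonneg p) (norm_nonneg _)
    have h5 : 0 ≤ ∑ p ∈ S ∩ A.U, ‖c p‖ ^ 2 := Finset.sum_nonneg fun p _ => sq_nonneg _
    have h6 : A.be ≤ 1 / 20 := hA.hbb.trans hA.hb
    have h7 := hA.hbe
    have h8 : A.be / 2 * (1 * ∑ p ∈ S ∩ A.U, A.h p * (c p).re)
        ≤ A.be / 2 * ∑ p ∈ S ∩ A.U, A.h p * ‖c p‖ := by
      rw [one_mul]
      exact mul_le_mul_of_nonneg_left h3 (by linarith)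
    have h9 : A.be / 2 * ∑ p ∈ S ∩ A.U, A.h p * ‖c p‖ ≤ 1 * ∑ p ∈ S ∩ A.U, A.h p * ‖c p‖ :=
      mul_le_mul_of_nonneg_right (by linarith) h4
    linarith
  have h1 := (hB A hA 0 0 (by simp) (by simp) (Dt 1 (cut S c)) (Dt_ok' (cut_le hc)) B1
    (expBd_Dt hk) 1 (fun _ => 1) small_one y).1 ∅ (Finset.empty_subset _)
  have e1 : ∀ z : Om, (A.W ∅ y z : ℂ) * (A.mo 0 ∅ z * conj (A.mo 0 ∅ z))
      * (HF A.U (Dt 1 (cut S c)) z * 1)
      = ((A.W ∅ y z * Real.exp ((lin (S ∩ A.U) c z).re) : ℝ) : ℂ) := by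
    intro z
    rw [EE.mo_zero, map_one, HF_Dt, lin_cut, one_mul]
    push_cast
    ring_nf
  simp only [e1] at h1
  rw [integral_complex_ofReal, Complex.norm_real, mul_one, Finset.sum_empty, mul_zero, neg_zero,
    Real.exp_zero, mul_one] at h1
  have h1' := (le_abs_self _).trans h1
  -- second factor
  have h3 := h2 (S \ A.U) (fun p hp => hS p (Finset.mem_sdiff.mp hp).1) (Dt 1 c) (by
    intro p hp
    have h4 := hc p (Finset.mem_sdiff.mp hp).1
    have h5 : ‖((1 / 2 : ℝ) : ℂ)‖ = 1 / 2 := by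
      rw [Complex.norm_real, Real.norm_eq_abs, abs_of_pos (by norm_num)]
    have h6 : ‖((1 / 2 : ℝ) : ℂ)‖ * ‖c p‖ ≤ 4 / Real.sqrt p := by
      rw [h5]
      have := norm_nonneg (c p)
      linarith
    have h7 : 0 ≤ 1 / Real.sqrt p := by positivity
    refine ⟨?_, ?_, ?_, ?_⟩
    · simp only [Dt]
      rw [norm_mul]
      exact h6
    · simp only [Dt]
      rw [norm_mul, Complex.norm_conj]
      exact h6
    · simp only [Dt, norm_zero]
      exact h7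
    · simp only [Dt, norm_zero]
      exact h7)
  have e3 : ∑ p ∈ S \ A.U, ((Dt 1 c).g p + (Dt 1 c).a p) * ((Dt 1 c).g' p + (Dt 1 c).a' p)
      = ((1 / 4 * ∑ p ∈ S \ A.U, ‖c p‖ ^ 2 : ℝ) : ℂ) := by
    push_cast
    rw [Finset.mul_sum]
    refine Finset.sum_congr rfl fun p _ => ?_
    simp only [Dt, add_zero]
    have e2 : c p * conj (c p) = (‖c p‖ : ℂ) ^ 2 := by
      rw [Complex.mul_conj, Complex.normSq_eq_norm_sq]
      push_cast
      rfl
    rw [← e2]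
    push_cast
    ring
  rw [e3, ← Complex.ofReal_exp, Complex.norm_real, Real.norm_of_nonneg (Real.exp_pos _).le] at h3
  set B2 : ℝ := 1 / 4 * ∑ p ∈ S \ A.U, ‖c p‖ ^ 2 with hB2
  have hV2 : V2 (S \ A.U) ≤ 1 := J4.H97.V2_le_one fun p hp => (hS p (Finset.mem_sdiff.mp hp).1).2
  have h4 : ‖∫ x, HF (S \ A.U) (Dt 1 c) x ∂mu‖ ≤ (1 + C2) * Real.exp B2 := by
    have h5 := norm_le_norm_add_norm_sub' (∫ x, HF (S \ A.U) (Dt 1 c) x ∂mu)
      ((Real.exp B2 : ℝ) : ℂ)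
    rw [Complex.norm_real, Real.norm_of_nonneg (Real.exp_pos _).le] at h5
    have h6 : C2 * V2 (S \ A.U) * Real.exp B2 ≤ C2 * 1 * Real.exp B2 := by gcongr
    linarith
  -- independence
  have hdis : Disjoint A.U (S \ A.U) := Finset.disjoint_sdiff
  have hm := integral_mul_of_dep
    (F := fun x : Om => ((A.W ∅ y x * Real.exp ((lin (S ∩ A.U) c x).re) : ℝ) : ℂ))
    (G := fun x : Om => HF (S \ A.U) (Dt 1 c) x) hdis
    (Complex.continuous_ofReal.comp (hWc.mul (Real.continuous_exp.comp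
      (Complex.continuous_re.comp (continuous_lin _ _))))).measurable
    (B7Aux.measurable_HF _ _) (by
      intro x x' hx
      have h5 := LC.A6.dep_W A y x x' hx
      have h6 : lin (S ∩ A.U) c x = lin (S ∩ A.U) c x' :=
        dep_lin x x' fun p hp => hx p (Finset.mem_coe.mpr
          (Finset.mem_inter.mp (Finset.mem_coe.mp hp)).2)
      simp only [Complex.ofReal_inj] at h5
      simp only [h5, h6]) (dep_HF' _ _)
  have e4 : ∀ z : Om, ((A.W ∅ y z * Real.exp ((lin (S ∩ A.U) c z).re) : ℝ) : ℂ)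
      * HF (S \ A.U) (Dt 1 c) z = ((A.W ∅ y z * Real.exp ((lin S c z).re) : ℝ) : ℂ) := by
    intro z
    rw [HF_Dt, one_mul, lin_split A.U S c z, Complex.add_re, Real.exp_add]
    push_cast
    ring
  simp only [e4] at hm
  rw [integral_complex_ofReal, integral_complex_ofReal] at hm
  have h5 : |∫ z, A.W ∅ y z * Real.exp ((lin S c z).re) ∂mu|
      ≤ (C1 * Real.exp B1 * A.G y) * ((1 + C2) * Real.exp B2) := by
    have h6 := congrArg norm hm
    rw [norm_mul, Complex.norm_real, Complex.norm_real, Real.norm_eq_abs, Real.norm_eq_abs] at h6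
    rw [h6]
    exact mul_le_mul h1 h4 (norm_nonneg _) (by positivity)
  refine (le_abs_self _).trans (h5.trans ?_)
  have h7 : B1 + B2 ≤ ∑ p ∈ S ∩ A.U, A.h p * ‖c p‖ + ∑ p ∈ S, ‖c p‖ ^ 2 := by
    rw [← Finset.sum_inter_add_sum_sdiff S A.U (fun p => ‖c p‖ ^ 2), hB1, hB2]
    have : 0 ≤ ∑ p ∈ S \ A.U, ‖c p‖ ^ 2 := Finset.sum_nonneg fun p _ => sq_nonneg _
    linarith
  calc (C1 * Real.exp B1 * A.G y) * ((1 + C2) * Real.exp B2)
      = C1 * (1 + C2) * Real.exp (B1 + B2) * A.G y := by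
        rw [Real.exp_add B1 B2]
        ring
    _ ≤ (C1 * (1 + C2) + 1) * Real.exp (∑ p ∈ S ∩ A.U, A.h p * ‖c p‖ + ∑ p ∈ S, ‖c p‖ ^ 2)
        * A.G y := by
        have := Real.exp_le_exp.mpr h7
        have h8 : 0 ≤ C1 * (1 + C2) := by positivity
        gcongr
        linarith

end Pool.Agent.Lib.RA
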