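import Mathlib
import Pool.Agent.Lib.MP_f9aece_nt_rate.Stmts
import Pool.Agent.Lib.MP_f9aece_nt_gt.E3
import Pool.Agent.Lib.MP_f9aece_nt_gt.N1

/-!
The rate in the central limit theorem for `log |zeta|`: A1, the weights and the power of a linear
form over any set of primes.
-/

set_option autoImplicit false

namespace Pool.Agent.Lib.RA

open MeasureTheory Set Filter Topology Complex ProbabilityTheory
open scoped ComplexConjugate
open Pool.Agent.Lib.GT Pool.Agent.Lib.GT.EE
open Pool.Agent.Lib.MP_f9aece_nt (VV)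

namespace A1x

/-- integrals of sums -/
lemma int_four {f1 f2 f3 f4 : Om → ℝ} (h1 : Integrable f1 mu) (h2 : Integrable f2 mu)
    (h3 : Integrable f3 mu) (h4 : Integrable f4 mu) (k : ℝ) :
    ∫ z, k * ((f1 z + f2 z) + (f3 z + f4 z)) ∂mu =
      k * ((∫ z, f1 z ∂mu + ∫ z, f2 z ∂mu) + (∫ z, f3 z ∂mu + ∫ z, f4 z ∂mu)) := by
  have e1 : ∫ z, ((f1 z + f2 z) + (f3 z + f4 z)) ∂mu =
      ∫ z, (f1 z + f2 z) ∂mu + ∫ z, (f3 z + f4 z) ∂mu := integral_add (h1.add h2) (h3.add h4)
  rw [integral_const_mul, e1, integral_add h1 h2, integral_add h3 h4]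

/-- even powers of a real number -/
lemma pow_le (a : ℝ) (m : ℕ) : a ^ (2 * m) ≤
    (2 * m : ℕ) ^ (2 * m) * (1 / 4) ^ (2 * m) * (Real.exp (4 * a) + Real.exp (-(4 * a))) := by
  have h1 : (4 * |a|) ^ (2 * m) / ((2 * m).factorial : ℝ) ≤ Real.exp (4 * |a|) :=
    Real.pow_div_factorial_le_exp _ (by positivity) _
  have h2 : Real.exp (4 * |a|) ≤ Real.exp (4 * a) + Real.exp (-(4 * a)) := by
    rcases abs_cases a with ⟨h, -⟩ | ⟨h, -⟩
    · rw [h]
      linarith [Real.exp_pos (-(4 * a))]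
    · rw [h, mul_neg]
      linarith [Real.exp_pos (4 * a)]
  have h3 : ((2 * m).factorial : ℝ) ≤ (2 * m : ℕ) ^ (2 * m) := by
    exact_mod_cast Nat.factorial_le_pow (2 * m)
  have h4 : (0 : ℝ) < ((2 * m).factorial : ℝ) := by positivity
  rw [div_le_iff₀ h4] at h1
  have h5 : a ^ (2 * m) = (1 / 4) ^ (2 * m) * (4 * |a|) ^ (2 * m) := by
    rw [← mul_pow, ← mul_assoc]
    norm_num
    rw [pow_mul a, pow_mul |a|, sq_abs]
  rw [h5]
  have h6 : (0 : ℝ) ≤ Real.exp (4 * a) + Real.exp (-(4 * a)) := by positivity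
  calc (1 / 4) ^ (2 * m) * (4 * |a|) ^ (2 * m)
      ≤ (1 / 4) ^ (2 * m) * ((Real.exp (4 * a) + Real.exp (-(4 * a))) *
        (2 * m : ℕ) ^ (2 * m)) := by
        refine mul_le_mul_of_nonneg_left (h1.trans ?_) (by positivity)
        exact mul_le_mul h2 h3 h4.le h6
    _ = _ := by ring

/-- even powers of a complex number -/
lemma nrm_le (z : ℂ) (m : ℕ) : ‖z‖ ^ (2 * m) ≤
    2 ^ m * ((2 * m : ℕ) ^ (2 * m) * (1 / 4) ^ (2 * m)) * ((Real.exp (4 * z.re) +
      Real.exp (-(4 * z.re))) + (Real.exp (4 * z.im) + Real.exp (-(4 * z.im)))) := by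
  have h1 := pow_le z.re m
  have h2 := pow_le z.im m
  have h3 : ‖z‖ ^ (2 * m) = (z.re ^ 2 + z.im ^ 2) ^ m := by
    rw [pow_mul, ← Complex.normSq_eq_norm_sq, Complex.normSq_apply]
    ring
  have h4 := add_pow_le (sq_nonneg z.re) (sq_nonneg z.im) m
  rw [← pow_mul, ← pow_mul] at h4
  have h5 : (2 : ℝ) ^ (m - 1) ≤ 2 ^ m := pow_le_pow_right₀ (by norm_num) (by omega)
  have h6 : 0 ≤ z.re ^ (2 * m) + z.im ^ (2 * m) := by
    rw [pow_mul, pow_mul]
    positivity
  rw [h3]
  calc (z.re ^ 2 + z.im ^ 2) ^ m ≤ 2 ^ (m - 1) * (z.re ^ (2 * m) + z.im ^ (2 * m)) := h4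
    _ ≤ 2 ^ m * (z.re ^ (2 * m) + z.im ^ (2 * m)) := mul_le_mul_of_nonneg_right h5 h6
    _ ≤ 2 ^ m * ((2 * m : ℕ) ^ (2 * m) * (1 / 4) ^ (2 * m) * (Real.exp (4 * z.re) +
          Real.exp (-(4 * z.re))) + (2 * m : ℕ) ^ (2 * m) * (1 / 4) ^ (2 * m) *
          (Real.exp (4 * z.im) + Real.exp (-(4 * z.im)))) := by
        gcongr
    _ = _ := by ring

/-- the constants -/
lemma const_le (r : ℕ) (hr : 1 ≤ r) :
    2 ^ MM r * ((2 * MM r : ℕ) ^ (2 * MM r) * (1 / 4) ^ (2 * MM r)) / RR r ^ (2 * MM r)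
      * Real.exp (40 * r) ≤ Real.exp (-(r : ℝ)) := by
  have hr' : (0 : ℝ) < r := by exact_mod_cast hr
  have e1 : ((2 * MM r : ℕ) : ℝ) = 1000 * r := by
    unfold MM
    push_cast
    ring
  have e2 : (2 * MM r) = 1000 * r := by
    unfold MM
    ring
  have e3 : 2 ^ MM r * (((2 * MM r : ℕ) : ℝ) ^ (2 * MM r) * (1 / 4) ^ (2 * MM r)) /
      RR r ^ (2 * MM r) = ((2 : ℝ) ^ 500 * (1 / 40) ^ 1000) ^ r := by
    rw [e1, e2, ← mul_pow, mul_div_assoc, ← div_pow, mul_pow, ← pow_mul, ← pow_mul]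
    unfold MM RR
    congr 1
    congr 1
    field_simp
    norm_num
  have e4 : Real.exp (40 * r) = Real.exp 40 ^ r := by
    rw [← Real.exp_nat_mul]
    congr 1
    ring
  have e5 : Real.exp (-(r : ℝ)) = Real.exp (-1) ^ r := by
    rw [← Real.exp_nat_mul]
    congr 1
    ring
  rw [e3, e4, e5, ← mul_pow]
  refine pow_le_pow_left₀ (by positivity) ?_ r
  have h1 : Real.exp 41 ≤ 4 ^ 41 := by
    have h2 : Real.exp 41 = Real.exp 1 ^ 41 := by
      rw [← Real.exp_nat_mul]
      norm_num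
    rw [h2]
    refine pow_le_pow_left₀ (Real.exp_pos _).le ?_ 41
    have := Real.exp_one_lt_d9
    linarith
  have h3 : Real.exp 40 = Real.exp 41 * Real.exp (-1) := by
    rw [← Real.exp_add]
    norm_num
  rw [h3, ← mul_assoc]
  refine mul_le_of_le_one_left (Real.exp_pos _).le ?_
  calc (2 : ℝ) ^ 500 * (1 / 40) ^ 1000 * Real.exp 41
      ≤ (2 : ℝ) ^ 500 * (1 / 40) ^ 1000 * 4 ^ 41 := by gcongr
    _ ≤ (2 : ℝ) ^ 500 * (1 / 32) ^ 1000 * 4 ^ 41 := by gcongr; norm_num
    _ ≤ 1 := by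
        have e6 : (1 / 32 : ℝ) ^ 1000 = 1 / 2 ^ 5000 := by
          rw [one_div_pow, show (32 : ℝ) = 2 ^ 5 by norm_num, ← pow_mul]
        have e7 : (4 : ℝ) ^ 41 = 2 ^ 82 := by
          rw [show (4 : ℝ) = 2 ^ 2 by norm_num, ← pow_mul]
        rw [e6, e7, mul_one_div, div_mul_eq_mul_div, ← pow_add, div_le_one (by positivity)]
        exact pow_le_pow_right₀ (by norm_num) (by norm_num)

section

variable {A : Par}

/-- the error of the transfer is small -/
lemma err_le' (hN : GroupNum) (hA : A.Ok) {T : ℝ} (hT : 3 ≤ T) (hL : Len A T) (y : ℝ) {r : ℕ}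
    {Y' : ℝ} (hY' : 1 ≤ Y') (hrY : 10 ^ 5 * r * Y' ≤ Real.log T) :
    Real.exp (-(A.be * y)) * (Real.exp (2 * 10 ^ 7 * A.v * A.Y) *
      (Real.exp (1000 * (r * Y')) * Real.exp (1000 * (r * Y')) / T))
      ≤ Real.exp (-(r : ℝ)) * A.G y := by
  have hK := K_ge hA
  set K : ℝ := A.v * A.Y with hKd
  have hG := hA.G_pos y
  have h1 := exp_le_G hN hA y
  rw [← hKd] at h1
  have hT0 : 0 < T := by linarith
  have hL' : 10 ^ 10 * K ≤ Real.log T := by
    have : 10 ^ 10 * A.v * A.Y ≤ Real.log T := hL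
    rw [hKd]
    linarith
  have hr0 : (0 : ℝ) ≤ r := by positivity
  have hrr : (r : ℝ) ≤ r * Y' := le_mul_of_one_le_right hr0 hY'
  set R : ℝ := r * Y' with hR
  have hR' : 10 ^ 5 * R ≤ Real.log T := by
    rw [hR]
    linarith
  have e1 : 1 / T = Real.exp (-Real.log T) := by
    rw [Real.exp_neg, Real.exp_log hT0, one_div]
  have e2 : Real.exp (2 * 10 ^ 7 * A.v * A.Y) = Real.exp (2 * 10 ^ 7 * K) := by
    congr 1
    rw [hKd]
    ring
  rw [e2, ← Real.exp_add, ← mul_one_div, e1, ← Real.exp_add, ← Real.exp_add]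
  calc Real.exp (-(A.be * y)) * Real.exp (2 * 10 ^ 7 * K + (1000 * R + 1000 * R + -Real.log T))
      ≤ (Real.exp K * A.G y) *
        Real.exp (2 * 10 ^ 7 * K + (1000 * R + 1000 * R + -Real.log T)) := by gcongr
    _ = Real.exp (K + (2 * 10 ^ 7 * K + (1000 * R + 1000 * R + -Real.log T))) * A.G y := by
        rw [Real.exp_add K]
        ring
    _ ≤ _ := by
        refine mul_le_mul_of_nonneg_right (Real.exp_le_exp.mpr ?_) hG.le
        linarith

end

end A1x

open A1x

/-- A1 -/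
theorem powW (h : ExpW) (hT : WTransfer) : PowW := by
  have hN : GroupNum := groupNum
  obtain ⟨C, hC, hT⟩ := hT
  obtain ⟨C0, hC0, hE⟩ := h
  refine ⟨C + 4 * C0, 3, by linarith, le_refl _, fun A hA T hT0 hL S r Y' hS hr hVV hrY c hc x y => ?_⟩
  have hTp : 0 < T := by linarith
  have hG := hA.G_pos y
  have hr' : (1 : ℝ) ≤ r := by exact_mod_cast hr
  rcases Finset.eq_empty_or_nonempty S with hS0 | ⟨p1, hp1⟩
  · have h0 : ∀ t, ENNReal.ofReal (A.W ∅ y (om t) * bp r S c (om t)) = 0 := by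
      intro t
      have h1 : lin S c (om t) = 0 := by
        rw [hS0]
        unfold lin
        exact Finset.sum_empty
      have h2 : 2 * MM r ≠ 0 := by
        unfold MM
        omega
      unfold bp
      rw [h1, norm_zero, zero_div, zero_pow h2, mul_zero, ENNReal.ofReal_zero]
    simp only [h0, lintegral_zero, zero_le]
  have hY' : 1 ≤ Y' := by
    obtain ⟨-, h1, h2⟩ := hS p1 hp1
    have h3 : (1000 : ℝ) ≤ p1 := by exact_mod_cast h1
    by_contra h4
    have h5 : Real.exp Y' ≤ Real.exp 1 := Real.exp_le_exp.mpr (by linarith)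
    have := Real.exp_one_lt_d9
    linarith
  have hc1 : ∀ p ∈ S, ‖c p‖ ≤ 1 := by
    intro p hp
    refine (hc p hp).trans ?_
    have h1 : (1 : ℝ) ≤ p := by exact_mod_cast (hS p hp).1.one_le
    rw [div_le_one (Real.sqrt_pos.mpr (by linarith)), Real.one_le_sqrt]
    exact h1
  have hlin : TP (Real.exp Y') (Real.exp Y') (lin S c) := by
    have := lin_tp (by linarith) (fun p hp => ⟨(hS p hp).1, (hS p hp).2.2⟩) zero_le_one hc1
    rwa [one_mul] at this
  have htp := bp_tp hr hlin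
  -- the torus
  have hWc : Continuous fun z : Om => A.W ∅ y z := A.continuous_W' hA ∅ y
  obtain ⟨BW, hBW⟩ := A.W_le hA ∅ y
  have hW0 : ∀ z, 0 ≤ A.W ∅ y z := A.W_nonneg hA.b_pos.le ∅ y
  have hint : ∀ a : ℂ, Integrable (fun z : Om => A.W ∅ y z *
      Real.exp ((lin S (fun p => a * c p) z).re)) mu := by
    intro a
    refine integrable_of_bd (hWc.mul (Real.continuous_exp.comp
      (Complex.continuous_re.comp (continuous_lin _ _)))).aestronglyMeasurable
      (C := BW * Real.exp (∑ p ∈ S, ‖a * c p‖)) fun z => ?_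
    rw [Real.norm_of_nonneg (mul_nonneg (hW0 _) (Real.exp_nonneg _))]
    refine mul_le_mul (hBW z) (Real.exp_le_exp.mpr ?_) (Real.exp_nonneg _) ((hW0 z).trans (hBW z))
    exact (Complex.re_le_norm _).trans (norm_lin_le _ _ _)
  have key : ∀ a : ℂ, ‖a‖ = 4 → ∫ z, A.W ∅ y z * Real.exp ((lin S (fun p => a * c p) z).re) ∂mu ≤
      C0 * Real.exp (40 * r) * A.G y := by
    intro a ha
    have h1 := hE A hA S (fun p hp => ⟨(hS p hp).1, (hS p hp).2.1⟩) (fun p => a * c p) (by
      intro p hp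
      rw [norm_mul, ha]
      calc 4 * ‖c p‖ ≤ 4 * (1 / Real.sqrt p) := by
            have := hc p hp
            linarith
        _ = _ := by ring) y
    refine h1.trans ?_
    have h2 : ∑ p ∈ S ∩ A.U, A.h p * ‖a * c p‖ ≤ 4 * VV S := by
      refine le_trans (Finset.sum_le_sum_of_subset_of_nonneg Finset.inter_subset_left
        fun p _ _ => mul_nonneg (h_nonneg p) (norm_nonneg _)) ?_
      unfold VV
      rw [Finset.mul_sum]
      refine Finset.sum_le_sum fun p hp => ?_
      rw [norm_mul, ha]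
      have hp1 := (hS p hp).1.one_le
      calc A.h p * (4 * ‖c p‖) ≤ 1 / Real.sqrt p * (4 * (1 / Real.sqrt p)) := by
            have := hc p hp
            exact mul_le_mul (h_le hA hp1) (by linarith) (by positivity) (by positivity)
        _ = 4 * (1 / Real.sqrt p * (1 / Real.sqrt p)) := by ring
        _ = _ := by
            rw [div_mul_div_comm, one_mul, Real.mul_self_sqrt (Nat.cast_nonneg p), one_div]
    have h3 : ∑ p ∈ S, ‖a * c p‖ ^ 2 ≤ 16 * VV S := by
      unfold VV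
      rw [Finset.mul_sum]
      refine Finset.sum_le_sum fun p hp => ?_
      rw [norm_mul, ha]
      calc (4 * ‖c p‖) ^ 2 ≤ (4 * (1 / Real.sqrt p)) ^ 2 := by
            have := hc p hp
            have h0 := norm_nonneg (c p)
            exact pow_le_pow_left₀ (by positivity) (by linarith) 2
        _ = 16 * (1 / Real.sqrt p * (1 / Real.sqrt p)) := by ring
        _ = _ := by
            rw [div_mul_div_comm, one_mul, Real.mul_self_sqrt (Nat.cast_nonneg p), one_div]
    have h4 : ∑ p ∈ S ∩ A.U, A.h p * ‖a * c p‖ + ∑ p ∈ S, ‖a * c p‖ ^ 2 ≤ 40 * r := by linarith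
    gcongr
  set κ : ℝ := 2 ^ MM r * ((2 * MM r : ℕ) ^ (2 * MM r) * (1 / 4) ^ (2 * MM r)) /
    RR r ^ (2 * MM r) with hκ
  have hκ0 : 0 ≤ κ := by
    have : 0 ≤ RR r := by unfold RR; positivity
    rw [hκ]
    positivity
  have hpt : ∀ z : Om, bp r S c z ≤ κ * ((Real.exp ((lin S (fun p => 4 * c p) z).re) +
      Real.exp ((lin S (fun p => (-4) * c p) z).re)) +
      (Real.exp ((lin S (fun p => (-(4 * I)) * c p) z).re) +
        Real.exp ((lin S (fun p => (4 * I) * c p) z).re))) := by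
    intro z
    have e0 : ∀ a : ℂ, lin S (fun p => a * c p) z = a * lin S c z := by
      intro a
      unfold lin
      rw [Finset.mul_sum]
      exact Finset.sum_congr rfl fun p _ => by ring
    rw [e0, e0, e0, e0]
    have h1 := nrm_le (lin S c z) (MM r)
    have e1 : ((4 : ℂ) * lin S c z).re = 4 * (lin S c z).re := by
      simp [Complex.mul_re]
    have e2 : ((-4 : ℂ) * lin S c z).re = -(4 * (lin S c z).re) := by
      simp [Complex.mul_re]
    have e3 : ((-(4 * I) : ℂ) * lin S c z).re = 4 * (lin S c z).im := by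
      simp [Complex.mul_re]
    have e4 : (((4 * I) : ℂ) * lin S c z).re = -(4 * (lin S c z).im) := by
      simp [Complex.mul_re]
    rw [e1, e2, e3, e4]
    have hR0 : 0 < RR r := by
      unfold RR
      positivity
    unfold bp
    rw [div_pow, hκ, div_mul_eq_mul_div]
    exact div_le_div_of_nonneg_right h1 (by positivity)
  have hbpc : Continuous fun z : Om => bp r S c z := continuous_bp _ _ _
  have hbp0 : ∀ z : Om, 0 ≤ bp r S c z := fun z => Par.bp_nonneg _ _ _ z
  have hbb : ∀ z : Om, bp r S c z ≤ Real.exp (1000 * (r * Y')) := by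
    intro z
    have h5 := htp.norm_le z
    rw [Complex.norm_real] at h5
    exact (le_abs_self _).trans h5
  have h2 : ∫ z, A.W ∅ y z * bp r S c z ∂mu ≤ 4 * C0 * Real.exp (-(r : ℝ)) * A.G y := by
    have i1 : Integrable (fun z : Om => A.W ∅ y z * bp r S c z) mu := by
      refine integrable_of_bd (hWc.mul hbpc).aestronglyMeasurable
        (C := BW * Real.exp (1000 * (r * Y'))) fun z => ?_
      rw [Real.norm_of_nonneg (mul_nonneg (hW0 _) (hbp0 _))]
      exact mul_le_mul (hBW z) (hbb z) (hbp0 z) ((hW0 z).trans (hBW z))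
    have k1 := key 4 (by simp)
    have k2 := key (-4) (by simp)
    have k3 := key (-(4 * I)) (by simp)
    have k4 := key (4 * I) (by simp)
    calc ∫ z, A.W ∅ y z * bp r S c z ∂mu
        ≤ ∫ z, κ * ((A.W ∅ y z * Real.exp ((lin S (fun p => 4 * c p) z).re) +
            A.W ∅ y z * Real.exp ((lin S (fun p => (-4) * c p) z).re)) +
            (A.W ∅ y z * Real.exp ((lin S (fun p => (-(4 * I)) * c p) z).re) +
            A.W ∅ y z * Real.exp ((lin S (fun p => (4 * I) * c p) z).re))) ∂mu := by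
          refine integral_mono i1 ((((hint _).add (hint _)).add
            ((hint _).add (hint _))).const_mul _) fun z => ?_
          have h3 := mul_le_mul_of_nonneg_left (hpt z) (hW0 z)
          refine h3.trans (le_of_eq ?_)
          ring
      _ = κ * ((∫ z, A.W ∅ y z * Real.exp ((lin S (fun p => 4 * c p) z).re) ∂mu +
            ∫ z, A.W ∅ y z * Real.exp ((lin S (fun p => (-4) * c p) z).re) ∂mu) +
            (∫ z, A.W ∅ y z * Real.exp ((lin S (fun p => (-(4 * I)) * c p) z).re) ∂mu +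
            ∫ z, A.W ∅ y z * Real.exp ((lin S (fun p => (4 * I) * c p) z).re) ∂mu)) := by
          exact int_four (hint 4) (hint (-4)) (hint (-(4 * I))) (hint (4 * I)) κ
      _ ≤ κ * ((C0 * Real.exp (40 * r) * A.G y + C0 * Real.exp (40 * r) * A.G y) +
            (C0 * Real.exp (40 * r) * A.G y + C0 * Real.exp (40 * r) * A.G y)) := by gcongr
      _ = 4 * C0 * (κ * Real.exp (40 * r)) * A.G y := by ring
      _ ≤ _ := by
          have h5 := const_le r hr
          rw [← hκ] at h5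
          gcongr
  have h3 := (hT A hA ∅ (Finset.empty_subset _) 0 0 (by simp) (by simp) _ _
    (fun z => (bp r S c z : ℂ)) (Real.one_le_exp (by positivity)) htp x T y hTp).1
  have h4 := abs_mean_sub_le (A := A) (s := ∅) (x := x) (y := y) (H := fun z => bp r S c z) h3
  have h5 := lmean_le hA hTp hbpc hbp0 ⟨_, hbb⟩ h2 h4
  refine h5.trans (ENNReal.ofReal_le_ofReal ?_)
  have h6 := err_le' hN hA hT0 hL y (r := r) hY' hrY
  calc 4 * C0 * Real.exp (-(r : ℝ)) * A.G y
        + C * (Real.exp (-(A.be * y)) * (Real.exp (2 * 10 ^ 7 * A.v * A.Y) *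
          (Real.exp (1000 * (r * Y')) * Real.exp (1000 * (r * Y')) / T)))
      ≤ 4 * C0 * Real.exp (-(r : ℝ)) * A.G y + C * (Real.exp (-(r : ℝ)) * A.G y) := by gcongr
    _ = _ := by ring

end Pool.Agent.Lib.RA
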