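import Mathlib
import Pool.Agent.Lib.MP_f9aece_nt_gt.E1
import Pool.Agent.Lib.MP_f9aece_nt_gt.P4
import Pool.Agent.Lib.MP_f9aece_nt_rate.Stmts

/-!
A2: the weights of one set of parameters and the bad heights of another one.
-/

set_option autoImplicit false

namespace Pool.Agent.Lib.RA

open MeasureTheory Set Filter Topology Complex ProbabilityTheory
open scoped ComplexConjugate
open Pool.Agent.Lib.GT
open Pool.Agent.Lib.LC
open Pool.Agent.Lib.MP_f9aece_nt (VV)
open Pool.Agent.Lib.J4 (Yg rg)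

namespace A2x

lemma r_pos {A : Par} (hA : A.Ok) (g : ℕ) : 1 ≤ A.r g := by
  have hv := hA.hv
  unfold Par.r rg
  exact Nat.mul_pos (by omega) (by omega)

/-- the power of a group at a height where its prime sum is large -/
lemma one_le_bb {A : Par} (hA : A.Ok) {g : ℕ} {x : Om} (h : RR (A.r g) < ‖A.P g x‖) :
    1 ≤ A.bb g x := by
  have h1 : (1 : ℝ) ≤ A.r g := by exact_mod_cast r_pos hA g
  have h2 : (0 : ℝ) < RR (A.r g) := by unfold RR; positivity
  unfold Par.bb bp
  refine one_le_pow₀ ?_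
  rw [one_le_div h2]
  exact h.le

end A2x

open A2x in
/-- the weights of one set of parameters and the bad heights of another one -/
theorem crossBad (h : PowW) (hN : GroupNum) : CrossBad := by
  obtain ⟨C, T0, hC, hT0, h⟩ := h
  refine ⟨2 * C, T0, by linarith, hT0, fun A A' hA hA' T hT hL hL' x y => ?_⟩
  obtain ⟨n1, n2, n3, n4, n5, n6, n7, n8⟩ := hN A' hA'
  have hW0 : ∀ t : ℝ, 0 ≤ A.W ∅ y (om t) := fun t => A.W_nonneg hA.b_pos.le ∅ y (om t)
  have hG0 : 0 < A.G y := hA.G_pos y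
  have key : ∀ g ∈ Finset.range A'.J,
      ∫⁻ t, ENNReal.ofReal (A.W ∅ y (om t) * A'.bb g (om t)) ∂(un x T)
        ≤ ENNReal.ofReal (C * Real.exp (-(A'.r g : ℝ)) * A.G y) := by
    intro g hg
    refine h A hA T hT hL (A'.S g) (A'.r g) (Yg A'.v A'.Y g)
      (fun p hp => ⟨(n1 g p hp).1, (n1 g p hp).2.1, (n1 g p hp).2.2.2⟩) (r_pos hA' g) (n2 g) ?_
      (fun p => (A'.h p : ℂ)) ?_ x y
    · have e1 : (A'.r g : ℝ) * Yg A'.v A'.Y g ≤ 2 * A'.v * A'.Y := by
        refine le_trans ?_ n7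
        refine Finset.single_le_sum (f := fun g => (A'.r g : ℝ) * Yg A'.v A'.Y g) (fun i hi => ?_) hg
        have := n8 i (Finset.mem_range.1 hi)
        positivity
      have e2 : (0 : ℝ) ≤ A'.v * A'.Y := mul_nonneg (Nat.cast_nonneg _) (by linarith [hA'.hY])
      have e3 : (10 : ℝ) ^ 10 * A'.v * A'.Y ≤ Real.log T := hL'
      nlinarith
    · intro p hp
      have hp1 : 1 ≤ p := by have := (n1 g p hp).2.1; omega
      rw [Complex.norm_real, Real.norm_of_nonneg (GT.EE.h_nonneg p)]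
      exact GT.EE.h_le hA' hp1
  have hmeas : MeasurableSet {t : ℝ | ¬ A'.Good ∅ (om t)} :=
    (GT.P4aux.meas_good A').compl
  have hcW : Continuous fun t : ℝ => A.W ∅ y (om t) := (A.continuous_W' hA ∅ y).comp continuous_om
  have hcb : ∀ g, Continuous fun t : ℝ => A'.bb g (om t) := fun g =>
    (A'.continuous_bb g).comp continuous_om
  calc ∫⁻ t in {t | ¬ A'.Good ∅ (om t)}, ENNReal.ofReal (A.W ∅ y (om t)) ∂(un x T)
      ≤ ∫⁻ t in {t | ¬ A'.Good ∅ (om t)}, ∑ g ∈ Finset.range A'.J,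
          ENNReal.ofReal (A.W ∅ y (om t) * A'.bb g (om t)) ∂(un x T) := by
        refine setLIntegral_mono' hmeas fun t ht => ?_
        have h1 : ∃ g ∈ Finset.range A'.J, RR (A'.r g) < ‖A'.P g (om t)‖ := by
          have h2 : ¬ A'.Good ∅ (om t) := ht
          unfold Par.Good at h2
          push Not at h2
          simpa using h2
        obtain ⟨g, hg, hlt⟩ := h1
        refine le_trans (ENNReal.ofReal_le_ofReal ?_) (Finset.single_le_sum
          (f := fun g => ENNReal.ofReal (A.W ∅ y (om t) * A'.bb g (om t))) (fun _ _ => zero_le) hg)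
        exact le_mul_of_one_le_right (hW0 t) (one_le_bb hA' hlt)
    _ ≤ ∫⁻ t, ∑ g ∈ Finset.range A'.J,
          ENNReal.ofReal (A.W ∅ y (om t) * A'.bb g (om t)) ∂(un x T) := setLIntegral_le_lintegral _ _
    _ = ∑ g ∈ Finset.range A'.J,
          ∫⁻ t, ENNReal.ofReal (A.W ∅ y (om t) * A'.bb g (om t)) ∂(un x T) := by
        refine lintegral_finsetSum _ fun g _ => ?_
        exact (hcW.mul (hcb g)).measurable.ennreal_ofReal
    _ ≤ ∑ g ∈ Finset.range A'.J, ENNReal.ofReal (C * Real.exp (-(A'.r g : ℝ)) * A.G y) :=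
        Finset.sum_le_sum key
    _ = ENNReal.ofReal (∑ g ∈ Finset.range A'.J, C * Real.exp (-(A'.r g : ℝ)) * A.G y) := by
        rw [ENNReal.ofReal_sum_of_nonneg]
        intro g _
        positivity
    _ ≤ ENNReal.ofReal (2 * C * Real.exp (-A'.v) * A.G y) := by
        refine ENNReal.ofReal_le_ofReal ?_
        rw [← Finset.sum_mul, ← Finset.mul_sum]
        have h3 : C * ∑ g ∈ Finset.range A'.J, Real.exp (-(A'.r g : ℝ))
            ≤ 2 * C * Real.exp (-A'.v) := by
          have := mul_le_mul_of_nonneg_left n6 (by linarith : (0 : ℝ) ≤ C)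
          linarith
        exact mul_le_mul_of_nonneg_right h3 hG0.le

end Pool.Agent.Lib.RA
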