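import Mathlib
import Pool.Agent.Lib.MP_f9aece_nt_rate.Stmts
import Pool.Agent.Lib.MP_f9aece_nt_gt.E3
import Pool.Agent.Lib.MP_f9aece_nt_gt.N1

/-!
The rate in the central limit theorem for `log |zeta|`: row A3, fourth moments of linear forms over
any set of primes under the weights.
-/

set_option autoImplicit false

namespace Pool.Agent.Lib.RA

open MeasureTheory Set Filter Topology Complex ProbabilityTheory
open scoped ComplexConjugate
open Pool.Agent.Lib.GT
open Pool.Agent.Lib.GT.EE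
open Pool.Agent.Lib.LC

namespace A3x

/-- the fourth power and the exponential function -/
lemma pow_four_le_exp (r : ℝ) : r ^ 4 ≤ 24 * (Real.exp r + Real.exp (-r)) := by
  have h1 : ∀ s : ℝ, 0 ≤ s → s ^ 4 ≤ 24 * (Real.exp s + Real.exp (-s)) := by
    intro s hs
    have h2 := Real.pow_div_factorial_le_exp s hs 4
    have h3 := Real.exp_pos (-s)
    have h4 : ((Nat.factorial 4 : ℕ) : ℝ) = 24 := by norm_num [Nat.factorial]
    rw [h4, div_le_iff₀ (by norm_num)] at h2
    linarith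
  rcases le_total 0 r with h | h
  · exact h1 r h
  · have := h1 (-r) (by linarith)
    rw [neg_neg] at this
    have e : (-r) ^ 4 = r ^ 4 := by ring
    rw [e] at this
    linarith

/-- real multiples of linear forms -/
lemma lin_smul (S : Finset ℕ) (τ : ℝ) (c : ℕ → ℂ) (x : Om) :
    (lin S (fun p => (τ : ℂ) * c p) x).re = τ * (lin S c x).re := by
  unfold lin
  rw [Complex.re_sum, Complex.re_sum, Finset.mul_sum]
  refine Finset.sum_congr rfl fun p _ => ?_
  rw [mul_assoc, Complex.re_ofReal_mul]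

/-- the error of the transfer -/
lemma err (hN : GroupNum) {A : Par} (hA : A.Ok) {T : ℝ} (hT : 3 ≤ T) (hL : Len A T) (y : ℝ) :
    Real.exp (-(A.be * y)) * (Real.exp (2 * 10 ^ 7 * A.v * A.Y) *
      ((2 * Real.exp (Real.log T / 10 ^ 5)) ^ 4 * Real.exp (Real.log T / 10 ^ 5) ^ 4 / T))
      ≤ 16 * A.G y := by
  have hG := hA.G_pos y
  have h1 := exp_le_G hN hA y
  have hK := K_ge hA
  have hTp : 0 < T := by linarith
  have hlog : 0 < Real.log T := Real.log_pos (by linarith)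
  have hL' : 10 ^ 10 * (A.v * A.Y) ≤ Real.log T := by
    have : 10 ^ 10 * A.v * A.Y ≤ Real.log T := hL
    linarith
  set K : ℝ := A.v * A.Y with hKd
  set l : ℝ := Real.log T with hl
  have e1 : (2 * Real.exp (l / 10 ^ 5)) ^ 4 * Real.exp (l / 10 ^ 5) ^ 4 / T =
      16 * Real.exp (8 * (l / 10 ^ 5) - l) := by
    have e2 : T = Real.exp l := by rw [hl, Real.exp_log hTp]
    have e3 : Real.exp (8 * (l / 10 ^ 5)) = Real.exp (l / 10 ^ 5) ^ 8 := by
      rw [← Real.exp_nat_mul]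
      norm_num
    rw [Real.exp_sub, ← e2, e3]
    ring
  have e4 : Real.exp (2 * 10 ^ 7 * A.v * A.Y) = Real.exp (2 * 10 ^ 7 * K) := by
    congr 1
    rw [hKd]
    ring
  rw [e1, e4]
  calc Real.exp (-(A.be * y)) * (Real.exp (2 * 10 ^ 7 * K) * (16 * Real.exp (8 * (l / 10 ^ 5) - l)))
      ≤ (Real.exp K * A.G y) * (Real.exp (2 * 10 ^ 7 * K) *
        (16 * Real.exp (8 * (l / 10 ^ 5) - l))) := by gcongr
    _ = 16 * (Real.exp (K + 2 * 10 ^ 7 * K + (8 * (l / 10 ^ 5) - l)) * A.G y) := by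
        rw [Real.exp_add, Real.exp_add]
        ring
    _ ≤ 16 * (Real.exp 0 * A.G y) := by
        gcongr
        linarith
    _ = _ := by rw [Real.exp_zero, one_mul]

end A3x

open A3x

/-- A3 -/
theorem momFour (h : ExpW) (hT : WTransfer) : MomFour := by
  obtain ⟨C1, hC1, h⟩ := h
  obtain ⟨C, hC, hT⟩ := hT
  have hE : (1 : ℝ) ≤ Real.exp 2 := Real.one_le_exp (by norm_num)
  refine ⟨48 * (C1 * Real.exp 2) + 16 * C, 3, ?_, le_refl _,
    fun A hA T hT0 hL S hS c hc D hD h1 h2 x y => ?_⟩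
  · have := one_le_mul_of_one_le_of_one_le hC1 hE
    linarith
  have hTp : 0 < T := by linarith
  have hlog : 0 < Real.log T := Real.log_pos (by linarith)
  have hDp : 0 < D := by linarith
  have hG := hA.G_pos y
  have hc2 : ∀ p ∈ S, ‖c p‖ ≤ 2 := by
    intro p hp
    refine (hc p hp).trans ?_
    have h3 : (1 : ℝ) ≤ p := by exact_mod_cast (hS p hp).1.one_le
    rw [div_le_iff₀ (Real.sqrt_pos.mpr (by linarith))]
    have : 1 ≤ Real.sqrt p := by rwa [Real.one_le_sqrt]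
    linarith
  -- the torus
  have key : ∀ τ : ℝ, |τ| = 1 / D → ∫ z, A.W ∅ y z * Real.exp (τ * (lin S c z).re) ∂mu ≤
      C1 * Real.exp 2 * A.G y := by
    intro τ hτ
    have hn : ∀ p, ‖(τ : ℂ) * c p‖ = 1 / D * ‖c p‖ := by
      intro p
      rw [norm_mul, Complex.norm_real, Real.norm_eq_abs, hτ]
    have hD1 : 1 / D ≤ 1 := by rw [div_le_one hDp]; exact hD
    have h3 := h A hA S (fun p hp => ⟨(hS p hp).1, (hS p hp).2.1⟩) (fun p => (τ : ℂ) * c p)
      (fun p hp => by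
        rw [hn]
        calc 1 / D * ‖c p‖ ≤ 1 * (2 / Real.sqrt p) :=
              mul_le_mul hD1 (hc p hp) (norm_nonneg _) zero_le_one
          _ ≤ 4 / Real.sqrt p := by rw [one_mul]; gcongr; norm_num) y
    simp only [lin_smul] at h3
    refine h3.trans ?_
    have e1 : ∑ p ∈ S ∩ A.U, A.h p * ‖(τ : ℂ) * c p‖ = 1 / D * ∑ p ∈ S ∩ A.U, A.h p * ‖c p‖ := by
      rw [Finset.mul_sum]
      exact Finset.sum_congr rfl fun p _ => by rw [hn]; ring
    have e2 : ∑ p ∈ S, ‖(τ : ℂ) * c p‖ ^ 2 = (1 / D) ^ 2 * ∑ p ∈ S, ‖c p‖ ^ 2 := by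
      rw [Finset.mul_sum]
      exact Finset.sum_congr rfl fun p _ => by rw [hn]; ring
    rw [e1, e2]
    have e3 : 1 / D * ∑ p ∈ S ∩ A.U, A.h p * ‖c p‖ ≤ 1 := by
      rw [one_div, inv_mul_le_iff₀ hDp]
      linarith
    have e4 : (1 / D) ^ 2 * ∑ p ∈ S, ‖c p‖ ^ 2 ≤ 1 := by
      rw [one_div, inv_pow, inv_mul_le_iff₀ (by positivity)]
      linarith
    gcongr
    linarith
  have hWc : Continuous fun z : Om => A.W ∅ y z := A.continuous_W' hA ∅ y
  obtain ⟨BW, hBW⟩ := A.W_le hA ∅ y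
  have hW0 : ∀ z, 0 ≤ A.W ∅ y z := A.W_nonneg hA.b_pos.le ∅ y
  have hRc : Continuous fun z : Om => (lin S c z).re :=
    Complex.continuous_re.comp (continuous_lin _ _)
  have hRb : ∀ z : Om, |(lin S c z).re| ≤ ∑ p ∈ S, ‖c p‖ := fun z =>
    (Complex.abs_re_le_norm _).trans (norm_lin_le _ _ _)
  have h40 : ∀ r : ℝ, 0 ≤ r ^ 4 := fun r => by positivity
  have hRb4 : ∀ z : Om, (lin S c z).re ^ 4 ≤ (∑ p ∈ S, ‖c p‖) ^ 4 := fun z => by
    have e : (lin S c z).re ^ 4 = |(lin S c z).re| ^ 4 := by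
      rw [← abs_pow, abs_of_nonneg (h40 _)]
    rw [e]
    exact pow_le_pow_left₀ (abs_nonneg _) (hRb z) 4
  have hint : ∀ τ : ℝ, Integrable (fun z : Om => A.W ∅ y z * Real.exp (τ * (lin S c z).re)) mu := by
    intro τ
    refine integrable_of_bd (hWc.mul (Real.continuous_exp.comp
      (continuous_const.mul hRc))).aestronglyMeasurable
      (C := BW * Real.exp (|τ| * ∑ p ∈ S, ‖c p‖)) fun z => ?_
    rw [Real.norm_of_nonneg (mul_nonneg (hW0 _) (Real.exp_nonneg _))]
    refine mul_le_mul (hBW z) (Real.exp_le_exp.mpr ?_) (Real.exp_nonneg _) ((hW0 z).trans (hBW z))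
    refine (le_abs_self _).trans ?_
    rw [abs_mul]
    exact mul_le_mul_of_nonneg_left (hRb z) (abs_nonneg _)
  have hint4 : Integrable (fun z : Om => A.W ∅ y z * ((lin S c z).re) ^ 4) mu := by
    refine integrable_of_bd (hWc.mul (hRc.pow 4)).aestronglyMeasurable
      (C := BW * (∑ p ∈ S, ‖c p‖) ^ 4) fun z => ?_
    rw [Real.norm_of_nonneg (mul_nonneg (hW0 _) (h40 _))]
    exact mul_le_mul (hBW z) (hRb4 z) (h40 _) ((hW0 z).trans (hBW z))
  have h3 : ∫ z, A.W ∅ y z * ((lin S c z).re) ^ 4 ∂mu ≤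
      48 * (C1 * Real.exp 2) * D ^ 4 * A.G y := by
    have k1 := key (1 / D) (abs_of_pos (by positivity))
    have k2 := key (-(1 / D)) (by rw [abs_neg]; exact abs_of_pos (by positivity))
    calc ∫ z, A.W ∅ y z * ((lin S c z).re) ^ 4 ∂mu
        ≤ ∫ z, 24 * D ^ 4 * (A.W ∅ y z * Real.exp (1 / D * (lin S c z).re)
            + A.W ∅ y z * Real.exp (-(1 / D) * (lin S c z).re)) ∂mu := by
          refine integral_mono hint4 (((hint _).add (hint _)).const_mul _) fun z => ?_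
          have h3 := pow_four_le_exp (1 / D * (lin S c z).re)
          have h4 : (lin S c z).re ^ 4 = D ^ 4 * (1 / D * (lin S c z).re) ^ 4 := by
            field_simp
          show A.W ∅ y z * (lin S c z).re ^ 4 ≤ _
          rw [h4, neg_mul]
          have h5 := hW0 z
          calc A.W ∅ y z * (D ^ 4 * (1 / D * (lin S c z).re) ^ 4)
              = D ^ 4 * (A.W ∅ y z * (1 / D * (lin S c z).re) ^ 4) := by ring
            _ ≤ D ^ 4 * (A.W ∅ y z * (24 * (Real.exp (1 / D * (lin S c z).re)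
                + Real.exp (-(1 / D * (lin S c z).re))))) := by gcongr
            _ = _ := by ring
      _ = 24 * D ^ 4 * (∫ z, A.W ∅ y z * Real.exp (1 / D * (lin S c z).re) ∂mu
            + ∫ z, A.W ∅ y z * Real.exp (-(1 / D) * (lin S c z).re) ∂mu) := by
          rw [integral_const_mul, integral_add (hint _) (hint _)]
      _ ≤ 24 * D ^ 4 * (C1 * Real.exp 2 * A.G y + C1 * Real.exp 2 * A.G y) := by gcongr
      _ = _ := by ring
  -- the transfer
  have hlin := (lin_tp (y := Real.log T / 10 ^ 5) (by positivity)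
    (fun p hp => ⟨(hS p hp).1, (hS p hp).2.2⟩) zero_le_two hc2).re
  have htp : TP (Real.exp (Real.log T / 10 ^ 5) ^ 4) ((2 * Real.exp (Real.log T / 10 ^ 5)) ^ 4)
      (fun z => ((((lin S c z).re) ^ 4 : ℝ) : ℂ)) :=
    (hlin.pow 4).congr fun z => by push_cast; ring
  have hN1 : 1 ≤ Real.exp (Real.log T / 10 ^ 5) ^ 4 :=
    one_le_pow₀ (Real.one_le_exp (by positivity))
  have h4 := (hT A hA ∅ (Finset.empty_subset _) 0 0 (by simp) (by simp) _ _
    (fun z => ((((lin S c z).re) ^ 4 : ℝ) : ℂ)) hN1 htp x T y hTp).1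
  have h5 := abs_mean_sub_le (A := A) (s := ∅) (x := x) (y := y)
    (H := fun z => ((lin S c z).re) ^ 4) h4
  have h6 := lmean_le (H := fun z => ((lin S c z).re) ^ 4) hA hTp (hRc.pow 4)
    (fun z => h40 _) ⟨_, hRb4⟩ h3 h5
  refine h6.trans (ENNReal.ofReal_le_ofReal ?_)
  have h7 := err groupNum hA hT0 hL y
  have h8 : (1 : ℝ) ≤ D ^ 4 := one_le_pow₀ hD
  have h9 : C * (16 * A.G y) ≤ 16 * C * D ^ 4 * A.G y := by
    have : 0 ≤ 16 * C * A.G y := by positivity
    nlinarith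
  have h10 := (mul_le_mul_of_nonneg_left h7 hC).trans h9
  calc _ ≤ 48 * (C1 * Real.exp 2) * D ^ 4 * A.G y + 16 * C * D ^ 4 * A.G y :=
        add_le_add le_rfl h10
    _ = _ := by ring

end Pool.Agent.Lib.RA
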