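import Mathlib
import Pool.Agent.Lib.MP_f9aece_nt_gt.E3
import Pool.Agent.Lib.MP_f9aece_nt_gt.C6
import Pool.Agent.Lib.MP_f9aece_nt_gt.D6a
import Pool.Agent.Lib.MP_f9aece_nt_rate.Stmts

/-!
The rate in the central limit theorem for `log |zeta|`: module A4 (`signMean`), the signed first moment
of a linear form under the weights.
-/

set_option autoImplicit false

namespace Pool.Agent.Lib.RA

open MeasureTheory Set Filter Topology Complex ProbabilityTheory
open scoped ComplexConjugate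
open Pool.Agent.Lib.GT Pool.Agent.Lib.GT.EE

namespace A4x

lemma abs_mul_exp_le {κ : ℝ} (hκ : 0 < κ) (x : ℝ) :
    |x| * Real.exp (-κ * x ^ 2) ≤ 1 / Real.sqrt κ * Real.exp (-(κ / 2) * x ^ 2) := by
  have hs : 0 < Real.sqrt κ := Real.sqrt_pos.mpr hκ
  have hs2 : Real.sqrt κ ^ 2 = κ := Real.sq_sqrt hκ.le
  set t : ℝ := Real.sqrt κ * |x| with ht
  have ht0 : 0 ≤ t := by positivity
  have ht2 : t ^ 2 = κ * x ^ 2 := by rw [ht, mul_pow, hs2, sq_abs]
  have h1 : t ≤ Real.exp (t ^ 2 / 2) := by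
    have := Real.add_one_le_exp (t ^ 2 / 2)
    nlinarith [sq_nonneg (t - 1)]
  have h2 : t * Real.exp (-κ * x ^ 2) ≤ Real.exp (-(κ / 2) * x ^ 2) := by
    have e : Real.exp (-(κ / 2) * x ^ 2) = Real.exp (t ^ 2 / 2) * Real.exp (-κ * x ^ 2) := by
      rw [← Real.exp_add, ht2]
      congr 1
      ring
    rw [e]
    exact mul_le_mul_of_nonneg_right h1 (Real.exp_pos _).le
  have h3 : |x| = 1 / Real.sqrt κ * t := by
    rw [ht]
    field_simp
  rw [h3, mul_assoc]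
  exact mul_le_mul_of_nonneg_left h2 (by positivity)

lemma exp_sub_le (u : ℝ) : |Real.exp u - 1 - u| ≤ u ^ 2 * Real.exp |u| := by
  have h0 : 0 ≤ Real.exp u - 1 - u := by
    have := Real.add_one_le_exp u
    linarith
  rw [abs_of_nonneg h0]
  rcases le_total 0 u with hu | hu
  · rw [abs_of_nonneg hu]
    have h1 := Real.add_one_le_exp (-u)
    have h2 : Real.exp u * Real.exp (-u) = 1 := by rw [← Real.exp_add, add_neg_cancel, Real.exp_zero]
    have h3 := Real.exp_pos u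
    have h4 : Real.exp u - 1 ≤ u * Real.exp u := by nlinarith
    nlinarith
  · rw [abs_of_nonpos hu]
    have h1 := Real.add_one_le_exp (-u)
    have h2 : Real.exp u * Real.exp (-u) = 1 := by rw [← Real.exp_add, add_neg_cancel, Real.exp_zero]
    have h3 := Real.exp_pos u
    have h4 : Real.exp u * (1 - u) ≤ 1 := by nlinarith
    have h5 : Real.exp u ≤ 1 + u + u ^ 2 := by
      have h6 : 0 < 1 - u := by linarith
      have h7 : Real.exp u * (1 - u) ≤ (1 + u + u ^ 2) * (1 - u) := by nlinarith [pow_nonneg (neg_nonneg.mpr hu) 3]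
      exact le_of_mul_le_mul_right h7 h6
    have h8 : 1 ≤ Real.exp (-u) := Real.one_le_exp (by linarith)
    nlinarith [sq_nonneg u]

/-- the remainder of the exponential of `ε X` -/
lemma exp_rem {ε : ℝ} (h0 : 0 ≤ ε) (h1 : ε ≤ 1) (X : ℝ) :
    |Real.exp (ε * X) - 1 - ε * X| ≤ ε ^ 2 * (2 * (Real.exp (2 * X) + Real.exp (-(2 * X)))) := by
  refine (exp_sub_le _).trans ?_
  have h2 : |ε * X| ≤ |X| := by
    rw [abs_mul, abs_of_nonneg h0]
    exact mul_le_of_le_one_left (abs_nonneg _) h1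
  have h3 : X ^ 2 ≤ 2 * Real.exp |X| := by
    have := Real.quadratic_le_exp_of_nonneg (abs_nonneg X)
    rw [← sq_abs]
    nlinarith [abs_nonneg X]
  have h4 : Real.exp |X| * Real.exp |X| ≤ Real.exp (2 * X) + Real.exp (-(2 * X)) := by
    rw [← Real.exp_add]
    rcases le_total 0 X with h | h
    · rw [abs_of_nonneg h, show X + X = 2 * X by ring]
      have := Real.exp_pos (-(2 * X))
      linarith
    · rw [abs_of_nonpos h, show -X + -X = -(2 * X) by ring]
      have := Real.exp_pos (2 * X)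
      linarith
  have h5 := Real.exp_pos |X|
  calc (ε * X) ^ 2 * Real.exp |ε * X| ≤ (ε * X) ^ 2 * Real.exp |X| := by
        refine mul_le_mul_of_nonneg_left (Real.exp_le_exp.mpr h2) (sq_nonneg _)
    _ = ε ^ 2 * (X ^ 2 * Real.exp |X|) := by ring
    _ ≤ ε ^ 2 * (2 * Real.exp |X| * Real.exp |X|) := by gcongr
    _ = ε ^ 2 * (2 * (Real.exp |X| * Real.exp |X|)) := by ring
    _ ≤ _ := by gcongr

/-- the kernel of the second part of `WGauss` -/
noncomputable def Kf (A : Par) (y : ℝ) (w : ℝ × ℝ) : ℝ := (phi w.1 * phi w.2) * Real.exp (-(A.be * y)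
      + (A.be ^ 2 - A.b ^ 2 * (w.1 - w.2) ^ 2) * A.vt / 4)

lemma Kf_nonneg (A : Par) (y : ℝ) (w : ℝ × ℝ) : 0 ≤ Kf A y w := by
  unfold Kf
  exact mul_nonneg (mul_nonneg (phi_nonneg _) (phi_nonneg _)) (Real.exp_pos _).le

lemma Kf_cont (A : Par) (y : ℝ) : Continuous (Kf A y) := by
  have := continuous_phi
  unfold Kf
  fun_prop

/-- the second part of `WGauss` with the distance -/
lemma part_dist {A : Par} (hA : A.Ok) (y : ℝ) :
    A.b / c0 * ∫ w : ℝ × ℝ, Kf A y w * (A.b * |w.1 - w.2|) ∂(me.prod me)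
      ≤ 2 * Real.sqrt (2 * Real.pi) / c0 * (1 / Real.sqrt A.s2) * A.G y := by
  rcases Par.c0_nonneg.eq_or_lt with hc | hc
  · rw [← hc]
    simp
  have hs2 : 0 < A.s2 := by linarith [hA.hs]
  have hb := hA.b_pos
  have hvt : A.vt = 2 * A.s2 := by unfold Par.s2; ring
  set E := Real.exp (-(A.be * y) + A.be ^ 2 * A.s2 / 2) with hE
  have hE0 : 0 < E := Real.exp_pos _
  set κ := A.b ^ 2 * A.s2 / 2 with hκ
  have hκ0 : 0 < κ := by positivity
  have h1 : ∫ w : ℝ × ℝ, Kf A y w * (A.b * |w.1 - w.2|) ∂(me.prod me)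
      ≤ ∫ w : ℝ × ℝ, (E * A.b * (1 / Real.sqrt κ)) * Real.exp (-(κ / 2) * (w.1 - w.2) ^ 2)
        ∂(me.prod me) := by
    apply integral_mono_ae
    · apply D6.integrable_me
      have := Kf_cont A y
      fun_prop
    · apply D6.integrable_me
      fun_prop
    · filter_upwards [D6.ae_me2] with w hw
      have h2 := abs_phi_le hw.1
      have h3 := abs_phi_le hw.2
      have h4 := phi_nonneg w.1
      have h5 := phi_nonneg w.2
      rw [abs_of_nonneg h4] at h2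
      rw [abs_of_nonneg h5] at h3
      have h6 : phi w.1 * phi w.2 ≤ 1 := by nlinarith
      have e1 : Kf A y w = (phi w.1 * phi w.2) * (E * Real.exp (-κ * (w.1 - w.2) ^ 2)) := by
        unfold Kf
        rw [hE, ← Real.exp_add, hvt, hκ]
        congr 2
        ring
      have h7 := abs_mul_exp_le hκ0 (w.1 - w.2)
      have h8 : 0 ≤ E * Real.exp (-κ * (w.1 - w.2) ^ 2) := by positivity
      show Kf A y w * (A.b * |w.1 - w.2|) ≤ _
      rw [e1]
      calc phi w.1 * phi w.2 * (E * Real.exp (-κ * (w.1 - w.2) ^ 2)) * (A.b * |w.1 - w.2|)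
          ≤ 1 * (E * Real.exp (-κ * (w.1 - w.2) ^ 2)) * (A.b * |w.1 - w.2|) := by gcongr
        _ = E * A.b * (|w.1 - w.2| * Real.exp (-κ * (w.1 - w.2) ^ 2)) := by ring
        _ ≤ E * A.b * (1 / Real.sqrt κ * Real.exp (-(κ / 2) * (w.1 - w.2) ^ 2)) := by gcongr
        _ = _ := by ring
  have hκ2 : 0 < κ / 2 := by positivity
  have h2 : ∫ w : ℝ × ℝ, Real.exp (-(κ / 2) * (w.1 - w.2) ^ 2) ∂(me.prod me)
      ≤ Real.sqrt (Real.pi / (κ / 2)) := by
    rw [MeasureTheory.integral_prod _ (D6.integrable_me (by fun_prop))]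
    have h3 : ∀ a : ℝ, ∫ b, Real.exp (-(κ / 2) * (a - b) ^ 2) ∂me ≤ Real.sqrt (Real.pi / (κ / 2)) := by
      intro a
      have i1 : Integrable (fun b : ℝ => Real.exp (-(κ / 2) * (a - b) ^ 2)) :=
        (integrable_exp_neg_mul_sq hκ2).comp_sub_left a
      unfold me
      calc ∫ b in Icc (-(1 / 2) : ℝ) (1 / 2), Real.exp (-(κ / 2) * (a - b) ^ 2)
          ≤ ∫ b, Real.exp (-(κ / 2) * (a - b) ^ 2) :=
            setIntegral_le_integral i1 (Eventually.of_forall fun b => (Real.exp_pos _).le)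
        _ = ∫ b, Real.exp (-(κ / 2) * b ^ 2) :=
            integral_sub_left_eq_self (fun b => Real.exp (-(κ / 2) * b ^ 2)) volume a
        _ = _ := integral_gaussian (κ / 2)
    calc ∫ a, ∫ b, Real.exp (-(κ / 2) * (a - b) ^ 2) ∂me ∂me
        ≤ ∫ a, Real.sqrt (Real.pi / (κ / 2)) ∂me := by
          apply integral_mono_of_nonneg
          · exact Eventually.of_forall fun a => integral_nonneg fun b => (Real.exp_pos _).le
          · exact integrable_const _
          · exact Eventually.of_forall h3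
      _ = _ := by simp
  rw [integral_const_mul] at h1
  have hbc : 0 < A.b / c0 := by positivity
  have hsκ : 0 < Real.sqrt κ := Real.sqrt_pos.mpr hκ0
  have e3 : Real.sqrt (Real.pi / (κ / 2)) = Real.sqrt (2 * Real.pi) / Real.sqrt κ := by
    rw [← Real.sqrt_div (by positivity)]
    congr 1
    field_simp
  have e4 : 1 / Real.sqrt κ * (Real.sqrt (2 * Real.pi) / Real.sqrt κ)
      = 2 * Real.sqrt (2 * Real.pi) / (A.b ^ 2 * A.s2) := by
    rw [div_mul_div_comm, one_mul, Real.mul_self_sqrt hκ0.le, hκ]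
    field_simp
  have hss : Real.sqrt A.s2 * Real.sqrt A.s2 = A.s2 := Real.mul_self_sqrt hs2.le
  have hs0 : Real.sqrt A.s2 ≠ 0 := (Real.sqrt_pos.mpr hs2).ne'
  calc A.b / c0 * ∫ w : ℝ × ℝ, Kf A y w * (A.b * |w.1 - w.2|) ∂(me.prod me)
      ≤ A.b / c0 * ((E * A.b * (1 / Real.sqrt κ)) * Real.sqrt (Real.pi / (κ / 2))) := by
        refine mul_le_mul_of_nonneg_left (h1.trans ?_) hbc.le
        gcongr
    _ = A.b / c0 * (E * A.b * (1 / Real.sqrt κ * (Real.sqrt (2 * Real.pi) / Real.sqrt κ))) := by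
        rw [e3]
        ring
    _ = A.b / c0 * (E * A.b * (2 * Real.sqrt (2 * Real.pi) / (A.b ^ 2 * A.s2))) := by rw [e4]
    _ = _ := by
        have key : ∀ r s : ℝ, r ≠ 0 → r * r = s →
            A.b / c0 * (E * A.b * (2 * Real.sqrt (2 * Real.pi) / (A.b ^ 2 * s)))
              = 2 * Real.sqrt (2 * Real.pi) / c0 * (1 / r) * (1 / r * E) := by
          rintro r s hr rfl
          field_simp
        exact key _ _ hs0 hss

lemma lin_smul_re (S : Finset ℕ) (a : ℝ) (c : ℕ → ℂ) (x : Om) :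
    (lin S (fun p => (a : ℂ) * c p) x).re = a * (lin S c x).re := by
  have : lin S (fun p => (a : ℂ) * c p) x = (a : ℂ) * lin S c x := by
    unfold lin
    rw [Finset.mul_sum]
    exact Finset.sum_congr rfl fun p _ => by ring
  rw [this, Complex.re_ofReal_mul]

/-- the main term of `WMain` for the data `Dt τ c` -/
noncomputable def Fm (A : Par) (c : ℕ → ℂ) (y τ : ℝ) (w : ℝ × ℝ) : ℂ := (phi w.1 * phi w.2 : ℝ)
        * (cexp (-((A.zz w.1 + conj (A.zz w.2)) * y))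
          * cexp (sab A.U A.h (A.zz w.1) (A.zz w.2) 0 0 (Dt τ c)))

lemma Fm_cont (A : Par) (c : ℕ → ℂ) (y τ : ℝ) : Continuous (Fm A c y τ) := by
  have := continuous_phi
  unfold Fm sab Par.zz
  fun_prop

/-- comparison of two main terms -/
lemma Fm_diff {A : Par} (hA : A.Ok) {c : ℕ → ℂ} {D : ℝ} (hD : 1 ≤ D)
    (h1 : |∑ p ∈ A.U, A.h p * (c p).re| ≤ D) (h2 : ∑ p ∈ A.U, ‖c p‖ ^ 2 ≤ D ^ 2) (y : ℝ) {τ : ℝ}
    (hτ : 0 ≤ τ) (hτD : τ * D ≤ 1 / 4) {w : ℝ × ℝ} (hw : |w.1| ≤ 1 / 2 ∧ |w.2| ≤ 1 / 2) :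
    ‖Fm A c y τ w - Fm A c y 0 w‖ ≤ (τ * D * A.be + (τ * D) ^ 2 / 2) * Kf A y w
      + τ * D * (Kf A y w * (A.b * |w.1 - w.2|)) := by
  have hbe := hA.hbe
  have hb := hA.b_pos
  have hbb := hA.hbb
  have hb20 := hA.hb
  set ζ : ℂ := A.zz w.1 + conj (A.zz w.2) with hζ
  have hζe : ζ = (A.be : ℂ) + I * (A.b * (w.1 - w.2) : ℝ) := zz_sum _ _
  have hζn : ‖ζ‖ ≤ A.be + A.b * |w.1 - w.2| := by
    rw [hζe]
    refine (norm_add_le _ _).trans ?_
    rw [norm_mul, Complex.norm_I, one_mul, Complex.norm_real, Complex.norm_real, Real.norm_eq_abs,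
      Real.norm_eq_abs, abs_of_pos hbe, abs_mul, abs_of_pos hb]
  have hd : |w.1 - w.2| ≤ 1 := by
    have := abs_sub w.1 w.2
    linarith [hw.1, hw.2]
  set s1 : ℝ := ∑ p ∈ A.U, A.h p * (c p).re with hs1
  set s2 : ℝ := ∑ p ∈ A.U, ‖c p‖ ^ 2 with hs2
  have hs20 : 0 ≤ s2 := Finset.sum_nonneg fun _ _ => by positivity
  set u : ℂ := ζ / 2 * ((τ * s1 : ℝ) : ℂ) + ((τ ^ 2 / 4 * s2 : ℝ) : ℂ) with hu
  have hun : ‖u‖ ≤ (A.be + A.b * |w.1 - w.2|) / 2 * (τ * D) + (τ * D) ^ 2 / 4 := by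
    rw [hu]
    refine (norm_add_le _ _).trans (add_le_add ?_ ?_)
    · rw [norm_mul, norm_div, Complex.norm_ofNat, Complex.norm_real, Real.norm_eq_abs, abs_mul,
        abs_of_nonneg hτ]
      gcongr
    · rw [Complex.norm_real, Real.norm_of_nonneg (by positivity), mul_pow]
      calc τ ^ 2 / 4 * s2 ≤ τ ^ 2 / 4 * D ^ 2 := by gcongr
        _ = _ := by ring
  have hτD0 : 0 ≤ τ * D := by positivity
  have hbd : A.b * |w.1 - w.2| ≤ 1 / 20 := by
    calc A.b * |w.1 - w.2| ≤ 1 / 20 * 1 := mul_le_mul hb20 hd (abs_nonneg _) (by norm_num)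
      _ = _ := by norm_num
  have hu1 : ‖u‖ ≤ 1 := by
    refine hun.trans ?_
    have h3 : (A.be + A.b * |w.1 - w.2|) / 2 * (τ * D) ≤ 1 / 20 * (1 / 4) :=
      mul_le_mul (by linarith) hτD hτD0 (by norm_num)
    have h4 : (τ * D) ^ 2 ≤ (1 / 4) ^ 2 := pow_le_pow_left₀ hτD0 hτD 2
    linarith
  have he := Complex.norm_exp_sub_one_le hu1
  have e0 : sab A.U A.h (A.zz w.1) (A.zz w.2) 0 0 (Dt 0 c) = ζ ^ 2 * A.vt / 4 := by
    rw [sab_Dt]
    simp [hζ]
  have e1 : sab A.U A.h (A.zz w.1) (A.zz w.2) 0 0 (Dt τ c) = ζ ^ 2 * A.vt / 4 + u := by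
    rw [sab_Dt, hu]
    ring
  have e2 : Fm A c y τ w - Fm A c y 0 w = ((phi w.1 * phi w.2 : ℝ) : ℂ) *
      (cexp (-(ζ * y)) * cexp (ζ ^ 2 * A.vt / 4)) * (cexp u - 1) := by
    unfold Fm
    rw [e0, e1, Complex.exp_add]
    ring
  have n1 : ‖cexp (-(ζ * y))‖ = Real.exp (-(A.be * y)) := by
    rw [Complex.norm_exp]
    congr 1
    rw [hζe, Complex.neg_re, Complex.re_mul_ofReal, Complex.add_re, Complex.ofReal_re,
      Complex.I_mul_re, Complex.ofReal_im]
    ring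
  have n2 : ‖cexp (ζ ^ 2 * A.vt / 4)‖ = Real.exp ((A.be ^ 2 - A.b ^ 2 * (w.1 - w.2) ^ 2) * A.vt / 4) := by
    rw [Complex.norm_exp]
    congr 1
    have e : ζ ^ 2 * (A.vt : ℂ) / 4 = ((A.vt / 4 : ℝ) : ℂ) * ζ ^ 2 := by
      push_cast
      ring
    rw [e, Complex.re_ofReal_mul, hζ, re_sq_zz]
    ring
  have hphi : 0 ≤ phi w.1 * phi w.2 := mul_nonneg (phi_nonneg _) (phi_nonneg _)
  have e3 : ‖((phi w.1 * phi w.2 : ℝ) : ℂ) * (cexp (-(ζ * y)) * cexp (ζ ^ 2 * A.vt / 4))‖ = Kf A y w := by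
    rw [norm_mul, norm_mul, n1, n2, Complex.norm_real, Real.norm_of_nonneg hphi]
    unfold Kf
    rw [← Real.exp_add]
  have hK := Kf_nonneg A y w
  rw [e2, norm_mul, e3]
  calc Kf A y w * ‖cexp u - 1‖ ≤ Kf A y w * (2 * ((A.be + A.b * |w.1 - w.2|) / 2 * (τ * D)
        + (τ * D) ^ 2 / 4)) := by
        refine mul_le_mul_of_nonneg_left (he.trans ?_) hK
        linarith
    _ = _ := by ring

/-- the mean on the torus -/
lemma torus (h : ExpW) (hM : WMain) (hG : WGauss) (hN : GroupNum) : ∃ C : ℝ, 0 ≤ C ∧ ∀ A : Par, A.Ok →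
    ∀ c : ℕ → ℂ, (∀ p : ℕ, ‖c p‖ ≤ 2 / Real.sqrt p) → ∀ D : ℝ, 1 ≤ D →
    ∑ p ∈ A.U, A.h p * ‖c p‖ ≤ D → ∑ p ∈ A.U, ‖c p‖ ^ 2 ≤ D ^ 2 → ∀ y : ℝ,
    |∫ x, A.W ∅ y x * (lin A.U c x).re ∂mu| ≤ C * D * (A.be + 1 / Real.sqrt A.s2
      + Real.sqrt (Real.exp (-A.v) + 1 / A.p0)) * A.G y := by
  obtain ⟨C1, hC1, h⟩ := h
  obtain ⟨C2, hC2, hM⟩ := hM
  obtain ⟨C3, hC3, hG⟩ := hG
  set C4 : ℝ := 2 * Real.sqrt (2 * Real.pi) / c0 with hC4
  have hC40 : 0 ≤ C4 := div_nonneg (by positivity) Par.c0_nonneg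
  refine ⟨4 * (4 * (C1 * Real.exp 1) + 2 * (C2 * Real.exp 1) + C3 + C4), by positivity,
    fun A hA c hc D hD h1 h2 y => ?_⟩
  obtain ⟨-, -, -, n4, -, -, -, -⟩ := hN A hA
  have hG0 := hA.G_pos y
  have hbe := hA.hbe
  have hbe' : A.be ≤ 1 / 20 := hA.hbb.trans hA.hb
  have hb := hA.b_pos
  have hs2 : 0 < A.s2 := by linarith [hA.hs]
  have hv : (4 : ℝ) ≤ A.v := by exact_mod_cast hA.hv
  have hp0 : (1000 : ℝ) ≤ A.p0 := by exact_mod_cast hA.hp
  set ε0 : ℝ := Real.exp (-A.v) + 1 / A.p0 with hε0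
  have hε0p : 0 < ε0 := by positivity
  have hε01 : ε0 ≤ 1 := by
    have k1 : Real.exp (-(A.v : ℝ)) ≤ 1 / 2 := by
      have k2 : Real.exp (-(A.v : ℝ)) ≤ Real.exp (-4) := Real.exp_le_exp.mpr (by linarith)
      have k3 : (5 : ℝ) ≤ Real.exp 4 := by
        have := Real.add_one_le_exp (4 : ℝ)
        linarith
      have k4 : Real.exp (-4) * Real.exp 4 = 1 := by rw [← Real.exp_add]; norm_num
      have k5 := Real.exp_pos (-4)
      nlinarith
    have k6 : 1 / (A.p0 : ℝ) ≤ 1 / 2 := by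
      rw [div_le_div_iff₀ (by linarith) (by norm_num)]
      linarith
    linarith
  set ε : ℝ := Real.sqrt ε0 with hε
  have hεp : 0 < ε := Real.sqrt_pos.mpr hε0p
  have hεs : ε ^ 2 = ε0 := Real.sq_sqrt hε0p.le
  have hε1 : ε ≤ 1 := Real.sqrt_le_iff.mpr ⟨zero_le_one, by linarith⟩
  have hDp : 0 < D := by linarith
  set E : ℝ := 4 * D with hE
  have hEp : 0 < E := by positivity
  set τ : ℝ := ε / E with hτ
  have hτp : 0 < τ := by positivity
  have hτD : τ * D = ε / 4 := by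
    rw [hτ, hE]
    field_simp
  have hτ1 : τ ≤ 1 := by
    rw [hτ, div_le_one hEp]
    linarith
  have hs1 : |∑ p ∈ A.U, A.h p * (c p).re| ≤ D := by
    refine ((Finset.abs_sum_le_sum_abs _ _).trans (Finset.sum_le_sum fun p _ => ?_)).trans h1
    rw [abs_mul, abs_of_nonneg (h_nonneg p)]
    exact mul_le_mul_of_nonneg_left (Complex.abs_re_le_norm _) (h_nonneg p)
  have hs2c : 0 ≤ ∑ p ∈ A.U, ‖c p‖ ^ 2 := Finset.sum_nonneg fun _ _ => by positivity
  -- integrability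
  have hWc : Continuous fun z : Om => A.W ∅ y z := A.continuous_W' hA ∅ y
  obtain ⟨BW, hBW⟩ := A.W_le hA ∅ y
  have hW0 : ∀ z, 0 ≤ A.W ∅ y z := A.W_nonneg hb.le ∅ y
  have hRc : Continuous fun z : Om => (lin A.U c z).re :=
    Complex.continuous_re.comp (continuous_lin _ _)
  have hRb : ∀ z : Om, |(lin A.U c z).re| ≤ ∑ p ∈ A.U, ‖c p‖ := fun z =>
    (Complex.abs_re_le_norm _).trans (norm_lin_le _ _ _)
  have hint : ∀ τ : ℝ, Integrable (fun z : Om => A.W ∅ y z * Real.exp (τ * (lin A.U c z).re)) mu := by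
    intro τ
    refine integrable_of_bd (hWc.mul (Real.continuous_exp.comp
      (continuous_const.mul hRc))).aestronglyMeasurable
      (C := BW * Real.exp (|τ| * ∑ p ∈ A.U, ‖c p‖)) fun z => ?_
    rw [Real.norm_of_nonneg (mul_nonneg (hW0 _) (Real.exp_nonneg _))]
    refine mul_le_mul (hBW z) (Real.exp_le_exp.mpr ?_) (Real.exp_nonneg _) ((hW0 z).trans (hBW z))
    refine (le_abs_self _).trans ?_
    rw [abs_mul]
    exact mul_le_mul_of_nonneg_left (hRb z) (abs_nonneg _)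
  have hintL : Integrable (fun z : Om => A.W ∅ y z * (lin A.U c z).re) mu := by
    refine integrable_of_bd (hWc.mul hRc).aestronglyMeasurable
      (C := BW * ∑ p ∈ A.U, ‖c p‖) fun z => ?_
    rw [norm_mul, Real.norm_of_nonneg (hW0 _), Real.norm_eq_abs]
    exact mul_le_mul (hBW z) (hRb z) (abs_nonneg _) ((hW0 z).trans (hBW z))
  -- exponential moments
  have hexp : ∀ σ : ℝ, |σ| = 2 / E → ∫ z, A.W ∅ y z * Real.exp (σ * (lin A.U c z).re) ∂mu
      ≤ C1 * Real.exp 1 * A.G y := by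
    intro σ hσ
    have hσ1 : |σ| ≤ 1 := by
      rw [hσ, div_le_one hEp]
      linarith
    have hn : ∀ p, ‖(σ : ℂ) * c p‖ = |σ| * ‖c p‖ := fun p => by
      rw [norm_mul, Complex.norm_real, Real.norm_eq_abs]
    have k1 := h A hA A.U (fun p hp => by
      have := (n4 p).mp hp
      exact ⟨this.1, hA.hp.trans this.2.1.le⟩) (fun p => (σ : ℂ) * c p) (fun p _ => by
        rw [hn]
        calc |σ| * ‖c p‖ ≤ 1 * (2 / Real.sqrt p) := mul_le_mul hσ1 (hc p) (norm_nonneg _) zero_le_one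
          _ ≤ 4 / Real.sqrt p := by
            rw [one_mul]
            exact div_le_div_of_nonneg_right (by norm_num) (Real.sqrt_nonneg _)) y
    simp only [lin_smul_re] at k1
    refine k1.trans ?_
    refine mul_le_mul_of_nonneg_right ?_ hG0.le
    refine mul_le_mul_of_nonneg_left (Real.exp_le_exp.mpr ?_) (by linarith)
    rw [Finset.inter_self]
    simp only [hn]
    have e1 : ∑ p ∈ A.U, A.h p * (|σ| * ‖c p‖) = |σ| * ∑ p ∈ A.U, A.h p * ‖c p‖ := by
      rw [Finset.mul_sum]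
      exact Finset.sum_congr rfl fun p _ => by ring
    have e2 : ∑ p ∈ A.U, (|σ| * ‖c p‖) ^ 2 = |σ| ^ 2 * ∑ p ∈ A.U, ‖c p‖ ^ 2 := by
      rw [Finset.mul_sum]
      exact Finset.sum_congr rfl fun p _ => by ring
    rw [e1, e2, hσ]
    have k2 : 2 / E * ∑ p ∈ A.U, A.h p * ‖c p‖ ≤ 2 / E * D := by gcongr
    have k3 : (2 / E) ^ 2 * ∑ p ∈ A.U, ‖c p‖ ^ 2 ≤ (2 / E) ^ 2 * D ^ 2 := by gcongr
    have k4 : 2 / E * D = 1 / 2 := by
      rw [hE]
      field_simp
      norm_num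
    have k5 : (2 / E) ^ 2 * D ^ 2 = 1 / 4 := by
      rw [← mul_pow, k4]
      norm_num
    linarith
  -- Taylor
  set f : ℝ → ℝ := fun σ => ∫ z, A.W ∅ y z * Real.exp (σ * (lin A.U c z).re) ∂mu with hf
  set m : ℝ := ∫ z, A.W ∅ y z * (lin A.U c z).re ∂mu with hm
  have hT : |f τ - f 0 - τ * m| ≤ ε ^ 2 * (4 * (C1 * Real.exp 1)) * A.G y := by
    have e1 : f τ - f 0 - τ * m = ∫ z, (A.W ∅ y z * Real.exp (τ * (lin A.U c z).re)
        - A.W ∅ y z * Real.exp (0 * (lin A.U c z).re) - τ * (A.W ∅ y z * (lin A.U c z).re)) ∂mu := by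
      have i3 : Integrable (fun z => A.W ∅ y z * Real.exp (τ * (lin A.U c z).re)
        - A.W ∅ y z * Real.exp (0 * (lin A.U c z).re)) mu := (hint τ).sub (hint 0)
      rw [integral_sub i3 (hintL.const_mul τ), integral_sub (hint τ) (hint 0), integral_const_mul]
    have hi : Integrable (fun z => 2 * ε ^ 2 * (A.W ∅ y z * Real.exp (2 / E * (lin A.U c z).re)
        + A.W ∅ y z * Real.exp (-(2 / E) * (lin A.U c z).re))) mu :=
      ((hint _).add (hint _)).const_mul _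
    rw [e1, ← Real.norm_eq_abs]
    refine (norm_integral_le_of_norm_le hi (Eventually.of_forall fun z => ?_)).trans ?_
    · have h3 := exp_rem hεp.le hε1 ((lin A.U c z).re / E)
      have e2 : ε * ((lin A.U c z).re / E) = τ * (lin A.U c z).re := by
        rw [hτ]
        ring
      have e3 : 2 * ((lin A.U c z).re / E) = 2 / E * (lin A.U c z).re := by ring
      rw [e2, e3] at h3
      have e4 : A.W ∅ y z * Real.exp (τ * (lin A.U c z).re)
        - A.W ∅ y z * Real.exp (0 * (lin A.U c z).re) - τ * (A.W ∅ y z * (lin A.U c z).re)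
        = A.W ∅ y z * (Real.exp (τ * (lin A.U c z).re) - 1 - τ * (lin A.U c z).re) := by
        rw [zero_mul, Real.exp_zero]
        ring
      rw [e4, norm_mul, Real.norm_of_nonneg (hW0 z), Real.norm_eq_abs]
      calc A.W ∅ y z * |Real.exp (τ * (lin A.U c z).re) - 1 - τ * (lin A.U c z).re|
          ≤ A.W ∅ y z * (ε ^ 2 * (2 * (Real.exp (2 / E * (lin A.U c z).re)
            + Real.exp (-(2 / E * (lin A.U c z).re))))) := mul_le_mul_of_nonneg_left h3 (hW0 z)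
        _ = _ := by
          rw [neg_mul]
          ring
    · rw [integral_const_mul, integral_add (hint _) (hint _)]
      have k1 := hexp (2 / E) (abs_of_pos (by positivity))
      have k2 := hexp (-(2 / E)) (by rw [abs_neg]; exact abs_of_pos (by positivity))
      calc 2 * ε ^ 2 * _ ≤ 2 * ε ^ 2 * (C1 * Real.exp 1 * A.G y + C1 * Real.exp 1 * A.G y) := by
            gcongr
        _ = _ := by ring
  -- main terms
  set M : ℝ → ℂ := fun σ => (A.b / c0 : ℝ) * ∫ w, Fm A c y σ w ∂(me.prod me) with hMd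
  have hW : ∀ σ : ℝ, 0 ≤ σ → σ * D ≤ 1 / 4 → σ ≤ 1 →
      ‖(f σ : ℂ) - M σ‖ ≤ C2 * ε0 * Real.exp 1 * A.G y := by
    intro σ hσ0 hσD hσ1
    have hσ1' : |σ| ≤ 1 := by rwa [abs_of_nonneg hσ0]
    have hex : A.be / 2 * (σ * ∑ p ∈ A.U, A.h p * (c p).re)
        + σ ^ 2 / 4 * ∑ p ∈ A.U, ‖c p‖ ^ 2 ≤ 1 := by
      have k1 : σ * ∑ p ∈ A.U, A.h p * (c p).re ≤ 1 / 4 := by
        have := (abs_le.mp hs1).2
        calc σ * ∑ p ∈ A.U, A.h p * (c p).re ≤ σ * D := by gcongr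
          _ ≤ _ := hσD
      have k2 : A.be / 2 * (σ * ∑ p ∈ A.U, A.h p * (c p).re) ≤ 1 / 40 * (1 / 4) := by
        calc A.be / 2 * (σ * ∑ p ∈ A.U, A.h p * (c p).re) ≤ A.be / 2 * (1 / 4) := by gcongr
          _ ≤ _ := mul_le_mul_of_nonneg_right (by linarith) (by norm_num)
      have k3 : σ ^ 2 / 4 * ∑ p ∈ A.U, ‖c p‖ ^ 2 ≤ (σ * D) ^ 2 / 4 := by
        rw [mul_pow]
        calc σ ^ 2 / 4 * ∑ p ∈ A.U, ‖c p‖ ^ 2 ≤ σ ^ 2 / 4 * D ^ 2 := by gcongr
          _ = _ := by ring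
      have k4 : (σ * D) ^ 2 ≤ (1 / 4) ^ 2 := pow_le_pow_left₀ (by positivity) hσD 2
      linarith
    have k1 := hM A hA 0 0 (by simp) (by simp) (Dt σ c) (Dt_ok hσ1' hc) 1 (expBd_Dt hex) 1
      (fun _ => 1) small_one y
    have e1 : ∀ z : Om, (A.W ∅ y z : ℂ) * (A.mo 0 ∅ z * conj (A.mo 0 ∅ z))
        * (HF A.U (Dt σ c) z * 1) = ((A.W ∅ y z * Real.exp (σ * (lin A.U c z).re) : ℝ) : ℂ) := by
      intro z
      rw [mo_zero, map_one, HF_Dt]
      push_cast
      ring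
    simp only [e1] at k1
    rw [integral_complex_ofReal, integral_const, probReal_univ, one_smul, mul_one, mul_one] at k1
    exact k1
  have hD0 : ‖M τ - M 0‖ ≤ (C3 * (τ * D * A.be + (τ * D) ^ 2 / 2)
      + C4 * (τ * D) * (1 / Real.sqrt A.s2)) * A.G y := by
    have hbc : 0 ≤ A.b / c0 := div_nonneg hb.le Par.c0_nonneg
    have e1 : M τ - M 0 = (A.b / c0 : ℝ) * ∫ w, (Fm A c y τ w - Fm A c y 0 w) ∂(me.prod me) := by
      rw [hMd]
      simp only
      rw [integral_sub (D6.integrable_me (Fm_cont _ _ _ _)) (D6.integrable_me (Fm_cont _ _ _ _))]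
      ring
    have hi1 : Integrable (Kf A y) (me.prod me) := D6.integrable_me (Kf_cont A y)
    have hi2 : Integrable (fun w : ℝ × ℝ => Kf A y w * (A.b * |w.1 - w.2|)) (me.prod me) := by
      apply D6.integrable_me
      have := Kf_cont A y
      fun_prop
    have k1 : ‖∫ w, (Fm A c y τ w - Fm A c y 0 w) ∂(me.prod me)‖
        ≤ ∫ w, ((τ * D * A.be + (τ * D) ^ 2 / 2) * Kf A y w
          + τ * D * (Kf A y w * (A.b * |w.1 - w.2|))) ∂(me.prod me) := by
      refine norm_integral_le_of_norm_le ((hi1.const_mul _).add (hi2.const_mul _)) ?_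
      filter_upwards [D6.ae_me2] with w hw
      exact Fm_diff hA hD hs1 h2 y hτp.le (by rw [hτD]; linarith) hw
    rw [integral_add (hi1.const_mul _) (hi2.const_mul _), integral_const_mul, integral_const_mul]
      at k1
    have k2 := (hG A hA y).2.1
    have k3 := part_dist hA y
    rw [← hC4] at k3
    have k2' : A.b / c0 * ∫ w, Kf A y w ∂(me.prod me) ≤ C3 * A.G y := k2
    have hτD0 : 0 ≤ τ * D := by positivity
    rw [e1, norm_mul, Complex.norm_real, Real.norm_of_nonneg hbc]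
    calc A.b / c0 * ‖∫ w, (Fm A c y τ w - Fm A c y 0 w) ∂(me.prod me)‖
        ≤ A.b / c0 * ((τ * D * A.be + (τ * D) ^ 2 / 2) * ∫ w, Kf A y w ∂(me.prod me)
          + τ * D * ∫ w, Kf A y w * (A.b * |w.1 - w.2|) ∂(me.prod me)) := by gcongr
      _ = (τ * D * A.be + (τ * D) ^ 2 / 2) * (A.b / c0 * ∫ w, Kf A y w ∂(me.prod me))
          + τ * D * (A.b / c0 * ∫ w, Kf A y w * (A.b * |w.1 - w.2|) ∂(me.prod me)) := by ring
      _ ≤ (τ * D * A.be + (τ * D) ^ 2 / 2) * (C3 * A.G y)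
          + τ * D * (C4 * (1 / Real.sqrt A.s2) * A.G y) := by gcongr
      _ = _ := by ring
  -- together
  have t1 := hW τ hτp.le (by rw [hτD]; linarith) hτ1
  have t0 := hW 0 le_rfl (by simp) zero_le_one
  have t2 : |f τ - f 0| ≤ 2 * (C2 * ε0 * Real.exp 1 * A.G y) + (C3 * (τ * D * A.be + (τ * D) ^ 2 / 2)
      + C4 * (τ * D) * (1 / Real.sqrt A.s2)) * A.G y := by
    have e1 : ((f τ - f 0 : ℝ) : ℂ) = ((f τ : ℂ) - M τ) + (M τ - M 0) - ((f 0 : ℂ) - M 0) := by
      push_cast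
      ring
    have e2 : |f τ - f 0| = ‖((f τ - f 0 : ℝ) : ℂ)‖ := by
      rw [Complex.norm_real, Real.norm_eq_abs]
    rw [e2, e1]
    refine (norm_sub_le _ _).trans ?_
    have := norm_add_le ((f τ : ℂ) - M τ) (M τ - M 0)
    linarith
  have t3 : τ * |m| ≤ ε ^ 2 * (4 * (C1 * Real.exp 1)) * A.G y
      + (2 * (C2 * ε0 * Real.exp 1 * A.G y) + (C3 * (τ * D * A.be + (τ * D) ^ 2 / 2)
      + C4 * (τ * D) * (1 / Real.sqrt A.s2)) * A.G y) := by
    have e1 : τ * |m| = |τ * m| := by rw [abs_mul, abs_of_pos hτp]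
    have e2 : τ * m = (f τ - f 0) - (f τ - f 0 - τ * m) := by ring
    rw [e1, e2]
    refine (abs_sub _ _).trans ?_
    linarith
  rw [hτD, ← hεs] at t3
  have e5 : |m| = 4 * D / ε * (τ * |m|) := by
    rw [hτ, hE]
    field_simp
  have hX : 0 ≤ 1 / Real.sqrt A.s2 := by positivity
  rw [e5]
  have hC1p : 0 ≤ C1 := by linarith
  have hex := Real.exp_pos 1
  calc 4 * D / ε * (τ * |m|)
      ≤ 4 * D / ε * (ε ^ 2 * (4 * (C1 * Real.exp 1)) * A.G y
        + (2 * (C2 * ε ^ 2 * Real.exp 1 * A.G y) + (C3 * (ε / 4 * A.be + (ε / 4) ^ 2 / 2)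
        + C4 * (ε / 4) * (1 / Real.sqrt A.s2)) * A.G y)) := by gcongr
    _ = 4 * D * ((4 * (C1 * Real.exp 1) + 2 * (C2 * Real.exp 1) + C3 / 32) * ε + C3 / 4 * A.be
        + C4 / 4 * (1 / Real.sqrt A.s2)) * A.G y := by
        field_simp
        ring
    _ ≤ 4 * D * ((4 * (C1 * Real.exp 1) + 2 * (C2 * Real.exp 1) + C3 + C4) *
        (A.be + 1 / Real.sqrt A.s2 + ε)) * A.G y := by
        refine mul_le_mul_of_nonneg_right (mul_le_mul_of_nonneg_left ?_ (by positivity)) hG0.le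
        set a1 := C1 * Real.exp 1 with ha1
        set a2 := C2 * Real.exp 1 with ha2
        have ha10 : 0 ≤ a1 := by positivity
        have ha20 : 0 ≤ a2 := by positivity
        set X := 1 / Real.sqrt A.s2 with hXd
        nlinarith [mul_nonneg ha10 hbe.le, mul_nonneg ha10 hX, mul_nonneg ha20 hbe.le,
          mul_nonneg ha20 hX, mul_nonneg hC3 hbe.le, mul_nonneg hC3 hX, mul_nonneg hC3 hεp.le,
          mul_nonneg hC40 hbe.le, mul_nonneg hC40 hX, mul_nonneg hC40 hεp.le]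
    _ = _ := by ring

end A4x

open A4x

/-- A4 -/
theorem signMean (h : ExpW) (hM : WMain) (hG : WGauss) (hT : WTransfer) (hN : GroupNum) :
    SignMean := by
  obtain ⟨C, hC, h1⟩ := torus h hM hG hN
  obtain ⟨C', hC', hT⟩ := hT
  refine ⟨C + C' + 1, 3, by linarith, le_rfl, fun A hA _ T hT0 hL c hc D hD hc1 hc2 x y => ?_⟩
  have hTp : 0 < T := by linarith
  obtain ⟨-, -, -, n4, -, -, -, -⟩ := hN A hA
  have hY := hA.hY
  have hG0 := hA.G_pos y
  have hbe := hA.hbe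
  have hU : ∀ p ∈ A.U, p.Prime ∧ (p : ℝ) ≤ Real.exp A.Y := by
    intro p hp
    have := (n4 p).mp hp
    exact ⟨this.1, this.2.2⟩
  have hc2' : ∀ p ∈ A.U, ‖c p‖ ≤ 2 := by
    intro p hp
    refine (hc p).trans ?_
    have h1 : (1 : ℝ) ≤ p := by exact_mod_cast (hU p hp).1.one_le
    rw [div_le_iff₀ (Real.sqrt_pos.mpr (by linarith))]
    have : 1 ≤ Real.sqrt p := by rwa [Real.one_le_sqrt]
    linarith
  have htp := (lin_tp (by linarith) hU zero_le_two hc2').re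
  have k3 := (hT A hA ∅ (Finset.empty_subset _) 0 0 (by simp) (by simp) _ _
    (fun z => (((lin A.U c z).re : ℝ) : ℂ)) (Real.one_le_exp (by linarith)) htp x T y hTp).1
  have k4 := abs_mean_sub_le (A := A) (s := ∅) (x := x) (y := y)
    (H := fun z => (lin A.U c z).re) k3
  have hK := K_ge hA
  have hv : (4 : ℝ) ≤ A.v := by exact_mod_cast hA.hv
  have hKY : 4 * A.Y ≤ A.v * A.Y := by nlinarith
  have k6 := err_le hN hA hT0 hL y (D := 2 * Real.exp A.Y * Real.exp A.Y) (by positivity) (by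
      have e : 2 * Real.exp A.Y * Real.exp A.Y = 2 * Real.exp (2 * A.Y) := by
        rw [show 2 * A.Y = A.Y + A.Y by ring, Real.exp_add]
        ring
      have h4' : (2 : ℝ) ≤ Real.exp (A.v * A.Y) := by
        have := Real.add_one_le_exp (A.v * A.Y)
        linarith
      rw [e]
      calc 2 * Real.exp (2 * A.Y) ≤ Real.exp (A.v * A.Y) * Real.exp (A.v * A.Y) := by
            gcongr
            linarith
        _ = Real.exp (A.v * A.Y + A.v * A.Y) := by rw [Real.exp_add]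
        _ ≤ _ := Real.exp_le_exp.mpr (by linarith))
  have h8 : 0 ≤ ∑ g ∈ Finset.range A.J, (A.r g : ℝ) := Finset.sum_nonneg fun _ _ => by positivity
  have h10 : Real.exp (-∑ g ∈ Finset.range A.J, (A.r g : ℝ)) ≤ 1 :=
    Real.exp_le_one_iff.mpr (by linarith)
  have hsT : 0 ≤ 1 / Real.sqrt T := by positivity
  have k7 : Real.exp (-(A.be * y)) * (Real.exp (2 * 10 ^ 7 * A.v * A.Y) *
      (2 * Real.exp A.Y * Real.exp A.Y / T)) ≤ 1 / Real.sqrt T * A.G y := by
    refine k6.trans ?_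
    have e : A.G y / Real.sqrt T = 1 / Real.sqrt T * A.G y := by ring
    rw [e]
    have h12 : 0 ≤ 1 / Real.sqrt T * A.G y := by positivity
    nlinarith
  have k8 := h1 A hA c hc D hD hc1 hc2 y
  have k9 : Real.sqrt (Real.exp (-A.v) + 1 / A.p0) ≤ Real.exp (-(A.v / 2 : ℝ)) + 1 / Real.sqrt A.p0 := by
    have e1 : Real.exp (-(A.v : ℝ)) = Real.exp (-(A.v / 2 : ℝ)) ^ 2 := by
      rw [← Real.exp_nat_mul]
      congr 1
      push_cast
      ring
    have hp0 : (0 : ℝ) < A.p0 := by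
      have := hA.hp
      positivity
    have e2 : 1 / (A.p0 : ℝ) = (1 / Real.sqrt A.p0) ^ 2 := by
      rw [div_pow, one_pow, Real.sq_sqrt hp0.le]
    rw [e1, e2]
    refine Real.sqrt_le_iff.mpr ⟨by positivity, ?_⟩
    have h3 := Real.exp_pos (-(A.v / 2 : ℝ))
    have h4 : 0 ≤ 1 / Real.sqrt A.p0 := by positivity
    nlinarith [mul_nonneg h3.le h4]
  have k10 : |∫ t, A.W ∅ y (om t) * (lin A.U c (om t)).re ∂(un x T)|
      ≤ |∫ z, A.W ∅ y z * (lin A.U c z).re ∂mu| + C' * (1 / Real.sqrt T * A.G y) := by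
    have h3 : |∫ t, A.W ∅ y (om t) * (lin A.U c (om t)).re ∂(un x T)
        - ∫ z, A.W ∅ y z * (lin A.U c z).re ∂mu| ≤ C' * (1 / Real.sqrt T * A.G y) :=
      k4.trans (mul_le_mul_of_nonneg_left k7 hC')
    have h4 := abs_sub_abs_le_abs_sub (∫ t, A.W ∅ y (om t) * (lin A.U c (om t)).re ∂(un x T))
      (∫ z, A.W ∅ y z * (lin A.U c z).re ∂mu)
    linarith
  refine k10.trans ?_
  set X := 1 / Real.sqrt A.s2 with hX
  have hX0 : 0 ≤ X := by positivity
  set ev := Real.exp (-(A.v / 2 : ℝ)) with hev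
  have hev0 : 0 < ev := Real.exp_pos _
  set P := 1 / Real.sqrt A.p0 with hP
  have hP0 : 0 ≤ P := by positivity
  set R := 1 / Real.sqrt T with hR
  have hDD : D ≤ D ^ 2 := by nlinarith
  have hDD1 : 1 ≤ D ^ 2 := by nlinarith
  have hS0 : 0 ≤ A.be + X + ev + P + R := by positivity
  calc |∫ z, A.W ∅ y z * (lin A.U c z).re ∂mu| + C' * (R * A.G y)
      ≤ C * D * (A.be + X + Real.sqrt (Real.exp (-A.v) + 1 / A.p0)) * A.G y + C' * (R * A.G y) := by
        gcongr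
    _ ≤ C * D ^ 2 * (A.be + X + ev + P + R) * A.G y + C' * (D ^ 2 * (A.be + X + ev + P + R) * A.G y) := by
        refine add_le_add ?_ ?_
        · refine mul_le_mul_of_nonneg_right ?_ hG0.le
          refine mul_le_mul (by gcongr) (by linarith) (by positivity) (by positivity)
        · refine mul_le_mul_of_nonneg_left ?_ hC'
          refine mul_le_mul_of_nonneg_right ?_ hG0.le
          nlinarith
    _ ≤ _ := by
        have h3 : 0 ≤ D ^ 2 * (A.be + X + ev + P + R) * A.G y := by positivity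
        nlinarith

end Pool.Agent.Lib.RA
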