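import Mathlib
import Pool.Agent.Lib.MP_f9aece_nt_gt.F1
import Pool.Agent.Lib.MP_f9aece_nt_gt.Cont
import Pool.Agent.Lib.MP_f9aece_nt_rate.Stmts

/-!
A5: from the weights to the windows.
-/

set_option autoImplicit false

namespace Pool.Agent.Lib.RA

open MeasureTheory Set Filter Topology Complex ProbabilityTheory
open scoped ComplexConjugate
open Pool.Agent.Lib.GT

namespace A5x

/-- the windows are bounded by the envelope -/
lemma HH_le {Cp : ℝ} (hpsi : ∀ r : ℝ, ‖psi r‖ ≤ Cp / (1 + r ^ 2)) (hc0 : 0 < c0)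
    {be b : ℝ} (hb : 0 ≤ b) (y x : ℝ) :
    HH be b y x ≤ Cp ^ 2 / c0 * Env be b y x := by
  unfold HH Env
  have h1 : ‖psi (b * (x - y))‖ ^ 2 ≤ Cp ^ 2 / (1 + (b * (x - y)) ^ 2) := by
    have h2 : (1 : ℝ) ≤ 1 + (b * (x - y)) ^ 2 := by nlinarith [sq_nonneg (b * (x - y))]
    calc ‖psi (b * (x - y))‖ ^ 2 ≤ (Cp / (1 + (b * (x - y)) ^ 2)) ^ 2 :=
          pow_le_pow_left₀ (norm_nonneg _) (hpsi _) 2
      _ = Cp ^ 2 / (1 + (b * (x - y)) ^ 2) ^ 2 := by rw [div_pow]
      _ ≤ Cp ^ 2 / (1 + (b * (x - y)) ^ 2) := by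
          apply div_le_div_of_nonneg_left (sq_nonneg _) (by linarith)
          calc (1 + (b * (x - y)) ^ 2) = (1 + (b * (x - y)) ^ 2) ^ 1 := (pow_one _).symm
            _ ≤ (1 + (b * (x - y)) ^ 2) ^ 2 := pow_le_pow_right₀ h2 (by norm_num)
  calc b / c0 * (Real.exp (be * (x - y)) * ‖psi (b * (x - y))‖ ^ 2)
      ≤ b / c0 * (Real.exp (be * (x - y)) * (Cp ^ 2 / (1 + (b * (x - y)) ^ 2))) := by
        gcongr
    _ = Cp ^ 2 / c0 * (b * (Real.exp (be * (x - y)) / (1 + (b * (x - y)) ^ 2))) := by ring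

lemma Env_nonneg {be b : ℝ} (hb : 0 ≤ b) (y x : ℝ) : 0 ≤ Env be b y x := by
  unfold Env
  positivity

/-- the integral of the kernel -/
lemma lint_ker {b : ℝ} (hb : 0 < b) (y : ℝ) :
    ∫⁻ y' : ℝ, ENNReal.ofReal (1 / (1 + (b * (y' - y)) ^ 2)) = ENNReal.ofReal (Real.pi / b) := by
  have h1 : Integrable fun z : ℝ => (1 + (b * z) ^ 2)⁻¹ :=
    integrable_inv_one_add_sq.comp_mul_left' hb.ne'
  have h2 : Integrable fun y' : ℝ => (1 + (b * (y' - y)) ^ 2)⁻¹ := h1.comp_sub_right y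
  have h3 : ∫ y' : ℝ, (1 + (b * (y' - y)) ^ 2)⁻¹ = Real.pi / b := by
    rw [integral_sub_right_eq_self (fun z : ℝ => (1 + (b * z) ^ 2)⁻¹) y,
      Measure.integral_comp_mul_left (fun z : ℝ => (1 + z ^ 2)⁻¹) b, integral_univ_inv_one_add_sq,
      abs_of_pos (by positivity), smul_eq_mul]
    field_simp
  simp only [one_div]
  rw [← ofReal_integral_eq_lintegral_ofReal h2 (Eventually.of_forall fun y' => by positivity), h3]

end A5x

open A5x in
/-- A5: from the weights to the windows -/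
theorem winUp (hP : WPoint) (hW : PsiBd) : WinUp := by
  obtain ⟨C, C1, v0, hC, hC1, hp⟩ := hP
  obtain ⟨Cp, hCp, hpsi, hcont, hc0, hint⟩ := hW
  set K : ℝ := Cp ^ 2 / c0 + 1 with hK
  have hK1 : 1 ≤ K := by
    have : 0 ≤ Cp ^ 2 / c0 := by positivity
    linarith
  have hpi : 1 ≤ Real.pi := by linarith [Real.pi_gt_three]
  refine ⟨K * C * Real.pi, v0, ?_, ?_⟩
  · exact one_le_mul_of_one_le_of_one_le (one_le_mul_of_one_le_of_one_le hK1 hC) hpi
  intro A hA hv hb m hm κ hκ H hH hWm y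
  have hb0 : 0 < A.b := hA.hbe.trans_le hA.hbb
  have hmW : Measurable fun p : ℝ × ℝ => ENNReal.ofReal (A.W ∅ p.2 (om p.1)) :=
    (F1.cont_W_om A ∅).measurable.ennreal_ofReal
  have hmy : ∀ t : ℝ, Measurable fun y : ℝ => ENNReal.ofReal (A.W ∅ y (om t)) := fun t =>
    ((F1.cont_W_om A ∅).comp (Continuous.prodMk_right t)).measurable.ennreal_ofReal
  have hmt : ∀ y : ℝ, Measurable fun t : ℝ => ENNReal.ofReal (A.W ∅ y (om t)) := fun y =>
    ((F1.cont_W_om A ∅).comp (Continuous.prodMk_left y)).measurable.ennreal_ofReal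
  -- the kernel
  set k : ℝ → ENNReal := fun y' =>
    ENNReal.ofReal (Real.exp (A.be * (y' - y)) / (1 + (A.b * (y' - y)) ^ 2)) with hk
  have hkm : Measurable k := by
    refine Measurable.ennreal_ofReal ?_
    have : Continuous fun y' : ℝ => Real.exp (A.be * (y' - y)) / (1 + (A.b * (y' - y)) ^ 2) := by
      refine Continuous.div (by fun_prop) (by fun_prop) fun y' => ?_
      positivity
    exact this.measurable
  have hm2 : Measurable fun p : ℝ × ℝ => k p.2 * ENNReal.ofReal (A.W ∅ p.2 (om p.1)) * H p.1 :=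
    ((hkm.comp measurable_snd).mul hmW).mul (hH.comp measurable_fst)
  have hm1 : Measurable fun t : ℝ => ∫⁻ y' : ℝ, k y' * ENNReal.ofReal (A.W ∅ y' (om t)) * H t :=
    hm2.lintegral_prod_right'
  -- pointwise
  have hpt : ∀ t ∈ {t | A.Good ∅ (om t)}, ENNReal.ofReal (HH A.be A.b y (A.X ∅ (om t))
      + Env A.be A.b y (A.X ∅ (om t))) * H t ≤
      ENNReal.ofReal (K * (C * A.b)) *
        ∫⁻ y' : ℝ, k y' * ENNReal.ofReal (A.W ∅ y' (om t)) * H t := by
    intro t ht
    obtain ⟨_, _, h3, _, _⟩ := hp A hA hv ∅ (Finset.empty_subset _) (om t) ht (by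
      intro g hg
      simp at hg)
    have h3' := h3 y
    set X : ℝ := A.X ∅ (om t) with hX
    have e0 := Env_nonneg (be := A.be) hb0.le y X
    have e1 : HH A.be A.b y X + Env A.be A.b y X ≤ K * Env A.be A.b y X := by
      have := HH_le hpsi hc0 (be := A.be) hb0.le y X
      rw [hK, add_mul, one_mul]
      linarith
    have hmy2 : Measurable fun y' : ℝ => k y' * ENNReal.ofReal (A.W ∅ y' (om t)) :=
      hkm.mul (hmy t)
    rw [lintegral_mul_const _ hmy2, ← mul_assoc]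
    refine mul_le_mul_left ?_ _
    calc ENNReal.ofReal (HH A.be A.b y X + Env A.be A.b y X)
        ≤ ENNReal.ofReal (K * Env A.be A.b y X) := ENNReal.ofReal_le_ofReal e1
      _ = ENNReal.ofReal K * ENNReal.ofReal (Env A.be A.b y X) := by
          rw [ENNReal.ofReal_mul (by linarith)]
      _ ≤ ENNReal.ofReal K * (ENNReal.ofReal (C * A.b) *
          ∫⁻ y', ENNReal.ofReal (Real.exp (A.be * (y' - y)) / (1 + (A.b * (y' - y)) ^ 2)
            * A.W ∅ y' (om t))) := mul_le_mul_right h3' _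
      _ = ENNReal.ofReal (K * (C * A.b)) *
          ∫⁻ y', k y' * ENNReal.ofReal (A.W ∅ y' (om t)) := by
          rw [ENNReal.ofReal_mul (p := K) (by linarith), mul_assoc]
          congr 2
          refine lintegral_congr fun y' => ?_
          rw [ENNReal.ofReal_mul (by positivity)]
  have hG0 : 0 ≤ A.G y := (hA.G_pos y).le
  calc ∫⁻ t in {t | A.Good ∅ (om t)}, ENNReal.ofReal (HH A.be A.b y (A.X ∅ (om t))
      + Env A.be A.b y (A.X ∅ (om t))) * H t ∂m
      ≤ ∫⁻ t in {t | A.Good ∅ (om t)}, (ENNReal.ofReal (K * (C * A.b)) *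
        ∫⁻ y' : ℝ, k y' * ENNReal.ofReal (A.W ∅ y' (om t)) * H t) ∂m :=
        setLIntegral_mono (hm1.const_mul _) hpt
    _ ≤ ∫⁻ t, (ENNReal.ofReal (K * (C * A.b)) *
        ∫⁻ y' : ℝ, k y' * ENNReal.ofReal (A.W ∅ y' (om t)) * H t) ∂m :=
        setLIntegral_le_lintegral _ _
    _ = ENNReal.ofReal (K * (C * A.b)) *
        ∫⁻ t, (∫⁻ y' : ℝ, k y' * ENNReal.ofReal (A.W ∅ y' (om t)) * H t) ∂m := by
        rw [lintegral_const_mul _ hm1]
    _ = ENNReal.ofReal (K * (C * A.b)) *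
        ∫⁻ y' : ℝ, (∫⁻ t, k y' * ENNReal.ofReal (A.W ∅ y' (om t)) * H t ∂m) := by
        rw [lintegral_lintegral_swap hm2.aemeasurable]
    _ ≤ ENNReal.ofReal (K * (C * A.b)) * ∫⁻ y' : ℝ, ENNReal.ofReal (κ * A.G y) *
          ENNReal.ofReal (1 / (1 + (A.b * (y' - y)) ^ 2)) := by
        refine mul_le_mul_right (lintegral_mono fun y' => ?_) _
        have e1 : ∀ t : ℝ, k y' * ENNReal.ofReal (A.W ∅ y' (om t)) * H t =
            k y' * (ENNReal.ofReal (A.W ∅ y' (om t)) * H t) := fun t => mul_assoc _ _ _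
        simp_rw [e1]
        have hmt2 : Measurable fun t : ℝ => ENNReal.ofReal (A.W ∅ y' (om t)) * H t := (hmt y').mul hH
        rw [lintegral_const_mul _ hmt2]
        calc k y' * ∫⁻ t, ENNReal.ofReal (A.W ∅ y' (om t)) * H t ∂m
            ≤ k y' * ENNReal.ofReal (κ * A.G y') := mul_le_mul_right (hWm y') _
          _ = ENNReal.ofReal (κ * A.G y) * ENNReal.ofReal (1 / (1 + (A.b * (y' - y)) ^ 2)) := by
            rw [hk, ← ENNReal.ofReal_mul (by positivity),
              ← ENNReal.ofReal_mul (mul_nonneg hκ hG0)]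
            congr 1
            rw [A.G_shift y' y, Real.exp_neg]
            have := Real.exp_pos (A.be * (y' - y))
            field_simp
    _ = ENNReal.ofReal (K * (C * A.b)) * (ENNReal.ofReal (κ * A.G y) *
          ENNReal.ofReal (Real.pi / A.b)) := by
        rw [lintegral_const_mul' _ _ ENNReal.ofReal_ne_top, lint_ker hb0]
    _ = ENNReal.ofReal (K * C * Real.pi * κ * A.G y) := by
        have hCb : 0 ≤ K * (C * A.b) := by positivity
        rw [← ENNReal.ofReal_mul (mul_nonneg hκ hG0), ← ENNReal.ofReal_mul hCb]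
        congr 1
        field_simp

end Pool.Agent.Lib.RA
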