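import Mathlib
import Pool.Agent.Lib.MP_f9aece_nt_gt.F3
import Pool.Agent.Lib.MP_f9aece_nt_rate.Stmts

/-!
A6: the windows at the good heights, main term.
-/

set_option autoImplicit false

namespace Pool.Agent.Lib.RA

open MeasureTheory Set Filter Topology Complex ProbabilityTheory
open Pool.Agent.Lib.GT
open Pool.Agent.Lib.GT.F3

namespace A6x

lemma cont_lin_om (S : Finset ℕ) (c : ℕ → ℂ) : Continuous fun t : ℝ => (lin S c (om t)).re := by
  have h : Continuous fun t : ℝ => lin S c (om t) := (GT.F1.cont_lin S c).comp continuous_om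
  exact Complex.continuous_re.comp h

lemma cont_X_om (A : Par) : Continuous fun t : ℝ => A.X ∅ (om t) :=
  (GT.F1.cont_X A ∅).comp continuous_om

/-- the data at the good heights: the weights are integrable, the windows and the envelopes too, and
the envelopes times a nonnegative function have small mass -/
lemma env_bd {A : Par} (hOk : A.Ok) {m : Measure ℝ} [SFinite m] {Cu κ : ℝ} (hCu : 1 ≤ Cu)
    (hκ : 0 ≤ κ) {H : ℝ → ℝ} (hH : Continuous H) (hH0 : ∀ t, 0 ≤ H t)
    (hU : ∀ y : ℝ, ∫⁻ t in {t | A.Good ∅ (om t)}, ENNReal.ofReal (HH A.be A.b y (A.X ∅ (om t))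
      + Env A.be A.b y (A.X ∅ (om t))) * ENNReal.ofReal (H t) ∂m
        ≤ ENNReal.ofReal (Cu * κ * A.G y)) (y : ℝ) :
    IntegrableOn (fun t => Env A.be A.b y (A.X ∅ (om t)) * H t) {t | A.Good ∅ (om t)} m ∧
    (∫ t in {t | A.Good ∅ (om t)}, Env A.be A.b y (A.X ∅ (om t)) * H t ∂m ≤ Cu * κ * A.G y) ∧
    IntegrableOn (fun t => HH A.be A.b y (A.X ∅ (om t)) * H t) {t | A.Good ∅ (om t)} m := by
  have hb0 : 0 < A.b := hOk.hbe.trans_le hOk.hbb
  have hG0 : 0 ≤ A.G y := by unfold Par.G; positivity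
  have hE0 : ∀ z, 0 ≤ Env A.be A.b y z := fun z => by unfold Env; positivity
  have hHH0 : ∀ z, 0 ≤ HH A.be A.b y z := fun z => by
    unfold HH
    have : 0 ≤ c0 := integral_nonneg fun _ => by positivity
    positivity
  have hXc := cont_X_om A
  have h1 : ∫⁻ t in {t | A.Good ∅ (om t)}, ENNReal.ofReal (Env A.be A.b y (A.X ∅ (om t)) * H t) ∂m
      ≤ ENNReal.ofReal (Cu * κ * A.G y) := by
    refine le_trans (lintegral_mono fun t => ?_) (hU y)
    rw [ENNReal.ofReal_mul (hE0 _)]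
    exact mul_le_mul' (ENNReal.ofReal_le_ofReal (by linarith [hHH0 (A.X ∅ (om t))])) le_rfl
  have h2 : ∫⁻ t in {t | A.Good ∅ (om t)}, ENNReal.ofReal (HH A.be A.b y (A.X ∅ (om t)) * H t) ∂m
      ≤ ENNReal.ofReal (Cu * κ * A.G y) := by
    refine le_trans (lintegral_mono fun t => ?_) (hU y)
    rw [ENNReal.ofReal_mul (hHH0 _)]
    exact mul_le_mul' (ENNReal.ofReal_le_ofReal (by linarith [hE0 (A.X ∅ (om t))])) le_rfl
  have hpos : 0 ≤ Cu * κ * A.G y := by positivity
  have i1 := int_of_lint (((cont_Env A.be A.b y).comp hXc).mul hH).aestronglyMeasurable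
    (fun t => mul_nonneg (hE0 _) (hH0 t)) hpos h1
  have i2 := int_of_lint (((cont_HH A.be A.b y).comp hXc).mul hH).aestronglyMeasurable
    (fun t => mul_nonneg (hHH0 _) (hH0 t)) hpos h2
  exact ⟨i1.1, i1.2, i2.1⟩

end A6x

open A6x

/-- A6 -/
theorem winMain (hA : WAsym) (hM : WMean) (hC : CrossBad) (hP : WPoint) (hU : WinUp) : WinMain := by
  obtain ⟨Ca, Ta, hCa, hTa, hA⟩ := hA
  obtain ⟨Cm, Tm, hCm, hTm, hM⟩ := hM
  obtain ⟨Cc, Tc, hCc, hTc, hC⟩ := hC
  obtain ⟨Cp, C1, v0, hCp, hC1, hP⟩ := hP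
  obtain ⟨Cu, v1, hCu, hU⟩ := hU
  refine ⟨Cp * Cu * Cm + Cc + 1 + Ca, max Ta (max Tm Tc), max v0 v1, ?_,
    hTa.trans (le_max_left _ _), ?_⟩
  · have : 0 ≤ Cp * Cu * Cm := by positivity
    linarith
  intro A hOk hv hb20 T hT hLen x κ F hκ hF hFW y
  have hTa' : Ta ≤ T := (le_max_left _ _).trans hT
  have hTm' : Tm ≤ T := ((le_max_left _ _).trans (le_max_right _ _)).trans hT
  have hTc' : Tc ≤ T := ((le_max_right _ _).trans (le_max_right _ _)).trans hT
  have hv0 : v0 ≤ A.v := (le_max_left _ _).trans hv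
  have hv1 : v1 ≤ A.v := (le_max_right _ _).trans hv
  have hT0 : 0 < T := by linarith
  have hb0 : 0 < A.b := hOk.hbe.trans_le hOk.hbb
  have hG0 : ∀ y, 0 ≤ A.G y := fun y => by unfold Par.G; positivity
  have := prob_un x hT0
  set E0 : Set ℝ := {t : ℝ | A.Good ∅ (om t)} with hE0
  have hE0m : MeasurableSet E0 := (closed_good A ∅).measurableSet
  have hWc : ∀ y : ℝ, Continuous fun t : ℝ => A.W ∅ y (om t) := fun y => cont_W A ∅ y
  have hW0 : ∀ y t, 0 ≤ A.W ∅ y (om t) := fun y t => W_nonneg A hb0.le _ _ _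
  have hWl : ∀ y : ℝ, ∫⁻ t, ENNReal.ofReal (A.W ∅ y (om t)) ∂(un x T) ≤
      ENNReal.ofReal (Cm * A.G y) := by
    intro y
    have h1 := hM A hOk T hTm' hLen x y ∅ (Finset.empty_subset _)
    simpa using h1
  have hWi : Integrable (fun t => A.W ∅ y (om t)) (un x T) :=
    (int_of_lint (hWc y).aestronglyMeasurable (hW0 y)
      (mul_nonneg (by linarith) (hG0 y)) (hWl y)).1
  -- the envelopes
  obtain ⟨e1, e2, e3⟩ := env_bd hOk (m := un x T) hCu (κ := Cm) (by linarith) (H := fun _ => 1)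
    continuous_const (fun _ => zero_le_one) (by
      intro y
      exact hU A hOk hv1 hb20 (un x T) inferInstance Cm (by linarith) (fun _ => ENNReal.ofReal 1)
        measurable_const (by intro y; simpa using hWl y) y) y
  simp only [mul_one] at e1 e2 e3
  -- the difference
  have hd : ∀ t ∈ E0, |HH A.be A.b y (A.X ∅ (om t)) - A.W ∅ y (om t)| ≤
      Cp * Real.exp (-A.v) * Env A.be A.b y (A.X ∅ (om t)) := by
    intro t ht
    rw [abs_sub_comm]
    exact (hP A hOk hv0 ∅ (Finset.empty_subset _) (om t) ht (by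
      intro g hg
      exact absurd hg (Finset.notMem_empty g))).2.2.2.1 rfl y
  have hSm : MeasurableSet (E0 ∩ F) := hE0m.inter hF
  have hHi : IntegrableOn (fun t => HH A.be A.b y (A.X ∅ (om t))) (E0 ∩ F) (un x T) :=
    e3.mono_set inter_subset_left
  have b1 : |∫ t in E0 ∩ F, (HH A.be A.b y (A.X ∅ (om t)) - A.W ∅ y (om t)) ∂(un x T)| ≤
      Cp * Real.exp (-A.v) * (Cu * Cm * A.G y) := by
    rw [← Real.norm_eq_abs]
    refine (norm_integral_le_of_norm_le
      ((e1.mono_set inter_subset_left).const_mul (Cp * Real.exp (-A.v))) ?_).trans ?_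
    · filter_upwards [ae_restrict_mem hSm] with t ht
      rw [Real.norm_eq_abs]
      exact hd t ht.1
    · rw [integral_const_mul]
      refine mul_le_mul_of_nonneg_left (le_trans ?_ e2) (by positivity)
      exact setIntegral_mono_set e1 (Eventually.of_forall fun t => by
        change 0 ≤ Env A.be A.b y (A.X ∅ (om t))
        unfold Env
        positivity) inter_subset_left.eventuallyLE
  -- the complement
  have b2 : |∫ t in (E0 ∩ F)ᶜ, A.W ∅ y (om t) ∂(un x T)| ≤ (Cc * Real.exp (-A.v) + κ) * A.G y := by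
    have h1 : ∫⁻ t in (E0 ∩ F)ᶜ, ENNReal.ofReal (A.W ∅ y (om t)) ∂(un x T) ≤
        ENNReal.ofReal ((Cc * Real.exp (-A.v) + κ) * A.G y) := by
      rw [compl_inter]
      refine (lintegral_union_le _ _ _).trans ?_
      rw [add_mul, ENNReal.ofReal_add (mul_nonneg (by positivity) (hG0 y))
        (mul_nonneg hκ (hG0 y))]
      exact add_le_add (hC A A hOk hOk T hTc' hLen hLen x y) (hFW y)
    have h2 := int_of_lint (hWc y).aestronglyMeasurable (hW0 y)
      (mul_nonneg (by positivity) (hG0 y)) h1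
    rw [abs_of_nonneg (integral_nonneg fun t => hW0 y t)]
    exact h2.2
  have b3 := hA A hOk T hTa' hLen x y
  have e4 : (∫ t in E0 ∩ F, HH A.be A.b y (A.X ∅ (om t)) ∂(un x T)) - gw A y =
      (∫ t in E0 ∩ F, (HH A.be A.b y (A.X ∅ (om t)) - A.W ∅ y (om t)) ∂(un x T)) -
        (∫ t in (E0 ∩ F)ᶜ, A.W ∅ y (om t) ∂(un x T)) +
        ((∫ t, A.W ∅ y (om t) ∂(un x T)) -
          ∫ z, HH A.be A.b y z ∂(gaussianReal 0 (Real.toNNReal A.s2))) := by
    rw [integral_sub hHi hWi.integrableOn, ← integral_add_compl hSm hWi]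
    unfold gw
    ring
  rw [e4]
  have hE1 : 0 ≤ 1 / (A.p0 : ℝ) := by positivity
  have hE2 : 0 ≤ 1 / Real.sqrt T := by positivity
  have hE3 : 0 < Real.exp (-A.v) := Real.exp_pos _
  refine (abs_add_le _ _).trans ((add_le_add ((abs_sub _ _).trans (add_le_add b1 b2)) b3).trans ?_)
  have hg := hG0 y
  set Ee : ℝ := Real.exp (-A.v) + 1 / A.p0 + 1 / Real.sqrt T + κ with hEe
  have hEe1 : Real.exp (-A.v) ≤ Ee := by rw [hEe]; linarith
  have hEe2 : κ ≤ Ee := by rw [hEe]; linarith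
  have hEe3 : Real.exp (-A.v) + 1 / A.p0 + 1 / Real.sqrt T ≤ Ee := by rw [hEe]; linarith
  have c1 : Cp * Real.exp (-A.v) * (Cu * Cm * A.G y) ≤ Cp * Cu * Cm * Ee * A.G y := by
    have : Cp * Cu * Cm * A.G y * Real.exp (-A.v) ≤ Cp * Cu * Cm * A.G y * Ee :=
      mul_le_mul_of_nonneg_left hEe1 (by positivity)
    linarith
  have c2 : (Cc * Real.exp (-A.v) + κ) * A.G y ≤ (Cc + 1) * Ee * A.G y := by
    refine mul_le_mul_of_nonneg_right ?_ hg
    have : Cc * Real.exp (-A.v) ≤ Cc * Ee := mul_le_mul_of_nonneg_left hEe1 (by linarith)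
    linarith
  have c3 : Ca * (Real.exp (-A.v) + 1 / A.p0 + 1 / Real.sqrt T) * A.G y ≤ Ca * Ee * A.G y :=
    mul_le_mul_of_nonneg_right (mul_le_mul_of_nonneg_left hEe3 (by linarith)) hg
  linarith

end Pool.Agent.Lib.RA
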