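import Mathlib
import Pool.Agent.Lib.MP_f9aece_nt_rate.A6

/-!
A7: the windows at the good heights and a linear form, with sign.
-/

set_option autoImplicit false

namespace Pool.Agent.Lib.RA

open MeasureTheory Set Filter Topology Complex ProbabilityTheory
open Pool.Agent.Lib.GT
open Pool.Agent.Lib.GT.F3
open A6x

namespace A7x

/-- `2 |d| ≤ θ d² + θ⁻¹` -/
lemma abs_le_sq {θ d : ℝ} (hθ : 0 < θ) : |d| ≤ θ / 2 * d ^ 2 + 1 / (2 * θ) := by
  have h1 : 0 ≤ (θ * |d| - 1) ^ 2 := sq_nonneg _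
  have h2 : |d| ^ 2 = d ^ 2 := sq_abs d
  have h3 : θ / 2 * d ^ 2 + 1 / (2 * θ) - |d| = (θ * |d| - 1) ^ 2 / (2 * θ) := by
    rw [← h2]
    field_simp
    ring
  have h4 : 0 ≤ (θ * |d| - 1) ^ 2 / (2 * θ) := by positivity
  linarith

lemma abs_le_tail {R d : ℝ} (hR : 0 < R) (h : R < |d|) : |d| ≤ 1 / R * d ^ 2 := by
  have h2 : |d| ^ 2 = d ^ 2 := sq_abs d
  rw [← h2, one_div, inv_mul_eq_div, le_div_iff₀ hR]
  nlinarith [abs_nonneg d]

end A7x

open A7x

/-- A7 -/
theorem winSign (hS : SignMean) (hL : LC.LinMean) (hM : WMean) (hC : CrossBad) (hP : WPoint)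
    (hU : WinUp) : WinSign := by
  obtain ⟨Cs, Ts, hCs, hTs, hS⟩ := hS
  obtain ⟨Cl, Tl, hCl, hTl, hL⟩ := hL
  obtain ⟨Cm, Tm, hCm, hTm, hM⟩ := hM
  obtain ⟨Cc, Tc, hCc, hTc, hC⟩ := hC
  obtain ⟨Cp, C1, v0, hCp, hC1, hP⟩ := hP
  obtain ⟨Cu, v1, hCu, hU⟩ := hU
  refine ⟨Cs + Cp * Cu * (Cl + Cm) + Cl + Cc, max (max Ts Tl) (max Tm Tc), max v0 v1, ?_,
    hTs.trans ((le_max_left _ _).trans (le_max_left _ _)), ?_⟩
  · have : 0 ≤ Cp * Cu * (Cl + Cm) := by positivity
    linarith
  intro A hOk hv hb20 T hT hLen x κ F hκ hF hFW c hc D hD hD1 hD2 R hR y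
  have hTs' : Ts ≤ T := ((le_max_left _ _).trans (le_max_left _ _)).trans hT
  have hTl' : Tl ≤ T := ((le_max_right _ _).trans (le_max_left _ _)).trans hT
  have hTm' : Tm ≤ T := ((le_max_left _ _).trans (le_max_right _ _)).trans hT
  have hTc' : Tc ≤ T := ((le_max_right _ _).trans (le_max_right _ _)).trans hT
  have hv0 : v0 ≤ A.v := (le_max_left _ _).trans hv
  have hv1 : v1 ≤ A.v := (le_max_right _ _).trans hv
  have hT0 : 0 < T := by linarith
  have hb0 : 0 < A.b := hOk.hbe.trans_le hOk.hbb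
  have hG0 : ∀ y, 0 ≤ A.G y := fun y => by unfold Par.G; positivity
  have := prob_un x hT0
  set E0 : Set ℝ := {t : ℝ | A.Good ∅ (om t)} with hE0
  have hE0m : MeasurableSet E0 := (closed_good A ∅).measurableSet
  obtain ⟨L, hLdef⟩ : ∃ L : ℝ → ℝ, L = fun t => (lin A.U c (om t)).re := ⟨_, rfl⟩
  have hLt : ∀ t, (lin A.U c (om t)).re = L t := fun t => by rw [hLdef]
  simp only [hLt]
  have hLc : Continuous L := by rw [hLdef]; exact cont_lin_om _ _
  have hWc : ∀ y : ℝ, Continuous fun t : ℝ => A.W ∅ y (om t) := fun y => cont_W A ∅ y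
  have hW0 : ∀ y t, 0 ≤ A.W ∅ y (om t) := fun y t => W_nonneg A hb0.le _ _ _
  have hD0 : 0 < D := by linarith
  have hD2' : 1 ≤ D ^ 2 := by nlinarith
  -- the mass of the weights
  have hWl : ∀ y : ℝ, ∫⁻ t, ENNReal.ofReal (A.W ∅ y (om t)) ∂(un x T) ≤
      ENNReal.ofReal (Cm * A.G y) := by
    intro y
    have h1 := hM A hOk T hTm' hLen x y ∅ (Finset.empty_subset _)
    simpa using h1
  have hW2 : ∀ y : ℝ, ∫⁻ t, ENNReal.ofReal (A.W ∅ y (om t) * L t ^ 2) ∂(un x T) ≤
      ENNReal.ofReal (Cl * D ^ 2 * A.G y) := by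
    intro y
    have h1 := hL A hOk T hTl' hLen x y ∅ (Finset.empty_subset _) c hc D hD (by simpa using hD1)
      (by simpa using hD2)
    simp only [hLt] at h1
    simpa using h1
  have i0 : Integrable (fun t => A.W ∅ y (om t)) (un x T) :=
    (int_of_lint (hWc y).aestronglyMeasurable (hW0 y)
      (mul_nonneg (by linarith) (hG0 y)) (hWl y)).1
  have i2 := int_of_lint ((hWc y).mul (hLc.pow 2)).aestronglyMeasurable
    (fun t => mul_nonneg (hW0 y t) (sq_nonneg _)) (mul_nonneg (by positivity) (hG0 y)) (hW2 y)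
  have i2a : Integrable (fun t => A.W ∅ y (om t) * L t ^ 2) (un x T) := i2.1
  have i2b : ∫ t, A.W ∅ y (om t) * L t ^ 2 ∂(un x T) ≤ Cl * D ^ 2 * A.G y := i2.2
  have i1 : Integrable (fun t => A.W ∅ y (om t) * L t) (un x T) := by
    refine (i0.add i2a).mono' ((hWc y).mul hLc).aestronglyMeasurable
      (Eventually.of_forall fun t => ?_)
    rw [Real.norm_eq_abs, abs_mul, abs_of_nonneg (hW0 y t)]
    have h1 := abs_le_sq (θ := 1) (d := L t) one_pos
    have h2 := hW0 y t
    change A.W ∅ y (om t) * |L t| ≤ A.W ∅ y (om t) + A.W ∅ y (om t) * L t ^ 2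
    nlinarith [sq_nonneg (L t)]
  -- the envelopes
  obtain ⟨e1, e2, e3⟩ := env_bd hOk (m := un x T) hCu (κ := (Cl + Cm) * D ^ 2)
    (by positivity) (H := fun t => |L t|)
    hLc.abs (fun _ => abs_nonneg _) (by
      intro y
      refine hU A hOk hv1 hb20 (un x T) inferInstance ((Cl + Cm) * D ^ 2) (by positivity)
        (fun t => ENNReal.ofReal |L t|) (by fun_prop) ?_ y
      intro y
      have h1 : ∀ t, ENNReal.ofReal (A.W ∅ y (om t)) * ENNReal.ofReal |L t| ≤
          ENNReal.ofReal (A.W ∅ y (om t)) + ENNReal.ofReal (A.W ∅ y (om t) * L t ^ 2) := by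
        intro t
        rw [← ENNReal.ofReal_mul (hW0 y t), ← ENNReal.ofReal_add (hW0 y t)
          (mul_nonneg (hW0 y t) (sq_nonneg _))]
        refine ENNReal.ofReal_le_ofReal ?_
        have h1 := abs_le_sq (θ := 1) (d := L t) one_pos
        have h2 := hW0 y t
        nlinarith [sq_nonneg (L t)]
      refine (lintegral_mono h1).trans ?_
      rw [lintegral_add_left (by exact (hWc y).measurable.ennreal_ofReal)]
      refine (add_le_add (hWl y) (hW2 y)).trans ?_
      rw [← ENNReal.ofReal_add (mul_nonneg (by linarith) (hG0 y))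
        (mul_nonneg (by positivity) (hG0 y))]
      refine ENNReal.ofReal_le_ofReal ?_
      have h3 : Cm * A.G y ≤ Cm * D ^ 2 * A.G y := by
        refine mul_le_mul_of_nonneg_right ?_ (hG0 y)
        nlinarith
      nlinarith) y
  -- the set
  set S : Set ℝ := E0 ∩ F ∩ {t | |L t| ≤ R} with hSdef
  have hRm : MeasurableSet {t | |L t| ≤ R} := measurableSet_le hLc.abs.measurable measurable_const
  have hSm : MeasurableSet S := (hE0m.inter hF).inter hRm
  have hSE : S ⊆ E0 := fun t ht => ht.1.1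
  -- the difference
  have hd : ∀ t ∈ E0, |HH A.be A.b y (A.X ∅ (om t)) - A.W ∅ y (om t)| ≤
      Cp * Real.exp (-A.v) * Env A.be A.b y (A.X ∅ (om t)) := by
    intro t ht
    rw [abs_sub_comm]
    exact (hP A hOk hv0 ∅ (Finset.empty_subset _) (om t) ht (by
      intro g hg
      exact absurd hg (Finset.notMem_empty g))).2.2.2.1 rfl y
  have hXc := cont_X_om A
  have hHHi : IntegrableOn (fun t => L t * HH A.be A.b y (A.X ∅ (om t))) S (un x T) := by
    refine (e3.mono_set hSE).mono' ((hLc.mul ((cont_HH _ _ y).comp hXc)).aestronglyMeasurable)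
      (Eventually.of_forall fun t => ?_)
    have h0 : 0 ≤ HH A.be A.b y (A.X ∅ (om t)) := by
      unfold HH
      have : 0 ≤ c0 := integral_nonneg fun _ => by positivity
      positivity
    change ‖L t * HH A.be A.b y (A.X ∅ (om t))‖ ≤ _
    rw [Real.norm_eq_abs, abs_mul, abs_of_nonneg h0, mul_comm]
  have i1' : Integrable (fun t => L t * A.W ∅ y (om t)) (un x T) := by
    refine i1.congr (Eventually.of_forall fun t => ?_)
    change A.W ∅ y (om t) * L t = L t * A.W ∅ y (om t)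
    ring
  have b1 : |∫ t in S, (L t * HH A.be A.b y (A.X ∅ (om t)) - L t * A.W ∅ y (om t)) ∂(un x T)| ≤
      Cp * Real.exp (-A.v) * (Cu * ((Cl + Cm) * D ^ 2) * A.G y) := by
    rw [← Real.norm_eq_abs]
    refine (norm_integral_le_of_norm_le
      ((e1.mono_set hSE).const_mul (Cp * Real.exp (-A.v))) ?_).trans ?_
    · filter_upwards [ae_restrict_mem hSm] with t ht
      rw [Real.norm_eq_abs, ← mul_sub, abs_mul]
      have h1 := hd t (hSE ht)
      have h2 := abs_nonneg (L t)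
      calc |L t| * |HH A.be A.b y (A.X ∅ (om t)) - A.W ∅ y (om t)|
          ≤ |L t| * (Cp * Real.exp (-A.v) * Env A.be A.b y (A.X ∅ (om t))) :=
            mul_le_mul_of_nonneg_left h1 h2
        _ = Cp * Real.exp (-A.v) * (Env A.be A.b y (A.X ∅ (om t)) * |L t|) := by ring
    · rw [integral_const_mul]
      refine mul_le_mul_of_nonneg_left (le_trans ?_ e2) (by positivity)
      exact setIntegral_mono_set e1 (Eventually.of_forall fun t => by
        change 0 ≤ Env A.be A.b y (A.X ∅ (om t)) * |L t|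
        unfold Env
        positivity) hSE.eventuallyLE
  -- the complement
  set η : ℝ := Real.exp (-A.v) + κ with hη
  have hE3 : 0 < Real.exp (-A.v) := Real.exp_pos _
  have hη0 : 0 < η := by rw [hη]; linarith
  have hsη : 0 < Real.sqrt η := Real.sqrt_pos.2 hη0
  set Bd : Set ℝ := E0ᶜ ∪ Fᶜ with hBd
  have hBm : MeasurableSet Bd := hE0m.compl.union hF.compl
  have b2 : |∫ t in Sᶜ, L t * A.W ∅ y (om t) ∂(un x T)| ≤
      (Cl + Cc) * D ^ 2 * (Real.sqrt η + 1 / R) * A.G y := by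
    have h0 : ∀ t ∈ Sᶜ, |L t * A.W ∅ y (om t)| ≤
        (Real.sqrt η / 2 + 1 / R) * (A.W ∅ y (om t) * L t ^ 2) +
          1 / (2 * Real.sqrt η) * Bd.indicator (fun t => A.W ∅ y (om t)) t := by
      intro t ht
      rw [abs_mul, abs_of_nonneg (hW0 y t)]
      have hw := hW0 y t
      have hR0 : 0 < R := by linarith
      by_cases hB : t ∈ Bd
      · rw [indicator_of_mem hB]
        have h1 := mul_le_mul_of_nonneg_right (abs_le_sq (θ := Real.sqrt η) (d := L t) hsη) hw
        have h2 : 0 ≤ 1 / R * (A.W ∅ y (om t) * L t ^ 2) := by positivity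
        calc |L t| * A.W ∅ y (om t)
            ≤ (Real.sqrt η / 2 * L t ^ 2 + 1 / (2 * Real.sqrt η)) * A.W ∅ y (om t) := h1
          _ ≤ _ := by linarith
      · rw [indicator_of_notMem hB]
        have h2 : R < |L t| := by
          by_contra hcon
          push Not at hcon
          refine ht ⟨⟨?_, ?_⟩, hcon⟩
          · by_contra h3
            exact hB (Or.inl h3)
          · by_contra h3
            exact hB (Or.inr h3)
        have h1 := mul_le_mul_of_nonneg_right (abs_le_tail hR0 h2) hw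
        have h3 : 0 ≤ Real.sqrt η / 2 * (A.W ∅ y (om t) * L t ^ 2) := by positivity
        calc |L t| * A.W ∅ y (om t) ≤ 1 / R * L t ^ 2 * A.W ∅ y (om t) := h1
          _ ≤ _ := by linarith
    have hBi : Integrable (Bd.indicator fun t => A.W ∅ y (om t)) (un x T) := i0.indicator hBm
    have hri : Integrable (fun t => (Real.sqrt η / 2 + 1 / R) * (A.W ∅ y (om t) * L t ^ 2) +
          1 / (2 * Real.sqrt η) * Bd.indicator (fun t => A.W ∅ y (om t)) t) (un x T) :=
      (i2a.const_mul _).add (hBi.const_mul _)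
    rw [← Real.norm_eq_abs]
    have hB1 : ∫ t in Bd, A.W ∅ y (om t) ∂(un x T) ≤ Cc * η * A.G y := by
      have h1 : ∫⁻ t in Bd, ENNReal.ofReal (A.W ∅ y (om t)) ∂(un x T) ≤
          ENNReal.ofReal (Cc * η * A.G y) := by
        rw [hBd]
        refine (lintegral_union_le _ _ _).trans ?_
        refine (add_le_add (hC A A hOk hOk T hTc' hLen hLen x y) (hFW y)).trans ?_
        rw [← ENNReal.ofReal_add (mul_nonneg (by positivity) (hG0 y)) (mul_nonneg hκ (hG0 y))]
        refine ENNReal.ofReal_le_ofReal ?_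
        rw [hη]
        have h3 : κ * A.G y ≤ Cc * κ * A.G y := by
          refine mul_le_mul_of_nonneg_right ?_ (hG0 y)
          nlinarith
        linarith
      exact (int_of_lint (hWc y).aestronglyMeasurable (hW0 y)
        (mul_nonneg (by positivity) (hG0 y)) h1).2
    refine (norm_integral_le_of_norm_le hri.integrableOn ?_).trans ?_
    · filter_upwards [ae_restrict_mem hSm.compl] with t ht
      rw [Real.norm_eq_abs]
      exact h0 t ht
    · have hR0 : 0 < R := by linarith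
      have h4 : ∫ t in Sᶜ, ((Real.sqrt η / 2 + 1 / R) * (A.W ∅ y (om t) * L t ^ 2) +
          1 / (2 * Real.sqrt η) * Bd.indicator (fun t => A.W ∅ y (om t)) t) ∂(un x T) ≤
          ∫ t, ((Real.sqrt η / 2 + 1 / R) * (A.W ∅ y (om t) * L t ^ 2) +
          1 / (2 * Real.sqrt η) * Bd.indicator (fun t => A.W ∅ y (om t)) t) ∂(un x T) :=
        setIntegral_le_integral hri (Eventually.of_forall fun t => by
          have h5 : 0 ≤ Bd.indicator (fun t => A.W ∅ y (om t)) t :=
            indicator_nonneg (fun t _ => hW0 y t) t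
          have h6 := hW0 y t
          change 0 ≤ (Real.sqrt η / 2 + 1 / R) * (A.W ∅ y (om t) * L t ^ 2) +
          1 / (2 * Real.sqrt η) * Bd.indicator (fun t => A.W ∅ y (om t)) t
          positivity)
      refine h4.trans ?_
      rw [integral_add (i2a.const_mul _) (hBi.const_mul _), integral_const_mul,
        integral_const_mul, integral_indicator hBm]
      have h5 : (Real.sqrt η / 2 + 1 / R) * (∫ t, A.W ∅ y (om t) * L t ^ 2 ∂(un x T)) ≤
          (Real.sqrt η / 2 + 1 / R) * (Cl * D ^ 2 * A.G y) :=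
        mul_le_mul_of_nonneg_left i2b (by positivity)
      have h6 : 1 / (2 * Real.sqrt η) * (∫ t in Bd, A.W ∅ y (om t) ∂(un x T)) ≤
          1 / (2 * Real.sqrt η) * (Cc * η * A.G y) :=
        mul_le_mul_of_nonneg_left hB1 (by positivity)
      have h7 : 1 / (2 * Real.sqrt η) * (Cc * η * A.G y) = Cc * (Real.sqrt η / 2) * A.G y := by
        have : η = Real.sqrt η * Real.sqrt η := (Real.mul_self_sqrt hη0.le).symm
        nth_rewrite 2 [this]
        field_simp
      have hg := hG0 y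
      have h8 : Cc * (Real.sqrt η / 2) * A.G y ≤ Cc * D ^ 2 * Real.sqrt η * A.G y := by
        refine mul_le_mul_of_nonneg_right ?_ hg
        have : Cc * (Real.sqrt η / 2) ≤ Cc * Real.sqrt η * 1 := by
          have : 0 ≤ Cc * Real.sqrt η := by positivity
          linarith
        refine this.trans ?_
        have h9 : Cc * Real.sqrt η * 1 ≤ Cc * Real.sqrt η * D ^ 2 :=
          mul_le_mul_of_nonneg_left hD2' (by positivity)
        linarith
      have h10 : (Real.sqrt η / 2 + 1 / R) * (Cl * D ^ 2 * A.G y) ≤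
          (Real.sqrt η + 1 / R) * (Cl * D ^ 2 * A.G y) := by
        refine mul_le_mul_of_nonneg_right ?_ (by positivity)
        linarith
      have h11 : 0 ≤ Cc * D ^ 2 * (1 / R) * A.G y := by positivity
      nlinarith
  have b3 := hS A hOk hb20 T hTs' hLen c hc D hD hD1 hD2 x y
  simp only [hLt] at b3
  have e4 : (∫ t in S, L t * HH A.be A.b y (A.X ∅ (om t)) ∂(un x T)) =
      (∫ t in S, (L t * HH A.be A.b y (A.X ∅ (om t)) - L t * A.W ∅ y (om t)) ∂(un x T)) -
        (∫ t in Sᶜ, L t * A.W ∅ y (om t) ∂(un x T)) +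
        (∫ t, A.W ∅ y (om t) * L t ∂(un x T)) := by
    have h1 : (∫ t, A.W ∅ y (om t) * L t ∂(un x T)) = ∫ t, L t * A.W ∅ y (om t) ∂(un x T) := by
      congr 1
      funext t
      ring
    rw [h1, integral_sub hHHi i1'.integrableOn, ← integral_add_compl hSm i1']
    ring
  rw [e4]
  refine (abs_add_le _ _).trans ((add_le_add ((abs_sub _ _).trans (add_le_add b1 b2)) b3).trans ?_)
  have hg := hG0 y
  have hR0 : 0 < R := by linarith
  have hs2 : 0 ≤ 1 / Real.sqrt A.s2 := by positivity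
  have hp0 : 0 ≤ 1 / Real.sqrt A.p0 := by positivity
  have hT1 : 0 ≤ 1 / Real.sqrt T := by positivity
  have hR1 : 0 ≤ 1 / R := by positivity
  have hκ1 : 0 ≤ Real.sqrt κ := Real.sqrt_nonneg _
  have hbe := hOk.hbe
  have hev : Real.exp (-A.v) ≤ Real.exp (-(A.v / 2 : ℝ)) := by
    refine Real.exp_le_exp.2 ?_
    have : (0 : ℝ) ≤ A.v := Nat.cast_nonneg _
    linarith
  have hev' : Real.sqrt (Real.exp (-A.v)) = Real.exp (-(A.v / 2 : ℝ)) := by
    rw [Real.sqrt_eq_iff_mul_self_eq (Real.exp_pos _).le (Real.exp_pos _).le, ← Real.exp_add]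
    congr 1
    ring
  have hsη1 : Real.sqrt η ≤ Real.exp (-(A.v / 2 : ℝ)) + Real.sqrt κ := by
    rw [hη, ← hev']
    have q0 : 0 ≤ Real.sqrt (Real.exp (-A.v)) := Real.sqrt_nonneg _
    have q1 : 0 ≤ Real.sqrt κ := Real.sqrt_nonneg _
    refine Real.sqrt_le_iff.2 ⟨by positivity, ?_⟩
    have q2 : Real.sqrt (Real.exp (-A.v)) ^ 2 = Real.exp (-A.v) := Real.sq_sqrt (Real.exp_pos _).le
    have q3 : Real.sqrt κ ^ 2 = κ := Real.sq_sqrt hκ
    nlinarith [mul_nonneg q0 q1]
  obtain ⟨Z, hZ⟩ : ∃ Z : ℝ, Z = A.be + 1 / Real.sqrt A.s2 + Real.exp (-(A.v / 2 : ℝ)) +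
      1 / Real.sqrt A.p0 + 1 / Real.sqrt T + Real.sqrt κ + 1 / R := ⟨_, rfl⟩
  rw [← hZ]
  have hZ1 : Real.exp (-A.v) ≤ Z := by rw [hZ]; linarith
  have hZ2 : Real.sqrt η + 1 / R ≤ Z := by rw [hZ]; linarith
  have hZ3 : A.be + 1 / Real.sqrt A.s2 + Real.exp (-(A.v / 2 : ℝ)) +
      1 / Real.sqrt A.p0 + 1 / Real.sqrt T ≤ Z := by rw [hZ]; linarith
  have c1 : Cp * Real.exp (-A.v) * (Cu * ((Cl + Cm) * D ^ 2) * A.G y) ≤
      Cp * Cu * (Cl + Cm) * D ^ 2 * Z * A.G y := by
    have h1 : Cp * Cu * (Cl + Cm) * D ^ 2 * A.G y * Real.exp (-A.v) ≤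
        Cp * Cu * (Cl + Cm) * D ^ 2 * A.G y * Z := mul_le_mul_of_nonneg_left hZ1 (by positivity)
    linarith
  have c2 : (Cl + Cc) * D ^ 2 * (Real.sqrt η + 1 / R) * A.G y ≤ (Cl + Cc) * D ^ 2 * Z * A.G y :=
    mul_le_mul_of_nonneg_right (mul_le_mul_of_nonneg_left hZ2 (by positivity)) hg
  have c3 : Cs * D ^ 2 * (A.be + 1 / Real.sqrt A.s2 + Real.exp (-(A.v / 2 : ℝ)) +
      1 / Real.sqrt A.p0 + 1 / Real.sqrt T) * A.G y ≤ Cs * D ^ 2 * Z * A.G y :=
    mul_le_mul_of_nonneg_right (mul_le_mul_of_nonneg_left hZ3 (by positivity)) hg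
  linarith

end Pool.Agent.Lib.RA
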