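import Mathlib
import Pool.Agent.Lib.MP_f9aece_nt_gt.P4
import Pool.Agent.Lib.MP_f9aece_nt_rate.Stmts

/-!
A8: masses of intervals.
-/

set_option autoImplicit false

namespace Pool.Agent.Lib.RA

open MeasureTheory Set Filter Topology Complex ProbabilityTheory
open scoped ComplexConjugate
open Pool.Agent.Lib.GT
open Pool.Agent.Lib.LC

namespace A8x

lemma G_le {A : Par} (hA : A.Ok) (hb : A.b = 1 / 20) {V C1 y : ℝ} (hC1 : 1 ≤ C1) (hy : V - C1 ≤ y) :
    A.G y ≤ Real.exp C1 * A.G V := by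
  rw [A.G_shift y V, mul_comm (Real.exp C1)]
  have h1 := hA.hbe
  have h2 : A.be ≤ 1 / 20 := by rw [← hb]; exact hA.hbb
  refine mul_le_mul_of_nonneg_left (Real.exp_le_exp.2 ?_) (hA.G_pos V).le
  nlinarith

end A8x

open A8x in
/-- masses of intervals -/
theorem winMass (h : LC.TiltW) : WinMass := by
  obtain ⟨C, C1, v0, hC, hC1, h⟩ := h
  have he : 1 ≤ Real.exp C1 := Real.one_le_exp (by linarith)
  have hK : 1 ≤ C * (2 * C1 + 1) * Real.exp C1 := by
    have h1 : 1 ≤ C * (2 * C1 + 1) := by nlinarith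
    nlinarith
  refine ⟨C * (2 * C1 + 1) * Real.exp C1, v0, hK, fun A hA hv hb x T κ hT hκ F hF hW V1 V2 hV => ?_⟩
  have hcX : Continuous fun t : ℝ => A.X ∅ (om t) := (A.continuous_X ∅).comp continuous_om
  have hBad : ∀ t : ℝ, A.Bad ∅ (om t) := fun t g hg => by simp at hg
  have hset : {t : ℝ | A.Good ∅ (om t) ∧ A.Bad ∅ (om t)} = {t : ℝ | A.Good ∅ (om t)} := by
    ext t
    simp [hBad t]
  have hmG : MeasurableSet {t : ℝ | A.Good ∅ (om t)} := GT.P4aux.meas_good A
  have hmB : MeasurableSet {t : ℝ | A.X ∅ (om t) ∈ Ioc V1 V2} := hcX.measurable measurableSet_Ioc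
  have key := h A hA hv hb ∅ (Finset.empty_subset _) ((un x T).restrict F)
    (by unfold un; infer_instance) κ hκ (fun _ => 1) measurable_const
    (fun y => by simpa using hW y) ((Ioc V1 V2).indicator 1) ((Icc (V1 - C1) (V2 + C1)).indicator 1)
    (measurable_one.indicator measurableSet_Ioc) (measurable_one.indicator measurableSet_Icc)
    (fun u y huy => by
      by_cases hu : u ∈ Ioc V1 V2
      · have hy : y ∈ Icc (V1 - C1) (V2 + C1) := by
          rw [abs_le] at huy
          exact ⟨by linarith [hu.1, huy.2], by linarith [hu.2, huy.1]⟩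
        rw [indicator_of_mem hu, indicator_of_mem hy]
        exact le_rfl
      · rw [indicator_of_notMem hu]
        exact zero_le)
  rw [hset, Measure.restrict_restrict hmG] at key
  have hL : un x T {t | t ∈ F ∧ A.Good ∅ (om t) ∧ V1 < A.X ∅ (om t) ∧ A.X ∅ (om t) ≤ V2}
      = ∫⁻ t in {t | A.Good ∅ (om t)} ∩ F, (Ioc V1 V2).indicator 1 (A.X ∅ (om t)) * 1 ∂(un x T) := by
    have h1 : ∀ t : ℝ, (Ioc V1 V2).indicator (1 : ℝ → ENNReal) (A.X ∅ (om t)) * 1
        = {t : ℝ | A.X ∅ (om t) ∈ Ioc V1 V2}.indicator (1 : ℝ → ENNReal) t := by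
      intro t
      rw [mul_one]
      rfl
    simp_rw [h1]
    rw [lintegral_indicator_one hmB, Measure.restrict_apply hmB]
    congr 1
    ext t
    simp only [mem_ofPred_eq, mem_inter_iff, mem_Ioc]
    tauto
  rw [hL]
  refine key.trans ?_
  have hI : ∫⁻ y : ℝ, (Icc (V1 - C1) (V2 + C1)).indicator (1 : ℝ → ENNReal) y * ENNReal.ofReal (A.G y)
      ≤ ENNReal.ofReal (Real.exp C1 * A.G V1 * (V2 - V1 + 2 * C1)) := by
    calc ∫⁻ y : ℝ, (Icc (V1 - C1) (V2 + C1)).indicator (1 : ℝ → ENNReal) y * ENNReal.ofReal (A.G y)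
        ≤ ∫⁻ y : ℝ, (Icc (V1 - C1) (V2 + C1)).indicator
            (fun _ => ENNReal.ofReal (Real.exp C1 * A.G V1)) y := by
          refine lintegral_mono fun y => ?_
          by_cases hy : y ∈ Icc (V1 - C1) (V2 + C1)
          · rw [indicator_of_mem hy, indicator_of_mem hy, Pi.one_apply, one_mul]
            exact ENNReal.ofReal_le_ofReal (G_le hA hb hC1 hy.1)
          · rw [indicator_of_notMem hy, indicator_of_notMem hy, zero_mul]
      _ = ENNReal.ofReal (Real.exp C1 * A.G V1) * ENNReal.ofReal (V2 + C1 - (V1 - C1)) := by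
          rw [lintegral_indicator_const measurableSet_Icc, Real.volume_Icc]
      _ = ENNReal.ofReal (Real.exp C1 * A.G V1 * (V2 - V1 + 2 * C1)) := by
          rw [← ENNReal.ofReal_mul (mul_nonneg (Real.exp_pos _).le (hA.G_pos V1).le)]
          congr 2
          ring
  refine (mul_le_mul_right hI _).trans ?_
  rw [← ENNReal.ofReal_mul (by positivity)]
  refine ENNReal.ofReal_le_ofReal ?_
  have hG := (hA.G_pos V1).le
  have h2 : V2 - V1 + 2 * C1 ≤ (2 * C1 + 1) * (V2 - V1 + 1) := by nlinarith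
  have h3 : 0 ≤ C * κ * (Real.exp C1 * A.G V1) := by positivity
  calc C * κ * (Real.exp C1 * A.G V1 * (V2 - V1 + 2 * C1))
      = C * κ * (Real.exp C1 * A.G V1) * (V2 - V1 + 2 * C1) := by ring
    _ ≤ C * κ * (Real.exp C1 * A.G V1) * ((2 * C1 + 1) * (V2 - V1 + 1)) :=
        mul_le_mul_of_nonneg_left h2 h3
    _ = C * (2 * C1 + 1) * Real.exp C1 * κ * (V2 - V1 + 1) * A.G V1 := by ring

end Pool.Agent.Lib.RA
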