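import Mathlib
import Pool.Agent.Lib.MP_f9aece_nt_rate.Stmts
import Pool.Agent.Lib.MP_f9aece_nt_gt.C11

/-!
B2: the smooth step and the step.  (helper44)
-/

set_option autoImplicit false

namespace Pool.Agent.Lib.RA

open MeasureTheory Set Filter Topology Complex ProbabilityTheory
open Pool.Agent.Lib.GT

namespace B2x

/-- from the masses of unit windows to integrals -/
lemma unit_le {ν : Measure ℝ} [IsFiniteMeasure ν] {f g : ℝ → ENNReal} (hg : Measurable g)
    (h : ∀ u y : ℝ, y < u → u ≤ y + 1 → f u ≤ g y) :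
    ∫⁻ u, f u ∂ν ≤ ∫⁻ y, g y * ν (Ioc y (y + 1)) := by
  have h1 : ∀ u : ℝ, f u = ∫⁻ y, (Ico (u - 1) u).indicator (fun _ => f u) y := by
    intro u
    rw [lintegral_indicator measurableSet_Ico, setLIntegral_const, Real.volume_Ico]
    simp
  have h2 : ∀ u y : ℝ, (Ico (u - 1) u).indicator (fun _ => f u) y ≤
      (Ioc y (y + 1)).indicator (fun _ => g y) u := by
    intro u y
    by_cases hy : y ∈ Ico (u - 1) u
    · rw [indicator_of_mem hy, indicator_of_mem]
      · exact h u y hy.2 (by linarith [hy.1])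
      · exact ⟨hy.2, by linarith [hy.1]⟩
    · rw [indicator_of_notMem hy]
      exact zero_le
  have hm : AEMeasurable (Function.uncurry fun u y : ℝ =>
      (Ioc y (y + 1)).indicator (fun _ => g y) u) (ν.prod volume) := by
    have e : (Function.uncurry fun u y : ℝ => (Ioc y (y + 1)).indicator (fun _ => g y) u) =
        ({p : ℝ × ℝ | p.2 < p.1} ∩ {p : ℝ × ℝ | p.1 ≤ p.2 + 1}).indicator (fun p => g p.2) := by
      funext p
      by_cases hp : p.2 < p.1 ∧ p.1 ≤ p.2 + 1
      · rw [indicator_of_mem (show p ∈ ({p : ℝ × ℝ | p.2 < p.1} ∩ {p : ℝ × ℝ | p.1 ≤ p.2 + 1}) from hp)]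
        show (Ioc p.2 (p.2 + 1)).indicator (fun _ => g p.2) p.1 = g p.2
        rw [indicator_of_mem (show p.1 ∈ Ioc p.2 (p.2 + 1) from hp)]
      · rw [indicator_of_notMem (show p ∉ ({p : ℝ × ℝ | p.2 < p.1} ∩ {p : ℝ × ℝ | p.1 ≤ p.2 + 1}) from hp)]
        show (Ioc p.2 (p.2 + 1)).indicator (fun _ => g p.2) p.1 = 0
        rw [indicator_of_notMem (show p.1 ∉ Ioc p.2 (p.2 + 1) from hp)]
    rw [e]
    refine (Measurable.indicator (hg.comp measurable_snd) ?_).aemeasurable
    exact (measurableSet_lt measurable_snd measurable_fst).inter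
      (measurableSet_le measurable_fst (measurable_snd.add_const 1))
  calc ∫⁻ u, f u ∂ν = ∫⁻ u, (∫⁻ y, (Ico (u - 1) u).indicator (fun _ => f u) y) ∂ν :=
        lintegral_congr h1
    _ ≤ ∫⁻ u, (∫⁻ y, (Ioc y (y + 1)).indicator (fun _ => g y) u) ∂ν :=
        lintegral_mono fun u => lintegral_mono (h2 u)
    _ = ∫⁻ y, (∫⁻ u, (Ioc y (y + 1)).indicator (fun _ => g y) u ∂ν) :=
        lintegral_lintegral_swap hm
    _ = ∫⁻ y, g y * ν (Ioc y (y + 1)) := by
        refine lintegral_congr fun y => ?_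
        rw [lintegral_indicator measurableSet_Ioc, setLIntegral_const]

/-- the step against the primitive of the window -/
lemma pointwise {K : ℝ} (hψ : ∀ r : ℝ, ‖psi r‖ ≤ K / (1 + r ^ 2)) (hc : Continuous psi)
    (hc0 : 0 < c0) (hi : Integrable fun r => ‖psi r‖ ^ 2) {κ : ℝ} (hκ : 0 < κ) (a : ℝ) :
    |(if 0 < a then 1 else 0) - C11.Ph' κ a / c0| ≤
      2 * K ^ 2 * Real.pi / c0 * (Real.exp (κ * a) * (1 + (a / 2) ^ 2)⁻¹ +
        (if 0 < a then κ * Real.exp (κ * a / 2) else 0)) := by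
  have hψ2 : ∀ r : ℝ, ‖psi r‖ ^ 2 ≤ K ^ 2 * (1 + r ^ 2)⁻¹ * (1 + r ^ 2)⁻¹ := by
    intro r
    have h1 := pow_le_pow_left₀ (norm_nonneg _) (hψ r) 2
    refine h1.trans (le_of_eq ?_)
    field_simp
  have hca1 : ∀ r : ℝ, (1 + r ^ 2)⁻¹ ≤ 1 := fun r => inv_le_one_of_one_le₀ (by nlinarith [sq_nonneg r])
  have hψc : Continuous fun r => ‖psi r‖ ^ 2 := by fun_prop
  have hPi : IntegrableOn (fun r : ℝ => Real.exp (κ * r) * ‖psi r‖ ^ 2) (Iio a) := by
    refine ((C11.exp_ca_int κ a hκ.le).const_mul (K ^ 2)).mono' ?_ ?_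
    · exact (Continuous.mul (by fun_prop) hψc).aestronglyMeasurable
    · refine Eventually.of_forall fun r => ?_
      rw [Real.norm_eq_abs, abs_of_nonneg (by positivity)]
      calc Real.exp (κ * r) * ‖psi r‖ ^ 2 ≤ Real.exp (κ * r) * (K ^ 2 * (1 + r ^ 2)⁻¹ * 1) := by
            refine mul_le_mul_of_nonneg_left ((hψ2 r).trans ?_) (by positivity)
            exact mul_le_mul_of_nonneg_left (hca1 r) (by positivity)
        _ = K ^ 2 * (Real.exp (κ * r) * (1 + r ^ 2)⁻¹) := by ring
  have ha2 : (1 + a ^ 2)⁻¹ ≤ (1 + (a / 2) ^ 2)⁻¹ := by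
    refine inv_anti₀ (by positivity) ?_
    nlinarith [sq_nonneg a]
  by_cases ha : 0 < a
  · rw [if_pos ha, if_pos ha]
    have e1 : 1 - C11.Ph' κ a / c0 = ((∫ r in Ici a, ‖psi r‖ ^ 2) +
        ∫ r in Iio a, (1 - Real.exp (κ * r)) * ‖psi r‖ ^ 2) / c0 := by
      have e2 : c0 = (∫ r in Iio a, ‖psi r‖ ^ 2) + ∫ r in Ici a, ‖psi r‖ ^ 2 := by
        have h3 := integral_add_compl (s := Iio a) measurableSet_Iio hi
        rw [compl_Iio] at h3
        exact h3.symm
      have e3 : ∫ r in Iio a, (1 - Real.exp (κ * r)) * ‖psi r‖ ^ 2 =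
          (∫ r in Iio a, ‖psi r‖ ^ 2) - C11.Ph' κ a := by
        unfold C11.Ph'
        rw [← integral_sub hi.integrableOn hPi]
        refine integral_congr_ae (Eventually.of_forall fun r => ?_)
        simp only
        ring
      rw [e3, eq_div_iff hc0.ne', sub_mul, div_mul_cancel₀ _ hc0.ne', one_mul]
      linarith
    rw [e1, abs_div, abs_of_pos hc0]
    have hE1 : 1 ≤ Real.exp (κ * a) := Real.one_le_exp (by positivity)
    have b1 : |∫ r in Ici a, ‖psi r‖ ^ 2| ≤
        K ^ 2 * Real.pi * (Real.exp (κ * a) * (1 + (a / 2) ^ 2)⁻¹) := by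
      rw [abs_of_nonneg (setIntegral_nonneg measurableSet_Ici fun r _ => by positivity)]
      have h1 : ∫ r in Ici a, ‖psi r‖ ^ 2 ≤ ∫ r in Ici a, K ^ 2 * (1 + a ^ 2)⁻¹ * (1 + r ^ 2)⁻¹ := by
        refine setIntegral_mono_on hi.integrableOn
          (integrable_inv_one_add_sq.const_mul _).integrableOn measurableSet_Ici fun r hr => ?_
        refine (hψ2 r).trans ?_
        refine mul_le_mul_of_nonneg_right ?_ (by positivity)
        refine mul_le_mul_of_nonneg_left ?_ (by positivity)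
        exact inv_anti₀ (by positivity) (by nlinarith [mem_Ici.1 hr])
      have h2 : ∫ r in Ici a, K ^ 2 * (1 + a ^ 2)⁻¹ * (1 + r ^ 2)⁻¹ ≤
          ∫ r, K ^ 2 * (1 + a ^ 2)⁻¹ * (1 + r ^ 2)⁻¹ :=
        setIntegral_le_integral (integrable_inv_one_add_sq.const_mul _)
          (Eventually.of_forall fun r => by positivity)
      have e5 : ∫ r, K ^ 2 * (1 + a ^ 2)⁻¹ * (1 + r ^ 2)⁻¹ = K ^ 2 * (1 + a ^ 2)⁻¹ * Real.pi := by
        rw [integral_const_mul, integral_univ_inv_one_add_sq]
      rw [e5] at h2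
      refine (h1.trans h2).trans ?_
      calc K ^ 2 * (1 + a ^ 2)⁻¹ * Real.pi = K ^ 2 * Real.pi * (1 * (1 + a ^ 2)⁻¹) := by ring
        _ ≤ K ^ 2 * Real.pi * (Real.exp (κ * a) * (1 + (a / 2) ^ 2)⁻¹) := by gcongr
    have b2 : |∫ r in Iio a, (1 - Real.exp (κ * r)) * ‖psi r‖ ^ 2| ≤
        K ^ 2 * Real.pi * (Real.exp (κ * a) * (1 + (a / 2) ^ 2)⁻¹ + κ * Real.exp (κ * a / 2)) := by
      have hp : ∀ r ∈ Iio a, ‖(1 - Real.exp (κ * r)) * ‖psi r‖ ^ 2‖ ≤
          K ^ 2 * (Real.exp (κ * a) * (1 + (a / 2) ^ 2)⁻¹ + κ * Real.exp (κ * a / 2)) *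
            (1 + r ^ 2)⁻¹ := by
        intro r hr
        have hra : r < a := hr
        rw [norm_mul, Real.norm_eq_abs, Real.norm_eq_abs, abs_of_nonneg (sq_nonneg ‖psi r‖)]
        have hM : 0 ≤ Real.exp (κ * a) * (1 + (a / 2) ^ 2)⁻¹ := by positivity
        have hM2 : 0 ≤ κ * Real.exp (κ * a / 2) := by positivity
        have h1 : |1 - Real.exp (κ * r)| * (1 + r ^ 2)⁻¹ ≤
            Real.exp (κ * a) * (1 + (a / 2) ^ 2)⁻¹ + κ * Real.exp (κ * a / 2) := by
          rcases le_or_gt r (a / 2) with h | h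
          · have h2 : |1 - Real.exp (κ * r)| ≤ κ * |r| * Real.exp (κ * a / 2) := by
              have h5 : 1 ≤ Real.exp (κ * a / 2) := Real.one_le_exp (by positivity)
              rcases le_or_gt r 0 with h0 | h0
              · have h3 : Real.exp (κ * r) ≤ 1 :=
                  Real.exp_le_one_iff.2 (mul_nonpos_of_nonneg_of_nonpos hκ.le h0)
                rw [abs_of_nonneg (by linarith), abs_of_nonpos h0]
                have h4 := Real.add_one_le_exp (κ * r)
                have h6 : 0 ≤ κ * -r := mul_nonneg hκ.le (by linarith)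
                nlinarith
              · have h3 : 1 ≤ Real.exp (κ * r) := Real.one_le_exp (by positivity)
                rw [abs_of_nonpos (by linarith), abs_of_pos h0]
                have h4 := Real.add_one_le_exp (-(κ * r))
                have h6 : Real.exp (κ * r) * Real.exp (-(κ * r)) = 1 := by
                  rw [← Real.exp_add]
                  simp
                have h7 : Real.exp (κ * r) ≤ Real.exp (κ * a / 2) := by
                  refine Real.exp_le_exp.2 ?_
                  nlinarith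
                have h8 : Real.exp (κ * r) - 1 ≤ κ * r * Real.exp (κ * r) := by nlinarith
                have h9 : 0 ≤ κ * r := by positivity
                nlinarith
            have h3 : |r| * (1 + r ^ 2)⁻¹ ≤ 1 := by
              rw [← div_eq_mul_inv, div_le_one (by positivity), ← sq_abs]
              nlinarith [sq_nonneg (|r| - 1), abs_nonneg r]
            calc |1 - Real.exp (κ * r)| * (1 + r ^ 2)⁻¹
                ≤ κ * |r| * Real.exp (κ * a / 2) * (1 + r ^ 2)⁻¹ :=
                  mul_le_mul_of_nonneg_right h2 (by positivity)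
              _ = κ * Real.exp (κ * a / 2) * (|r| * (1 + r ^ 2)⁻¹) := by ring
              _ ≤ κ * Real.exp (κ * a / 2) * 1 := mul_le_mul_of_nonneg_left h3 hM2
              _ ≤ _ := by linarith
          · have h0 : 0 < r := by linarith
            have h3 : 1 ≤ Real.exp (κ * r) := Real.one_le_exp (by positivity)
            have h4 : |1 - Real.exp (κ * r)| ≤ Real.exp (κ * a) := by
              rw [abs_of_nonpos (by linarith)]
              have : Real.exp (κ * r) ≤ Real.exp (κ * a) :=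
                Real.exp_le_exp.2 (mul_le_mul_of_nonneg_left hra.le hκ.le)
              linarith
            have h5 : (1 + r ^ 2)⁻¹ ≤ (1 + (a / 2) ^ 2)⁻¹ := by
              refine inv_anti₀ (by positivity) ?_
              nlinarith
            calc |1 - Real.exp (κ * r)| * (1 + r ^ 2)⁻¹
                ≤ Real.exp (κ * a) * (1 + (a / 2) ^ 2)⁻¹ :=
                  mul_le_mul h4 h5 (by positivity) (by positivity)
              _ ≤ _ := by linarith
        calc |1 - Real.exp (κ * r)| * ‖psi r‖ ^ 2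
            ≤ |1 - Real.exp (κ * r)| * (K ^ 2 * (1 + r ^ 2)⁻¹ * (1 + r ^ 2)⁻¹) :=
              mul_le_mul_of_nonneg_left (hψ2 r) (abs_nonneg _)
          _ = K ^ 2 * (1 + r ^ 2)⁻¹ * (|1 - Real.exp (κ * r)| * (1 + r ^ 2)⁻¹) := by ring
          _ ≤ K ^ 2 * (1 + r ^ 2)⁻¹ * (Real.exp (κ * a) * (1 + (a / 2) ^ 2)⁻¹ +
              κ * Real.exp (κ * a / 2)) := mul_le_mul_of_nonneg_left h1 (by positivity)
          _ = _ := by ring
      have hig : Integrable (fun r : ℝ => K ^ 2 * (Real.exp (κ * a) * (1 + (a / 2) ^ 2)⁻¹ +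
          κ * Real.exp (κ * a / 2)) * (1 + r ^ 2)⁻¹) := integrable_inv_one_add_sq.const_mul _
      have h5 : |∫ r in Iio a, (1 - Real.exp (κ * r)) * ‖psi r‖ ^ 2| ≤
          ∫ r in Iio a, K ^ 2 * (Real.exp (κ * a) * (1 + (a / 2) ^ 2)⁻¹ +
          κ * Real.exp (κ * a / 2)) * (1 + r ^ 2)⁻¹ := by
        rw [← Real.norm_eq_abs]
        refine norm_integral_le_of_norm_le hig.integrableOn ?_
        filter_upwards [ae_restrict_mem measurableSet_Iio] with r hr
        exact hp r hr
      have h6 : ∫ r in Iio a, K ^ 2 * (Real.exp (κ * a) * (1 + (a / 2) ^ 2)⁻¹ +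
          κ * Real.exp (κ * a / 2)) * (1 + r ^ 2)⁻¹ ≤
          ∫ r, K ^ 2 * (Real.exp (κ * a) * (1 + (a / 2) ^ 2)⁻¹ +
          κ * Real.exp (κ * a / 2)) * (1 + r ^ 2)⁻¹ :=
        setIntegral_le_integral hig (Eventually.of_forall fun r => by positivity)
      rw [integral_const_mul, integral_const_mul, integral_univ_inv_one_add_sq] at h6
      rw [integral_const_mul] at h5
      refine (h5.trans h6).trans (le_of_eq ?_)
      ring
    rw [div_le_iff₀ hc0]
    refine (abs_add_le _ _).trans ((add_le_add b1 b2).trans ?_)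
    have hM2 : 0 ≤ K ^ 2 * Real.pi * (κ * Real.exp (κ * a / 2)) := by positivity
    have e6 : 2 * K ^ 2 * Real.pi / c0 * (Real.exp (κ * a) * (1 + (a / 2) ^ 2)⁻¹ +
        κ * Real.exp (κ * a / 2)) * c0 = 2 * K ^ 2 * Real.pi *
        (Real.exp (κ * a) * (1 + (a / 2) ^ 2)⁻¹ + κ * Real.exp (κ * a / 2)) := by
      field_simp
    rw [e6]
    linarith
  · rw [if_neg ha, if_neg ha, zero_sub, abs_neg, abs_of_nonneg (by
      refine div_nonneg (setIntegral_nonneg measurableSet_Iio fun r _ => by positivity) hc0.le)]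
    push Not at ha
    have h1 : C11.Ph' κ a ≤
        ∫ r in Iio a, K ^ 2 * (Real.exp (κ * a) * (1 + a ^ 2)⁻¹) * (1 + r ^ 2)⁻¹ := by
      refine setIntegral_mono_on hPi (integrable_inv_one_add_sq.const_mul _).integrableOn
        measurableSet_Iio fun r hr => ?_
      have hra : r < a := hr
      calc Real.exp (κ * r) * ‖psi r‖ ^ 2
          ≤ Real.exp (κ * a) * (K ^ 2 * (1 + a ^ 2)⁻¹ * (1 + r ^ 2)⁻¹) := by
            refine mul_le_mul (Real.exp_le_exp.2 (mul_le_mul_of_nonneg_left hra.le hκ.le)) ?_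
              (by positivity) (by positivity)
            refine (hψ2 r).trans ?_
            refine mul_le_mul_of_nonneg_right ?_ (by positivity)
            refine mul_le_mul_of_nonneg_left ?_ (by positivity)
            exact inv_anti₀ (by positivity) (by nlinarith)
        _ = _ := by ring
    have h2 : ∫ r in Iio a, K ^ 2 * (Real.exp (κ * a) * (1 + a ^ 2)⁻¹) * (1 + r ^ 2)⁻¹ ≤
        ∫ r, K ^ 2 * (Real.exp (κ * a) * (1 + a ^ 2)⁻¹) * (1 + r ^ 2)⁻¹ :=
      setIntegral_le_integral (integrable_inv_one_add_sq.const_mul _)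
        (Eventually.of_forall fun r => by positivity)
    have e5 : ∫ r, K ^ 2 * (Real.exp (κ * a) * (1 + a ^ 2)⁻¹) * (1 + r ^ 2)⁻¹ =
        K ^ 2 * (Real.exp (κ * a) * (1 + a ^ 2)⁻¹) * Real.pi := by
      rw [integral_const_mul, integral_univ_inv_one_add_sq]
    rw [e5] at h2
    rw [add_zero, div_le_iff₀ hc0]
    have e6 : 2 * K ^ 2 * Real.pi / c0 * (Real.exp (κ * a) * (1 + (a / 2) ^ 2)⁻¹) * c0 =
        2 * K ^ 2 * Real.pi * (Real.exp (κ * a) * (1 + (a / 2) ^ 2)⁻¹) := by
      field_simp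
    rw [e6]
    refine (h1.trans h2).trans ?_
    have h3 : K ^ 2 * (Real.exp (κ * a) * (1 + a ^ 2)⁻¹) * Real.pi ≤
        K ^ 2 * (Real.exp (κ * a) * (1 + (a / 2) ^ 2)⁻¹) * Real.pi := by gcongr
    have h4 : 0 ≤ K ^ 2 * (Real.exp (κ * a) * (1 + (a / 2) ^ 2)⁻¹) * Real.pi := by positivity
    linarith

/-- the bound for the difference at distance `r` -/
noncomputable def Bd (be r : ℝ) : ℝ := Real.exp (be * r) * (1 + (r / 40) ^ 2)⁻¹ +
  (if 0 < r then 20 * be * Real.exp (be * r / 2) else 0)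

/-- its maximal function over unit windows -/
noncomputable def Bt (be s : ℝ) : ℝ := 9600 * (Real.exp (be * s) * (1 + s ^ 2)⁻¹) +
  (if -1 < s then 60 * be * Real.exp (be * s / 2) else 0)

/-- the maximal function times the mass of the window -/
noncomputable def R0 (be s : ℝ) : ℝ := 9600 * (1 + s ^ 2)⁻¹ +
  (Ioi (-1 : ℝ)).indicator (fun s => 60 * be * Real.exp (-(be / 2) * s)) s

lemma exp_be_le {be : ℝ} (hb1 : be ≤ 1 / 10 ^ 4) : Real.exp be ≤ 3 := by
  have h1 : Real.exp be ≤ Real.exp 1 := Real.exp_le_exp.2 (by linarith)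
  have h2 := Real.exp_one_lt_d9
  linarith

lemma Bt_nonneg {be : ℝ} (hbe : 0 < be) (s : ℝ) : 0 ≤ Bt be s := by
  unfold Bt
  split_ifs <;> positivity

lemma R0_nonneg {be : ℝ} (hbe : 0 < be) (s : ℝ) : 0 ≤ R0 be s := by
  unfold R0
  have h1 : 0 ≤ (Ioi (-1 : ℝ)).indicator (fun s => 60 * be * Real.exp (-(be / 2) * s)) s :=
    indicator_nonneg (fun s _ => by positivity) s
  positivity

lemma Bd_le {be r s : ℝ} (hbe : 0 < be) (hb1 : be ≤ 1 / 10 ^ 4) (h1 : s < r) (h2 : r ≤ s + 1) :
    Bd be r ≤ Bt be s := by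
  have hE := exp_be_le hb1
  have e1 : Real.exp (be * r) ≤ 3 * Real.exp (be * s) := by
    have h3 : Real.exp (be * r) ≤ Real.exp (be + be * s) := Real.exp_le_exp.2 (by nlinarith)
    rw [Real.exp_add] at h3
    exact h3.trans (mul_le_mul_of_nonneg_right hE (Real.exp_pos _).le)
  have e2 : Real.exp (be * r / 2) ≤ 3 * Real.exp (be * s / 2) := by
    have h3 : Real.exp (be * r / 2) ≤ Real.exp (be + be * s / 2) := Real.exp_le_exp.2 (by nlinarith)
    rw [Real.exp_add] at h3
    exact h3.trans (mul_le_mul_of_nonneg_right hE (Real.exp_pos _).le)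
  have e3 : (1 + (r / 40) ^ 2)⁻¹ ≤ 3200 * (1 + s ^ 2)⁻¹ := by
    rw [← div_eq_mul_inv, inv_eq_one_div, div_le_div_iff₀ (by positivity) (by positivity)]
    have h3 : |s| ≤ |r| + 1 := by
      rw [abs_le]
      constructor
      · have := neg_abs_le r
        linarith
      · have := le_abs_self r
        linarith
    have h4 : s ^ 2 ≤ (|r| + 1) ^ 2 := by
      rw [← sq_abs s]
      exact pow_le_pow_left₀ (abs_nonneg s) h3 2
    have h5 : (|r| + 1) ^ 2 ≤ 2 * r ^ 2 + 2 := by
      rw [← sq_abs r]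
      nlinarith [sq_nonneg (|r| - 1)]
    nlinarith
  have e4 : Real.exp (be * r) * (1 + (r / 40) ^ 2)⁻¹ ≤ 9600 * (Real.exp (be * s) * (1 + s ^ 2)⁻¹) := by
    calc Real.exp (be * r) * (1 + (r / 40) ^ 2)⁻¹
        ≤ (3 * Real.exp (be * s)) * (3200 * (1 + s ^ 2)⁻¹) :=
          mul_le_mul e1 e3 (by positivity) (by positivity)
      _ = _ := by ring
  have e5 : (if 0 < r then 20 * be * Real.exp (be * r / 2) else 0) ≤
      (if -1 < s then 60 * be * Real.exp (be * s / 2) else 0) := by
    by_cases hr : 0 < r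
    · rw [if_pos hr, if_pos (by linarith)]
      have : 20 * be * Real.exp (be * r / 2) ≤ 20 * be * (3 * Real.exp (be * s / 2)) :=
        mul_le_mul_of_nonneg_left e2 (by positivity)
      linarith
    · rw [if_neg hr]
      split_ifs <;> positivity
  exact add_le_add e4 e5

lemma Bt_mul {be : ℝ} (s : ℝ) : Bt be s * Real.exp (-(be * s)) = R0 be s := by
  unfold Bt R0
  have h1 : Real.exp (be * s) * Real.exp (-(be * s)) = 1 := by
    rw [← Real.exp_add]
    simp
  have h2 : Real.exp (be * s / 2) * Real.exp (-(be * s)) = Real.exp (-(be / 2) * s) := by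
    rw [← Real.exp_add]
    congr 1
    ring
  by_cases hs : -1 < s
  · rw [if_pos hs, indicator_of_mem (show s ∈ Ioi (-1 : ℝ) from hs), ← h2]
    linear_combination 9600 * (1 + s ^ 2)⁻¹ * h1
  · rw [if_neg hs, indicator_of_notMem (show s ∉ Ioi (-1 : ℝ) from hs)]
    linear_combination 9600 * (1 + s ^ 2)⁻¹ * h1

lemma R0_int {be : ℝ} (hbe : 0 < be) (hb1 : be ≤ 1 / 10 ^ 4) :
    Integrable (R0 be) ∧ ∫ s, R0 be s ≤ 31000 := by
  have i1 : Integrable fun s : ℝ => 9600 * (1 + s ^ 2)⁻¹ := integrable_inv_one_add_sq.const_mul _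
  have i2 : IntegrableOn (fun s : ℝ => 60 * be * Real.exp (-(be / 2) * s)) (Ioi (-1 : ℝ)) :=
    (integrableOn_exp_mul_Ioi (by linarith) (-1)).const_mul _
  have i3 := i2.integrable_indicator measurableSet_Ioi
  refine ⟨i1.add i3, ?_⟩
  have e1 : ∫ s, R0 be s = (∫ s : ℝ, 9600 * (1 + s ^ 2)⁻¹) +
      ∫ s, (Ioi (-1 : ℝ)).indicator (fun s => 60 * be * Real.exp (-(be / 2) * s)) s :=
    integral_add i1 i3
  rw [e1, integral_const_mul, integral_univ_inv_one_add_sq, integral_indicator measurableSet_Ioi,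
    integral_const_mul, integral_exp_mul_Ioi (by linarith)]
  have h1 : Real.exp (-(be / 2) * -1) ≤ 3 := by
    refine le_trans (Real.exp_le_exp.2 ?_) (exp_be_le hb1)
    linarith
  have h2 : 60 * be * (-Real.exp (-(be / 2) * -1) / -(be / 2)) = 120 * Real.exp (-(be / 2) * -1) := by
    field_simp
    ring
  rw [h2]
  have h3 := Real.pi_lt_d2
  linarith

end B2x

open B2x in
/-- B2 -/
theorem stepLaw (hW : PsiBd) (hB : StepBasic) : StepLaw := by
  obtain ⟨K, hK, hψ, hc, hc0, hi⟩ := hW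
  set C0 : ℝ := 2 * K ^ 2 * Real.pi / c0 with hC0
  have hC00 : 0 ≤ C0 := by positivity
  refine ⟨1 + 31000 * C0, by linarith, ?_⟩
  intro be hbe hb1 V G0 hG0 ν hν hm
  obtain ⟨-, -, -, -, hst, -, -⟩ := hB be hbe hb1
  have hstm : Measurable (st be V) := (hst.comp (Continuous.prodMk_right V)).measurable
  -- the difference
  obtain ⟨D, hD⟩ : ∃ D : ℝ → ℝ, D = fun u => (Ioi V).indicator (fun _ => (1 : ℝ)) u - st be V u :=
    ⟨_, rfl⟩
  have hDm : Measurable D := by
    rw [hD]
    exact (measurable_const.indicator measurableSet_Ioi).sub hstm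
  have hDb : ∀ u : ℝ, |D u| ≤ C0 * Bd be (u - V) := by
    intro u
    have h1 := pointwise hψ hc hc0 hi (κ := 20 * be) (by positivity) (1 / 20 * (u - V))
    have e1 : st be V u = C11.Ph' (20 * be) (1 / 20 * (u - V)) / c0 := by
      unfold st
      rw [C11.int_HH (by norm_num)]
      congr 2
      ring
    have e2 : (if 0 < 1 / 20 * (u - V) then (1 : ℝ) else 0) =
        (Ioi V).indicator (fun _ => (1 : ℝ)) u := by
      by_cases hx : V < u
      · rw [indicator_of_mem (show u ∈ Ioi V from hx), if_pos (by linarith)]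
      · rw [indicator_of_notMem (show u ∉ Ioi V from hx), if_neg (by linarith)]
    rw [e2, ← e1] at h1
    rw [hD]
    refine h1.trans (le_of_eq ?_)
    rw [hC0, Bd]
    have e3 : 20 * be * (1 / 20 * (u - V)) = be * (u - V) := by ring
    have e4 : 1 / 20 * (u - V) / 2 = (u - V) / 40 := by ring
    rw [e3, e4]
    congr 2
    by_cases hx : 0 < u - V
    · rw [if_pos hx, if_pos (by linarith)]
    · rw [if_neg hx, if_neg (by linarith)]
  have key : ∫⁻ u, ENNReal.ofReal |D u| ∂ν ≤ ENNReal.ofReal (31000 * C0 * G0) := by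
    have hg : Measurable fun y : ℝ => ENNReal.ofReal (C0 * Bt be (y - V)) := by
      refine (Measurable.const_mul ?_ C0).ennreal_ofReal
      unfold Bt
      refine Measurable.add (by fun_prop) ?_
      exact Measurable.ite (measurableSet_lt measurable_const (measurable_id.sub_const V))
        (by fun_prop) measurable_const
    refine (unit_le (g := fun y : ℝ => ENNReal.ofReal (C0 * Bt be (y - V))) hg ?_).trans ?_
    · intro u y h1 h2
      refine ENNReal.ofReal_le_ofReal ((hDb u).trans ?_)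
      exact mul_le_mul_of_nonneg_left (Bd_le hbe hb1 (by linarith) (by linarith)) hC00
    · have h1 : ∀ y : ℝ, ENNReal.ofReal (C0 * Bt be (y - V)) * ν (Ioc y (y + 1)) ≤
          ENNReal.ofReal (C0 * G0 * R0 be (y - V)) := by
        intro y
        calc ENNReal.ofReal (C0 * Bt be (y - V)) * ν (Ioc y (y + 1))
            ≤ ENNReal.ofReal (C0 * Bt be (y - V)) *
                ENNReal.ofReal (G0 * Real.exp (-(be * (y - V)))) := by
              gcongr
              exact hm y
          _ = ENNReal.ofReal (C0 * G0 * R0 be (y - V)) := by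
              rw [← ENNReal.ofReal_mul (mul_nonneg hC00 (Bt_nonneg hbe _)), ← Bt_mul]
              congr 1
              ring
      refine (lintegral_mono h1).trans ?_
      rw [lintegral_sub_right_eq_self (fun y => ENNReal.ofReal (C0 * G0 * R0 be y)) V]
      obtain ⟨i1, i2⟩ := R0_int hbe hb1
      rw [← ofReal_integral_eq_lintegral_ofReal (i1.const_mul _)
        (Eventually.of_forall fun s => mul_nonneg (mul_nonneg hC00 hG0) (R0_nonneg hbe s)),
        integral_const_mul]
      refine ENNReal.ofReal_le_ofReal ?_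
      have := mul_le_mul_of_nonneg_left i2 (mul_nonneg hC00 hG0)
      linarith
  have hDi : Integrable D ν := by
    refine ⟨hDm.aestronglyMeasurable, ?_⟩
    rw [hasFiniteIntegral_iff_norm]
    exact key.trans_lt ENNReal.ofReal_lt_top
  have hI : Integrable (fun u => (Ioi V).indicator (fun _ => (1 : ℝ)) u) ν :=
    (integrable_const 1).indicator measurableSet_Ioi
  have e1 : st be V = fun u => (Ioi V).indicator (fun _ => (1 : ℝ)) u - D u := by
    funext u
    rw [hD]
    simp
  have hSi : Integrable (st be V) ν := by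
    rw [e1]
    exact hI.sub hDi
  refine ⟨hSi, ?_⟩
  have e2 : ∫ u, st be V u ∂ν = (ν (Ioi V)).toReal - ∫ u, D u ∂ν := by
    rw [e1, integral_sub hI hDi, integral_indicator measurableSet_Ioi]
    simp [Measure.real]
  rw [e2]
  have e3 : (ν (Ioi V)).toReal - ∫ u, D u ∂ν - (ν (Ioi V)).toReal = -∫ u, D u ∂ν := by ring
  rw [e3, abs_neg]
  have h1 : |∫ u, D u ∂ν| ≤ ∫ u, |D u| ∂ν := by
    simpa [Real.norm_eq_abs] using norm_integral_le_integral_norm (μ := ν) D
  have h2 : ∫ u, |D u| ∂ν ≤ 31000 * C0 * G0 := by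
    rw [integral_eq_lintegral_of_nonneg_ae (Eventually.of_forall fun u => abs_nonneg _)
      hDm.abs.aestronglyMeasurable]
    exact ENNReal.toReal_le_of_le_ofReal (by positivity) key
  calc |∫ u, D u ∂ν| ≤ 31000 * C0 * G0 := h1.trans h2
    _ ≤ (1 + 31000 * C0) * G0 := by linarith

end Pool.Agent.Lib.RA
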