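import Pool.Agent.Lib.MP_f9aece_nt_rate.Stmts

/-!
RATE row B3: the smooth step under the Gaussian law (helper77).
-/

set_option autoImplicit false

namespace Pool.Agent.Lib.RA

open MeasureTheory Set Filter Topology ProbabilityTheory
open Pool.Agent.Lib.GT

namespace B3x

lemma g_nonneg (A : Par) (y : ℝ) : 0 ≤ A.G y := by
  unfold Par.G
  positivity

lemma g_shift (A : Par) (V y : ℝ) : A.G V * Real.exp (-(A.be * (y - V))) = A.G y := by
  unfold Par.G
  rw [mul_assoc, ← Real.exp_add]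
  congr 2
  ring

lemma pdf_le (A : Par) (hA : A.Ok) {x y : ℝ} (hxy : y ≤ x) :
    gaussianPDFReal 0 (Real.toNNReal A.s2) x ≤ A.G y := by
  have hs := hA.hs
  have hbe := hA.hbe
  have hs0 : 0 < A.s2 := by linarith
  unfold gaussianPDFReal Par.G
  rw [Real.coe_toNNReal _ hs0.le, sub_zero]
  have h1 : (Real.sqrt (2 * Real.pi * A.s2))⁻¹ ≤ 1 / Real.sqrt A.s2 := by
    rw [one_div]
    apply inv_anti₀ (Real.sqrt_pos.2 hs0)
    apply Real.sqrt_le_sqrt
    nlinarith [Real.pi_gt_three]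
  have h2 : Real.exp (-x ^ 2 / (2 * A.s2)) ≤ Real.exp (-(A.be * y) + A.be ^ 2 * A.s2 / 2) := by
    apply Real.exp_le_exp.2
    have h3 : -x ^ 2 / (2 * A.s2)
        = -(A.be * x) + A.be ^ 2 * A.s2 / 2 - (x - A.be * A.s2) ^ 2 / (2 * A.s2) := by
      field_simp
      ring
    rw [h3]
    have h4 : 0 ≤ (x - A.be * A.s2) ^ 2 / (2 * A.s2) := by positivity
    nlinarith
  exact mul_le_mul h1 h2 (Real.exp_pos _).le (by positivity)

lemma win (A : Par) (hA : A.Ok) (y : ℝ) :
    gaussianReal 0 (Real.toNNReal A.s2) (Ioc y (y + 1)) ≤ ENNReal.ofReal (A.G y) := by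
  have hs := hA.hs
  have hv : Real.toNNReal A.s2 ≠ 0 := by
    rw [Ne, Real.toNNReal_eq_zero]
    linarith
  rw [gaussianReal_apply _ hv]
  calc ∫⁻ x in Ioc y (y + 1), gaussianPDF 0 (Real.toNNReal A.s2) x
      ≤ ∫⁻ x in Ioc y (y + 1), ENNReal.ofReal (A.G y) := by
        refine setLIntegral_mono' measurableSet_Ioc fun x hx => ?_
        exact ENNReal.ofReal_le_ofReal (pdf_le A hA hx.1.le)
    _ = ENNReal.ofReal (A.G y) := by
        rw [setLIntegral_const, Real.volume_Ioc]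
        simp

lemma env_int (A : Par) (y : ℝ) : Integrable (fun x => Env A.be A.b y x)
    (gaussianReal 0 (Real.toNNReal A.s2)) := by
  have h1 : Integrable (fun x => Real.exp (A.be * x)) (gaussianReal 0 (Real.toNNReal A.s2)) :=
    integrable_exp_mul_gaussianReal A.be
  have h2 : Integrable (fun x => |A.b| * (Real.exp (-(A.be * y)) * Real.exp (A.be * x)))
      (gaussianReal 0 (Real.toNNReal A.s2)) := (h1.const_mul _).const_mul _
  refine h2.mono' ?_ (ae_of_all _ fun x => ?_)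
  · apply Measurable.aestronglyMeasurable
    unfold Env
    fun_prop
  · unfold Env
    rw [Real.norm_eq_abs, abs_mul, abs_of_nonneg (a := Real.exp (A.be * (x - y)) / _) (by positivity),
      ← Real.exp_add]
    gcongr
    rw [div_le_iff₀ (by positivity)]
    have h3 : A.be * (x - y) = -(A.be * y) + A.be * x := by ring
    rw [h3]
    have := Real.exp_pos (-(A.be * y) + A.be * x)
    nlinarith [sq_nonneg (A.b * (x - y)), mul_nonneg this.le (sq_nonneg (A.b * (x - y)))]

lemma hh_le {CP : ℝ} (hp : ∀ r : ℝ, ‖psi r‖ ≤ CP / (1 + r ^ 2)) (h0 : 0 < c0)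
    (be b y x : ℝ) (hb : 0 ≤ b) : HH be b y x ≤ CP ^ 2 / c0 * Env be b y x := by
  unfold HH Env
  have h1 := hp (b * (x - y))
  have h2 : ‖psi (b * (x - y))‖ ^ 2 ≤ CP ^ 2 / (1 + (b * (x - y)) ^ 2) := by
    have h3 : (1 : ℝ) ≤ 1 + (b * (x - y)) ^ 2 := by nlinarith [sq_nonneg (b * (x - y))]
    calc ‖psi (b * (x - y))‖ ^ 2 ≤ (CP / (1 + (b * (x - y)) ^ 2)) ^ 2 := by gcongr
      _ = CP ^ 2 / (1 + (b * (x - y)) ^ 2) / (1 + (b * (x - y)) ^ 2) := by
        rw [div_pow, pow_two (1 + (b * (x - y)) ^ 2), div_div]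
      _ ≤ CP ^ 2 / (1 + (b * (x - y)) ^ 2) := div_le_self (by positivity) h3
  calc b / c0 * (Real.exp (be * (x - y)) * ‖psi (b * (x - y))‖ ^ 2)
      ≤ b / c0 * (Real.exp (be * (x - y)) * (CP ^ 2 / (1 + (b * (x - y)) ^ 2))) := by gcongr
    _ = CP ^ 2 / c0 * (b * (Real.exp (be * (x - y)) / (1 + (b * (x - y)) ^ 2))) := by ring

end B3x

open B3x in
theorem stepGauss (hG : WGauss) (hW : PsiBd) (hL : StepLaw) (hB : StepBasic) : StepGauss := by
  obtain ⟨CG, hCG, hg⟩ := hG
  obtain ⟨CP, hCP, hp, hpc, h0, -⟩ := hW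
  obtain ⟨CL, hCL, hl⟩ := hL
  have hC2 : 0 ≤ CP ^ 2 / c0 * CG := by positivity
  refine ⟨CL + CP ^ 2 / c0 * CG, by linarith, fun A hA hb hbe V => ?_⟩
  obtain ⟨hc, hpos, hint, -, -, -, -⟩ := hB A.be hA.hbe hbe
  obtain ⟨h1, h2⟩ := hl A.be hA.hbe hbe V (A.G V) (g_nonneg A V)
    (gaussianReal 0 (Real.toNNReal A.s2)) inferInstance
    (fun y => by rw [g_shift]; exact win A hA y)
  have hst : ∀ z, (∫ y in Ioi V, ‖HH A.be (1 / 20) y z‖) = st A.be V z := by
    intro z
    unfold st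
    exact integral_congr_ae (ae_of_all _ fun y => Real.norm_of_nonneg (hpos y z))
  have hprod : Integrable (fun p : ℝ × ℝ => HH A.be (1 / 20) p.1 p.2)
      ((volume.restrict (Ioi V)).prod (gaussianReal 0 (Real.toNNReal A.s2))) := by
    rw [integrable_prod_iff' hc.aestronglyMeasurable]
    refine ⟨ae_of_all _ fun z => hint V z, ?_⟩
    simp only [hst]
    exact h1
  have hgw : ∀ y, gw A y = ∫ z, HH A.be (1 / 20) y z ∂(gaussianReal 0 (Real.toNNReal A.s2)) := by
    intro y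
    unfold gw
    rw [hb]
  refine ⟨?_, ?_, ?_⟩
  · have := hprod.integral_prod_left
    unfold IntegrableOn
    have h3 : gw A = fun y => ∫ z, HH A.be (1 / 20) y z ∂(gaussianReal 0 (Real.toNNReal A.s2)) :=
      funext hgw
    rw [h3]
    exact this
  · intro y
    have hb0 : 0 ≤ A.b := by rw [hb]; norm_num
    have h3 : 0 ≤ gw A y := by
      rw [hgw]
      exact integral_nonneg fun z => hpos y z
    have h4 : gw A y ≤ CP ^ 2 / c0 * ∫ x, Env A.be A.b y x ∂(gaussianReal 0 (Real.toNNReal A.s2)) := by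
      unfold gw
      rw [← integral_const_mul]
      refine integral_mono_of_nonneg (ae_of_all _ fun z => ?_) ((env_int A y).const_mul _)
        (ae_of_all _ fun z => hh_le hp h0 A.be A.b y z hb0)
      show 0 ≤ HH A.be A.b y z
      rw [hb]
      exact hpos y z
    have h5 := (hg A hA y).2.2
    have h6 := g_nonneg A y
    rw [abs_of_nonneg h3]
    calc gw A y ≤ CP ^ 2 / c0 * ∫ x, Env A.be A.b y x ∂(gaussianReal 0 (Real.toNNReal A.s2)) := h4
      _ ≤ CP ^ 2 / c0 * (CG * A.G y) := by gcongr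
      _ ≤ (CL + CP ^ 2 / c0 * CG) * A.G y := by nlinarith
  · have h3 : (∫ y in Ioi V, gw A y) = ∫ u, st A.be V u ∂(gaussianReal 0 (Real.toNNReal A.s2)) := by
      simp only [hgw]
      unfold st
      exact integral_integral_swap (f := fun y z => HH A.be (1 / 20) y z) hprod
    rw [h3]
    have h6 := g_nonneg A V
    calc _ ≤ CL * A.G V := h2
      _ ≤ _ := by nlinarith [mul_nonneg hC2 h6]

end Pool.Agent.Lib.RA
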