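import Mathlib
import Pool.Agent.Lib.MP_f9aece_nt_rate.Stmts
import Pool.Agent.Lib.MP_f9aece_nt_gt.C6

/-!
Two Gaussian laws and the smooth step.
-/

set_option autoImplicit false

namespace Pool.Agent.Lib.RA

open MeasureTheory Set Filter Topology Complex ProbabilityTheory
open scoped ComplexConjugate
open Pool.Agent.Lib.GT

namespace B4

/-- the variable of the transform -/
noncomputable def zt (A : Par) (w : ℝ × ℝ) : ℂ := A.zz w.1 + conj (A.zz w.2)

lemma zt_eq (A : Par) (w : ℝ × ℝ) : zt A w = (A.be : ℂ) + I * (A.b * (w.1 - w.2) : ℝ) :=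
  C6.zz_add A w

lemma zt_re (A : Par) (w : ℝ × ℝ) : (zt A w).re = A.be := by
  rw [zt_eq]
  simp

lemma zt_sq_re (A : Par) (w : ℝ × ℝ) : ((zt A w) ^ 2).re = A.be ^ 2 - A.b ^ 2 * (w.1 - w.2) ^ 2 := by
  rw [zt_eq, pow_two, Complex.mul_re]
  simp only [Complex.add_re, Complex.add_im, Complex.ofReal_re, Complex.ofReal_im, Complex.mul_re,
    Complex.mul_im, Complex.I_re, Complex.I_im]
  ring

lemma norm_zt_le {A : Par} (hA : A.Ok) (w : ℝ × ℝ) : ‖zt A w‖ ≤ A.be + A.b * |w.1 - w.2| := by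
  rw [zt_eq]
  refine (norm_add_le _ _).trans ?_
  rw [norm_mul, Complex.norm_I, one_mul, Complex.norm_real, Complex.norm_real, Real.norm_eq_abs,
    Real.norm_eq_abs, abs_of_pos hA.hbe, abs_mul, abs_of_pos hA.b_pos]

@[fun_prop]
lemma continuous_zt (A : Par) : Continuous (zt A) := by
  have : zt A = fun w : ℝ × ℝ => (A.be : ℂ) + I * ((A.b * (w.1 - w.2) : ℝ) : ℂ) := by
    funext w
    exact zt_eq A w
  rw [this]
  exact continuous_const.add (continuous_const.mul (Complex.continuous_ofReal.comp (by fun_prop)))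

lemma zt_ne {A : Par} (hA : A.Ok) (w : ℝ × ℝ) : zt A w ≠ 0 := by
  intro h
  have := zt_re A w
  rw [h] at this
  have h2 := hA.hbe
  simp at this
  linarith

/-- the tail of the Gaussian mean of the windows -/
lemma tail {A : Par} (hA : A.Ok) (V : ℝ) :
    (((∫ y in Ioi V, gw A y) : ℝ) : ℂ) = ((A.b / c0 : ℝ) : ℂ) * ∫ w : ℝ × ℝ,
      ((phi w.1 * phi w.2 : ℝ) : ℂ) * (cexp ((zt A w) ^ 2 * A.vt / 4)
        * (cexp (-(zt A w) * V) / zt A w)) ∂(me.prod me) := by
  have h1 : ∀ y : ℝ, ((gw A y : ℝ) : ℂ) = ((A.b / c0 : ℝ) : ℂ) * ∫ w : ℝ × ℝ,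
      ((phi w.1 * phi w.2 : ℝ) : ℂ) * (cexp (-(zt A w * y))
      * cexp ((zt A w) ^ 2 * A.vt / 4)) ∂(me.prod me) := fun y => (C6.part_one hA y).symm
  rw [← integral_complex_ofReal]
  simp only [h1]
  rw [integral_const_mul, integral_integral_swap]
  · congr 1
    refine integral_congr_ae (Eventually.of_forall fun w => ?_)
    beta_reduce
    have e1 : ∀ y : ℝ, ((phi w.1 * phi w.2 : ℝ) : ℂ) * (cexp (-(zt A w * y))
        * cexp ((zt A w) ^ 2 * A.vt / 4))
        = (((phi w.1 * phi w.2 : ℝ) : ℂ) * cexp ((zt A w) ^ 2 * A.vt / 4)) * cexp (-(zt A w) * y) := by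
      intro y
      rw [neg_mul]
      ring
    simp only [e1]
    rw [integral_const_mul, integral_exp_mul_complex_Ioi (by rw [Complex.neg_re, zt_re]; linarith [hA.hbe])]
    have := zt_ne hA w
    rw [neg_div_neg_eq]
    ring
  · have i1 : Integrable (fun y : ℝ => Real.exp (-A.be * y)) (volume.restrict (Ioi V)) :=
      exp_neg_integrableOn_Ioi V hA.hbe
    have i2 : Integrable (fun w : ℝ × ℝ => |phi w.1 * phi w.2| * Real.exp ((zt A w ^ 2).re * A.vt / 4))
        (me.prod me) := by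
      apply D6.integrable_me
      have h2 : Continuous fun w : ℝ × ℝ => (zt A w ^ 2).re := Complex.continuous_re.comp (by fun_prop)
      have := continuous_phi
      fun_prop
    refine (i1.mul_prod i2).mono' ?_ (Eventually.of_forall fun p => ?_)
    · apply Continuous.aestronglyMeasurable
      have := continuous_phi
      have h4 : Continuous fun p : ℝ × (ℝ × ℝ) => ((phi p.2.1 * phi p.2.2 : ℝ) : ℂ) :=
        Complex.continuous_ofReal.comp (by fun_prop)
      have h6 : Continuous fun p : ℝ × (ℝ × ℝ) => zt A p.2 := (continuous_zt A).comp continuous_snd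
      have h5 : Continuous fun p : ℝ × (ℝ × ℝ) => cexp (-(zt A p.2 * p.1)) :=
        Complex.continuous_exp.comp (h6.mul (Complex.continuous_ofReal.comp continuous_fst)).neg
      have h7 : Continuous fun p : ℝ × (ℝ × ℝ) => cexp ((zt A p.2) ^ 2 * A.vt / 4) :=
        Complex.continuous_exp.comp (((h6.pow 2).mul continuous_const).div_const _)
      exact h4.mul (h5.mul h7)
    · rw [Function.uncurry_apply_pair]
      rw [norm_mul, norm_mul, Complex.norm_real, Real.norm_eq_abs, Complex.norm_exp, Complex.norm_exp]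
      have e1 : (-(zt A p.2 * (p.1 : ℂ))).re = -A.be * p.1 := by
        rw [Complex.neg_re, Complex.re_mul_ofReal, zt_re]
        ring
      have e2 : ((zt A p.2) ^ 2 * (A.vt : ℂ) / 4).re = (zt A p.2 ^ 2).re * A.vt / 4 := by
        have : (4 : ℂ) = ((4 : ℝ) : ℂ) := by push_cast; rfl
        rw [this, Complex.div_ofReal_re, Complex.re_mul_ofReal]
      rw [e1, e2]
      apply le_of_eq
      ring

/-- difference of two exponentials -/
lemma exp_sub (z : ℂ) {a a' : ℝ} (h : a' ≤ a) :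
    ‖cexp (z * a) - cexp (z * a')‖ ≤ ‖z‖ * (Real.exp (z.re * a) + Real.exp (z.re * a')) * (a - a') := by
  have hd : ∀ t ∈ Icc a' a, HasDerivWithinAt (fun t : ℝ => cexp (z * t)) (z * cexp (z * t)) (Icc a' a) t := by
    intro t _
    have h1 : HasDerivAt (fun t : ℝ => z * (t : ℂ)) z t := by
      simpa using (Complex.ofRealCLM.hasDerivAt (x := t)).const_mul z
    have h2 := h1.cexp
    rw [mul_comm] at h2
    exact h2.hasDerivWithinAt
  have hb : ∀ t ∈ Icc a' a, ‖z * cexp (z * t)‖ ≤ ‖z‖ * (Real.exp (z.re * a) + Real.exp (z.re * a')) := by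
    intro t ht
    rw [norm_mul, Complex.norm_exp, Complex.re_mul_ofReal]
    refine mul_le_mul_of_nonneg_left ?_ (norm_nonneg _)
    rcases le_total 0 z.re with hz | hz
    · have : z.re * t ≤ z.re * a := mul_le_mul_of_nonneg_left ht.2 hz
      have := Real.exp_le_exp.2 this
      have := Real.exp_pos (z.re * a')
      linarith
    · have : z.re * t ≤ z.re * a' := mul_le_mul_of_nonpos_left ht.1 hz
      have := Real.exp_le_exp.2 this
      have := Real.exp_pos (z.re * a)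
      linarith
  have := (convex_Icc a' a).norm_image_sub_le_of_norm_hasDerivWithin_le hd hb
    (left_mem_Icc.2 h) (right_mem_Icc.2 h)
  rwa [Real.norm_of_nonneg (by linarith : (0 : ℝ) ≤ a - a')] at this

/-- the Gaussian factor -/
noncomputable def E (A : Par) (V : ℝ) (w : ℝ × ℝ) : ℝ :=
  Real.exp (-(A.be * V) + (A.be ^ 2 - A.b ^ 2 * (w.1 - w.2) ^ 2) * A.vt / 4)

lemma x_exp (x : ℝ) : x * Real.exp (-(x ^ 2)) ≤ Real.exp (-(x ^ 2) / 2) := by
  have h1 : x ≤ Real.exp (x ^ 2 / 2) := by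
    have := Real.add_one_le_exp (x ^ 2 / 2)
    nlinarith [sq_nonneg (x - 1)]
  calc x * Real.exp (-(x ^ 2)) ≤ Real.exp (x ^ 2 / 2) * Real.exp (-(x ^ 2)) :=
        mul_le_mul_of_nonneg_right h1 (Real.exp_pos _).le
    _ = _ := by
        rw [← Real.exp_add]
        congr 1
        ring

/-- the first moment of the distance -/
lemma first {A : Par} (hA : A.Ok) (V : ℝ) :
    A.b / c0 * ∫ w : ℝ × ℝ, (phi w.1 * phi w.2) * (A.b * |w.1 - w.2| * E A V w) ∂(me.prod me)
      ≤ 2 * Real.sqrt (2 * Real.pi) / c0 * (1 / Real.sqrt A.s2) * A.G V := by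
  have hs2 : 0 < A.s2 := by linarith [hA.hs]
  have hb := hA.b_pos
  have hvt : A.vt = 2 * A.s2 := by unfold Par.s2; ring
  set E0 := Real.exp (-(A.be * V) + A.be ^ 2 * A.s2 / 2) with hE
  have hE0 : 0 < E0 := Real.exp_pos _
  set κ := A.b ^ 2 * A.s2 / 4 with hκ
  have hκ0 : 0 < κ := by positivity
  have hsq : 0 < Real.sqrt (A.s2 / 2) := Real.sqrt_pos.2 (by positivity)
  have hsqs : Real.sqrt (A.s2 / 2) ^ 2 = A.s2 / 2 := Real.sq_sqrt (by positivity)
  have e1 : ∀ w : ℝ × ℝ, A.b * |w.1 - w.2| * E A V w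
      ≤ E0 / Real.sqrt (A.s2 / 2) * Real.exp (-κ * (w.1 - w.2) ^ 2) := by
    intro w
    set x := A.b * |w.1 - w.2| * Real.sqrt (A.s2 / 2) with hx
    have hx2 : x ^ 2 = A.b ^ 2 * (w.1 - w.2) ^ 2 * (A.s2 / 2) := by
      rw [hx, mul_pow, mul_pow, hsqs, sq_abs]
    have h1 := x_exp x
    have h2 : E A V w = E0 * Real.exp (-(x ^ 2)) := by
      unfold E
      rw [hE, ← Real.exp_add, hx2, hvt]
      congr 1
      ring
    have h3 : Real.exp (-(x ^ 2) / 2) = Real.exp (-κ * (w.1 - w.2) ^ 2) := by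
      rw [hx2, hκ]
      congr 1
      ring
    rw [h2, ← h3, div_mul_eq_mul_div, le_div_iff₀ hsq]
    calc A.b * |w.1 - w.2| * (E0 * Real.exp (-(x ^ 2))) * Real.sqrt (A.s2 / 2)
        = E0 * (x * Real.exp (-(x ^ 2))) := by rw [hx]; ring
      _ ≤ E0 * Real.exp (-(x ^ 2) / 2) := mul_le_mul_of_nonneg_left h1 hE0.le
  have h1 : ∫ w : ℝ × ℝ, (phi w.1 * phi w.2) * (A.b * |w.1 - w.2| * E A V w) ∂(me.prod me)
      ≤ ∫ w : ℝ × ℝ, E0 / Real.sqrt (A.s2 / 2) * Real.exp (-κ * (w.1 - w.2) ^ 2) ∂(me.prod me) := by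
    apply integral_mono_ae
    · apply D6.integrable_me
      unfold E
      have := continuous_phi
      fun_prop
    · apply D6.integrable_me
      fun_prop
    · filter_upwards [D6.ae_me2] with w hw
      have h2 := abs_phi_le hw.1
      have h3 := abs_phi_le hw.2
      have h4 := phi_nonneg w.1
      have h5 := phi_nonneg w.2
      rw [abs_of_nonneg h4] at h2
      rw [abs_of_nonneg h5] at h3
      have h6 : phi w.1 * phi w.2 ≤ 1 := by nlinarith
      have h7 : 0 ≤ A.b * |w.1 - w.2| * E A V w := by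
        unfold E
        positivity
      calc phi w.1 * phi w.2 * (A.b * |w.1 - w.2| * E A V w)
          ≤ 1 * (A.b * |w.1 - w.2| * E A V w) := mul_le_mul_of_nonneg_right h6 h7
        _ ≤ _ := by
            rw [one_mul]
            exact e1 w
  have h2 : ∫ w : ℝ × ℝ, Real.exp (-κ * (w.1 - w.2) ^ 2) ∂(me.prod me) ≤ Real.sqrt (Real.pi / κ) := by
    rw [MeasureTheory.integral_prod _ (D6.integrable_me (by fun_prop))]
    have h3 : ∀ a : ℝ, ∫ b, Real.exp (-κ * (a - b) ^ 2) ∂me ≤ Real.sqrt (Real.pi / κ) := by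
      intro a
      have i1 : Integrable (fun b : ℝ => Real.exp (-κ * (a - b) ^ 2)) :=
        (integrable_exp_neg_mul_sq hκ0).comp_sub_left a
      unfold me
      calc ∫ b in Icc (-(1 / 2) : ℝ) (1 / 2), Real.exp (-κ * (a - b) ^ 2)
          ≤ ∫ b, Real.exp (-κ * (a - b) ^ 2) :=
            setIntegral_le_integral i1 (Eventually.of_forall fun b => (Real.exp_pos _).le)
        _ = ∫ b, Real.exp (-κ * b ^ 2) := integral_sub_left_eq_self (fun b => Real.exp (-κ * b ^ 2)) volume a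
        _ = _ := integral_gaussian κ
    calc ∫ a, ∫ b, Real.exp (-κ * (a - b) ^ 2) ∂me ∂me ≤ ∫ a, Real.sqrt (Real.pi / κ) ∂me := by
          apply integral_mono_of_nonneg
          · exact Eventually.of_forall fun a => integral_nonneg fun b => (Real.exp_pos _).le
          · exact integrable_const _
          · exact Eventually.of_forall h3
      _ = _ := by simp
  have hsp : 0 < Real.sqrt A.s2 := Real.sqrt_pos.2 hs2
  have hss : Real.sqrt A.s2 ^ 2 = A.s2 := Real.sq_sqrt hs2.le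
  have h3 : Real.sqrt (Real.pi / κ) = 2 * Real.sqrt Real.pi / (A.b * Real.sqrt A.s2) := by
    rw [hκ]
    have e2 : Real.pi / (A.b ^ 2 * A.s2 / 4) = (2 ^ 2 * Real.pi) / (A.b ^ 2 * A.s2) := by
      field_simp
      ring
    rw [e2, Real.sqrt_div (by positivity), Real.sqrt_mul (x := A.b ^ 2) (by positivity) A.s2,
      Real.sqrt_sq hb.le, Real.sqrt_mul (x := (2 : ℝ) ^ 2) (by positivity) Real.pi,
      Real.sqrt_sq (by norm_num : (0 : ℝ) ≤ 2)]
  rw [h3] at h2
  have h4 : Real.sqrt (A.s2 / 2) = Real.sqrt A.s2 / Real.sqrt 2 := Real.sqrt_div hs2.le 2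
  have h5 : Real.sqrt (2 * Real.pi) = Real.sqrt 2 * Real.sqrt Real.pi :=
    Real.sqrt_mul (by norm_num) _
  have hc := D6.c0_nonneg
  have hbc : 0 ≤ A.b / c0 := by positivity
  have hc2 : A.b / c0 = A.b * c0⁻¹ := div_eq_mul_inv _ _
  have hr2 : 0 < Real.sqrt 2 := by positivity
  rw [integral_const_mul] at h1
  have h6 : E0 / Real.sqrt (A.s2 / 2) * ∫ w : ℝ × ℝ, Real.exp (-κ * (w.1 - w.2) ^ 2) ∂(me.prod me)
      ≤ E0 / Real.sqrt (A.s2 / 2) * (2 * Real.sqrt Real.pi / (A.b * Real.sqrt A.s2)) :=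
    mul_le_mul_of_nonneg_left h2 (by positivity)
  refine (mul_le_mul_of_nonneg_left (h1.trans h6) hbc).trans (le_of_eq ?_)
  unfold Par.G
  rw [← hE, h4, h5, hc2, div_eq_mul_inv (2 * (Real.sqrt 2 * Real.sqrt Real.pi)) c0]
  field_simp

end B4

/-- B4: two Gaussian laws -/
theorem gaussFar (hG : WGauss) (_hB : StepBasic) : GaussFar := by
  obtain ⟨C, hC, hW⟩ := hG
  have hc := D6.c0_nonneg
  set C1 := 2 * Real.sqrt (2 * Real.pi) / c0 with hC1
  have hC10 : 0 ≤ C1 := by positivity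
  refine ⟨C + C1 + 1, by linarith, fun A A' hA hA' hb hb' hbe hvt V => ?_⟩
  have hzt : ∀ w, B4.zt A' w = B4.zt A w := by
    intro w
    rw [B4.zt_eq, B4.zt_eq, hbe, hb, hb']
  have hbc : 0 ≤ A.b / c0 := by
    have := hA.b_pos
    positivity
  have hbb : A'.b = A.b := by rw [hb, hb']
  have hs2 : 0 < A.s2 := by linarith [hA.hs]
  have hs2' : 0 < A'.s2 := by linarith [hA'.hs]
  have hss : A'.s2 ≤ A.s2 := by
    unfold Par.s2
    linarith
  have hG0 := hA.G_pos V
  have hG0' := hA'.G_pos V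
  have hbe0 := hA.hbe
  -- the function under the integral
  have hi : ∀ B : Par, B.Ok → Integrable (fun w : ℝ × ℝ => ((phi w.1 * phi w.2 : ℝ) : ℂ)
      * (cexp ((B4.zt B w) ^ 2 * B.vt / 4) * (cexp (-(B4.zt B w) * V) / B4.zt B w))) (me.prod me) := by
    intro B hB
    apply D6.integrable_me
    have := continuous_phi
    have h4 : Continuous fun p : ℝ × ℝ => ((phi p.1 * phi p.2 : ℝ) : ℂ) :=
      Complex.continuous_ofReal.comp (by fun_prop)
    have h6 := B4.continuous_zt B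
    have h5 : Continuous fun p : ℝ × ℝ => cexp (-(B4.zt B p) * V) :=
      Complex.continuous_exp.comp (h6.neg.mul continuous_const)
    have h7 : Continuous fun p : ℝ × ℝ => cexp ((B4.zt B p) ^ 2 * B.vt / 4) :=
      Complex.continuous_exp.comp (((h6.pow 2).mul continuous_const).div_const _)
    exact h4.mul (h7.mul (h5.div h6 fun w => B4.zt_ne hB w))
  have key : ((((∫ y in Ioi V, gw A y) - ∫ y in Ioi V, gw A' y) : ℝ) : ℂ)
      = ((A.b / c0 : ℝ) : ℂ) * ∫ w : ℝ × ℝ, ((phi w.1 * phi w.2 : ℝ) : ℂ)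
        * ((cexp ((B4.zt A w) ^ 2 * (A.vt / 4 : ℝ)) - cexp ((B4.zt A w) ^ 2 * (A'.vt / 4 : ℝ)))
          * (cexp (-(B4.zt A w) * V) / B4.zt A w)) ∂(me.prod me) := by
    rw [Complex.ofReal_sub, B4.tail hA, B4.tail hA', hbb, ← mul_sub, ← integral_sub (hi A hA) (hi A' hA')]
    congr 1
    refine integral_congr_ae (Eventually.of_forall fun w => ?_)
    beta_reduce
    rw [hzt w]
    push_cast
    have e1 : (B4.zt A w) ^ 2 * (A.vt : ℂ) / 4 = (B4.zt A w) ^ 2 * ((A.vt : ℂ) / 4) := by ring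
    have e2 : (B4.zt A w) ^ 2 * (A'.vt : ℂ) / 4 = (B4.zt A w) ^ 2 * ((A'.vt : ℂ) / 4) := by ring
    rw [e1, e2]
    ring
  have hEE : ∀ w, Real.exp (((B4.zt A w) ^ 2).re * (A.vt / 4)) * Real.exp (-A.be * V) = B4.E A V w := by
    intro w
    rw [← Real.exp_add, B4.zt_sq_re]
    unfold B4.E
    congr 1
    ring
  have hEE' : ∀ w, Real.exp (((B4.zt A w) ^ 2).re * (A'.vt / 4)) * Real.exp (-A.be * V) = B4.E A' V w := by
    intro w
    rw [← Real.exp_add, B4.zt_sq_re]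
    unfold B4.E
    rw [hbe, hbb]
    congr 1
    ring
  have hE0 : ∀ (B : Par) w, 0 ≤ B4.E B V w := fun B w => (Real.exp_pos _).le
  have hd0 : 0 ≤ (A.vt - A'.vt) / 4 := by linarith
  have hpt : ∀ w : ℝ × ℝ, ‖((phi w.1 * phi w.2 : ℝ) : ℂ)
        * ((cexp ((B4.zt A w) ^ 2 * (A.vt / 4 : ℝ)) - cexp ((B4.zt A w) ^ 2 * (A'.vt / 4 : ℝ)))
          * (cexp (-(B4.zt A w) * V) / B4.zt A w))‖
      ≤ (A.vt - A'.vt) / 4 * (A.be * ((phi w.1 * phi w.2) * B4.E A V w)
        + (phi w.1 * phi w.2) * (A.b * |w.1 - w.2| * B4.E A V w)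
        + A.be * ((phi w.1 * phi w.2) * B4.E A' V w)
        + (phi w.1 * phi w.2) * (A.b * |w.1 - w.2| * B4.E A' V w)) := by
    intro w
    have hp : 0 ≤ phi w.1 * phi w.2 := mul_nonneg (phi_nonneg _) (phi_nonneg _)
    have hz0 : 0 < ‖B4.zt A w‖ := norm_pos_iff.2 (B4.zt_ne hA w)
    rw [norm_mul, norm_mul, norm_div, Complex.norm_real, Real.norm_eq_abs, abs_of_nonneg hp,
      Complex.norm_exp (-(B4.zt A w) * V), Complex.re_mul_ofReal, Complex.neg_re, B4.zt_re]
    have h1 := B4.exp_sub ((B4.zt A w) ^ 2) (a := A.vt / 4) (a' := A'.vt / 4) (by linarith)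
    rw [norm_pow] at h1
    have h2 : ‖cexp ((B4.zt A w) ^ 2 * (A.vt / 4 : ℝ)) - cexp ((B4.zt A w) ^ 2 * (A'.vt / 4 : ℝ))‖
        * (Real.exp (-A.be * V) / ‖B4.zt A w‖)
        ≤ ‖B4.zt A w‖ ^ 2 * (Real.exp (((B4.zt A w) ^ 2).re * (A.vt / 4))
          + Real.exp (((B4.zt A w) ^ 2).re * (A'.vt / 4))) * (A.vt / 4 - A'.vt / 4)
          * (Real.exp (-A.be * V) / ‖B4.zt A w‖) :=
      mul_le_mul_of_nonneg_right h1 (by positivity)
    have h3 : ‖B4.zt A w‖ ^ 2 * (Real.exp (((B4.zt A w) ^ 2).re * (A.vt / 4))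
          + Real.exp (((B4.zt A w) ^ 2).re * (A'.vt / 4))) * (A.vt / 4 - A'.vt / 4)
          * (Real.exp (-A.be * V) / ‖B4.zt A w‖)
        = (A.vt - A'.vt) / 4 * (‖B4.zt A w‖ * (B4.E A V w + B4.E A' V w)) := by
      rw [← hEE, ← hEE']
      field_simp
    have h4 : ‖B4.zt A w‖ * (B4.E A V w + B4.E A' V w)
        ≤ (A.be + A.b * |w.1 - w.2|) * (B4.E A V w + B4.E A' V w) :=
      mul_le_mul_of_nonneg_right (B4.norm_zt_le hA w) (add_nonneg (hE0 _ _) (hE0 _ _))
    calc phi w.1 * phi w.2 * (‖cexp ((B4.zt A w) ^ 2 * (A.vt / 4 : ℝ))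
          - cexp ((B4.zt A w) ^ 2 * (A'.vt / 4 : ℝ))‖ * (Real.exp (-A.be * V) / ‖B4.zt A w‖))
        ≤ phi w.1 * phi w.2 * ((A.vt - A'.vt) / 4
          * ((A.be + A.b * |w.1 - w.2|) * (B4.E A V w + B4.E A' V w))) :=
          mul_le_mul_of_nonneg_left ((h2.trans (le_of_eq h3)).trans
            (mul_le_mul_of_nonneg_left h4 hd0)) hp
      _ = _ := by ring
  have iE : ∀ B : Par, Integrable (fun w : ℝ × ℝ => (phi w.1 * phi w.2) * B4.E B V w) (me.prod me) := by
    intro B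
    apply D6.integrable_me
    unfold B4.E
    have := continuous_phi
    fun_prop
  have iF : ∀ B : Par, Integrable (fun w : ℝ × ℝ => (phi w.1 * phi w.2)
      * (A.b * |w.1 - w.2| * B4.E B V w)) (me.prod me) := by
    intro B
    apply D6.integrable_me
    unfold B4.E
    have := continuous_phi
    fun_prop
  have hn : |(∫ y in Ioi V, gw A y) - ∫ y in Ioi V, gw A' y|
      ≤ A.b / c0 * ((A.vt - A'.vt) / 4 * (A.be * (∫ w : ℝ × ℝ, (phi w.1 * phi w.2) * B4.E A V w ∂(me.prod me))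
        + (∫ w : ℝ × ℝ, (phi w.1 * phi w.2) * (A.b * |w.1 - w.2| * B4.E A V w) ∂(me.prod me))
        + A.be * (∫ w : ℝ × ℝ, (phi w.1 * phi w.2) * B4.E A' V w ∂(me.prod me))
        + ∫ w : ℝ × ℝ, (phi w.1 * phi w.2) * (A.b * |w.1 - w.2| * B4.E A' V w) ∂(me.prod me))) := by
    rw [← Real.norm_eq_abs, ← Complex.norm_real, key, norm_mul, Complex.norm_real, Real.norm_eq_abs,
      abs_of_nonneg hbc]
    refine mul_le_mul_of_nonneg_left ?_ hbc
    refine (norm_integral_le_integral_norm _).trans ?_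
    have i1 : Integrable (fun w : ℝ × ℝ => A.be * ((phi w.1 * phi w.2) * B4.E A V w)) (me.prod me) :=
      (iE A).const_mul _
    have i2 := iF A
    have i3 : Integrable (fun w : ℝ × ℝ => A.be * ((phi w.1 * phi w.2) * B4.E A' V w)) (me.prod me) :=
      (iE A').const_mul _
    have i4 := iF A'
    have i12 : Integrable (fun w : ℝ × ℝ => A.be * ((phi w.1 * phi w.2) * B4.E A V w)
        + (phi w.1 * phi w.2) * (A.b * |w.1 - w.2| * B4.E A V w)) (me.prod me) := i1.add i2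
    have i123 : Integrable (fun w : ℝ × ℝ => A.be * ((phi w.1 * phi w.2) * B4.E A V w)
        + (phi w.1 * phi w.2) * (A.b * |w.1 - w.2| * B4.E A V w)
        + A.be * ((phi w.1 * phi w.2) * B4.E A' V w)) (me.prod me) := i12.add i3
    have i1234 : Integrable (fun w : ℝ × ℝ => A.be * ((phi w.1 * phi w.2) * B4.E A V w)
        + (phi w.1 * phi w.2) * (A.b * |w.1 - w.2| * B4.E A V w)
        + A.be * ((phi w.1 * phi w.2) * B4.E A' V w)
        + (phi w.1 * phi w.2) * (A.b * |w.1 - w.2| * B4.E A' V w)) (me.prod me) := i123.add i4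
    have hsum : ∫ w : ℝ × ℝ, (A.vt - A'.vt) / 4 * (A.be * ((phi w.1 * phi w.2) * B4.E A V w)
        + (phi w.1 * phi w.2) * (A.b * |w.1 - w.2| * B4.E A V w)
        + A.be * ((phi w.1 * phi w.2) * B4.E A' V w)
        + (phi w.1 * phi w.2) * (A.b * |w.1 - w.2| * B4.E A' V w)) ∂(me.prod me)
        = (A.vt - A'.vt) / 4 * (A.be * (∫ w : ℝ × ℝ, (phi w.1 * phi w.2) * B4.E A V w ∂(me.prod me))
        + (∫ w : ℝ × ℝ, (phi w.1 * phi w.2) * (A.b * |w.1 - w.2| * B4.E A V w) ∂(me.prod me))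
        + A.be * (∫ w : ℝ × ℝ, (phi w.1 * phi w.2) * B4.E A' V w ∂(me.prod me))
        + ∫ w : ℝ × ℝ, (phi w.1 * phi w.2) * (A.b * |w.1 - w.2| * B4.E A' V w) ∂(me.prod me)) := by
      rw [integral_const_mul, integral_add i123 i4, integral_add i12 i3, integral_add i1 i2,
        integral_const_mul, integral_const_mul]
    rw [← hsum]
    exact integral_mono_of_nonneg (Eventually.of_forall fun w => norm_nonneg _) (i1234.const_mul _)
      (Eventually.of_forall hpt)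
  have w1 := (hW A hA V).2.1
  have w2 := (hW A' hA' V).2.1
  have w3 := B4.first hA V
  have w4 := B4.first hA' V
  rw [hbb] at w2 w4
  have w1' : A.b / c0 * ∫ w : ℝ × ℝ, (phi w.1 * phi w.2) * B4.E A V w ∂(me.prod me) ≤ C * A.G V := w1
  have w2' : A.b / c0 * ∫ w : ℝ × ℝ, (phi w.1 * phi w.2) * B4.E A' V w ∂(me.prod me) ≤ C * A'.G V := by
    refine le_trans (le_of_eq ?_) w2
    unfold B4.E
    rw [hbb]
  have hq : 1 / Real.sqrt A.s2 ≤ 1 / Real.sqrt A'.s2 :=
    one_div_le_one_div_of_le (Real.sqrt_pos.2 hs2') (Real.sqrt_le_sqrt hss)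
  have hq0 : 0 < 1 / Real.sqrt A'.s2 := by positivity
  refine hn.trans ?_
  set a1 := ∫ w : ℝ × ℝ, (phi w.1 * phi w.2) * B4.E A V w ∂(me.prod me)
  set a2 := ∫ w : ℝ × ℝ, (phi w.1 * phi w.2) * (A.b * |w.1 - w.2| * B4.E A V w) ∂(me.prod me)
  set a3 := ∫ w : ℝ × ℝ, (phi w.1 * phi w.2) * B4.E A' V w ∂(me.prod me)
  set a4 := ∫ w : ℝ × ℝ, (phi w.1 * phi w.2) * (A.b * |w.1 - w.2| * B4.E A' V w) ∂(me.prod me)
  have t1 : A.b / c0 * ((A.vt - A'.vt) / 4 * (A.be * a1 + a2 + A.be * a3 + a4))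
      = (A.vt - A'.vt) / 4 * (A.be * (A.b / c0 * a1) + A.b / c0 * a2 + A.be * (A.b / c0 * a3)
        + A.b / c0 * a4) := by ring
  rw [t1]
  have u1 : A.be * (A.b / c0 * a1) ≤ A.be * (C * A.G V) := mul_le_mul_of_nonneg_left w1' hbe0.le
  have u3 : A.be * (A.b / c0 * a3) ≤ A.be * (C * A'.G V) := mul_le_mul_of_nonneg_left w2' hbe0.le
  have u2 : A.b / c0 * a2 ≤ C1 * (1 / Real.sqrt A'.s2) * A.G V := by
    refine w3.trans ?_
    have := mul_le_mul_of_nonneg_left hq hC10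
    exact mul_le_mul_of_nonneg_right this hG0.le
  have u4 : A.b / c0 * a4 ≤ C1 * (1 / Real.sqrt A'.s2) * A'.G V := w4
  have n1 : 0 ≤ A.be * A.G V := by positivity
  have n2 : 0 ≤ A.be * A'.G V := by positivity
  have n3 : 0 ≤ 1 / Real.sqrt A'.s2 * A.G V := by positivity
  have n4 : 0 ≤ 1 / Real.sqrt A'.s2 * A'.G V := by positivity
  have n5 : 0 ≤ A.be * (A.G V + A'.G V) + 1 / Real.sqrt A'.s2 * (A.G V + A'.G V) := by positivity
  calc (A.vt - A'.vt) / 4 * (A.be * (A.b / c0 * a1) + A.b / c0 * a2 + A.be * (A.b / c0 * a3)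
        + A.b / c0 * a4)
      ≤ (A.vt - A'.vt) / 4 * (A.be * (C * A.G V) + C1 * (1 / Real.sqrt A'.s2) * A.G V
        + A.be * (C * A'.G V) + C1 * (1 / Real.sqrt A'.s2) * A'.G V) :=
        mul_le_mul_of_nonneg_left (by linarith) hd0
    _ = (A.vt - A'.vt) / 4 * (C * (A.be * (A.G V + A'.G V))
        + C1 * (1 / Real.sqrt A'.s2 * (A.G V + A'.G V))) := by ring
    _ ≤ (A.vt - A'.vt) * ((C + C1 + 1) * (A.be * (A.G V + A'.G V)
        + 1 / Real.sqrt A'.s2 * (A.G V + A'.G V))) := by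
        have m1 : C * (A.be * (A.G V + A'.G V)) + C1 * (1 / Real.sqrt A'.s2 * (A.G V + A'.G V))
            ≤ (C + C1 + 1) * (A.be * (A.G V + A'.G V) + 1 / Real.sqrt A'.s2 * (A.G V + A'.G V)) := by
          nlinarith [mul_nonneg hC (add_nonneg n3 n4), mul_nonneg hC10 (add_nonneg n1 n2)]
        have m2 : 0 ≤ C * (A.be * (A.G V + A'.G V)) + C1 * (1 / Real.sqrt A'.s2 * (A.G V + A'.G V)) := by
          positivity
        have m3 : (A.vt - A'.vt) / 4 ≤ A.vt - A'.vt := by linarith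
        exact mul_le_mul m3 m1 m2 (by linarith)
    _ = _ := by ring

end Pool.Agent.Lib.RA
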