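import Mathlib
import Pool.Agent.Lib.MP_f9aece_nt_rate.Stmts

/-!
The difference of two smooth steps.
-/

set_option autoImplicit false

namespace Pool.Agent.Lib.RA

open MeasureTheory Set Filter Topology
open Pool.Agent.Lib.GT

namespace B5

section
variable {f s : ℝ → ℝ} (hf : Continuous f) (hf0 : ∀ y, 0 ≤ f y) (hs : Continuous s)
  (h : ∀ a h : ℝ, 0 ≤ h → s a - s (a + h) = ∫ y in a..(a + h), f y)
include hf hf0 hs h

omit hf hf0 hs in
theorem sub_eq (a b : ℝ) : s a - s b = ∫ y in a..b, f y := by
  rcases le_total a b with hab | hab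
  · have := h a (b - a) (by linarith)
    rwa [add_sub_cancel] at this
  · have := h b (a - b) (by linarith)
    rw [add_sub_cancel] at this
    rw [intervalIntegral.integral_symm, ← this]
    ring

omit hf hf0 h in
theorem avg (V H D : ℝ) : ∫ t in H..(2 * H), (s (V + t) - s (V + t + D))
    = ∫ r in (0 : ℝ)..D, (s (V + H + r) - s (V + 2 * H + r)) := by
  have hd : ∀ x, HasDerivAt (fun x => ∫ t in (0 : ℝ)..x, s t) (s x) x := fun x =>
    intervalIntegral.integral_hasDerivAt_right (hs.intervalIntegrable _ _)
      (hs.stronglyMeasurableAtFilter _ _) hs.continuousAt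
  have hi : ∀ a b, IntervalIntegrable s volume a b := fun a b => hs.intervalIntegrable _ _
  have h1 : ∫ r in (0 : ℝ)..D, (s (V + H + r) - s (V + 2 * H + r))
      = ((∫ t in (0 : ℝ)..(V + H + D), s t) - ∫ t in (0 : ℝ)..(V + 2 * H + D), s t)
        - ((∫ t in (0 : ℝ)..(V + H + 0), s t) - ∫ t in (0 : ℝ)..(V + 2 * H + 0), s t) := by
    refine intervalIntegral.integral_eq_sub_of_hasDerivAt
      (f := fun r => (∫ t in (0 : ℝ)..(V + H + r), s t) - ∫ t in (0 : ℝ)..(V + 2 * H + r), s t)
      (fun r _ => ?_) ?_
    · have e1 : HasDerivAt (fun r => V + H + r) 1 r := by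
        simpa using (hasDerivAt_id r).const_add (V + H)
      have e2 : HasDerivAt (fun r => V + 2 * H + r) 1 r := by
        simpa using (hasDerivAt_id r).const_add (V + 2 * H)
      have := ((hd (V + H + r)).comp r e1).sub ((hd (V + 2 * H + r)).comp r e2)
      simp only [mul_one] at this
      exact this
    · exact (Continuous.intervalIntegrable (by fun_prop) _ _)
  have h2 : ∫ t in H..(2 * H), (s (V + t) - s (V + t + D))
      = (∫ t in (V + H)..(V + 2 * H), s t) - ∫ t in (V + D + H)..(V + D + 2 * H), s t := by
    rw [intervalIntegral.integral_sub (Continuous.intervalIntegrable (by fun_prop) _ _)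
      (Continuous.intervalIntegrable (by fun_prop) _ _)]
    rw [intervalIntegral.integral_comp_add_left (fun x => s x) V]
    have : (fun t => s (V + t + D)) = fun t => s ((V + D) + t) := by
      funext t
      congr 1
      ring
    rw [this, intervalIntegral.integral_comp_add_left (fun x => s x) (V + D)]
  rw [h1, h2]
  have e1 := intervalIntegral.integral_interval_sub_left (hi 0 (V + 2 * H)) (hi 0 (V + H))
  have e2 := intervalIntegral.integral_interval_sub_left (hi 0 (V + D + 2 * H)) (hi 0 (V + D + H))
  rw [← e1, ← e2]
  have a1 : V + D + 2 * H = V + 2 * H + D := by ring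
  have a2 : V + D + H = V + H + D := by ring
  rw [a1, a2]
  simp only [add_zero]
  ring

omit hs h in
theorem small (a r D : ℝ) (hr : |r| ≤ |D|) :
    |∫ y in a..(a + r), f y| ≤ ∫ y in (a - |D|)..(a + |D|), f y := by
  have hi : ∀ a b, IntervalIntegrable f volume a b := fun a b => hf.intervalIntegrable _ _
  have habs := abs_le.1 hr
  have hD := abs_nonneg D
  rcases le_total 0 r with h0 | h0
  · rw [abs_of_nonneg (intervalIntegral.integral_nonneg (by linarith) fun y _ => hf0 y)]
    exact intervalIntegral.integral_mono_interval (by linarith) (by linarith) (by linarith)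
      (Filter.Eventually.of_forall fun y => hf0 y) (hi _ _)
  · rw [intervalIntegral.integral_symm, abs_neg,
      abs_of_nonneg (intervalIntegral.integral_nonneg (by linarith) fun y _ => hf0 y)]
    exact intervalIntegral.integral_mono_interval (by linarith) (by linarith) (by linarith)
      (Filter.Eventually.of_forall fun y => hf0 y) (hi _ _)

theorem part2 (V H D : ℝ) :
    |(∫ t in H..(2 * H), (s (V + t) - s (V + t + D))) - D * ∫ y in (V + H)..(V + 2 * H), f y|
      ≤ |D| * ((∫ y in (V + H - |D|)..(V + H + |D|), f y)
        + ∫ y in (V + 2 * H - |D|)..(V + 2 * H + |D|), f y) := by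
  rw [avg hs, ← sub_eq h]
  have h0 : D * (s (V + H) - s (V + 2 * H)) = ∫ r in (0 : ℝ)..D, (s (V + H) - s (V + 2 * H)) := by
    rw [intervalIntegral.integral_const]
    simp
  rw [h0, ← intervalIntegral.integral_sub (Continuous.intervalIntegrable (by fun_prop) _ _)
    (Continuous.intervalIntegrable (by fun_prop) _ _)]
  rw [← Real.norm_eq_abs]
  refine (intervalIntegral.norm_integral_le_of_norm_le_const
    (C := (∫ y in (V + H - |D|)..(V + H + |D|), f y)
        + ∫ y in (V + 2 * H - |D|)..(V + 2 * H + |D|), f y) fun r hr => ?_).trans (le_of_eq ?_)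
  · have hr' : |r| ≤ |D| := by
      rcases le_total 0 D with hD | hD
      · rw [uIoc_of_le hD] at hr
        rw [abs_of_pos hr.1, abs_of_nonneg hD]
        exact hr.2
      · rw [uIoc_of_ge hD] at hr
        rw [abs_of_nonpos hr.2, abs_of_nonpos hD]
        linarith [hr.1]
    have e : s (V + H + r) - s (V + 2 * H + r) - (s (V + H) - s (V + 2 * H))
        = -(∫ y in (V + H)..(V + H + r), f y) + ∫ y in (V + 2 * H)..(V + 2 * H + r), f y := by
      rw [← sub_eq h, ← sub_eq h]
      ring
    rw [Real.norm_eq_abs, e]
    refine (abs_add_le _ _).trans ?_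
    rw [abs_neg]
    exact add_le_add (small hf hf0 _ _ _ hr') (small hf hf0 _ _ _ hr')
  · rw [sub_zero]
    ring

theorem part3 (V H D : ℝ) (hD : 0 ≤ D) (hH : 0 ≤ H) :
    |∫ t in H..(2 * H), (s (V + t) - s (V + t + D))|
      ≤ D * ∫ y in (V + H)..(V + 2 * H + D), f y := by
  rw [avg hs, ← Real.norm_eq_abs]
  refine (intervalIntegral.norm_integral_le_of_norm_le_const
    (C := ∫ y in (V + H)..(V + 2 * H + D), f y) fun r hr => ?_).trans (le_of_eq ?_)
  · rw [uIoc_of_le hD] at hr
    rw [Real.norm_eq_abs, sub_eq h,
      abs_of_nonneg (intervalIntegral.integral_nonneg (by linarith) fun y _ => hf0 y)]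
    exact intervalIntegral.integral_mono_interval (by linarith [hr.1]) (by linarith)
      (by linarith [hr.2]) (Filter.Eventually.of_forall fun y => hf0 y) (hf.intervalIntegrable _ _)
  · rw [sub_zero, abs_of_nonneg hD]
    ring

end

end B5

/-- B5: the difference of two smooth steps -/
theorem stepId (hB : StepBasic) : StepId := by
  intro be H V u u' hbe hbe1 hH
  obtain ⟨h1, h2, h3, h4, h5, h6, h7⟩ := hB be hbe hbe1
  have hH0 : 0 < H := by linarith
  have cf : ∀ w, Continuous fun y => HH be (1 / 20) y w := fun w =>
    h1.comp (f := fun y : ℝ => ((y, w) : ℝ × ℝ)) (by fun_prop)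
  have cs : ∀ w, Continuous fun y => st be y w := fun w =>
    h5.comp (f := fun y => ((y, w) : ℝ × ℝ)) (by fun_prop)
  have hh : ∀ w, ∀ a h : ℝ, 0 ≤ h → st be a w - st be (a + h) w
      = ∫ y in a..(a + h), HH be (1 / 20) y w := fun w a h hh => h7 a w h hh
  have key : ∀ w w' : ℝ, rem be H V w w'
      = (∫ t in H..(2 * H), (st be (V + t) w - st be (V + t + (w - w')) w)) / H := by
    intro w w'
    unfold rem
    congr 1
    refine intervalIntegral.integral_congr fun t _ => ?_
    have := h6 (V + t) w' (w - w')
    rw [add_sub_cancel] at this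
    simp only [this]
  refine ⟨?_, fun _ => ?_, ?_⟩
  · have e : ∀ t ∈ uIcc H (2 * H), st be V u - st be V u'
        = (∫ y in V..(V + t), (HH be (1 / 20) y u - HH be (1 / 20) y u'))
          + (st be (V + t) u - st be (V + t) u') := by
      intro t ht
      rw [uIcc_of_le (by linarith)] at ht
      rw [intervalIntegral.integral_sub ((cf u).intervalIntegrable _ _)
        ((cf u').intervalIntegrable _ _), ← h7 V u t (by linarith [ht.1]),
        ← h7 V u' t (by linarith [ht.1])]
      ring
    have e2 : ∫ t in H..(2 * H), (st be V u - st be V u')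
        = (∫ t in H..(2 * H), ∫ y in V..(V + t), (HH be (1 / 20) y u - HH be (1 / 20) y u'))
          + ∫ t in H..(2 * H), (st be (V + t) u - st be (V + t) u') := by
      rw [← intervalIntegral.integral_add]
      · exact intervalIntegral.integral_congr e
      · refine Continuous.intervalIntegrable ?_ _ _
        have : (fun t => ∫ y in V..(V + t), (HH be (1 / 20) y u - HH be (1 / 20) y u'))
            = (fun x => ∫ y in V..x, (HH be (1 / 20) y u - HH be (1 / 20) y u'))
              ∘ fun t => V + t := rfl
        rw [this]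
        exact (intervalIntegral.continuous_primitive
          (fun a b => ((cf u).sub (cf u')).intervalIntegrable _ _) V).comp (by fun_prop)
      · refine Continuous.intervalIntegrable ?_ _ _
        exact ((cs u).comp (by fun_prop : Continuous fun t : ℝ => V + t)).sub
          ((cs u').comp (by fun_prop : Continuous fun t : ℝ => V + t))
    rw [intervalIntegral.integral_const, smul_eq_mul] at e2
    unfold rem
    rw [← add_div, ← e2]
    field_simp
    ring
  · rw [key u u']
    have := B5.part2 (cf u) (fun y => h2 y u) (cs u) (hh u) V H (u - u')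
    have e : (∫ t in H..(2 * H), (st be (V + t) u - st be (V + t + (u - u')) u)) / H
          - (u - u') / H * ∫ y in (V + H)..(V + 2 * H), HH be (1 / 20) y u
        = ((∫ t in H..(2 * H), (st be (V + t) u - st be (V + t + (u - u')) u))
          - (u - u') * ∫ y in (V + H)..(V + 2 * H), HH be (1 / 20) y u) / H := by ring
    rw [e, abs_div, abs_of_pos hH0, div_le_iff₀ hH0]
    refine this.trans (le_of_eq ?_)
    field_simp
  · have hadd : ∫ y in (V + H)..(V + 2 * H + |u - u'|), (HH be (1 / 20) y u + HH be (1 / 20) y u')
        = (∫ y in (V + H)..(V + 2 * H + |u - u'|), HH be (1 / 20) y u)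
          + ∫ y in (V + H)..(V + 2 * H + |u - u'|), HH be (1 / 20) y u' :=
      intervalIntegral.integral_add ((cf u).intervalIntegrable _ _)
        ((cf u').intervalIntegrable _ _)
    have n1 : 0 ≤ ∫ y in (V + H)..(V + 2 * H + |u - u'|), HH be (1 / 20) y u :=
      intervalIntegral.integral_nonneg (by linarith [abs_nonneg (u - u')]) fun y _ => h2 y u
    have n2 : 0 ≤ ∫ y in (V + H)..(V + 2 * H + |u - u'|), HH be (1 / 20) y u' :=
      intervalIntegral.integral_nonneg (by linarith [abs_nonneg (u - u')]) fun y _ => h2 y u'
    have nd : 0 ≤ |u - u'| / H := by positivity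
    rcases le_total u' u with hu | hu
    · rw [key u u', abs_div, abs_of_pos hH0, div_le_iff₀ hH0, hadd]
      have := B5.part3 (cf u) (fun y => h2 y u) (cs u) (hh u) V H (u - u') (by linarith) hH0.le
      have ha : |u - u'| = u - u' := abs_of_nonneg (by linarith)
      rw [ha] at n1 n2 nd ⊢
      refine this.trans ?_
      have : (u - u') / H * ((∫ y in (V + H)..(V + 2 * H + (u - u')), HH be (1 / 20) y u)
          + ∫ y in (V + H)..(V + 2 * H + (u - u')), HH be (1 / 20) y u') * H
          = (u - u') * ((∫ y in (V + H)..(V + 2 * H + (u - u')), HH be (1 / 20) y u)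
          + ∫ y in (V + H)..(V + 2 * H + (u - u')), HH be (1 / 20) y u') := by
        field_simp
      rw [this]
      exact mul_le_mul_of_nonneg_left (by linarith) (by linarith)
    · have hneg : rem be H V u u' = -rem be H V u' u := by
        unfold rem
        rw [← neg_div, ← intervalIntegral.integral_neg]
        congr 1
        refine intervalIntegral.integral_congr fun t _ => ?_
        ring
      rw [hneg, abs_neg, key u' u, abs_div, abs_of_pos hH0, div_le_iff₀ hH0, hadd]
      have := B5.part3 (cf u') (fun y => h2 y u') (cs u') (hh u') V H (u' - u) (by linarith) hH0.le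
      have ha : |u - u'| = u' - u := by
        rw [abs_of_nonpos (by linarith)]
        ring
      rw [ha] at n1 n2 nd ⊢
      refine this.trans ?_
      have : (u' - u) / H * ((∫ y in (V + H)..(V + 2 * H + (u' - u)), HH be (1 / 20) y u)
          + ∫ y in (V + H)..(V + 2 * H + (u' - u)), HH be (1 / 20) y u') * H
          = (u' - u) * ((∫ y in (V + H)..(V + 2 * H + (u' - u)), HH be (1 / 20) y u)
          + ∫ y in (V + H)..(V + 2 * H + (u' - u)), HH be (1 / 20) y u') := by
        field_simp
      rw [this]
      exact mul_le_mul_of_nonneg_left (by linarith) (by linarith)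

end Pool.Agent.Lib.RA
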