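import Mathlib
import Pool.Agent.Lib.MP_f9aece_nt_rate.Stmts
import Pool.Agent.Lib.MP_f9aece_nt_loc.E2
import Pool.Agent.Lib.MP_f9aece_nt_gt.N2

/-!
Module C1: the prime sums of any two levels.
-/

set_option autoImplicit false

namespace Pool.Agent.Lib.RA

open MeasureTheory Set Filter Topology Complex ProbabilityTheory
open scoped ComplexConjugate
open Pool.Agent.Lib.GT
open Pool.Agent.Lib.LC
open Pool.Agent.Lib.MP_f9aece_nt (VV)

namespace C1x

theorem h_mono_all {A A' : Par} (hA : 0 ≤ A.lam) (hl : A.lam ≤ A'.lam) (p : ℕ) : A'.h p ≤ A.h p := by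
  rcases Nat.eq_zero_or_pos p with rfl | hp
  · unfold Par.h
    rw [Nat.cast_zero, Real.zero_rpow (by linarith), Real.zero_rpow (by linarith)]
  · exact SL.h_mono hl hp

theorem log_le_self' {x : ℝ} (hx : 0 < x) : Real.log x ≤ x := by
  have := Real.log_le_sub_one_of_pos hx
  linarith

end C1x

/-- C1 -/
theorem specPair (hN : GT.GroupNum) : SpecPair := by
  obtain ⟨C, hC, hPS⟩ := primeSums
  refine ⟨4 * C + 200, 3, by linarith, by norm_num, ?_⟩
  intro A A' T N N' hA hA' hN3 hNN
  have hAok := hA.ok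
  have hAok' := hA'.ok
  obtain ⟨hG1, -, hG3, hG4, -⟩ := hN A hAok
  obtain ⟨hG1', -, hG3', hG4', -⟩ := hN A' hAok'
  have hN0 : (0 : ℝ) < N := by linarith
  have hN1 : (1 : ℝ) ≤ N := by linarith
  have hNle : N ≤ N' := by
    refine le_trans ?_ hNN
    calc N = N ^ (1 : ℝ) := (Real.rpow_one N).symm
      _ ≤ N ^ (3 / 2 : ℝ) := Real.rpow_le_rpow_of_exponent_le hN1 (by norm_num)
  have hN0' : (0 : ℝ) < N' := by linarith
  have hN1' : (1 : ℝ) ≤ N' := by linarith
  -- logarithms
  have hL1 : 1 ≤ Real.log N := by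
    rw [Real.le_log_iff_exp_le hN0]
    have := Real.exp_one_lt_three
    linarith
  have hLL : 3 / 2 * Real.log N ≤ Real.log N' := by
    rw [← Real.log_rpow hN0]
    exact Real.log_le_log (by positivity) hNN
  have hL1' : 1 ≤ Real.log N' := by linarith
  have hN'4 : N ^ 6 ≤ N' ^ 4 := by
    have h1 : (N ^ (3 / 2 : ℝ)) ^ 4 = N ^ 6 := by
      rw [← Real.rpow_natCast, ← Real.rpow_mul hN0.le, ← Real.rpow_natCast]
      norm_num
    rw [← h1]
    exact pow_le_pow_left₀ (by positivity) hNN 4
  have hv0 : (4 : ℝ) ≤ A.v := by exact_mod_cast hAok.hv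
  have hv0' : (4 : ℝ) ≤ A'.v := by exact_mod_cast hAok'.hv
  have hvv : (A.v : ℝ) ≤ A'.v := by
    have h1 := hA.hv2
    have h2 := hA'.hv1
    linarith
  have hlogT : 1 ≤ Real.log T := by
    have h1 := hA.hN
    have h2 : (1 : ℝ) ≤ N ^ 12 := one_le_pow₀ hN1
    linarith
  have hYY : A'.Y ≤ A.Y := by
    rw [hA.hY, hA'.hY]
    apply div_le_div_of_nonneg_left (by linarith) (by positivity)
    gcongr
  have hYr : A.Y / A'.Y ≤ 6 * Real.log N' := by
    have h2 := hA'.hv2
    have h3 : A.Y / A'.Y = A'.v / A.v := by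
      rw [hA.hY, hA'.hY]
      field_simp
    rw [h3]
    refine le_trans (div_le_self (by linarith) (by linarith)) h2
  have hpp : A.p0 ≤ A'.p0 := by
    have h1 := hA.hp2
    have h2 := hA'.hp1
    have h3 : 2 * N ^ 4 ≤ N ^ 6 := by
      have h4 : (2 : ℝ) ≤ N ^ 2 := by nlinarith
      have h5 : (0 : ℝ) < N ^ 4 := by positivity
      nlinarith
    exact_mod_cast h1.trans (h3.trans (hN'4.trans h2))
  have hll : A.lam ≤ A'.lam := by
    rw [hA.hl, hA'.hl]
    apply div_le_div_of_nonneg_right _ (by linarith)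
    exact Real.rpow_le_rpow hN0.le hNle (by norm_num)
  -- the sets of primes
  have hUU : A'.U ⊆ A.U := by
    intro p hp
    obtain ⟨h1, h2, h3⟩ := (hG4' p).1 hp
    exact (hG4 p).2 ⟨h1, lt_of_le_of_lt hpp h2, h3.trans (Real.exp_le_exp.2 hYY)⟩
  have hU1 : ∀ p ∈ A.U, 1 ≤ p := fun p hp => ((hG4 p).1 hp).1.one_le
  have hhh : ∀ p : ℕ, A'.h p ≤ A.h p := fun p => C1x.h_mono_all hAok.hl hll p
  -- the main sum
  have hmain : ∑ p ∈ A.U, A.h p * (A.h p - (if p ∈ A'.U then A'.h p else 0))
      ≤ (2 * C + 100) * Real.log N' := by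
    rw [← Finset.sum_sdiff hUU]
    -- the common primes
    have hcom : ∑ p ∈ A'.U, A.h p * (A.h p - (if p ∈ A'.U then A'.h p else 0))
        ≤ 51 * Real.log N' + 2 * C := by
      obtain ⟨hp1, -, hp3, -⟩ := hPS A' hAok'
      have hp1 := hp1 0
      have hpt : ∀ p ∈ A'.U, A.h p * (A.h p - (if p ∈ A'.U then A'.h p else 0))
          ≤ ‖(p : ℂ) ^ (-(1 / 2 + I * (0 : ℝ)) : ℂ) - A'.h p‖ ^ 2
            + A'.h p * ((p : ℝ) ^ (-(1 / 2) : ℝ) - A'.h p) := by
        intro p hp
        have h1 := hU1 p (hUU hp)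
        rw [if_pos hp]
        have h2 := SL.h_le_half A hAok.hl h1
        have h3 := hhh p
        have h4 := SL.h_nonneg A p
        have h5 := SL.h_nonneg A' p
        have h6 : (p : ℂ) ^ (-(1 / 2 + I * (0 : ℝ)) : ℂ) - A'.h p
            = (((p : ℝ) ^ (-(1 / 2) : ℝ) - A'.h p : ℝ) : ℂ) := by
          rw [Complex.ofReal_sub, Complex.ofReal_cpow (Nat.cast_nonneg p)]
          congr 2
          push_cast
          ring
        rw [h6, Complex.norm_real, Real.norm_eq_abs, sq_abs]
        nlinarith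
      calc ∑ p ∈ A'.U, A.h p * (A.h p - (if p ∈ A'.U then A'.h p else 0))
          ≤ ∑ p ∈ A'.U, (‖(p : ℂ) ^ (-(1 / 2 + I * (0 : ℝ)) : ℂ) - A'.h p‖ ^ 2
            + A'.h p * ((p : ℝ) ^ (-(1 / 2) : ℝ) - A'.h p)) := Finset.sum_le_sum hpt
        _ = ∑ p ∈ A'.U, ‖(p : ℂ) ^ (-(1 / 2 + I * (0 : ℝ)) : ℂ) - A'.h p‖ ^ 2
            + ∑ p ∈ A'.U, A'.h p * ((p : ℝ) ^ (-(1 / 2) : ℝ) - A'.h p) := Finset.sum_add_distrib
        _ ≤ (17 / 4 * Real.log (1 + A'.Y * |(0 : ℝ)|) + 17 * Real.log (1 + A'.lam * A'.Y) + C) + C :=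
            add_le_add hp1 hp3
        _ ≤ 51 * Real.log N' + 2 * C := by
            rw [abs_zero, mul_zero, add_zero, Real.log_one]
            have h1 : A'.lam * A'.Y ≤ N' ^ (1 / 2 : ℝ) := by
              rw [hA'.hl, hA'.hY]
              have h3 : N' ^ (1 / 2 : ℝ) / Real.log T * (Real.log T / (10 ^ 11 * A'.v))
                  = N' ^ (1 / 2 : ℝ) / (10 ^ 11 * A'.v) := by
                field_simp
              rw [h3]
              apply div_le_self (by positivity)
              nlinarith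
            have h2 : N' ^ (1 / 2 : ℝ) ≤ N' := by
              calc N' ^ (1 / 2 : ℝ) ≤ N' ^ (1 : ℝ) :=
                    Real.rpow_le_rpow_of_exponent_le hN1' (by norm_num)
                _ = N' := Real.rpow_one N'
            have h3 : 1 + A'.lam * A'.Y ≤ N' ^ 3 := by
              have : N' + 1 ≤ N' ^ 3 := by nlinarith [mul_pos hN0' hN0']
              linarith
            have h4 : 0 ≤ A'.lam * A'.Y := mul_nonneg hAok'.hl (by linarith [hAok'.hY])
            have h5 : Real.log (1 + A'.lam * A'.Y) ≤ 3 * Real.log N' := by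
              calc Real.log (1 + A'.lam * A'.Y) ≤ Real.log (N' ^ 3) :=
                    Real.log_le_log (by linarith) h3
                _ = 3 * Real.log N' := by rw [Real.log_pow]; norm_num
            linarith
    -- the other primes
    have hoth : ∑ p ∈ A.U \ A'.U, A.h p * (A.h p - (if p ∈ A'.U then A'.h p else 0))
        ≤ 20 * Real.log N' := by
      have hpt : ∀ p ∈ A.U \ A'.U, A.h p * (A.h p - (if p ∈ A'.U then A'.h p else 0)) ≤ (p : ℝ)⁻¹ := by
        intro p hp
        rw [Finset.mem_sdiff] at hp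
        rw [if_neg hp.2, sub_zero]
        have h1 := hU1 p hp.1
        rw [← SL.half_sq h1]
        have h2 := SL.h_le_half A hAok.hl h1
        exact mul_le_mul h2 h2 (SL.h_nonneg A p) ((SL.h_nonneg A p).trans h2)
      have hp0pos : (0 : ℝ) < A.p0 := by
        have : 1000 ≤ A.p0 := hAok.hp
        exact_mod_cast (by omega : 0 < A.p0)
      have hp0pos' : (0 : ℝ) < A'.p0 := by
        have : 1000 ≤ A'.p0 := hAok'.hp
        exact_mod_cast (by omega : 0 < A'.p0)
      have hlp0 : 4 * Real.log N ≤ Real.log A.p0 := by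
        have h1 : N ^ 4 ≤ (A.p0 : ℝ) := hA.hp1
        calc 4 * Real.log N = Real.log (N ^ 4) := by rw [Real.log_pow]; norm_num
          _ ≤ Real.log A.p0 := Real.log_le_log (by positivity) h1
      have hlp0' : Real.log A'.p0 ≤ 8 * Real.log N' := by
        have h1 := hA'.hp2
        have h3 : (A'.p0 : ℝ) ≤ N' ^ 8 := by
          have h4 : (2 : ℝ) ≤ N' ^ 4 := by
            have : (3 : ℝ) ^ 4 ≤ N' ^ 4 := pow_le_pow_left₀ (by norm_num) (by linarith) 4
            linarith [show (3 : ℝ) ^ 4 = 81 by norm_num]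
          have h5 : (0 : ℝ) < N' ^ 4 := by positivity
          have h6 : N' ^ 8 = N' ^ 4 * N' ^ 4 := by ring
          rw [h6]
          nlinarith
        calc Real.log A'.p0 ≤ Real.log (N' ^ 8) := Real.log_le_log hp0pos' h3
          _ = 8 * Real.log N' := by rw [Real.log_pow]; norm_num
      have hlog4 : Real.log 4 ≤ 2 := by
        have h1 : Real.log 4 = 2 * Real.log 2 := by
          rw [show (4 : ℝ) = 2 ^ 2 by norm_num, Real.log_pow]
          norm_num
        have := Real.log_two_lt_d9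
        rw [h1]
        linarith
      have hlog4' : 0 ≤ Real.log 4 := Real.log_nonneg (by norm_num)
      have hlogp : ∀ p ∈ A.U, Real.log A.p0 < Real.log p ∧ Real.log p ≤ A.Y := by
        intro p hp
        obtain ⟨h1, h2, h3⟩ := (hG4 p).1 hp
        have hp0 : (0 : ℝ) < p := by exact_mod_cast h1.pos
        refine ⟨Real.log_lt_log hp0pos (by exact_mod_cast h2), ?_⟩
        rw [Real.log_le_iff_le_exp hp0]
        exact h3
      have hs1 : VV ((A.U \ A'.U).filter (fun p => p ≤ A'.p0)) ≤ 3 + 8 * Real.log N' := by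
        have h1 := MP_f9aece_nt_h6.VV_le_log (y := Real.log A.p0) (Y := Real.log A'.p0)
          (by linarith) (Real.log_le_log hp0pos (by exact_mod_cast hpp))
          ((A.U \ A'.U).filter (fun p => p ≤ A'.p0)) (by
            intro p hp
            rw [Finset.mem_filter, Finset.mem_sdiff] at hp
            obtain ⟨⟨h1, -⟩, h2⟩ := hp
            refine ⟨((hG4 p).1 h1).1, (hlogp p h1).1, ?_⟩
            apply Real.log_le_log
            · exact_mod_cast ((hG4 p).1 h1).1.pos
            · exact_mod_cast h2)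
        have h0 : 0 < Real.log A'.p0 := by
          have : Real.log A.p0 ≤ Real.log A'.p0 := Real.log_le_log hp0pos (by exact_mod_cast hpp)
          linarith
        have h3 : 0 < Real.log A'.p0 / Real.log A.p0 := div_pos h0 (by linarith)
        have h4 : Real.log (Real.log A'.p0 / Real.log A.p0) ≤ 8 * Real.log N' := by
          refine (C1x.log_le_self' h3).trans ?_
          exact (div_le_self h0.le (by linarith)).trans hlp0'
        have h5 : Real.log 4 / Real.log A.p0 ≤ 2 :=
          (div_le_self hlog4' (by linarith)).trans hlog4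
        linarith
      have hs2 : VV ((A.U \ A'.U).filter (fun p => ¬ p ≤ A'.p0)) ≤ 3 + 6 * Real.log N' := by
        have hY1 : 1 ≤ A'.Y := hAok'.hY
        have h1 := MP_f9aece_nt_h6.VV_le_log (y := A'.Y) (Y := A.Y)
          (by linarith) hYY
          ((A.U \ A'.U).filter (fun p => ¬ p ≤ A'.p0)) (by
            intro p hp
            rw [Finset.mem_filter, Finset.mem_sdiff] at hp
            obtain ⟨⟨h1, h3⟩, h2⟩ := hp
            have hpr := ((hG4 p).1 h1).1
            refine ⟨hpr, ?_, (hlogp p h1).2⟩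
            by_contra h4
            apply h3
            refine (hG4' p).2 ⟨hpr, not_le.1 h2, ?_⟩
            have hp0 : (0 : ℝ) < p := by exact_mod_cast hpr.pos
            rw [← Real.log_le_iff_le_exp hp0]
            exact not_lt.1 h4)
        have h4 : Real.log (A.Y / A'.Y) ≤ 6 * Real.log N' :=
          (C1x.log_le_self' (div_pos (by linarith) (by linarith))).trans hYr
        have h5 : Real.log 4 / A'.Y ≤ 2 := (div_le_self hlog4' hY1).trans hlog4
        linarith
      calc ∑ p ∈ A.U \ A'.U, A.h p * (A.h p - (if p ∈ A'.U then A'.h p else 0))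
          ≤ ∑ p ∈ A.U \ A'.U, (p : ℝ)⁻¹ := Finset.sum_le_sum hpt
        _ = VV ((A.U \ A'.U).filter (fun p => p ≤ A'.p0))
            + VV ((A.U \ A'.U).filter (fun p => ¬ p ≤ A'.p0)) := by
            unfold MP_f9aece_nt.VV
            rw [Finset.sum_filter_add_sum_filter_not]
        _ ≤ 20 * Real.log N' := by linarith
    have h60 : 51 * Real.log N' + 2 * C + 20 * Real.log N' ≤ (2 * C + 100) * Real.log N' := by
      have : 2 * C ≤ 2 * C * Real.log N' := le_mul_of_one_le_right (by linarith) hL1'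
      linarith
    linarith
  have hc0 : ∀ p : ℕ, 0 ≤ A.h p - (if p ∈ A'.U then A'.h p else 0) := by
    intro p
    split_ifs with h2
    · have := hhh p
      linarith
    · rw [sub_zero]
      exact SL.h_nonneg A p
  have hcle : ∀ p : ℕ, A.h p - (if p ∈ A'.U then A'.h p else 0) ≤ A.h p := by
    intro p
    split_ifs with h2
    · have := SL.h_nonneg A' p
      linarith
    · linarith
  have hvar : A.vt - A'.vt ≤ (4 * C + 200) * Real.log N' := by
    have h1 : A'.vt = ∑ p ∈ A.U, (if p ∈ A'.U then A'.h p else 0) ^ 2 := by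
      unfold Par.vt
      have h2 : ∀ p ∈ A.U, (if p ∈ A'.U then A'.h p else 0) ^ 2 = if p ∈ A'.U then A'.h p ^ 2 else 0 := by
        intro p _
        split_ifs <;> ring
      rw [Finset.sum_congr rfl h2, Finset.sum_ite_mem, Finset.inter_eq_right.2 hUU]
    rw [h1]
    unfold Par.vt
    rw [← Finset.sum_sub_distrib]
    calc ∑ p ∈ A.U, (A.h p ^ 2 - (if p ∈ A'.U then A'.h p else 0) ^ 2)
        ≤ ∑ p ∈ A.U, 2 * (A.h p * (A.h p - (if p ∈ A'.U then A'.h p else 0))) := by
          apply Finset.sum_le_sum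
          intro p _
          have h2 := hc0 p
          have h3 := hcle p
          set e : ℝ := if p ∈ A'.U then A'.h p else 0
          nlinarith
      _ = 2 * ∑ p ∈ A.U, A.h p * (A.h p - (if p ∈ A'.U then A'.h p else 0)) := by
          rw [Finset.mul_sum]
      _ ≤ (4 * C + 200) * Real.log N' := by linarith
  refine ⟨?_, hvar, hUU, hhh, ?_⟩
  · -- the variances
    unfold Par.vt
    calc ∑ p ∈ A'.U, A'.h p ^ 2 ≤ ∑ p ∈ A'.U, A.h p ^ 2 :=
          Finset.sum_le_sum fun p _ => pow_le_pow_left₀ (SL.h_nonneg A' p) (hhh p) 2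
      _ ≤ ∑ p ∈ A.U, A.h p ^ 2 :=
          Finset.sum_le_sum_of_subset_of_nonneg hUU fun p _ _ => sq_nonneg _
  set c : ℕ → ℂ := fun p => if p ∈ A.U then
    (((A.h p - (if p ∈ A'.U then A'.h p else 0) : ℝ)) : ℂ) else 0 with hc
  have hcn : ∀ p ∈ A.U, ‖c p‖ = A.h p - (if p ∈ A'.U then A'.h p else 0) := by
    intro p hp
    simp only [hc]
    rw [if_pos hp, Complex.norm_real, Real.norm_of_nonneg (hc0 p)]
  have hsum1 : ∑ p ∈ A.U, A.h p * ‖c p‖ ≤ (4 * C + 200) * Real.log N' := by
    rw [Finset.sum_congr rfl fun p hp => by rw [hcn p hp]]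
    refine hmain.trans ?_
    nlinarith
  refine ⟨c, ?_, ?_, hsum1, ?_⟩
  · -- the size
    intro p
    by_cases hp : p ∈ A.U
    · have hp1 := hU1 p hp
      rw [hcn p hp]
      have h1 := hcle p
      have h2 := SL.h_le_half A hAok.hl hp1
      rw [SL.half_eq] at h2
      have h3 : 0 ≤ 1 / Real.sqrt p := by positivity
      calc A.h p - (if p ∈ A'.U then A'.h p else 0) ≤ 1 / Real.sqrt p := h1.trans h2
        _ ≤ 1 / Real.sqrt p + 1 / Real.sqrt p := by linarith
        _ = 2 / Real.sqrt p := by ring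
    · simp only [hc]
      rw [if_neg hp, norm_zero]
      positivity
  · -- the linear form
    intro x
    rw [SL.X_eq hG3' (Finset.empty_subset _) x, SL.X_eq hG3 (Finset.empty_subset _) x,
      ← Complex.sub_re]
    congr 1
    unfold lin
    simp only [Finset.biUnion_empty, Finset.sdiff_empty]
    have h1 : ∀ p ∈ A.U, c p * e1 (x p) = (A.h p : ℂ) * e1 (x p)
        - (if p ∈ A'.U then (A'.h p : ℂ) * e1 (x p) else 0) := by
      intro p hp
      simp only [hc]
      rw [if_pos hp]
      split_ifs <;> push_cast <;> ring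
    rw [Finset.sum_congr rfl h1, Finset.sum_sub_distrib, Finset.sum_ite_mem,
      Finset.inter_eq_right.2 hUU]
  · -- the second moment
    have h1 : ∑ p ∈ A.U, ‖c p‖ ^ 2 ≤ (4 * C + 200) * Real.log N' := by
      refine le_trans (Finset.sum_le_sum fun p hp => ?_) hsum1
      rw [sq]
      refine mul_le_mul_of_nonneg_right ?_ (norm_nonneg _)
      rw [hcn p hp]
      exact hcle p
    have h2 : 1 ≤ (4 * C + 200) * Real.log N' := by nlinarith
    nlinarith

end Pool.Agent.Lib.RA
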