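import Pool.Agent.Lib.MP_f9aece_nt_rate.Stmts
import Pool.Agent.Lib.MP_f9aece_nt_gt.Cont

/-!
C2: two levels, near part.
-/

set_option autoImplicit false

namespace Pool.Agent.Lib.RA

open MeasureTheory Set Filter Topology Complex ProbabilityTheory
open scoped ComplexConjugate
open Pool.Agent.Lib.GT
open Pool.Agent.Lib.LC
open Pool.Agent.Lib.LC.E9 (NN)

namespace C2x

/-- the average over the levels and an integral over the heights -/
lemma swap_avg {μ : Measure ℝ} [IsFiniteMeasure μ] {φ : ℝ → ℝ → ℝ} {V H B ε : ℝ} (hH : 0 < H)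
    (hc : Continuous (fun p : ℝ × ℝ => φ p.1 p.2))
    (hb : ∀ t y, V ≤ y → y ≤ V + 2 * H → |φ t y| ≤ B) (hε : 0 ≤ ε) {g : ℝ → ℝ}
    (hg : IntegrableOn g (Ioi V)) (hD : ∀ y, V ≤ y → |(∫ t, φ t y ∂μ) - g y| ≤ ε) :
    |(∫ t, (∫ h in H..(2 * H), ∫ y in V..(V + h), φ t y) / H ∂μ)
      - (∫ h in H..(2 * H), ∫ y in V..(V + h), g y) / H| ≤ 2 * H * ε := by
  have hB : 0 ≤ B := (abs_nonneg _).trans (hb 0 V le_rfl (by linarith))
  have hK : Continuous (fun p : ℝ × ℝ => ∫ y in V..(V + p.1), φ p.2 y) := by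
    refine intervalIntegral.continuous_parametric_intervalIntegral_of_continuous
      (f := fun (p : ℝ × ℝ) y => φ p.2 y) ?_ (by fun_prop)
    exact hc.comp ((continuous_snd.comp continuous_fst).prodMk continuous_snd)
  have hKb : ∀ h t, h ∈ Icc 0 (2 * H) → |∫ y in V..(V + h), φ t y| ≤ B * (2 * H) := by
    intro h t hh
    have h1 := intervalIntegral.norm_integral_le_of_norm_le_const (a := V) (b := V + h)
      (f := φ t) (C := B) (fun y hy => by
        rw [uIoc_of_le (by linarith [hh.1])] at hy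
        exact hb t y hy.1.le (by linarith [hy.2, hh.2]))
    rw [Real.norm_eq_abs] at h1
    refine h1.trans (mul_le_mul_of_nonneg_left ?_ hB)
    rw [abs_of_nonneg (by linarith [hh.1])]
    linarith [hh.2]
  -- the integrals over the levels and the heights commute
  have hI1 : Integrable (Function.uncurry fun (h t : ℝ) => ∫ y in V..(V + h), φ t y)
      ((volume.restrict (uIoc H (2 * H))).prod μ) := by
    have : IsFiniteMeasure (volume.restrict (uIoc H (2 * H))) := by
      unfold uIoc; infer_instance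
    refine Integrable.of_bound hK.aestronglyMeasurable (B * (2 * H)) ?_
    have h1 : ∀ᵐ p ∂((volume.restrict (uIoc H (2 * H))).prod μ), p.1 ∈ uIoc H (2 * H) :=
      Measure.quasiMeasurePreserving_fst.ae (ae_restrict_mem measurableSet_uIoc)
    filter_upwards [h1] with p hp
    rw [uIoc_of_le (by linarith)] at hp
    exact hKb p.1 p.2 ⟨by linarith [hp.1], hp.2⟩
  have hI2 : ∀ a, 0 ≤ a → a ≤ 2 * H → Integrable (Function.uncurry fun (y t : ℝ) => φ t y)
      ((volume.restrict (uIoc V (V + a))).prod μ) := by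
    intro a ha0 ha
    have : IsFiniteMeasure (volume.restrict (uIoc V (V + a))) := by
      unfold uIoc; infer_instance
    refine Integrable.of_bound (Continuous.aestronglyMeasurable ?_) B ?_
    · exact hc.comp (continuous_snd.prodMk continuous_fst)
    have h1 : ∀ᵐ p ∂((volume.restrict (uIoc V (V + a))).prod μ), p.1 ∈ uIoc V (V + a) :=
      Measure.quasiMeasurePreserving_fst.ae (ae_restrict_mem measurableSet_uIoc)
    filter_upwards [h1] with p hp
    rw [uIoc_of_le (by linarith)] at hp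
    exact hb p.2 p.1 hp.1.le (by linarith [hp.2])
  have e1 : ∫ t, (∫ h in H..(2 * H), ∫ y in V..(V + h), φ t y) / H ∂μ
      = (∫ h in H..(2 * H), ∫ y in V..(V + h), ∫ t, φ t y ∂μ) / H := by
    rw [integral_div]
    congr 1
    rw [← intervalIntegral_integral_swap hI1]
    refine intervalIntegral.integral_congr fun h hh => ?_
    rw [uIcc_of_le (by linarith)] at hh
    exact (intervalIntegral_integral_swap (hI2 h (by linarith [hh.1]) hh.2)).symm
  set u : ℝ → ℝ := fun y => ∫ t, φ t y ∂μ with hu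
  have hui : IntervalIntegrable u volume V (V + 2 * H) :=
    intervalIntegrable_iff.mpr (hI2 (2 * H) (by linarith) le_rfl).integral_prod_left
  have hgi : IntervalIntegrable g volume V (V + 2 * H) := by
    rw [intervalIntegrable_iff_integrableOn_Ioc_of_le (by linarith)]
    exact hg.mono_set Ioc_subset_Ioi_self
  have hsub : ∀ h, h ∈ Icc 0 (2 * H) → IntervalIntegrable u volume V (V + h) ∧
      IntervalIntegrable g volume V (V + h) := by
    intro h hh
    have h1 : uIcc V (V + h) ⊆ uIcc V (V + 2 * H) := by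
      rw [uIcc_of_le (by linarith [hh.1]), uIcc_of_le (by linarith)]
      exact Icc_subset_Icc_right (by linarith [hh.2])
    exact ⟨hui.mono_set h1, hgi.mono_set h1⟩
  have hprim : ∀ f : ℝ → ℝ, IntervalIntegrable f volume V (V + 2 * H) →
      IntervalIntegrable (fun h => ∫ y in V..(V + h), f y) volume H (2 * H) := by
    intro f hf
    refine ContinuousOn.intervalIntegrable ?_
    have h1 := intervalIntegral.continuousOn_primitive_interval' hf left_mem_uIcc
    refine h1.comp (by fun_prop) fun h hh => ?_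
    rw [uIcc_of_le (by linarith)] at hh ⊢
    exact ⟨by linarith [hh.1], by linarith [hh.2]⟩
  rw [e1, ← sub_div, ← intervalIntegral.integral_sub (hprim u hui) (hprim g hgi), abs_div,
    abs_of_pos hH, div_le_iff₀ hH]
  have h2 := intervalIntegral.norm_integral_le_of_norm_le_const (a := H) (b := 2 * H)
    (f := fun h => (∫ y in V..(V + h), u y) - ∫ y in V..(V + h), g y) (C := ε * (2 * H))
    (fun h hh => by
      rw [uIoc_of_le (by linarith)] at hh
      obtain ⟨i1, i2⟩ := hsub h ⟨by linarith [hh.1], hh.2⟩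
      rw [← intervalIntegral.integral_sub i1 i2]
      refine (intervalIntegral.norm_integral_le_of_norm_le_const (C := ε) fun y hy => ?_).trans ?_
      · rw [uIoc_of_le (by linarith [hh.1])] at hy
        exact hD y hy.1.le
      · refine mul_le_mul_of_nonneg_left ?_ hε
        rw [abs_of_nonneg (by linarith [hh.1])]
        linarith [hh.2])
  rw [Real.norm_eq_abs, show |2 * H - H| = H by rw [abs_of_pos (by linarith)]; ring] at h2
  refine h2.trans (le_of_eq (by ring))

/-- the prime sums are bounded -/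
lemma X_bdd (A : Par) : ∃ M : ℝ, 0 ≤ M ∧ ∀ x : Om, |A.X ∅ x| ≤ M := by
  refine ⟨∑ g ∈ Finset.range A.J \ ∅, ∑ p ∈ A.S g, ‖(A.h p : ℂ)‖, by positivity, fun x => ?_⟩
  unfold Par.X
  refine (Finset.abs_sum_le_sum_abs _ _).trans (Finset.sum_le_sum fun g _ => ?_)
  exact (Complex.abs_re_le_norm _).trans (norm_lin_le _ _ _)

/-- the errors are small -/
lemma small {A : Par} {T N N' : ℝ} (hA : Spec A T N') (hT : 0 ≤ T) (hN : 1 ≤ N) (hN' : N ≤ N') :
    Real.exp (-A.v) + 1 / A.p0 + 1 / Real.sqrt T + N ^ (-(4 : ℝ)) ≤ 4 * N ^ (-(4 : ℝ)) := by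
  have h0 : 0 < N := by linarith
  have h0' : 0 < N' := by linarith
  have hr : N ^ (-(4 : ℝ)) = 1 / N ^ 4 := by
    rw [Real.rpow_neg h0.le, one_div]
    norm_cast
  have h4 : N ^ 4 ≤ N' ^ 4 := by gcongr
  have h4p : 0 < N ^ 4 := by positivity
  have e1 : Real.exp (-A.v) ≤ N ^ (-(4 : ℝ)) := by
    rw [Real.rpow_def_of_pos h0]
    refine Real.exp_le_exp.2 ?_
    have h1 := hA.hv1
    have h2 : Real.log N ≤ Real.log N' := Real.log_le_log h0 hN'
    have h3 : 0 ≤ Real.log N := Real.log_nonneg hN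
    linarith
  have e2 : (1 : ℝ) / A.p0 ≤ N ^ (-(4 : ℝ)) := by
    rw [hr]
    exact one_div_le_one_div_of_le h4p (h4.trans hA.hp1)
  have e3 : 1 / Real.sqrt T ≤ N ^ (-(4 : ℝ)) := by
    rw [hr]
    refine one_div_le_one_div_of_le h4p ?_
    have h1 : N' ^ 12 ≤ Real.log T := hA.hN
    have h2 : 0 < Real.log T := lt_of_lt_of_le (by positivity) h1
    refine Real.le_sqrt_of_sq_le ?_
    have h3 : Real.log T ≤ T := Real.log_le_self hT
    calc (N ^ 4) ^ 2 = N ^ 8 := by ring
      _ ≤ N ^ 12 := pow_le_pow_right₀ hN (by norm_num)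
      _ ≤ N' ^ 12 := by gcongr
      _ ≤ T := h1.trans h3
  linarith

end C2x

open C2x in
theorem stepNear (hM : WinMain) (hU : WinUp) (hE : WMean) (hS : LC.SpecNum) (hP : SpecPair)
    (hB : StepBasic) (hG : StepGauss) : StepNear := by
  obtain ⟨C1, T1, v0, hC1, hT1, H1⟩ := hM
  obtain ⟨C2, N2, hC2, hN2, H2⟩ := hS
  obtain ⟨C3, N3, hC3, hN3, H3⟩ := hP
  obtain ⟨C4, hC4, H4⟩ := hG
  refine ⟨24 * C1, max (max N2 N3) (max (Real.exp v0) ((2 * C2) ^ 2)), T1, by linarith, ?_, hT1, ?_⟩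
  · exact hN2.trans ((le_max_left _ _).trans (le_max_left _ _))
  intro A A' T N hA hA' hbe hN hT hL x F hF hFs hev hev' V
  have hNN2 : N2 ≤ N := ((le_max_left _ _).trans (le_max_left _ _)).trans hN
  have hNN3 : N3 ≤ N := ((le_max_right _ _).trans (le_max_left _ _)).trans hN
  have hNv : Real.exp v0 ≤ N := ((le_max_left _ _).trans (le_max_right _ _)).trans hN
  have hNC : (2 * C2) ^ 2 ≤ N := ((le_max_right _ _).trans (le_max_right _ _)).trans hN
  have hN1 : 1 ≤ N := hN2.trans hNN2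
  have hN0 : 0 < N := by linarith
  have hT3 : 3 ≤ T := hT1.trans hT
  have hN' : N ≤ N ^ (3 / 2 : ℝ) := by
    calc N = N ^ (1 : ℝ) := (Real.rpow_one N).symm
      _ ≤ N ^ (3 / 2 : ℝ) := Real.rpow_le_rpow_of_exponent_le hN1 (by norm_num)
  have hv : ∀ {B : Par} {M : ℝ}, Spec B T M → N ≤ M → v0 ≤ B.v := by
    intro B M hBM hM
    have h1 : (v0 : ℝ) ≤ Real.log N := by
      rw [← Real.log_exp v0]
      exact Real.log_le_log (Real.exp_pos _) hNv
    have h2 : Real.log N ≤ Real.log M := Real.log_le_log hN0 hM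
    have h3 := hBM.hv1
    have h4 : 0 ≤ Real.log N := Real.log_nonneg hN1
    have h5 : (v0 : ℝ) ≤ B.v := by linarith
    exact_mod_cast h5
  have hlen := (H2 A T N hA hNN2).1
  have hlen' := (H2 A' T _ hA' (hNN2.trans hN')).1
  have hvt := (H2 A T N hA hNN2).2.2.2.2.2.2.2.2
  have hvt' := (H2 A' T _ hA' (hNN2.trans hN')).2.2.2.2.2.2.2.2
  have hle := (H3 A A' T N _ hA hA' hNN3 le_rfl).1
  have hs1 := hA.ok.hs
  have hs1' := hA'.ok.hs
  -- the sizes
  have hGc : ∀ y, A'.G y ≤ 2 * A.G y := by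
    intro y
    refine LC.E9.G_cmp hbe ?_ ?_ (by linarith) y
    · unfold Par.s2
      linarith
    · have h1 := (abs_le.1 hvt).2
      have h2 := (abs_le.1 hvt').1
      have h3 : (N ^ (3 / 2 : ℝ)) ^ (1 / 2 : ℝ) = N ^ (3 / 4 : ℝ) := by
        rw [← Real.rpow_mul hN0.le]
        norm_num
      rw [h3] at h2
      have h4 : N ^ (1 / 2 : ℝ) ≤ N ^ (3 / 4 : ℝ) :=
        Real.rpow_le_rpow_of_exponent_le hN1 (by norm_num)
      have h5 : N ^ (3 / 2 : ℝ) = N ^ (3 / 4 : ℝ) * N ^ (3 / 4 : ℝ) := by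
        rw [← Real.rpow_add hN0]
        norm_num
      have h6 : 2 * C2 ≤ N ^ (3 / 4 : ℝ) := by
        calc 2 * C2 = ((2 * C2) ^ 2) ^ (1 / 2 : ℝ) := by
              rw [← Real.sqrt_eq_rpow, Real.sqrt_sq (by linarith)]
          _ ≤ N ^ (1 / 2 : ℝ) := Real.rpow_le_rpow (by positivity) hNC (by norm_num)
          _ ≤ _ := h4
      have h7 : 0 < N ^ (3 / 4 : ℝ) := by positivity
      have h8 : 2 * C2 * N ^ (3 / 4 : ℝ) ≤ Real.log (Real.log T) := by
        refine le_trans ?_ hL
        rw [h5]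
        gcongr
      have h9 : C2 * N ^ (1 / 2 : ℝ) ≤ C2 * N ^ (3 / 4 : ℝ) := by gcongr
      unfold Par.s2
      nlinarith
  have hG0 : ∀ y, 0 ≤ A.G y := fun y => by unfold Par.G; positivity
  have hGm : ∀ y, V ≤ y → A.G y ≤ A.G V := by
    intro y hy
    unfold Par.G
    have := hA.ok.hbe
    gcongr
  have hκ : 0 < N ^ (-(4 : ℝ)) := by positivity
  set H : ℝ := N ^ (1 / 2 : ℝ) with hH
  have hHp : 0 < H := by positivity
  obtain ⟨hHc, hHn, -⟩ := hB A.be hA.ok.hbe hA.hbe
  obtain ⟨M, hM0, hM⟩ := X_bdd A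
  obtain ⟨M', hM0', hM'⟩ := X_bdd A'
  obtain ⟨B, hB⟩ := ((isCompact_Icc (a := V) (b := V + 2 * H)).prod
    (isCompact_Icc (a := -(max M M')) (b := max M M'))).exists_bound_of_continuousOn
    hHc.continuousOn
  have hb1 : ∀ t y, V ≤ y → y ≤ V + 2 * H → |HH A.be (1 / 20) y (A.X ∅ (om t))| ≤ B := by
    intro t y h1 h2
    have h3 := abs_le.1 ((hM (om t)).trans (le_max_left M M'))
    exact hB (y, A.X ∅ (om t)) ⟨⟨h1, h2⟩, h3⟩
  have hb2 : ∀ t y, V ≤ y → y ≤ V + 2 * H → |HH A.be (1 / 20) y (A'.X ∅ (om t))| ≤ B := by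
    intro t y h1 h2
    have h3 := abs_le.1 ((hM' (om t)).trans (le_max_right M M'))
    exact hB (y, A'.X ∅ (om t)) ⟨⟨h1, h2⟩, h3⟩
  have hXc : Continuous fun t => A.X ∅ (om t) := (A.continuous_X ∅).comp continuous_om
  have hXc' : Continuous fun t => A'.X ∅ (om t) := (A'.continuous_X ∅).comp continuous_om
  have hc1 : Continuous fun p : ℝ × ℝ => HH A.be (1 / 20) p.2 (A.X ∅ (om p.1)) :=
    hHc.comp (continuous_snd.prodMk (hXc.comp continuous_fst))
  have hc2 : Continuous fun p : ℝ × ℝ => HH A.be (1 / 20) p.2 (A'.X ∅ (om p.1)) :=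
    hHc.comp (continuous_snd.prodMk (hXc'.comp continuous_fst))
  have hpr : IsProbabilityMeasure (un x T) := prob_un x (by linarith)
  set ε : ℝ := 12 * C1 * N ^ (-(4 : ℝ)) * A.G V with hε
  have hε0 : 0 ≤ ε := by
    have := hG0 V
    positivity
  have key := swap_avg (μ := (un x T).restrict F)
    (φ := fun t y => HH A.be (1 / 20) y (A.X ∅ (om t)) - HH A.be (1 / 20) y (A'.X ∅ (om t)))
    (V := V) (H := H) (B := 2 * B) (ε := ε) hHp (hc1.sub hc2) (fun t y h1 h2 => by
      have e1 := hb1 t y h1 h2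
      have e2 := hb2 t y h1 h2
      calc |HH A.be (1 / 20) y (A.X ∅ (om t)) - HH A.be (1 / 20) y (A'.X ∅ (om t))|
          ≤ |HH A.be (1 / 20) y (A.X ∅ (om t))| + |HH A.be (1 / 20) y (A'.X ∅ (om t))| :=
            abs_sub _ _
        _ ≤ 2 * B := by linarith) hε0 (g := fun y => gw A y - gw A' y)
    ((H4 A hA.ok hA.hb hA.hbe V).1.sub (H4 A' hA'.ok hA'.hb hA'.hbe V).1) (fun y hy => by
      have i1 : Integrable (fun t => HH A.be (1 / 20) y (A.X ∅ (om t))) ((un x T).restrict F) := by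
        have hc : Continuous fun t => HH A.be (1 / 20) y (A.X ∅ (om t)) :=
          hHc.comp (continuous_const.prodMk hXc)
        obtain ⟨B1, hB1⟩ := (isCompact_Icc (a := -M) (b := M)).exists_bound_of_continuousOn
          (f := fun u => HH A.be (1 / 20) y u) (hHc.comp (continuous_const.prodMk continuous_id)).continuousOn
        exact Integrable.of_bound hc.aestronglyMeasurable B1
          (Eventually.of_forall fun t => hB1 _ (abs_le.1 (hM (om t))))
      have i2 : Integrable (fun t => HH A.be (1 / 20) y (A'.X ∅ (om t))) ((un x T).restrict F) := by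
        have hc : Continuous fun t => HH A.be (1 / 20) y (A'.X ∅ (om t)) :=
          hHc.comp (continuous_const.prodMk hXc')
        obtain ⟨B1, hB1⟩ := (isCompact_Icc (a := -M') (b := M')).exists_bound_of_continuousOn
          (f := fun u => HH A.be (1 / 20) y u) (hHc.comp (continuous_const.prodMk continuous_id)).continuousOn
        exact Integrable.of_bound hc.aestronglyMeasurable B1
          (Eventually.of_forall fun t => hB1 _ (abs_le.1 (hM' (om t))))
      rw [integral_sub i1 i2]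
      have w1 := H1 A hA.ok (hv hA le_rfl) hA.hb T hT hlen x (N ^ (-(4 : ℝ))) F hκ.le hF hev y
      have w2 := H1 A' hA'.ok (hv hA' hN') hA'.hb T hT hlen' x (N ^ (-(4 : ℝ))) F hκ.le hF hev' y
      rw [inter_eq_right.2 (show F ⊆ {t | A.Good ∅ (om t)} from fun t ht => (hFs ht).1), hA.hb] at w1
      rw [inter_eq_right.2 (show F ⊆ {t | A'.Good ∅ (om t)} from fun t ht => (hFs ht).2), hA'.hb,
        hbe] at w2
      have s1 := small hA (by linarith) hN1 le_rfl
      have s2 := small hA' (by linarith) hN1 hN'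
      have g1 := hGm y hy
      have g2 := hGc y
      have g3 := hG0 y
      have g4 : 0 ≤ A'.G y := by unfold Par.G; positivity
      have w1' : C1 * (Real.exp (-A.v) + 1 / A.p0 + 1 / Real.sqrt T + N ^ (-(4 : ℝ))) * A.G y
          ≤ C1 * (4 * N ^ (-(4 : ℝ))) * A.G V := by gcongr
      have w2' : C1 * (Real.exp (-A'.v) + 1 / A'.p0 + 1 / Real.sqrt T + N ^ (-(4 : ℝ))) * A'.G y
          ≤ C1 * (4 * N ^ (-(4 : ℝ))) * (2 * A.G V) := by
        have : A'.G y ≤ 2 * A.G V := by linarith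
        gcongr
      have := abs_le.1 (w1.trans w1')
      have := abs_le.1 (w2.trans w2')
      rw [abs_le, hε]
      constructor <;> nlinarith)
  refine key.trans ?_
  rw [hε]
  have f1 : 2 * H * (12 * C1 * N ^ (-(4 : ℝ)) * A.G V)
      = 24 * C1 * (H * N ^ (-(4 : ℝ))) * A.G V := by ring
  have f2 : H * N ^ (-(4 : ℝ)) ≤ 1 / N := by
    rw [hH, ← Real.rpow_add hN0, show (1 : ℝ) / N = N ^ (-1 : ℝ) by rw [Real.rpow_neg_one, one_div]]
    exact Real.rpow_le_rpow_of_exponent_le hN1 (by norm_num)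
  rw [f1]
  calc 24 * C1 * (H * N ^ (-(4 : ℝ))) * A.G V ≤ 24 * C1 * (1 / N) * A.G V := by
        have := hG0 V
        gcongr
    _ = 24 * C1 / N * A.G V := by ring

end Pool.Agent.Lib.RA
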