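import Mathlib
import Pool.Agent.Lib.MP_f9aece_nt_rate.Stmts
import Pool.Agent.Lib.MP_f9aece_nt_gt.Cont
import Pool.Agent.Lib.MP_f9aece_nt_gt.F1

/-!
The rate in the central limit theorem for `log |zeta|`: module C3, the far part of one step for larger
tilts.
-/

set_option autoImplicit false

namespace Pool.Agent.Lib.RA

open MeasureTheory Set Filter Topology Complex ProbabilityTheory
open scoped ComplexConjugate
open Pool.Agent.Lib.GT
open Pool.Agent.Lib.LC
open Pool.Agent.Lib.LC.E9 (NN)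

namespace C3

/-- the remainder is at most the sum of the two steps -/
lemma rem_le (hB : StepBasic) {be H : ℝ} (hbe : 0 < be) (hbe1 : be ≤ 1 / 10 ^ 4) (hH : 0 < H)
    (V u u' : ℝ) : |rem be H V u u'| ≤ st be (V + H) u + st be (V + H) u' := by
  obtain ⟨-, h0, -, hst0, -, -, hdiff⟩ := hB be hbe hbe1
  have hmono : ∀ w h : ℝ, H ≤ h → st be (V + h) w ≤ st be (V + H) w := by
    intro w h hh
    have h1 := hdiff (V + H) w (h - H) (by linarith)
    have h2 : 0 ≤ ∫ y in (V + H)..(V + H + (h - H)), HH be (1 / 20) y w :=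
      intervalIntegral.integral_nonneg (by linarith) fun y _ => h0 y w
    have h3 : V + H + (h - H) = V + h := by ring
    rw [h3] at h1 h2
    linarith
  unfold rem
  rw [abs_div, abs_of_pos hH, div_le_iff₀ hH]
  have h1 : ‖∫ h in H..(2 * H), (st be (V + h) u - st be (V + h) u')‖
      ≤ (st be (V + H) u + st be (V + H) u') * |2 * H - H| := by
    refine intervalIntegral.norm_integral_le_of_norm_le_const fun h hh => ?_
    rw [uIoc_of_le (by linarith)] at hh
    have h2 := hmono u h hh.1.le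
    have h3 := hmono u' h hh.1.le
    have h4 := hst0 (V + h) u
    have h5 := hst0 (V + h) u'
    rw [Real.norm_eq_abs, abs_le]
    constructor <;> linarith
  rw [Real.norm_eq_abs] at h1
  have h2 : |2 * H - H| = H := by
    rw [show 2 * H - H = H by ring, abs_of_pos hH]
  rwa [h2] at h1

/-- the mean of a step over the good heights -/
lemma int_st (hB : StepBasic) (A : Par) (hbe : 0 < A.be) (hbe1 : A.be ≤ 1 / 10 ^ 4) (μ : Measure ℝ)
    (hμ : SFinite μ) (E F : Set ℝ) (hF : F ⊆ E) (κ : ℝ) (hκ : 0 ≤ κ)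
    (hw : ∀ y : ℝ, ∫⁻ t in E, ENNReal.ofReal (HH A.be (1 / 20) y (A.X ∅ (om t))
      + Env A.be (1 / 20) y (A.X ∅ (om t))) * 1 ∂μ ≤ ENNReal.ofReal (κ * A.G y)) (V : ℝ) :
    ∫⁻ t in F, ENNReal.ofReal (st A.be V (A.X ∅ (om t))) ∂μ ≤ ENNReal.ofReal (κ * (A.G V / A.be)) := by
  obtain ⟨hc, h0, hi, -, -, -, -⟩ := hB A.be hbe hbe1
  have cX : Continuous fun t : ℝ => A.X ∅ (om t) := (A.continuous_X ∅).comp continuous_om
  have e1 : ∀ t : ℝ, ENNReal.ofReal (st A.be V (A.X ∅ (om t)))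
      = ∫⁻ y in Ioi V, ENNReal.ofReal (HH A.be (1 / 20) y (A.X ∅ (om t))) := by
    intro t
    unfold st
    rw [ofReal_integral_eq_lintegral_ofReal (hi V _) (Eventually.of_forall fun y => h0 y _)]
  have hm : Measurable fun p : ℝ × ℝ => ENNReal.ofReal (HH A.be (1 / 20) p.2 (A.X ∅ (om p.1))) := by
    have h1 : Continuous fun p : ℝ × ℝ => HH A.be (1 / 20) p.2 (A.X ∅ (om p.1)) :=
      hc.comp (f := fun p : ℝ × ℝ => ((p.2, A.X ∅ (om p.1)) : ℝ × ℝ))
        (continuous_snd.prodMk (cX.comp continuous_fst))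
    exact h1.measurable.ennreal_ofReal
  simp_rw [e1]
  rw [lintegral_lintegral_swap hm.aemeasurable]
  have h2 : ∀ y : ℝ, ∫⁻ t in F, ENNReal.ofReal (HH A.be (1 / 20) y (A.X ∅ (om t))) ∂μ
      ≤ ENNReal.ofReal κ * ENNReal.ofReal (1 * A.G y) := by
    intro y
    calc ∫⁻ t in F, ENNReal.ofReal (HH A.be (1 / 20) y (A.X ∅ (om t))) ∂μ
        ≤ ∫⁻ t in E, ENNReal.ofReal (HH A.be (1 / 20) y (A.X ∅ (om t))) ∂μ := lintegral_mono_set hF
      _ ≤ ∫⁻ t in E, ENNReal.ofReal (HH A.be (1 / 20) y (A.X ∅ (om t))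
            + Env A.be (1 / 20) y (A.X ∅ (om t))) * 1 ∂μ := by
          refine lintegral_mono fun t => ?_
          rw [mul_one]
          refine ENNReal.ofReal_le_ofReal ?_
          have : 0 ≤ Env A.be (1 / 20) y (A.X ∅ (om t)) := by
            unfold Env
            positivity
          linarith
      _ ≤ ENNReal.ofReal (κ * A.G y) := hw y
      _ = _ := by rw [one_mul, ENNReal.ofReal_mul hκ]
  calc ∫⁻ y in Ioi V, ∫⁻ t in F, ENNReal.ofReal (HH A.be (1 / 20) y (A.X ∅ (om t))) ∂μ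
      ≤ ∫⁻ y in Ioi V, ENNReal.ofReal κ * ENNReal.ofReal (1 * A.G y) := lintegral_mono fun y => h2 y
    _ = ENNReal.ofReal κ * ∫⁻ y in Ioi V, ENNReal.ofReal (1 * A.G y) := by
        rw [lintegral_const_mul' _ _ ENNReal.ofReal_ne_top]
    _ ≤ ENNReal.ofReal κ * ENNReal.ofReal (A.G V / A.be) :=
        mul_le_mul' le_rfl (F1.int_G_up A hbe V)
    _ = _ := by rw [← ENNReal.ofReal_mul hκ]

/-- the exponential factor -/
lemma exp_fac {N be : ℝ} (hN : 1 ≤ N) (hbe : N ^ (-(1 / 4) : ℝ) ≤ be) :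
    Real.exp (-(be * N ^ (1 / 2 : ℝ))) / be ≤ 120 / N := by
  have hN0 : 0 < N := by linarith
  set x : ℝ := N ^ (1 / 4 : ℝ) with hx
  have hx0 : 0 < x := by positivity
  have e1 : N ^ (-(1 / 4) : ℝ) = 1 / x := by
    rw [Real.rpow_neg hN0.le, one_div x]
  have e2 : N ^ (1 / 2 : ℝ) = x * x := by
    rw [hx, ← Real.rpow_add hN0]
    norm_num
  have e3 : N = x ^ 4 := by
    rw [hx, ← Real.rpow_natCast, ← Real.rpow_mul hN0.le]
    norm_num
  rw [e1] at hbe
  have hbe0 : 0 < be := lt_of_lt_of_le (by positivity) hbe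
  have h1 : x ≤ be * (x * x) := by
    have : 1 / x * (x * x) = x := by field_simp
    calc x = 1 / x * (x * x) := this.symm
      _ ≤ be * (x * x) := by gcongr
  have h2 : 1 / be ≤ x := by
    rw [div_le_iff₀ hbe0]
    rw [div_le_iff₀ hx0] at hbe
    linarith
  have h3 : x ^ 5 / 120 ≤ Real.exp x := by
    have := Real.pow_div_factorial_le_exp x hx0.le 5
    norm_num [Nat.factorial] at this
    exact this
  rw [e2]
  calc Real.exp (-(be * (x * x))) / be = Real.exp (-(be * (x * x))) * (1 / be) := by ring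
    _ ≤ Real.exp (-x) * x := by
        refine mul_le_mul (Real.exp_le_exp.2 (by linarith)) h2 (by positivity) (Real.exp_pos _).le
    _ = x / Real.exp x := by rw [Real.exp_neg]; ring
    _ ≤ x / (x ^ 5 / 120) := div_le_div_of_nonneg_left hx0.le (by positivity) h3
    _ = 120 / N := by
        rw [e3]
        field_simp

end C3

open C3

/-- C3 -/
theorem stepFarA (hE : WMean) (hU : WinUp) (hS : LC.SpecNum) (hP : SpecPair) (hB : StepBasic) :
    StepFarA := by
  obtain ⟨C1, T1, hC1, hT1, HE⟩ := hE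
  obtain ⟨C2, v0, hC2, HU⟩ := hU
  obtain ⟨C3, N3, hC3, hN3, HS⟩ := hS
  obtain ⟨C4, N4, hC4, hN4, HP⟩ := hP
  set κ : ℝ := C2 * C1 with hκ
  have hκ1 : 1 ≤ κ := by nlinarith
  refine ⟨360 * κ, max 1 (max (Real.exp v0) (max N3 (max N4 (64 * C3 ^ 2)))), T1, by linarith,
    le_max_left _ _, hT1, ?_⟩
  intro A A' T N hA hA' hbe hN hT hbeN hNl x F hFm hF V
  have hN1 : 1 ≤ N := (le_max_left _ _).trans hN
  have hN' := (le_max_right _ _).trans hN
  have hNv : Real.exp v0 ≤ N := (le_max_left _ _).trans hN'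
  have hN' := (le_max_right _ _).trans hN'
  have hNN3 : N3 ≤ N := (le_max_left _ _).trans hN'
  have hN' := (le_max_right _ _).trans hN'
  have hNN4 : N4 ≤ N := (le_max_left _ _).trans hN'
  have hNC : 64 * C3 ^ 2 ≤ N := (le_max_right _ _).trans hN'
  have hN0 : 0 < N := by linarith
  have hT0 : 0 < T := by linarith
  have hNN : N ≤ N ^ (3 / 2 : ℝ) := by
    calc N = N ^ (1 : ℝ) := (Real.rpow_one _).symm
      _ ≤ N ^ (3 / 2 : ℝ) := Real.rpow_le_rpow_of_exponent_le hN1 (by norm_num)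
  set l : ℝ := Real.log (Real.log T) with hl
  have hl0 : 0 < l := by linarith
  -- the numbers of the two levels
  have hv : ∀ (B : Par) (M : ℝ), Spec B T M → N ≤ M → v0 ≤ B.v := by
    intro B M hB hM
    have h1 : (v0 : ℝ) ≤ Real.log M := by
      rw [Real.le_log_iff_exp_le (by linarith)]
      exact hNv.trans hM
    have h2 : (v0 : ℝ) ≤ B.v := by
      have h3 : (0 : ℝ) ≤ v0 := Nat.cast_nonneg _
      linarith [hB.hv1]
    exact_mod_cast h2
  have hvl : ∀ (B : Par) (M : ℝ), Spec B T M → N ≤ M → M ≤ l → |B.vt - l| ≤ l / 8 := by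
    intro B M hB hM hMl
    have h1 := (HS B T M hB (hNN3.trans hM)).2.2.2.2.2.2.2.2
    refine h1.trans ?_
    have h2 : M ^ (1 / 2 : ℝ) ≤ Real.sqrt l := by
      rw [Real.sqrt_eq_rpow]
      exact Real.rpow_le_rpow (hN0.le.trans hM) hMl (by norm_num)
    have h3 : 8 * C3 ≤ Real.sqrt l := by
      refine Real.le_sqrt_of_sq_le ?_
      linarith
    have h4 : Real.sqrt l * Real.sqrt l = l := Real.mul_self_sqrt hl0.le
    have h5 : 0 ≤ Real.sqrt l := Real.sqrt_nonneg l
    calc C3 * M ^ (1 / 2 : ℝ) ≤ C3 * Real.sqrt l := by gcongr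
      _ ≤ Real.sqrt l / 8 * Real.sqrt l := by
          have : C3 ≤ Real.sqrt l / 8 := by linarith
          exact mul_le_mul_of_nonneg_right this h5
      _ = l / 8 := by rw [div_mul_eq_mul_div, h4]
  have hG : ∀ y : ℝ, A'.G y ≤ 2 * A.G y := by
    intro y
    have h1 := abs_le.1 (hvl A' _ hA' hNN hNl)
    have h0 := abs_le.1 (hvl A N hA le_rfl (hNN.trans hNl))
    have h2 := (HP A A' T N _ hA hA' hNN4 le_rfl).1
    refine E9.G_cmp hbe ?_ ?_ ?_ y
    · unfold Par.s2
      linarith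
    · unfold Par.s2
      linarith [h1.1, h0.2]
    · unfold Par.s2
      linarith [h1.1]
  have hprob : IsProbabilityMeasure (un x T) := prob_un x hT0
  have hwin : ∀ (B : Par) (M : ℝ), Spec B T M → N ≤ M → ∀ y : ℝ,
      ∫⁻ t in {t | B.Good ∅ (om t)}, ENNReal.ofReal (HH B.be (1 / 20) y (B.X ∅ (om t))
        + Env B.be (1 / 20) y (B.X ∅ (om t))) * 1 ∂(un x T) ≤ ENNReal.ofReal (κ * B.G y) := by
    intro B M hB hM y
    have hLen := (HS B T M hB (hNN3.trans hM)).1
    have h1 := HU B hB.ok (hv B M hB hM) hB.hb (un x T) inferInstance C1 (by linarith) (fun _ => 1)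
      measurable_const (fun y => by
        have h2 := HE B hB.ok T hT hLen x y ∅ (Finset.empty_subset _)
        simpa using h2) y
    rw [hB.hb] at h1
    exact h1
  have hbe0 := hA.ok.hbe
  set H : ℝ := N ^ (1 / 2 : ℝ) with hH
  have hH0 : 0 < H := by positivity
  have i1 := int_st hB A hbe0 hA.hbe (un x T) inferInstance {t | A.Good ∅ (om t)} F
    (fun t ht => (hF ht).1) κ (by linarith) (hwin A N hA le_rfl) (V + H)
  have i2 := int_st hB A' hA'.ok.hbe hA'.hbe (un x T) inferInstance {t | A'.Good ∅ (om t)} F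
    (fun t ht => (hF ht).2) κ (by linarith) (hwin A' _ hA' hNN) (V + H)
  rw [hbe] at i2
  have hstc := (hB A.be hbe0 hA.hbe).2.2.2.2.1
  have cX : Continuous fun t : ℝ => A.X ∅ (om t) := (A.continuous_X ∅).comp continuous_om
  have mst : Measurable fun t : ℝ => ENNReal.ofReal (st A.be (V + H) (A.X ∅ (om t))) := by
    have h1 : Continuous fun t : ℝ => st A.be (V + H) (A.X ∅ (om t)) :=
      hstc.comp (f := fun t : ℝ => ((V + H, A.X ∅ (om t)) : ℝ × ℝ)) (continuous_const.prodMk cX)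
    exact h1.measurable.ennreal_ofReal
  have hGA : 0 ≤ A.G (V + H) := (hA.ok.G_pos _).le
  have hGA' : 0 ≤ A'.G (V + H) := (hA'.ok.G_pos _).le
  have k1 : ∫⁻ t in F, ENNReal.ofReal |rem A.be H V (A.X ∅ (om t)) (A'.X ∅ (om t))| ∂(un x T)
      ≤ ENNReal.ofReal (3 * κ * (A.G (V + H) / A.be)) := by
    calc ∫⁻ t in F, ENNReal.ofReal |rem A.be H V (A.X ∅ (om t)) (A'.X ∅ (om t))| ∂(un x T)
        ≤ ∫⁻ t in F, (ENNReal.ofReal (st A.be (V + H) (A.X ∅ (om t)))
            + ENNReal.ofReal (st A.be (V + H) (A'.X ∅ (om t)))) ∂(un x T) := by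
          refine lintegral_mono fun t => ?_
          refine (ENNReal.ofReal_le_ofReal (rem_le hB hbe0 hA.hbe hH0 V _ _)).trans ?_
          exact ENNReal.ofReal_add_le
      _ = (∫⁻ t in F, ENNReal.ofReal (st A.be (V + H) (A.X ∅ (om t))) ∂(un x T))
            + ∫⁻ t in F, ENNReal.ofReal (st A.be (V + H) (A'.X ∅ (om t))) ∂(un x T) :=
          lintegral_add_left mst _
      _ ≤ ENNReal.ofReal (κ * (A.G (V + H) / A.be)) + ENNReal.ofReal (κ * (A'.G (V + H) / A.be)) :=
          add_le_add i1 i2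
      _ = ENNReal.ofReal (κ * (A.G (V + H) / A.be) + κ * (A'.G (V + H) / A.be)) := by
          rw [ENNReal.ofReal_add (by positivity) (by positivity)]
      _ ≤ ENNReal.ofReal (3 * κ * (A.G (V + H) / A.be)) := by
          refine ENNReal.ofReal_le_ofReal ?_
          have h1 : κ * (A'.G (V + H) / A.be) ≤ κ * (2 * A.G (V + H) / A.be) := by
            have := hG (V + H)
            gcongr
          calc κ * (A.G (V + H) / A.be) + κ * (A'.G (V + H) / A.be)
              ≤ κ * (A.G (V + H) / A.be) + κ * (2 * A.G (V + H) / A.be) := by linarith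
            _ = _ := by ring
  have k2 : 3 * κ * (A.G (V + H) / A.be) ≤ 360 * κ / N * A.G V := by
    have h1 := A.G_shift (V + H) V
    have h2 := exp_fac hN1 hbeN
    have h3 := (hA.ok.G_pos V).le
    rw [h1, show V + H - V = H by ring]
    calc 3 * κ * (A.G V * Real.exp (-(A.be * H)) / A.be)
        = 3 * κ * A.G V * (Real.exp (-(A.be * H)) / A.be) := by ring
      _ ≤ 3 * κ * A.G V * (120 / N) := by gcongr
      _ = _ := by ring
  have k3 := norm_integral_le_lintegral_norm (μ := (un x T).restrict F)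
    (fun t => |rem A.be H V (A.X ∅ (om t)) (A'.X ∅ (om t))|)
  simp only [Real.norm_eq_abs, abs_abs] at k3
  have h5 : 0 ≤ 3 * κ * (A.G (V + H) / A.be) := by positivity
  exact (le_abs_self _).trans (k3.trans ((ENNReal.toReal_le_of_le_ofReal h5 k1).trans k2))

end Pool.Agent.Lib.RA
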