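import Mathlib
import Pool.Agent.Lib.MP_f9aece_nt_rate.Stmts
import Pool.Agent.Lib.MP_f9aece_nt_gt.N1
import Pool.Agent.Lib.MP_f9aece_nt_gt.Cont

/-!
The rate in the central limit theorem for `log |zeta|`, module C4: the far part of the difference of
the smooth steps of two levels, smaller tilt.
-/

set_option autoImplicit false

namespace Pool.Agent.Lib.RA

open MeasureTheory Set Filter Topology Complex ProbabilityTheory
open scoped ComplexConjugate
open Pool.Agent.Lib.GT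
open Pool.Agent.Lib.LC
open Pool.Agent.Lib.MP_f9aece_nt (VV)

namespace C4x

/-- the kernel -/
noncomputable def ka (u : ℝ) : ℝ := 1 / (1 + |u|) ^ 2

lemma ka_pos (u : ℝ) : 0 < ka u := by unfold ka; positivity

lemma continuous_ka : Continuous ka := by
  unfold ka
  refine continuous_const.div (by fun_prop) fun u => by positivity

lemma integrable_ka : Integrable ka := by
  have h := integrable_one_add_norm (E := ℝ) (μ := volume) (r := 2) (by simp)
  refine h.congr (Eventually.of_forall fun u => ?_)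
  simp only [ka, Real.norm_eq_abs]
  rw [Real.rpow_neg (by positivity)]
  norm_num [one_div]

/-- the integral of the kernel -/
noncomputable def Ck : ℝ := ∫ u, ka u

lemma Ck_nonneg : 0 ≤ Ck := integral_nonneg fun u => (ka_pos u).le

lemma lintegral_ka (a : ℝ) : ∫⁻ u : ℝ, ENNReal.ofReal (ka (u - a)) = ENNReal.ofReal Ck := by
  rw [lintegral_sub_right_eq_self (fun u => ENNReal.ofReal (ka u)) a, Ck,
    ofReal_integral_eq_lintegral_ofReal integrable_ka (Eventually.of_forall fun u => (ka_pos u).le)]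

lemma lintegral_cka {c : ℝ} (hc : 0 ≤ c) (a : ℝ) :
    ∫⁻ u : ℝ, ENNReal.ofReal (c * ka (u - a)) = ENNReal.ofReal (c * Ck) := by
  simp_rw [ENNReal.ofReal_mul hc]
  rw [lintegral_const_mul, lintegral_ka]
  exact (continuous_ka.measurable.comp (measurable_id.sub_const a)).ennreal_ofReal

/-- near part, pointwise -/
lemma pw1 {a u : ℝ} (ha : 0 ≤ a) (hu : |u| ≤ a) : a ≤ 4 * (1 + a ^ 4) * ka u := by
  have h1 : (1 + |u|) ^ 2 ≤ (1 + a) ^ 2 := by
    have := abs_nonneg u
    gcongr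
  have h2 : a * (1 + a) ^ 2 ≤ 4 * (1 + a ^ 4) := by
    linarith only [sq_nonneg (a - 1), sq_nonneg (a ^ 2 - 1), sq_nonneg (a ^ 2 - a), sq_nonneg a]
  unfold ka
  rw [mul_one_div, le_div_iff₀ (by positivity)]
  calc a * (1 + |u|) ^ 2 ≤ a * (1 + a) ^ 2 := by gcongr
    _ ≤ _ := h2

/-- far part, pointwise -/
lemma pw2 {a r H : ℝ} (hH : 1 ≤ H) (ha : H / 2 < a) (hr : 0 < r) (hr2 : r ≤ H + a) :
    a ≤ 125 / H * a ^ 4 * ka r := by
  have ha0 : 0 < a := by linarith
  have h1 : H + r ≤ 5 * a := by linarith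
  have h2 : H * (1 + r) ^ 2 ≤ (H + r) ^ 3 := by
    have : (H + r) ^ 3 = (H + r) * (H + r) ^ 2 := by ring
    rw [this]
    gcongr
    linarith
  have h3 : (H + r) ^ 3 ≤ (5 * a) ^ 3 := by gcongr
  unfold ka
  rw [abs_of_pos hr, mul_one_div, le_div_iff₀ (by positivity), div_mul_eq_mul_div, le_div_iff₀ (by linarith)]
  calc a * (1 + r) ^ 2 * H = a * (H * (1 + r) ^ 2) := by ring
    _ ≤ a * (5 * a) ^ 3 := by gcongr; exact h2.trans h3
    _ = 125 * a ^ 4 := by ring

lemma ofReal_ii {f : ℝ → ℝ} (hf : Continuous f) (h0 : ∀ y, 0 ≤ f y) {p q : ℝ} (hpq : p ≤ q) :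
    ENNReal.ofReal (∫ y in p..q, f y) = ∫⁻ y in Ioc p q, ENNReal.ofReal (f y) := by
  rw [intervalIntegral.integral_of_le hpq, ofReal_integral_eq_lintegral_ofReal]
  · exact (hf.integrableOn_Icc (a := p) (b := q)).mono_set Ioc_subset_Icc_self
  · exact Eventually.of_forall fun y => h0 y

lemma g_bd {Q : ℝ → ℝ → ℝ} (hQc : Continuous fun p : ℝ × ℝ => Q p.1 p.2) (hQ0 : ∀ y u, 0 ≤ Q y u)
    {u p q c P : ℝ} {S : Set ℝ} {w : ℝ → ℝ} (hpq : p ≤ q) (hS : Ioc p q ⊆ S) (hc : 0 ≤ c)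
    (hw0 : ∀ y, 0 ≤ w y) (h : ∀ y ∈ Ioc p q, c ≤ w y * P) :
    ENNReal.ofReal (c * ∫ y in p..q, Q y u)
      ≤ ∫⁻ y in S, ENNReal.ofReal (w y) * (ENNReal.ofReal (Q y u) * ENNReal.ofReal P) := by
  have hQu : Continuous fun y => Q y u := hQc.comp (continuous_id.prodMk continuous_const)
  rw [ENNReal.ofReal_mul hc, ofReal_ii hQu (fun y => hQ0 y u) hpq,
    ← lintegral_const_mul _ (hQu.measurable.ennreal_ofReal)]
  calc ∫⁻ y in Ioc p q, ENNReal.ofReal c * ENNReal.ofReal (Q y u)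
      ≤ ∫⁻ y in Ioc p q, ENNReal.ofReal (w y) * (ENNReal.ofReal (Q y u) * ENNReal.ofReal P) := by
        refine setLIntegral_mono' measurableSet_Ioc fun y hy => ?_
        rw [← ENNReal.ofReal_mul hc, ← ENNReal.ofReal_mul (hQ0 y u), ← ENNReal.ofReal_mul (hw0 y)]
        refine ENNReal.ofReal_le_ofReal ?_
        calc c * Q y u ≤ w y * P * Q y u := mul_le_mul_of_nonneg_right (h y hy) (hQ0 y u)
          _ = _ := by ring
    _ ≤ _ := lintegral_mono_set hS

lemma tonelli {m : Measure ℝ} [SFinite m] {Q : ℝ → ℝ → ℝ}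
    (hQc : Continuous fun p : ℝ × ℝ => Q p.1 p.2) {X : ℝ → ℝ} (hX : Continuous X) {P : ℝ → ENNReal}
    (hP : Measurable P) {F S : Set ℝ} (hF : MeasurableSet F) (hS : MeasurableSet S) {w : ℝ → ℝ}
    (hw : Continuous w) {K : ℝ}
    (hB : ∀ y ∈ S, ∫⁻ t in F, ENNReal.ofReal (Q y (X t)) * P t ∂m ≤ ENNReal.ofReal K)
    {g : ℝ → ENNReal}
    (hg : ∀ t ∈ F, g t ≤ ∫⁻ y in S, ENNReal.ofReal (w y) * (ENNReal.ofReal (Q y (X t)) * P t)) :
    ∫⁻ t in F, g t ∂m ≤ (∫⁻ y in S, ENNReal.ofReal (w y)) * ENNReal.ofReal K := by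
  have hQX : Continuous fun p : ℝ × ℝ => Q p.2 (X p.1) :=
    hQc.comp (continuous_snd.prodMk (hX.comp continuous_fst))
  calc ∫⁻ t in F, g t ∂m
      ≤ ∫⁻ t in F, (∫⁻ y in S, ENNReal.ofReal (w y) * (ENNReal.ofReal (Q y (X t)) * P t)) ∂m :=
        setLIntegral_mono' hF hg
    _ = ∫⁻ y in S, ∫⁻ t in F, ENNReal.ofReal (w y) * (ENNReal.ofReal (Q y (X t)) * P t) ∂m := by
        refine lintegral_lintegral_swap (Measurable.aemeasurable ?_)
        exact ((hw.measurable.comp measurable_snd).ennreal_ofReal).mul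
          ((hQX.measurable.ennreal_ofReal).mul (hP.comp measurable_fst))
    _ = ∫⁻ y in S, ENNReal.ofReal (w y) * ∫⁻ t in F, ENNReal.ofReal (Q y (X t)) * P t ∂m := by
        refine lintegral_congr fun y => ?_
        have hy : Continuous fun t => Q y (X t) := hQc.comp (continuous_const.prodMk hX)
        exact lintegral_const_mul _ ((hy.measurable.ennreal_ofReal).mul hP)
    _ ≤ ∫⁻ y in S, ENNReal.ofReal (w y) * ENNReal.ofReal K := by
        refine setLIntegral_mono' hS fun y hy => ?_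
        gcongr
        exact hB y hy
    _ = _ := lintegral_mul_const _ (hw.measurable.ennreal_ofReal)

/-- the near part -/
lemma near_l {m : Measure ℝ} [SFinite m] {Q : ℝ → ℝ → ℝ}
    (hQc : Continuous fun p : ℝ × ℝ => Q p.1 p.2) (hQ0 : ∀ y u, 0 ≤ Q y u) {X D : ℝ → ℝ}
    (hX : Continuous X) (hD : Continuous D) {F : Set ℝ} (hF : MeasurableSet F) {H K a : ℝ}
    (hDF : ∀ t ∈ F, |D t| ≤ H / 2)
    (hB : ∀ y, a - H / 2 ≤ y →
      ∫⁻ t in F, ENNReal.ofReal (Q y (X t)) * ENNReal.ofReal (1 + D t ^ 4) ∂m ≤ ENNReal.ofReal K) :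
    ∫⁻ t in F, ENNReal.ofReal (|D t| * ∫ y in (a - |D t|)..(a + |D t|), Q y (X t)) ∂m
      ≤ ENNReal.ofReal (4 * Ck * K) := by
  have hw : Continuous fun y : ℝ => 4 * ka (y - a) :=
    continuous_const.mul (continuous_ka.comp (continuous_id.sub continuous_const))
  have hP : Measurable fun t => ENNReal.ofReal (1 + D t ^ 4) :=
    (continuous_const.add (hD.pow 4)).measurable.ennreal_ofReal
  refine (tonelli (S := Ici (a - H / 2)) hQc hX hP hF measurableSet_Ici hw
    (fun y hy => hB y hy) (fun t ht => ?_)).trans ?_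
  · have hD0 := abs_nonneg (D t)
    refine g_bd hQc hQ0 (by linarith) ?_ hD0
      (fun y => by have := (ka_pos (y - a)).le; positivity) ?_
    · intro y hy
      have := hDF t ht
      exact (show a - H / 2 ≤ y by linarith [hy.1])
    · intro y hy
      have h1 : |y - a| ≤ |D t| := abs_le.2 ⟨by linarith [hy.1], by linarith [hy.2]⟩
      have h2 := pw1 hD0 h1
      have h3 : |D t| ^ 4 = D t ^ 4 := by
        rw [show |D t| ^ 4 = (|D t| ^ 2) ^ 2 by ring, sq_abs]; ring
      rw [h3] at h2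
      linarith [h2]
  · have h1 : ∫⁻ y in Ici (a - H / 2), ENNReal.ofReal (4 * ka (y - a)) ≤ ENNReal.ofReal (4 * Ck) := by
      exact (setLIntegral_le_lintegral _ _).trans (lintegral_cka (by norm_num) a).le
    calc _ ≤ ENNReal.ofReal (4 * Ck) * ENNReal.ofReal K := by gcongr
      _ = _ := by rw [← ENNReal.ofReal_mul (by have := Ck_nonneg; positivity)]

/-- the far part -/
lemma far_l {m : Measure ℝ} [SFinite m] {Q : ℝ → ℝ → ℝ}
    (hQc : Continuous fun p : ℝ × ℝ => Q p.1 p.2) (hQ0 : ∀ y u, 0 ≤ Q y u) {X D : ℝ → ℝ}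
    (hX : Continuous X) (hD : Continuous D) {F : Set ℝ} (hF : MeasurableSet F) {H K a : ℝ}
    (hH : 1 ≤ H) (hDF : ∀ t ∈ F, H / 2 < |D t|)
    (hB : ∀ y, a ≤ y →
      ∫⁻ t in F, ENNReal.ofReal (Q y (X t)) * ENNReal.ofReal (D t ^ 4) ∂m ≤ ENNReal.ofReal K) :
    ∫⁻ t in F, ENNReal.ofReal (|D t| * ∫ y in a..(a + H + |D t|), Q y (X t)) ∂m
      ≤ ENNReal.ofReal (125 / H * Ck * K) := by
  have hw : Continuous fun y : ℝ => 125 / H * ka (y - a) :=
    continuous_const.mul (continuous_ka.comp (continuous_id.sub continuous_const))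
  have hP : Measurable fun t => ENNReal.ofReal (D t ^ 4) := (hD.pow 4).measurable.ennreal_ofReal
  have h0 : 0 ≤ 125 / H := by positivity
  refine (tonelli (S := Ioi a) hQc hX hP hF measurableSet_Ioi hw
    (fun y hy => hB y (le_of_lt hy)) (fun t ht => ?_)).trans ?_
  · have hD0 := abs_nonneg (D t)
    refine g_bd hQc hQ0 (by linarith) ?_ hD0
      (fun y => by have := (ka_pos (y - a)).le; positivity) ?_
    · intro y hy
      exact hy.1
    · intro y hy
      have h2 := pw2 (r := y - a) hH (hDF t ht) (by linarith [hy.1]) (by linarith [hy.2])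
      have h3 : |D t| ^ 4 = D t ^ 4 := by
        rw [show |D t| ^ 4 = (|D t| ^ 2) ^ 2 by ring, sq_abs]; ring
      rw [h3] at h2
      linarith [h2]
  · have h1 : ∫⁻ y in Ioi a, ENNReal.ofReal (125 / H * ka (y - a)) ≤ ENNReal.ofReal (125 / H * Ck) := by
      exact (setLIntegral_le_lintegral _ _).trans (lintegral_cka h0 a).le
    calc _ ≤ ENNReal.ofReal (125 / H * Ck) * ENNReal.ofReal K := by gcongr
      _ = _ := by rw [← ENNReal.ofReal_mul (by have := Ck_nonneg; positivity)]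

lemma ae_un (x : ℝ) (T : ℝ) (F : Set ℝ) : ∀ᵐ t ∂((un x T).restrict F), t ∈ Icc x (x + T) := by
  refine ae_restrict_of_ae ?_
  unfold un
  exact Measure.ae_smul_measure (ae_restrict_mem measurableSet_Icc) _

lemma int_prod {x T : ℝ} (hT : 0 < T) (F : Set ℝ) (p q : ℝ) {f : ℝ × ℝ → ℝ} (hf : Continuous f) :
    Integrable f (((un x T).restrict F).prod (volume.restrict (Ioc p q))) := by
  have : IsProbabilityMeasure (un x T) := prob_un x hT
  obtain ⟨C, hC⟩ := (isCompact_Icc (a := x) (b := x + T)).prod (isCompact_Icc (a := p) (b := q))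
    |>.exists_bound_of_continuousOn hf.continuousOn
  refine Integrable.of_bound hf.aestronglyMeasurable C ?_
  have h1 := Measure.quasiMeasurePreserving_fst (μ := (un x T).restrict F)
    (ν := volume.restrict (Ioc p q)) |>.ae (ae_un x T F)
  have h2 := Measure.quasiMeasurePreserving_snd (μ := (un x T).restrict F)
    (ν := volume.restrict (Ioc p q)) |>.ae (ae_restrict_mem (measurableSet_Ioc (a := p) (b := q)))
  filter_upwards [h1, h2] with z hz1 hz2
  exact hC z ⟨hz1, Ioc_subset_Icc_self hz2⟩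

lemma int_un {x T : ℝ} (hT : 0 < T) (F : Set ℝ) {f : ℝ → ℝ} (hf : Continuous f) :
    IntegrableOn f F (un x T) := by
  have : IsProbabilityMeasure (un x T) := prob_un x hT
  obtain ⟨C, hC⟩ := (isCompact_Icc (a := x) (b := x + T)).exists_bound_of_continuousOn hf.continuousOn
  refine Integrable.of_bound hf.aestronglyMeasurable C ?_
  filter_upwards [ae_un x T F] with t ht
  exact hC t ht

/-- the main term on the near part -/
lemma main_l {x T : ℝ} (hT : 0 < T) {Q : ℝ → ℝ → ℝ} (hQc : Continuous fun p : ℝ × ℝ => Q p.1 p.2)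
    {X D : ℝ → ℝ} (hX : Continuous X) (hD : Continuous D) {F : Set ℝ} {H ε a : ℝ} (hH : 1 ≤ H)
    (hm : ∀ y, a ≤ y → |∫ t in F, D t * Q y (X t) ∂(un x T)| ≤ ε) :
    |∫ t in F, D t / H * (∫ y in a..(a + H), Q y (X t)) ∂(un x T)| ≤ ε := by
  have : IsProbabilityMeasure (un x T) := prob_un x hT
  have hH0 : 0 < H := by linarith
  have hQX : Continuous fun p : ℝ × ℝ => D p.1 * Q p.2 (X p.1) :=
    (hD.comp continuous_fst).mul (hQc.comp (continuous_snd.prodMk (hX.comp continuous_fst)))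
  have h1 : ∫ t in F, D t / H * (∫ y in a..(a + H), Q y (X t)) ∂(un x T)
      = (∫ y in a..(a + H), ∫ t in F, D t * Q y (X t) ∂(un x T)) / H := by
    have h2 : ∀ t, D t / H * (∫ y in a..(a + H), Q y (X t))
        = (∫ y in Ioc a (a + H), D t * Q y (X t)) / H := by
      intro t
      rw [intervalIntegral.integral_of_le (by linarith), integral_const_mul]
      ring
    simp_rw [h2]
    rw [integral_div, intervalIntegral.integral_of_le (by linarith)]
    congr 1
    exact integral_integral_swap (int_prod hT F a (a + H) hQX)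
  rw [h1, abs_div, abs_of_pos hH0, div_le_iff₀ hH0]
  have h3 := intervalIntegral.norm_integral_le_of_norm_le_const (a := a) (b := a + H)
    (f := fun y => ∫ t in F, D t * Q y (X t) ∂(un x T)) (C := ε) (fun y hy => by
      rw [uIoc_of_le (by linarith)] at hy
      exact hm y hy.1.le)
  rw [show |a + H - a| = H by rw [add_sub_cancel_left, abs_of_pos hH0]] at h3
  exact h3

lemma abs_le_l {m : Measure ℝ} {F : Set ℝ} {f : ℝ → ℝ} {B : ℝ} (hB : 0 ≤ B)
    (h : ∫⁻ t in F, ENNReal.ofReal |f t| ∂m ≤ ENNReal.ofReal B) : |∫ t in F, f t ∂m| ≤ B := by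
  have h1 := norm_integral_le_lintegral_norm (μ := m.restrict F) f
  simp only [Real.norm_eq_abs] at h1
  exact h1.trans (ENNReal.toReal_le_of_le_ofReal hB h)

lemma cont_ii {Q : ℝ → ℝ → ℝ} (hQc : Continuous fun p : ℝ × ℝ => Q p.1 p.2) {X p q : ℝ → ℝ}
    (hX : Continuous X) (hp : Continuous p) (hq : Continuous q) :
    Continuous fun t => ∫ y in (p t)..(q t), Q y (X t) := by
  have hQX : Continuous (Function.uncurry fun (t y : ℝ) => Q y (X t)) :=
    hQc.comp (continuous_snd.prodMk (hX.comp continuous_fst))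
  have hy : ∀ t, Continuous fun y => Q y (X t) := fun t =>
    hQc.comp (continuous_id.prodMk continuous_const)
  have e : (fun t => ∫ y in (p t)..(q t), Q y (X t))
      = fun t => (∫ y in (0 : ℝ)..(q t), Q y (X t)) - ∫ y in (0 : ℝ)..(p t), Q y (X t) := by
    funext t
    rw [intervalIntegral.integral_interval_sub_left ((hy t).intervalIntegrable _ _)
      ((hy t).intervalIntegrable _ _)]
  rw [e]
  exact (intervalIntegral.continuous_parametric_intervalIntegral_of_continuous hQX hq).sub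
    (intervalIntegral.continuous_parametric_intervalIntegral_of_continuous hQX hp)

/-- the abstract form of the estimate -/
lemma core (hB : StepBasic) (hI : StepId) {be H V K ε x T : ℝ} (hbe : 0 < be) (hbe2 : be ≤ 1 / 10 ^ 4)
    (hH : 1 ≤ H) (hT : 0 < T) {X X' : ℝ → ℝ} (hX : Continuous X) (hX' : Continuous X') {F : Set ℝ}
    (hF : MeasurableSet F) (hK : 0 ≤ K) (hε : 0 ≤ ε)
    (hu : ∀ y, V ≤ y → ∫⁻ t in F, ENNReal.ofReal (HH be (1 / 20) y (X t))
      * ENNReal.ofReal (1 + (X t - X' t) ^ 4) ∂(un x T) ≤ ENNReal.ofReal K)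
    (hu' : ∀ y, V ≤ y → ∫⁻ t in F, ENNReal.ofReal (HH be (1 / 20) y (X' t))
      * ENNReal.ofReal ((X t - X' t) ^ 4) ∂(un x T) ≤ ENNReal.ofReal K)
    (hm : ∀ y, V ≤ y → |∫ t in F ∩ {t | |X t - X' t| ≤ H / 2},
      (X t - X' t) * HH be (1 / 20) y (X t) ∂(un x T)| ≤ ε) :
    |∫ t in F, rem be H V (X t) (X' t) ∂(un x T)| ≤ ε + 8 * Ck * K / H + 250 * Ck * K / H ^ 2 := by
  have : IsProbabilityMeasure (un x T) := prob_un x hT
  have hH0 : 0 < H := by linarith
  have hCk := Ck_nonneg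
  by_cases hint : IntegrableOn (fun t => rem be H V (X t) (X' t)) F (un x T)
  swap
  · rw [integral_undef hint, abs_zero]
    positivity
  obtain ⟨hQc, hQ0, -, -, -, -, -⟩ := hB be hbe hbe2
  set Q : ℝ → ℝ → ℝ := fun y u => HH be (1 / 20) y u with hQdef
  have hD : Continuous fun t => X t - X' t := hX.sub hX'
  have hS : MeasurableSet {t | |X t - X' t| ≤ H / 2} :=
    measurableSet_le hD.abs.measurable measurable_const
  set F1 : Set ℝ := F ∩ {t | |X t - X' t| ≤ H / 2} with hF1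
  set F2 : Set ℝ := F \ {t | |X t - X' t| ≤ H / 2} with hF2
  have hF1m : MeasurableSet F1 := hF.inter hS
  have hF2m : MeasurableSet F2 := hF.diff hS
  have hsplit := integral_inter_add_sdiff hS hint
  -- the main term
  have hmc : Continuous fun t => (X t - X' t) / H * ∫ y in (V + H)..(V + H + H), Q y (X t) := by
    refine (hD.div_const H).mul ?_
    exact intervalIntegral.continuous_parametric_intervalIntegral_of_continuous'
      (f := fun t y => Q y (X t)) (hQc.comp (continuous_snd.prodMk (hX.comp continuous_fst))) _ _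
  have hmain := main_l (x := x) hT hQc hX hD (F := F1) (ε := ε) (a := V + H) hH
    (fun y hy => hm y (by linarith))
  -- the error on the near part
  have hsub1 : ∫ t in F1, rem be H V (X t) (X' t) ∂(un x T)
      = (∫ t in F1, (X t - X' t) / H * (∫ y in (V + H)..(V + H + H), Q y (X t)) ∂(un x T))
        + ∫ t in F1, (rem be H V (X t) (X' t)
          - (X t - X' t) / H * ∫ y in (V + H)..(V + H + H), Q y (X t)) ∂(un x T) := by
    rw [← integral_add (int_un hT F1 hmc)]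
    · refine integral_congr_ae (Eventually.of_forall fun t => ?_)
      simp only
      ring
    · exact (hint.mono_set inter_subset_left).sub (int_un hT F1 hmc)
  have hnear : |∫ t in F1, (rem be H V (X t) (X' t)
          - (X t - X' t) / H * ∫ y in (V + H)..(V + H + H), Q y (X t)) ∂(un x T)|
      ≤ 8 * Ck * K / H := by
    refine abs_le_l (by positivity) ?_
    have hn1 := near_l (m := un x T) hQc hQ0 hX hD hF1m (H := H) (K := K) (a := V + H)
      (fun t ht => ht.2) (fun y hy => (lintegral_mono_set inter_subset_left).trans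
        (hu y (by linarith)))
    have hn2 := near_l (m := un x T) hQc hQ0 hX hD hF1m (H := H) (K := K) (a := V + H + H)
      (fun t ht => ht.2) (fun y hy => (lintegral_mono_set inter_subset_left).trans
        (hu y (by linarith)))
    calc ∫⁻ t in F1, ENNReal.ofReal |rem be H V (X t) (X' t)
            - (X t - X' t) / H * ∫ y in (V + H)..(V + H + H), Q y (X t)| ∂(un x T)
        ≤ ∫⁻ t in F1, ENNReal.ofReal (1 / H) *
            (ENNReal.ofReal (|X t - X' t| * ∫ y in (V + H - |X t - X' t|)..(V + H + |X t - X' t|),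
                Q y (X t))
            + ENNReal.ofReal (|X t - X' t| * ∫ y in (V + H + H - |X t - X' t|)..(V + H + H
                + |X t - X' t|), Q y (X t))) ∂(un x T) := by
          refine setLIntegral_mono' hF1m fun t ht => ?_
          have h1 := (hI be H V (X t) (X' t) hbe hbe2 hH).2.1 ht.2
          have e : V + 2 * H = V + H + H := by ring
          rw [e] at h1
          have hd0 := abs_nonneg (X t - X' t)
          have hi : ∀ a : ℝ, 0 ≤ ∫ y in (a - |X t - X' t|)..(a + |X t - X' t|), Q y (X t) := fun a =>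
            intervalIntegral.integral_nonneg (by linarith) fun y _ => hQ0 y (X t)
          rw [← ENNReal.ofReal_add (mul_nonneg hd0 (hi _)) (mul_nonneg hd0 (hi _)),
            ← ENNReal.ofReal_mul (by positivity)]
          refine ENNReal.ofReal_le_ofReal (h1.trans_eq ?_)
          simp only [hQdef]
          ring
      _ ≤ ENNReal.ofReal (1 / H) * (ENNReal.ofReal (4 * Ck * K) + ENNReal.ofReal (4 * Ck * K)) := by
          rw [lintegral_const_mul' _ _ ENNReal.ofReal_ne_top]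
          gcongr
          refine (lintegral_add_right _ ?_).le.trans (add_le_add hn1 hn2)
          exact (hD.abs.mul (cont_ii hQc hX (continuous_const.sub hD.abs)
            (continuous_const.add hD.abs))).measurable.ennreal_ofReal
      _ = ENNReal.ofReal (8 * Ck * K / H) := by
          rw [← ENNReal.ofReal_add (by positivity) (by positivity),
            ← ENNReal.ofReal_mul (by positivity)]
          congr 1
          ring
  have hfar : |∫ t in F2, rem be H V (X t) (X' t) ∂(un x T)| ≤ 250 * Ck * K / H ^ 2 := by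
    refine abs_le_l (by positivity) ?_
    have hn1 := far_l (m := un x T) hQc hQ0 hX hD hF2m (H := H) (K := K) (a := V + H) hH
      (fun t ht => not_le.1 ht.2) (fun y hy => by
        refine (lintegral_mono_set sdiff_subset).trans (le_trans ?_ (hu y (by linarith)))
        refine lintegral_mono fun t => ?_
        gcongr
        linarith)
    have hn2 := far_l (m := un x T) hQc hQ0 hX' hD hF2m (H := H) (K := K) (a := V + H) hH
      (fun t ht => not_le.1 ht.2) (fun y hy => (lintegral_mono_set sdiff_subset).trans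
        (hu' y (by linarith)))
    calc ∫⁻ t in F2, ENNReal.ofReal |rem be H V (X t) (X' t)| ∂(un x T)
        ≤ ∫⁻ t in F2, ENNReal.ofReal (1 / H) *
            (ENNReal.ofReal (|X t - X' t| * ∫ y in (V + H)..(V + H + H + |X t - X' t|), Q y (X t))
            + ENNReal.ofReal (|X t - X' t| * ∫ y in (V + H)..(V + H + H + |X t - X' t|),
                Q y (X' t))) ∂(un x T) := by
          refine setLIntegral_mono' hF2m fun t ht => ?_
          have h1 := (hI be H V (X t) (X' t) hbe hbe2 hH).2.2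
          have e : V + 2 * H = V + H + H := by ring
          rw [e] at h1
          have hd0 := abs_nonneg (X t - X' t)
          have hi : ∀ u : ℝ, 0 ≤ ∫ y in (V + H)..(V + H + H + |X t - X' t|), Q y u := fun u =>
            intervalIntegral.integral_nonneg (by linarith) fun y _ => hQ0 y u
          have hy : ∀ u : ℝ, Continuous fun y => Q y u := fun u =>
            hQc.comp (continuous_id.prodMk continuous_const)
          rw [← ENNReal.ofReal_add (mul_nonneg hd0 (hi _)) (mul_nonneg hd0 (hi _)),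
            ← ENNReal.ofReal_mul (by positivity)]
          refine ENNReal.ofReal_le_ofReal (h1.trans_eq ?_)
          rw [intervalIntegral.integral_add ((hy (X t)).intervalIntegrable _ _)
            ((hy (X' t)).intervalIntegrable _ _)]
          ring
      _ ≤ ENNReal.ofReal (1 / H) * (ENNReal.ofReal (125 / H * Ck * K)
            + ENNReal.ofReal (125 / H * Ck * K)) := by
          rw [lintegral_const_mul' _ _ ENNReal.ofReal_ne_top]
          gcongr
          refine (lintegral_add_right _ ?_).le.trans (add_le_add hn1 hn2)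
          exact (hD.abs.mul (cont_ii hQc hX' continuous_const
            (continuous_const.add hD.abs))).measurable.ennreal_ofReal
      _ = ENNReal.ofReal (250 * Ck * K / H ^ 2) := by
          rw [← ENNReal.ofReal_add (by positivity) (by positivity),
            ← ENNReal.ofReal_mul (by positivity)]
          congr 1
          field_simp
          ring
  rw [← hsplit, ← hF1, ← hF2, hsub1]
  calc _ ≤ |(∫ t in F1, (X t - X' t) / H * (∫ y in (V + H)..(V + H + H), Q y (X t)) ∂(un x T))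
        + ∫ t in F1, (rem be H V (X t) (X' t)
          - (X t - X' t) / H * ∫ y in (V + H)..(V + H + H), Q y (X t)) ∂(un x T)|
        + |∫ t in F2, rem be H V (X t) (X' t) ∂(un x T)| := abs_add_le _ _
    _ ≤ (ε + 8 * Ck * K / H) + 250 * Ck * K / H ^ 2 :=
        add_le_add ((abs_add_le _ _).trans (add_le_add hmain hnear)) hfar
    _ = _ := by ring

lemma inv_sqrt_le {N a : ℝ} (hN : 1 ≤ N) (ha : N ^ (1 / 2 : ℝ) ≤ a) :
    1 / Real.sqrt a ≤ N ^ (-(1 / 4) : ℝ) := by
  have hN0 : 0 < N := by linarith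
  rw [Real.rpow_neg hN0.le, ← one_div]
  refine one_div_le_one_div_of_le (by positivity) (Real.le_sqrt_of_sq_le ?_)
  rw [← Real.rpow_natCast, ← Real.rpow_mul hN0.le]
  norm_num at ha ⊢
  exact ha

lemma h_nonneg (A : Par) (p : ℕ) : 0 ≤ A.h p := Real.rpow_nonneg (Nat.cast_nonneg p) _

lemma G_mono {A : Par} (hA : A.Ok) {V y : ℝ} (h : V ≤ y) : A.G y ≤ A.G V := by
  rw [A.G_shift y V]
  have h1 := hA.G_pos V
  have h2 : Real.exp (-(A.be * (y - V))) ≤ 1 := by
    rw [Real.exp_le_one_iff]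
    have := mul_nonneg hA.hbe.le (sub_nonneg.2 h)
    linarith
  have h3 := mul_le_mul_of_nonneg_left h2 h1.le
  linarith only [h3]

lemma le_of_sq {s n c : ℝ} (hs : 0 ≤ s) (hsn : s * s = n) (hc : c * c ≤ n) : c ≤ s := by
  by_contra h
  have h1 := mul_self_lt_mul_self hs (not_le.1 h)
  linarith only [h1, hsn, hc]

/-- the weights at two levels -/
lemma G_two {A A' : Par} (hA : A.Ok) (hA' : A'.Ok) (hbe : A'.be = A.be) (h1 : A'.s2 ≤ A.s2)
    (h2 : A.s2 ≤ 4 * A'.s2) (y : ℝ) : A'.G y ≤ 2 * A.G y := by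
  have hs := hA.hs
  have hs' := hA'.hs
  have e1 : 1 / Real.sqrt A'.s2 ≤ 2 * (1 / Real.sqrt A.s2) := by
    have e2 : Real.sqrt A.s2 ≤ 2 * Real.sqrt A'.s2 := by
      rw [show (2 : ℝ) * Real.sqrt A'.s2 = Real.sqrt (4 * A'.s2) by
        rw [Real.sqrt_mul (by norm_num), show (4 : ℝ) = 2 ^ 2 by norm_num, Real.sqrt_sq (by norm_num)]]
      exact Real.sqrt_le_sqrt h2
    have e3 : 0 < Real.sqrt A.s2 := Real.sqrt_pos.2 (by linarith)
    have e4 : 0 < Real.sqrt A'.s2 := Real.sqrt_pos.2 (by linarith)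
    rw [mul_one_div, div_le_div_iff₀ e4 e3]
    linarith
  have e5 : Real.exp (-(A'.be * y) + A'.be ^ 2 * A'.s2 / 2)
      ≤ Real.exp (-(A.be * y) + A.be ^ 2 * A.s2 / 2) := by
    rw [Real.exp_le_exp, hbe]
    have := mul_le_mul_of_nonneg_left h1 (sq_nonneg A.be)
    linarith
  unfold Par.G
  calc _ ≤ 2 * (1 / Real.sqrt A.s2) * Real.exp (-(A.be * y) + A.be ^ 2 * A.s2 / 2) :=
        mul_le_mul e1 e5 (Real.exp_pos _).le (by positivity)
    _ = _ := by ring

end C4x

open C4x in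
theorem stepFarB (hW : WinSign) (h4 : MomFour) (hE : WMean) (hU : WinUp) (hS : LC.SpecNum)
    (hP : SpecPair) (hB : StepBasic) (hI : StepId) : StepFarB := by
  obtain ⟨Cw, Tw, vw, hCw, hTw, hW⟩ := hW
  obtain ⟨C4, T4, hC4, hT4, h4⟩ := h4
  obtain ⟨Ce, Te, hCe, hTe, hE⟩ := hE
  obtain ⟨Cu, vu, hCu, hU⟩ := hU
  obtain ⟨Cs, Ns, hCs, hNs, hS⟩ := hS
  obtain ⟨Cp, Np, hCp, hNp, hP⟩ := hP
  have hCk := Ck_nonneg
  set CD : ℝ := 60 * Cp with hCD
  have hCD1 : 1 ≤ CD := by linarith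
  set CK : ℝ := 2 * Cu * (Ce + C4 * CD ^ 4) with hCK
  have hCK0 : 0 ≤ CK := by positivity
  refine ⟨9 * Cw * CD ^ 2 + 258 * Ck * CK, max (max Ns Np) (max (max (Real.exp vw) (Real.exp vu))
    (max (4 * Cs ^ 2) 4)), max (max Tw T4) Te, ?_, ?_, ?_, ?_⟩
  · have : 1 ≤ CD ^ 2 := one_le_pow₀ hCD1
    have h2 : 1 ≤ Cw * CD ^ 2 := one_le_mul_of_one_le_of_one_le hCw this
    have h3 : 0 ≤ 258 * Ck * CK := by positivity
    linarith only [h2, h3]
  · exact le_trans (by norm_num) ((le_max_right _ _).trans ((le_max_right _ _).trans (le_max_right _ _)))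
  · exact hTw.trans ((le_max_left _ _).trans (le_max_left _ _))
  intro A A' T N hA hA' hbe hN hT hbe4 hll x F hF hFG hEv V
  have hN1 : Ns ≤ N := (le_max_left _ _).trans ((le_max_left _ _).trans hN)
  have hN2 : Np ≤ N := (le_max_right _ _).trans ((le_max_left _ _).trans hN)
  have hN3 : Real.exp vw ≤ N := (le_max_left _ _).trans ((le_max_left _ _).trans
    ((le_max_right _ _).trans hN))
  have hN4 : Real.exp vu ≤ N := (le_max_right _ _).trans ((le_max_left _ _).trans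
    ((le_max_right _ _).trans hN))
  have hN5 : 4 * Cs ^ 2 ≤ N := (le_max_left _ _).trans ((le_max_right _ _).trans
    ((le_max_right _ _).trans hN))
  have hN6 : 4 ≤ N := (le_max_right _ _).trans ((le_max_right _ _).trans
    ((le_max_right _ _).trans hN))
  have hT1 : Tw ≤ T := (le_max_left _ _).trans ((le_max_left _ _).trans hT)
  have hT2 : T4 ≤ T := (le_max_right _ _).trans ((le_max_left _ _).trans hT)
  have hT3 : Te ≤ T := (le_max_right _ _).trans hT
  have hN0 : 0 < N := by linarith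
  have h1N : 1 ≤ N := by linarith
  have hT0 : 0 < T := by linarith
  have hL := Real.log_nonneg h1N
  -- the two levels
  have hN' : N ≤ N ^ (3 / 2 : ℝ) := by
    calc N = N ^ (1 : ℝ) := (Real.rpow_one N).symm
      _ ≤ _ := Real.rpow_le_rpow_of_exponent_le h1N (by norm_num)
  obtain ⟨hvv, -, -, hh, c, hc, hcX, hc1, hc2⟩ := hP A A' T N (N ^ (3 / 2 : ℝ)) hA hA' hN2 le_rfl
  obtain ⟨hLen, -, -, -, -, -, -, -, hvt⟩ := hS A T N hA hN1
  obtain ⟨hLen', -, -, -, -, -, -, -, hvt'⟩ := hS A' T (N ^ (3 / 2 : ℝ)) hA' (hN1.trans hN')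
  have hlog : Real.log (N ^ (3 / 2 : ℝ)) = 3 / 2 * Real.log N := Real.log_rpow hN0 _
  set D : ℝ := Cp * Real.log (N ^ (3 / 2 : ℝ)) with hD
  have hD1 : 1 ≤ D := by
    have h1 : 1 ≤ Real.log N := by
      rw [Real.le_log_iff_exp_le hN0]
      linarith [Real.exp_one_lt_d9]
    rw [hD, hlog]
    exact one_le_mul_of_one_le_of_one_le hCp (by linarith only [h1])
  have hD0 : 0 ≤ D := by linarith
  have hDN : D ≤ CD * N ^ (1 / 40 : ℝ) := by
    have h1 := Real.log_le_rpow_div hN0.le (show (0 : ℝ) < 1 / 40 by norm_num)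
    rw [hD, hlog, hCD]
    have h2 : Real.log N ≤ 40 * N ^ (1 / 40 : ℝ) := by linarith only [h1]
    have h3 := mul_le_mul_of_nonneg_left h2 (show 0 ≤ Cp by linarith only [hCp])
    linarith only [h3]
  have hD2 : D ^ 2 ≤ CD ^ 2 * N ^ (1 / 20 : ℝ) := by
    calc D ^ 2 ≤ (CD * N ^ (1 / 40 : ℝ)) ^ 2 := by gcongr
      _ = CD ^ 2 * N ^ (1 / 20 : ℝ) := by
        rw [mul_pow, ← Real.rpow_natCast (N ^ (1 / 40 : ℝ)), ← Real.rpow_mul hN0.le]
        norm_num
  have hD4 : D ^ 4 ≤ CD ^ 4 * N ^ (1 / 10 : ℝ) := by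
    calc D ^ 4 ≤ (CD * N ^ (1 / 40 : ℝ)) ^ 4 := by gcongr
      _ = CD ^ 4 * N ^ (1 / 10 : ℝ) := by
        rw [mul_pow, ← Real.rpow_natCast (N ^ (1 / 40 : ℝ)), ← Real.rpow_mul hN0.le]
        norm_num
  -- the variances
  have hsq : N ^ (1 / 2 : ℝ) * N ^ (1 / 2 : ℝ) = N := by
    rw [← Real.rpow_add hN0]; norm_num
  have h12 : 2 * Cs ≤ N ^ (1 / 2 : ℝ) := by
    refine le_of_sq (by positivity) hsq ?_
    linarith only [hN5]
  have h32 : N ^ (3 / 2 : ℝ) = N * N ^ (1 / 2 : ℝ) := by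
    rw [show (3 / 2 : ℝ) = 1 + 1 / 2 by norm_num, Real.rpow_add hN0, Real.rpow_one]
  have h34 : (N ^ (3 / 2 : ℝ)) ^ (1 / 2 : ℝ) ≤ N := by
    rw [← Real.rpow_mul hN0.le]
    calc N ^ (3 / 2 * (1 / 2) : ℝ) ≤ N ^ (1 : ℝ) :=
          Real.rpow_le_rpow_of_exponent_le h1N (by norm_num)
      _ = N := Real.rpow_one N
  have h12N : N ^ (1 / 2 : ℝ) ≤ N := by
    calc N ^ (1 / 2 : ℝ) ≤ N ^ (1 : ℝ) := Real.rpow_le_rpow_of_exponent_le h1N (by norm_num)
      _ = N := Real.rpow_one N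
  have h12p : 2 ≤ N ^ (1 / 2 : ℝ) := by
    refine le_of_sq (by positivity) hsq ?_
    linarith only [hN6]
  have hv1 : |A.vt - Real.log (Real.log T)| ≤ Real.log (Real.log T) / 2 := by
    refine hvt.trans ?_
    have h1 : Cs * N ^ (1 / 2 : ℝ) ≤ Cs * N := by gcongr
    have h2 : 2 * Cs * N ≤ N ^ (1 / 2 : ℝ) * N := by gcongr
    linarith
  have hv2 : |A'.vt - Real.log (Real.log T)| ≤ Real.log (Real.log T) / 2 := by
    refine hvt'.trans ?_
    have h1 : Cs * (N ^ (3 / 2 : ℝ)) ^ (1 / 2 : ℝ) ≤ Cs * N := by gcongr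
    have h2 : 2 * Cs * N ≤ N ^ (1 / 2 : ℝ) * N := by gcongr
    linarith
  have hv1' := abs_le.1 hv1
  have hv2' := abs_le.1 hv2
  have hs1 : A'.s2 ≤ A.s2 := by unfold Par.s2; linarith
  have hs2 : A.s2 ≤ 4 * A'.s2 := by unfold Par.s2; linarith
  have hs3 : N ^ (1 / 2 : ℝ) ≤ A.s2 := by
    unfold Par.s2
    have h1 : 4 * N ^ (1 / 2 : ℝ) ≤ N * N ^ (1 / 2 : ℝ) := by gcongr
    linarith
  -- the small quantities
  have q1 := inv_sqrt_le h1N hs3
  have q2 : Real.exp (-(A.v / 2 : ℝ)) ≤ N ^ (-(1 / 4) : ℝ) := by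
    rw [Real.rpow_def_of_pos hN0, Real.exp_le_exp]
    have := hA.hv1
    linarith
  have hp4 : N ≤ A.p0 := by
    refine le_trans ?_ hA.hp1
    calc N = N ^ 1 := (pow_one N).symm
      _ ≤ N ^ 4 := pow_le_pow_right₀ h1N (by norm_num)
  have q3 : 1 / Real.sqrt A.p0 ≤ N ^ (-(1 / 4) : ℝ) := inv_sqrt_le h1N (h12N.trans hp4)
  have hTN : N ≤ T := by
    have h1 : N ≤ Real.log T := by
      refine le_trans ?_ hA.hN
      calc N = N ^ 1 := (pow_one N).symm
        _ ≤ N ^ 12 := pow_le_pow_right₀ h1N (by norm_num)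
    linarith [Real.log_le_sub_one_of_pos hT0]
  have q4 : 1 / Real.sqrt T ≤ N ^ (-(1 / 4) : ℝ) := inv_sqrt_le h1N (h12N.trans hTN)
  have q5 : Real.sqrt (N ^ (-(4 : ℝ))) ≤ N ^ (-(1 / 4) : ℝ) := by
    rw [Real.sqrt_le_left (by positivity), ← Real.rpow_natCast, ← Real.rpow_mul hN0.le]
    exact Real.rpow_le_rpow_of_exponent_le h1N (by norm_num)
  have q6 : 1 / (N ^ (1 / 2 : ℝ) / 2) ≤ 2 * N ^ (-(1 / 4) : ℝ) := by
    rw [one_div_div, div_eq_mul_inv, ← Real.rpow_neg hN0.le]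
    gcongr 2 * ?_
    exact Real.rpow_le_rpow_of_exponent_le h1N (by norm_num)
  -- conditions on v
  have hvw : vw ≤ A.v := by
    have h1 : (vw : ℝ) ≤ Real.log N := (Real.le_log_iff_exp_le hN0).2 hN3
    exact_mod_cast (show (vw : ℝ) ≤ A.v by linarith [hA.hv1])
  have hvu : vu ≤ A.v := by
    have h1 : (vu : ℝ) ≤ Real.log N := (Real.le_log_iff_exp_le hN0).2 hN4
    exact_mod_cast (show (vu : ℝ) ≤ A.v by linarith [hA.hv1])
  have hvu' : vu ≤ A'.v := by
    have h1 : (vu : ℝ) ≤ Real.log N := (Real.le_log_iff_exp_le hN0).2 hN4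
    have h2 := hA'.hv1
    rw [hlog] at h2
    exact_mod_cast (show (vu : ℝ) ≤ A'.v by linarith)
  have hH1 : 1 ≤ N ^ (1 / 2 : ℝ) := by linarith
  have hR1 : 1 ≤ N ^ (1 / 2 : ℝ) / 2 := by linarith
  have hGV := hA.ok.G_pos V
  have hXc : Continuous fun t => A.X ∅ (om t) := (A.continuous_X ∅).comp continuous_om
  have hXc' : Continuous fun t => A'.X ∅ (om t) := (A'.continuous_X ∅).comp continuous_om
  have hDc : Continuous fun t => A.X ∅ (om t) - A'.X ∅ (om t) := hXc.sub hXc'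
  -- fourth moments
  have hUp : ∀ p ∈ A.U, p.Prime ∧ 1000 ≤ p ∧ (p : ℝ) ≤ Real.exp (Real.log T / 10 ^ 5) := by
    intro p hp
    obtain ⟨-, -, -, hU', -, -, -, -⟩ := groupNum A hA.ok
    obtain ⟨h1, h2, h3⟩ := (hU' p).1 hp
    refine ⟨h1, by have := hA.ok.hp; omega, h3.trans (Real.exp_le_exp.2 ?_)⟩
    rw [hA.hY]
    have h4' : (4 : ℝ) ≤ A.v := by exact_mod_cast hA.ok.hv
    have h5 : 0 ≤ Real.log T := Real.log_nonneg (by linarith)
    refine div_le_div_of_nonneg_left h5 (by positivity) ?_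
    linarith only [h4']
  have hDeq : ∀ t, A.X ∅ (om t) - A'.X ∅ (om t) = (lin A.U c (om t)).re := fun t => hcX (om t)
  have m4 : ∀ y, ∫⁻ t, ENNReal.ofReal (A.W ∅ y (om t) * (A.X ∅ (om t) - A'.X ∅ (om t)) ^ 4) ∂(un x T)
      ≤ ENNReal.ofReal (C4 * D ^ 4 * A.G y) := by
    intro y
    simp_rw [hDeq]
    exact h4 A hA.ok T hT2 hLen A.U hUp c (fun p _ => hc p) D hD1 (by rwa [Finset.inter_self]) hc2 x y
  have m4' : ∀ y, ∫⁻ t, ENNReal.ofReal (A'.W ∅ y (om t) * (A.X ∅ (om t) - A'.X ∅ (om t)) ^ 4) ∂(un x T)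
      ≤ ENNReal.ofReal (C4 * D ^ 4 * A'.G y) := by
    intro y
    simp_rw [hDeq]
    refine h4 A' hA'.ok T hT2 hLen' A.U hUp c (fun p _ => hc p) D hD1 ?_ hc2 x y
    refine le_trans ?_ hc1
    refine (Finset.sum_le_sum_of_subset_of_nonneg Finset.inter_subset_left fun p _ _ =>
      mul_nonneg (h_nonneg A' p) (norm_nonneg _)).trans (Finset.sum_le_sum fun p _ => ?_)
    exact mul_le_mul_of_nonneg_right (hh p) (norm_nonneg _)
  have hprob : IsProbabilityMeasure (un x T) := prob_un x hT0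
  have hW0 : ∀ (B : Par), B.Ok → ∀ y t, 0 ≤ B.W ∅ y (om t) := fun B hB' y t =>
    B.W_nonneg hB'.b_pos.le ∅ y (om t)
  have hP4 : ∀ t, 0 ≤ (A.X ∅ (om t) - A'.X ∅ (om t)) ^ 4 := fun t => by positivity
  -- the windows
  have hu : ∀ y, V ≤ y → ∫⁻ t in F, ENNReal.ofReal (HH A.be (1 / 20) y (A.X ∅ (om t)))
      * ENNReal.ofReal (1 + (A.X ∅ (om t) - A'.X ∅ (om t)) ^ 4) ∂(un x T)
      ≤ ENNReal.ofReal (2 * Cu * (Ce + C4 * D ^ 4) * A.G V) := by
    intro y hy
    have h1 := hU A hA.ok hvu hA.hb (un x T) inferInstance (Ce + C4 * D ^ 4) (by positivity)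
      (fun t => ENNReal.ofReal (1 + (A.X ∅ (om t) - A'.X ∅ (om t)) ^ 4))
      (continuous_const.add (hDc.pow 4)).measurable.ennreal_ofReal (fun y => by
        have e : ∀ t, ENNReal.ofReal (A.W ∅ y (om t))
            * ENNReal.ofReal (1 + (A.X ∅ (om t) - A'.X ∅ (om t)) ^ 4)
            = ENNReal.ofReal (A.W ∅ y (om t))
              + ENNReal.ofReal (A.W ∅ y (om t) * (A.X ∅ (om t) - A'.X ∅ (om t)) ^ 4) := fun t => by
          rw [← ENNReal.ofReal_mul (hW0 A hA.ok y t),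
            ← ENNReal.ofReal_add (hW0 A hA.ok y t) (mul_nonneg (hW0 A hA.ok y t) (hP4 t))]
          congr 1
          ring
        have hWm : Measurable fun t => ENNReal.ofReal (A.W ∅ y (om t)) :=
          ((A.continuous_W' hA.ok ∅ y).comp continuous_om).measurable.ennreal_ofReal
        simp_rw [e]
        rw [lintegral_add_left hWm]
        have h2 := hE A hA.ok T hT3 hLen x y ∅ (Finset.empty_subset _)
        simp only [Finset.sum_empty, neg_zero, Real.exp_zero, mul_one] at h2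
        refine (add_le_add h2 (m4 y)).trans ?_
        have hGy := (hA.ok.G_pos y).le
        rw [← ENNReal.ofReal_add (by positivity) (by positivity)]
        exact ENNReal.ofReal_le_ofReal (by linarith)) y
    rw [hA.hb] at h1
    calc _ ≤ ∫⁻ t in {t | A.Good ∅ (om t)}, ENNReal.ofReal (HH A.be (1 / 20) y (A.X ∅ (om t)))
          * ENNReal.ofReal (1 + (A.X ∅ (om t) - A'.X ∅ (om t)) ^ 4) ∂(un x T) :=
          lintegral_mono_set fun t ht => (hFG ht).1
      _ ≤ ∫⁻ t in {t | A.Good ∅ (om t)}, ENNReal.ofReal (HH A.be (1 / 20) y (A.X ∅ (om t))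
          + Env A.be (1 / 20) y (A.X ∅ (om t)))
          * ENNReal.ofReal (1 + (A.X ∅ (om t) - A'.X ∅ (om t)) ^ 4) ∂(un x T) := by
          refine lintegral_mono fun t => ?_
          gcongr
          have : 0 ≤ Env A.be (1 / 20) y (A.X ∅ (om t)) := by unfold Env; positivity
          linarith
      _ ≤ _ := h1
      _ ≤ _ := by
          refine ENNReal.ofReal_le_ofReal ?_
          have h2 := G_mono hA.ok hy
          have h3 : 0 ≤ Cu * (Ce + C4 * D ^ 4) := by positivity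
          linarith only [mul_le_mul_of_nonneg_left h2 h3, mul_nonneg h3 hGV.le]
  have hu' : ∀ y, V ≤ y → ∫⁻ t in F, ENNReal.ofReal (HH A.be (1 / 20) y (A'.X ∅ (om t)))
      * ENNReal.ofReal ((A.X ∅ (om t) - A'.X ∅ (om t)) ^ 4) ∂(un x T)
      ≤ ENNReal.ofReal (2 * Cu * (Ce + C4 * D ^ 4) * A.G V) := by
    intro y hy
    have h1 := hU A' hA'.ok hvu' hA'.hb (un x T) inferInstance (C4 * D ^ 4) (by positivity)
      (fun t => ENNReal.ofReal ((A.X ∅ (om t) - A'.X ∅ (om t)) ^ 4))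
      (hDc.pow 4).measurable.ennreal_ofReal (fun y => by
        refine le_trans (lintegral_mono fun t => ?_) (m4' y)
        rw [← ENNReal.ofReal_mul (hW0 A' hA'.ok y t)]) y
    rw [hA'.hb, hbe] at h1
    calc _ ≤ ∫⁻ t in {t | A'.Good ∅ (om t)}, ENNReal.ofReal (HH A.be (1 / 20) y (A'.X ∅ (om t)))
          * ENNReal.ofReal ((A.X ∅ (om t) - A'.X ∅ (om t)) ^ 4) ∂(un x T) :=
          lintegral_mono_set fun t ht => (hFG ht).2
      _ ≤ ∫⁻ t in {t | A'.Good ∅ (om t)}, ENNReal.ofReal (HH A.be (1 / 20) y (A'.X ∅ (om t))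
          + Env A.be (1 / 20) y (A'.X ∅ (om t)))
          * ENNReal.ofReal ((A.X ∅ (om t) - A'.X ∅ (om t)) ^ 4) ∂(un x T) := by
          refine lintegral_mono fun t => ?_
          gcongr
          have : 0 ≤ Env A.be (1 / 20) y (A'.X ∅ (om t)) := by unfold Env; positivity
          linarith
      _ ≤ _ := h1
      _ ≤ _ := by
          refine ENNReal.ofReal_le_ofReal ?_
          have h2 := (G_mono hA'.ok hy).trans (G_two hA.ok hA'.ok hbe hs1 hs2 V)
          have h3 : 0 ≤ Cu * (C4 * D ^ 4) := by positivity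
          have h4' : 0 ≤ Cu * Ce * A.G V := by positivity
          linarith only [mul_le_mul_of_nonneg_left h2 h3, h4']
  have hm : ∀ y, V ≤ y → |∫ t in F ∩ {t | |A.X ∅ (om t) - A'.X ∅ (om t)| ≤ N ^ (1 / 2 : ℝ) / 2},
      (A.X ∅ (om t) - A'.X ∅ (om t)) * HH A.be (1 / 20) y (A.X ∅ (om t)) ∂(un x T)|
      ≤ Cw * D ^ 2 * (8 * N ^ (-(1 / 4) : ℝ)) * A.G V := by
    intro y hy
    have h1 := hW A hA.ok hvw hA.hb T hT1 hLen x (N ^ (-(4 : ℝ))) F (by positivity) hF hEv c hc D hD1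
      hc1 hc2 (N ^ (1 / 2 : ℝ) / 2) hR1 y
    have e : {t | A.Good ∅ (om t)} ∩ F ∩ {t | |(lin A.U c (om t)).re| ≤ N ^ (1 / 2 : ℝ) / 2}
        = F ∩ {t | |A.X ∅ (om t) - A'.X ∅ (om t)| ≤ N ^ (1 / 2 : ℝ) / 2} := by
      ext t
      simp only [mem_inter_iff, mem_ofPred_eq, hDeq]
      constructor
      · rintro ⟨⟨_, h2⟩, h3⟩
        exact ⟨h2, h3⟩
      · rintro ⟨h2, h3⟩
        exact ⟨⟨(hFG h2).1, h2⟩, h3⟩
    rw [e, hA.hb] at h1
    simp_rw [← hDeq] at h1
    refine h1.trans ?_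
    have hG1 := G_mono hA.ok hy
    have hG0 := (hA.ok.G_pos y).le
    have h5 : 0 ≤ N ^ (-(1 / 4) : ℝ) := by positivity
    have hbe0 := hA.ok.hbe
    gcongr ?_ * ?_
    · gcongr Cw * D ^ 2 * ?_
      linarith
  have key := core hB hI (V := V) (x := x) hA.ok.hbe hA.hbe hH1 hT0 hXc hXc' hF
    (show 0 ≤ 2 * Cu * (Ce + C4 * D ^ 4) * A.G V by positivity)
    (show 0 ≤ Cw * D ^ 2 * (8 * N ^ (-(1 / 4) : ℝ)) * A.G V by positivity) hu hu' hm
  refine key.trans ?_
  have e1 : N ^ (1 / 20 : ℝ) * N ^ (-(1 / 4) : ℝ) = N ^ (-(1 / 5) : ℝ) := by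
    rw [← Real.rpow_add hN0]; norm_num
  have e2 : N ^ (1 / 10 : ℝ) / N ^ (1 / 2 : ℝ) ≤ N ^ (-(1 / 5) : ℝ) := by
    rw [← Real.rpow_sub hN0]
    exact Real.rpow_le_rpow_of_exponent_le h1N (by norm_num)
  have e0 : 1 ≤ N ^ (1 / 10 : ℝ) := Real.one_le_rpow h1N (by norm_num)
  have e5 : 0 ≤ N ^ (-(1 / 5) : ℝ) := by positivity
  have e3 : 2 * Cu * (Ce + C4 * D ^ 4) * A.G V ≤ CK * N ^ (1 / 10 : ℝ) * A.G V := by
    have h1 : Ce + C4 * D ^ 4 ≤ (Ce + C4 * CD ^ 4) * N ^ (1 / 10 : ℝ) := by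
      have h2 : Ce ≤ Ce * N ^ (1 / 10 : ℝ) := le_mul_of_one_le_right (by linarith) e0
      have h3 : C4 * D ^ 4 ≤ C4 * (CD ^ 4 * N ^ (1 / 10 : ℝ)) := by gcongr
      linarith
    calc 2 * Cu * (Ce + C4 * D ^ 4) * A.G V
        ≤ 2 * Cu * ((Ce + C4 * CD ^ 4) * N ^ (1 / 10 : ℝ)) * A.G V := by gcongr
      _ = CK * N ^ (1 / 10 : ℝ) * A.G V := by rw [hCK]; ring
  set K : ℝ := 2 * Cu * (Ce + C4 * D ^ 4) * A.G V with hKdef
  have hK0 : 0 ≤ K := by positivity
  have e4 : K / N ^ (1 / 2 : ℝ) ≤ CK * N ^ (-(1 / 5) : ℝ) * A.G V := by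
    calc K / N ^ (1 / 2 : ℝ) ≤ CK * N ^ (1 / 10 : ℝ) * A.G V / N ^ (1 / 2 : ℝ) := by gcongr
      _ = CK * (N ^ (1 / 10 : ℝ) / N ^ (1 / 2 : ℝ)) * A.G V := by ring
      _ ≤ _ := by gcongr
  have e6 : K / (N ^ (1 / 2 : ℝ)) ^ 2 ≤ K / N ^ (1 / 2 : ℝ) := by
    refine div_le_div_of_nonneg_left hK0 (by positivity) ?_
    exact le_self_pow₀ hH1 (by norm_num)
  have t1 : Cw * D ^ 2 * (8 * N ^ (-(1 / 4) : ℝ)) * A.G V
      ≤ 9 * Cw * CD ^ 2 * N ^ (-(1 / 5) : ℝ) * A.G V := by
    calc Cw * D ^ 2 * (8 * N ^ (-(1 / 4) : ℝ)) * A.G V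
        ≤ Cw * (CD ^ 2 * N ^ (1 / 20 : ℝ)) * (9 * N ^ (-(1 / 4) : ℝ)) * A.G V := by
          gcongr
          norm_num
      _ = 9 * Cw * CD ^ 2 * (N ^ (1 / 20 : ℝ) * N ^ (-(1 / 4) : ℝ)) * A.G V := by ring
      _ = _ := by rw [e1]
  have t2 : 8 * Ck * K / N ^ (1 / 2 : ℝ) ≤ 8 * Ck * (CK * N ^ (-(1 / 5) : ℝ) * A.G V) := by
    rw [mul_div_assoc]
    gcongr
  have t3 : 250 * Ck * K / (N ^ (1 / 2 : ℝ)) ^ 2 ≤ 250 * Ck * (CK * N ^ (-(1 / 5) : ℝ) * A.G V) := by
    rw [mul_div_assoc]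
    gcongr
    exact e6.trans e4
  calc _ ≤ 9 * Cw * CD ^ 2 * N ^ (-(1 / 5) : ℝ) * A.G V
        + 8 * Ck * (CK * N ^ (-(1 / 5) : ℝ) * A.G V)
        + 250 * Ck * (CK * N ^ (-(1 / 5) : ℝ) * A.G V) := add_le_add (add_le_add t1 t2) t3
    _ = _ := by ring

end Pool.Agent.Lib.RA
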