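import Mathlib
import Pool.Agent.Lib.MP_f9aece_nt_gt.Cont
import Pool.Agent.Lib.MP_f9aece_nt_rate.Stmts

/-!
The rate in the central limit theorem for `log |zeta|`: module C5, one step.
-/

set_option autoImplicit false

namespace Pool.Agent.Lib.RA

open MeasureTheory Set Filter Topology Complex ProbabilityTheory
open scoped ComplexConjugate
open Pool.Agent.Lib.GT
open Pool.Agent.Lib.LC

namespace C5x

/-- continuous functions are integrable for the uniform measures -/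
lemma int_on {x T : ℝ} (hT : 0 < T) (F : Set ℝ) {f : ℝ → ℝ} (hf : Continuous f) :
    IntegrableOn f F (un x T) := by
  have h1 : Integrable f (volume.restrict (Icc x (x + T))) := hf.integrableOn_Icc
  have h2 : Integrable f (un x T) := by
    unfold un
    refine h1.smul_measure ?_
    simp [hT]
  exact h2.integrableOn

lemma ii {g : ℝ → ℝ} (hg : ∀ V, IntegrableOn g (Ioi V)) (a b : ℝ) : IntervalIntegrable g volume a b := by
  rw [intervalIntegrable_iff]
  refine (hg (min a b)).mono_set ?_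
  intro y hy
  exact hy.1

/-- splitting of the integral over a half line, averaged -/
lemma gsplit {g : ℝ → ℝ} (hg : ∀ V, IntegrableOn g (Ioi V)) (V : ℝ) {H : ℝ} (hH : 0 < H) :
    (∫ y in Ioi V, g y) = (∫ h in H..(2 * H), ∫ y in V..(V + h), g y) / H
      + (∫ h in H..(2 * H), ∫ y in Ioi (V + h), g y) / H := by
  have hc : Continuous fun h : ℝ => ∫ y in V..(V + h), g y := by
    have h1 := intervalIntegral.continuous_primitive (ii hg) V
    exact h1.comp (continuous_const.add continuous_id)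
  have h2 : ∀ h : ℝ, (∫ y in Ioi (V + h), g y) = (∫ y in Ioi V, g y) - ∫ y in V..(V + h), g y := by
    intro h
    have := intervalIntegral.integral_interval_add_Ioi (hg V) (hg (V + h))
    linarith
  have h3 : (∫ h in H..(2 * H), ∫ y in Ioi (V + h), g y)
      = H * (∫ y in Ioi V, g y) - ∫ h in H..(2 * H), ∫ y in V..(V + h), g y := by
    rw [intervalIntegral.integral_congr (g := fun h => (∫ y in Ioi V, g y) - ∫ y in V..(V + h), g y)
      (fun h _ => h2 h), intervalIntegral.integral_sub intervalIntegrable_const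
      (hc.intervalIntegrable _ _), intervalIntegral.integral_const, smul_eq_mul]
    ring
  rw [h3]
  field_simp
  ring

/-- mean over an interval -/
lemma avg_le {e : ℝ → ℝ} {H M : ℝ} (hH : 0 < H) (h : ∀ t ∈ Icc H (2 * H), |e t| ≤ M) :
    |(∫ t in H..(2 * H), e t) / H| ≤ M := by
  have h1 : ‖∫ t in H..(2 * H), e t‖ ≤ M * |2 * H - H| := by
    refine intervalIntegral.norm_integral_le_of_norm_le_const fun t ht => ?_
    rw [uIoc_of_le (by linarith)] at ht
    exact h t ⟨ht.1.le, ht.2⟩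
  rw [abs_div, abs_of_pos hH, div_le_iff₀ hH]
  rw [Real.norm_eq_abs, show 2 * H - H = H by ring, abs_of_pos hH] at h1
  exact h1

/-- the integral of the size over a half line -/
lemma int_G {A : Par} (hbe : 0 < A.be) (a : ℝ) :
    IntegrableOn A.G (Ioi a) ∧ ∫ y in Ioi a, A.G y = A.G a / A.be := by
  have e : A.G = fun y => (A.G a * Real.exp (A.be * a)) * Real.exp (-A.be * y) := by
    funext y
    rw [A.G_shift y a, mul_assoc, ← Real.exp_add]
    congr 2
    ring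
  have h1 : IntegrableOn (fun y => Real.exp (-A.be * y)) (Ioi a) := integrableOn_exp_mul_Ioi (by linarith) a
  constructor
  · rw [e]
    exact h1.const_mul _
  · have h2 : ∫ y in Ioi a, A.G y = ∫ y in Ioi a, (A.G a * Real.exp (A.be * a)) * Real.exp (-A.be * y) :=
      integral_congr_ae (Eventually.of_forall fun y => congrFun e y)
    rw [h2, integral_const_mul, integral_exp_mul_Ioi (by linarith)]
    rw [mul_assoc]
    have h3 : Real.exp (A.be * a) * (-Real.exp (-A.be * a) / -A.be) = 1 / A.be := by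
      rw [neg_div_neg_eq, ← mul_div_assoc, ← Real.exp_add]
      simp
    rw [h3]
    ring

/-- the tails of the two Gaussian means, larger tilt -/
lemma far_G {A A' : Par} {Cg V N h : ℝ} (hA : A.Ok) (hN : 1 ≤ N) (hCg : 1 ≤ Cg)
    (hb : ∀ y, |gw A y| ≤ Cg * A.G y) (hb' : ∀ y, |gw A' y| ≤ Cg * A'.G y)
    (hGG : ∀ y, A'.G y ≤ 2 * A.G y) (hbe : N ^ (-(1 / 4) : ℝ) ≤ A.be) (hh : N ^ (1 / 2 : ℝ) ≤ h) :
    |∫ y in Ioi (V + h), (gw A y - gw A' y)| ≤ 6 * Cg * N ^ (-(1 / 10) : ℝ) * A.G V := by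
  have hN0 : 0 < N := by linarith
  have hbe0 := hA.hbe
  obtain ⟨i1, i2⟩ := int_G hbe0 (V + h)
  have h1 : |∫ y in Ioi (V + h), (gw A y - gw A' y)| ≤ ∫ y in Ioi (V + h), 3 * Cg * A.G y := by
    rw [← Real.norm_eq_abs]
    refine norm_integral_le_of_norm_le (i1.const_mul _) (Eventually.of_forall fun y => ?_)
    rw [Real.norm_eq_abs]
    have a1 := abs_sub (gw A y) (gw A' y)
    have a2 := hb y
    have a3 := hb' y
    have a4 : Cg * A'.G y ≤ Cg * (2 * A.G y) := mul_le_mul_of_nonneg_left (hGG y) (by linarith)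
    linarith
  refine h1.trans ?_
  rw [integral_const_mul, i2, A.G_shift (V + h) V, show V + h - V = h by ring]
  have hz : 0 < N ^ (1 / 4 : ℝ) := Real.rpow_pos_of_pos hN0 _
  have hz2 : N ^ (1 / 4 : ℝ) ≤ A.be * h := by
    calc N ^ (1 / 4 : ℝ) = N ^ (-(1 / 4) : ℝ) * N ^ (1 / 2 : ℝ) := by
          rw [← Real.rpow_add hN0]; norm_num
      _ ≤ A.be * h := by gcongr
  have hz3 : 1 / A.be ≤ N ^ (1 / 4 : ℝ) := by
    rw [div_le_iff₀ hbe0]
    calc (1 : ℝ) = N ^ (1 / 4 : ℝ) * N ^ (-(1 / 4) : ℝ) := by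
          rw [← Real.rpow_add hN0]; norm_num
      _ ≤ _ := by gcongr
  set z : ℝ := N ^ (1 / 4 : ℝ) with hzd
  have hz4 : Real.exp (-(A.be * h)) ≤ 2 / z ^ 2 := by
    have e1 : Real.exp (-(A.be * h)) ≤ Real.exp (-z) := Real.exp_le_exp.2 (by linarith)
    have e2 : z ^ 2 / 2 ≤ Real.exp z := by
      have := Real.quadratic_le_exp_of_nonneg hz.le
      nlinarith
    refine e1.trans ?_
    rw [Real.exp_neg, inv_eq_one_div, div_le_div_iff₀ (Real.exp_pos _) (by positivity)]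
    linarith
  have hz5 : 1 / z ≤ N ^ (-(1 / 10) : ℝ) := by
    rw [hzd, one_div, ← Real.rpow_neg hN0.le]
    exact Real.rpow_le_rpow_of_exponent_le hN (by norm_num)
  have hG := (hA.G_pos V).le
  have e : Real.exp (-(A.be * h)) / A.be ≤ 2 * N ^ (-(1 / 10) : ℝ) := by
    calc Real.exp (-(A.be * h)) / A.be = Real.exp (-(A.be * h)) * (1 / A.be) := by ring
      _ ≤ 2 / z ^ 2 * z := by gcongr
      _ = 2 * (1 / z) := by field_simp
      _ ≤ _ := by gcongr
  calc 3 * Cg * (A.G V * Real.exp (-(A.be * h)) / A.be)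
      = 3 * Cg * A.G V * (Real.exp (-(A.be * h)) / A.be) := by ring
    _ ≤ 3 * Cg * A.G V * (2 * N ^ (-(1 / 10) : ℝ)) := by gcongr
    _ = _ := by ring

end C5x

open C5x in
/-- C5 -/
theorem stepPsi (h2 : StepNear) (h3 : StepFarA) (h4 : StepFarB) (hB : StepBasic) (hI : StepId)
    (hG : StepGauss) (hF : GaussFar) (hE : WMean) (hU : WinUp) (hS : LC.SpecNum) (hP : SpecPair) :
    StepPsi := by
  obtain ⟨C2, N2, T2, hC2, hN2, hT2, h2⟩ := h2
  obtain ⟨C3, N3, T3, hC3, hN3, hT3, h3⟩ := h3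
  obtain ⟨C4, N4, T4, hC4, hN4, hT4, h4⟩ := h4
  obtain ⟨Cg, hCg, hG⟩ := hG
  obtain ⟨Cf, hCf, hF⟩ := hF
  obtain ⟨Cs, Ns, hCs, hNs, hS⟩ := hS
  obtain ⟨Cp, Np, hCp, hNp, hP⟩ := hP
  refine ⟨C2 + C3 + C4 + 60 * Cf * Cp + 6 * Cg, max (max (max N2 N3) (max N4 Ns)) (max (max Np 3) ((4 * Cs) ^ 2)),
    max (max T2 T3) T4, ?_, ?_, ?_, ?_⟩
  · have b0 : 0 ≤ 60 * Cf * Cp := by positivity
    linarith
  · exact le_trans (by norm_num) (le_trans (le_max_right _ _) (le_trans (le_max_left _ _) (le_max_right _ _)))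
  · exact hT4.trans (le_max_right _ _)
  intro A A' T N hA hA' hbe hN hT hNL x F hFm hFs hEv hEv' V
  simp only [max_le_iff] at hN hT
  obtain ⟨⟨⟨hN2', hN3'⟩, hN4', hNs'⟩, ⟨hNp', hN3''⟩, hNc⟩ := hN
  obtain ⟨⟨hT2', hT3'⟩, hT4'⟩ := hT
  have hN1 : 1 ≤ N := by linarith
  have hN0 : 0 < N := by linarith
  have hT0 : 0 < T := by linarith
  have hH1 : 1 ≤ N ^ (1 / 2 : ℝ) := Real.one_le_rpow hN1 (by norm_num)
  have hH0 : 0 < N ^ (1 / 2 : ℝ) := by linarith
  have hNN : N ≤ N ^ (3 / 2 : ℝ) := by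
    calc N = N ^ (1 : ℝ) := (Real.rpow_one N).symm
      _ ≤ _ := Real.rpow_le_rpow_of_exponent_le hN1 (by norm_num)
  have hok := hA.ok
  have hok' := hA'.ok
  have hbe0 := hok.hbe
  have hG0 : 0 ≤ A.G V := (hok.G_pos V).le
  -- the variances
  obtain ⟨-, -, -, -, -, -, -, -, hv⟩ := hS A T N hA hNs'
  obtain ⟨-, -, -, -, -, -, -, -, hv'⟩ := hS A' T _ hA' (hNs'.trans hNN)
  obtain ⟨hvv, hvd, -⟩ := hP A A' T N _ hA hA' hNp' le_rfl
  have hc1 : 4 * Cs ≤ N ^ (1 / 2 : ℝ) := by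
    rw [← Real.sqrt_eq_rpow]
    exact Real.le_sqrt_of_sq_le hNc
  set L : ℝ := Real.log (Real.log T) with hL
  have e34 : (N ^ (3 / 2 : ℝ)) ^ (1 / 2 : ℝ) = N ^ (3 / 4 : ℝ) := by
    rw [← Real.rpow_mul hN0.le]; norm_num
  have e1 : Cs * N ^ (3 / 4 : ℝ) ≤ L / 4 := by
    have a1 : N ^ (3 / 4 : ℝ) * N ^ (1 / 2 : ℝ) ≤ N ^ (3 / 2 : ℝ) := by
      rw [← Real.rpow_add hN0]
      exact Real.rpow_le_rpow_of_exponent_le hN1 (by norm_num)
    have a2 : N ^ (3 / 4 : ℝ) * (4 * Cs) ≤ N ^ (3 / 4 : ℝ) * N ^ (1 / 2 : ℝ) := by gcongr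
    linarith
  have e2 : Cs * N ^ (1 / 2 : ℝ) ≤ L / 4 := by
    refine le_trans ?_ e1
    have : N ^ (1 / 2 : ℝ) ≤ N ^ (3 / 4 : ℝ) := Real.rpow_le_rpow_of_exponent_le hN1 (by norm_num)
    gcongr
  rw [e34] at hv'
  have hv1 := abs_le.1 hv
  have hv2 := abs_le.1 hv'
  have hNh : N ^ (1 / 2 : ℝ) ≤ A'.s2 := by
    have a1 : N * N ^ (1 / 2 : ℝ) = N ^ (3 / 2 : ℝ) := by
      nth_rewrite 1 [← Real.rpow_one N]
      rw [← Real.rpow_add hN0]
      norm_num
    have a2 : 3 * N ^ (1 / 2 : ℝ) ≤ N * N ^ (1 / 2 : ℝ) := by gcongr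
    unfold Par.s2
    linarith [hv2.1]
  have hGG : ∀ y, A'.G y ≤ 2 * A.G y := by
    intro y
    refine E9.G_cmp hbe ?_ ?_ ?_ y
    · unfold Par.s2; linarith
    · unfold Par.s2; linarith [hv2.1, hv1.2]
    · linarith
  -- continuity
  have hb5 : A.be ≤ 1 / 10 ^ 4 := hA.hbe
  obtain ⟨-, -, -, -, hsc, -, -⟩ := hB A.be hbe0 hb5
  have hX : Continuous fun t : ℝ => A.X ∅ (om t) := (A.continuous_X ∅).comp continuous_om
  have hX' : Continuous fun t : ℝ => A'.X ∅ (om t) := (A'.continuous_X ∅).comp continuous_om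
  have hs1 : Continuous fun t : ℝ => st A.be V (A.X ∅ (om t)) := hsc.comp (continuous_const.prodMk hX)
  have hs2 : Continuous fun t : ℝ => st A.be V (A'.X ∅ (om t)) := hsc.comp (continuous_const.prodMk hX')
  have hs3 : Continuous fun t : ℝ => rem A.be (N ^ (1 / 2 : ℝ)) V (A.X ∅ (om t)) (A'.X ∅ (om t)) := by
    unfold rem
    refine Continuous.div_const ?_ _
    refine intervalIntegral.continuous_parametric_intervalIntegral_of_continuous' ?_ _ _
    refine Continuous.sub ?_ ?_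
    · exact hsc.comp ((continuous_const.add continuous_snd).prodMk (hX.comp continuous_fst))
    · exact hsc.comp ((continuous_const.add continuous_snd).prodMk (hX'.comp continuous_fst))
  set near : ℝ → ℝ := fun t => (∫ h in (N ^ (1 / 2 : ℝ))..(2 * N ^ (1 / 2 : ℝ)), ∫ y in V..(V + h),
    (HH A.be (1 / 20) y (A.X ∅ (om t)) - HH A.be (1 / 20) y (A'.X ∅ (om t)))) / N ^ (1 / 2 : ℝ) with hnear
  have hid : ∀ t : ℝ, st A.be V (A.X ∅ (om t)) - st A.be V (A'.X ∅ (om t))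
      = near t + rem A.be (N ^ (1 / 2 : ℝ)) V (A.X ∅ (om t)) (A'.X ∅ (om t)) := fun t =>
    (hI A.be (N ^ (1 / 2 : ℝ)) V (A.X ∅ (om t)) (A'.X ∅ (om t)) hbe0 hb5 hH1).1
  have hnc : Continuous near := by
    have : near = fun t => st A.be V (A.X ∅ (om t)) - st A.be V (A'.X ∅ (om t))
      - rem A.be (N ^ (1 / 2 : ℝ)) V (A.X ∅ (om t)) (A'.X ∅ (om t)) := by
      funext t
      linarith [hid t]
    rw [this]
    exact (hs1.sub hs2).sub hs3
  have hint : ∫ t in F, (st A.be V (A.X ∅ (om t)) - st A.be V (A'.X ∅ (om t))) ∂(un x T)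
      = (∫ t in F, near t ∂(un x T))
        + ∫ t in F, rem A.be (N ^ (1 / 2 : ℝ)) V (A.X ∅ (om t)) (A'.X ∅ (om t)) ∂(un x T) := by
    rw [← integral_add (int_on hT0 F hnc) (int_on hT0 F hs3)]
    exact integral_congr_ae (Eventually.of_forall hid)
  -- Gaussian side
  have hgi : ∀ W, IntegrableOn (gw A) (Ioi W) := fun W => (hG A hok hA.hb hb5 W).1
  have hgi' : ∀ W, IntegrableOn (gw A') (Ioi W) := fun W => (hG A' hok' hA'.hb hA'.hbe W).1
  have hgb : ∀ y, |gw A y| ≤ Cg * A.G y := (hG A hok hA.hb hb5 V).2.1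
  have hgb' : ∀ y, |gw A' y| ≤ Cg * A'.G y := (hG A' hok' hA'.hb hA'.hbe V).2.1
  have hgd : (∫ y in Ioi V, gw A y) - (∫ y in Ioi V, gw A' y)
      = (∫ h in (N ^ (1 / 2 : ℝ))..(2 * N ^ (1 / 2 : ℝ)), ∫ y in V..(V + h), (gw A y - gw A' y))
          / N ^ (1 / 2 : ℝ)
        + (∫ h in (N ^ (1 / 2 : ℝ))..(2 * N ^ (1 / 2 : ℝ)), ∫ y in Ioi (V + h), (gw A y - gw A' y))
          / N ^ (1 / 2 : ℝ) := by
    rw [← integral_sub (hgi V) (hgi' V)]
    exact gsplit (fun W => (hgi W).sub (hgi' W)) V hH0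
  -- the three parts
  have p1 := h2 A A' T N hA hA' hbe hN2' hT2' hNL x F hFm hFs hEv hEv' V
  have hpow1 : 1 / N ≤ N ^ (-(1 / 10) : ℝ) := by
    rw [one_div, ← Real.rpow_neg_one]
    exact Real.rpow_le_rpow_of_exponent_le hN1 (by norm_num)
  have hpow2 : N ^ (-(1 / 5) : ℝ) ≤ N ^ (-(1 / 10) : ℝ) :=
    Real.rpow_le_rpow_of_exponent_le hN1 (by norm_num)
  have hp0 : 0 ≤ N ^ (-(1 / 10) : ℝ) := by positivity
  have p2 : |∫ t in F, rem A.be (N ^ (1 / 2 : ℝ)) V (A.X ∅ (om t)) (A'.X ∅ (om t)) ∂(un x T)|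
      ≤ (C3 + C4) * N ^ (-(1 / 10) : ℝ) * A.G V := by
    rcases le_total (N ^ (-(1 / 4) : ℝ)) A.be with hc | hc
    · have a1 := h3 A A' T N hA hA' hbe hN3' hT3' hc hNL x F hFm hFs V
      have a2 : |∫ t in F, rem A.be (N ^ (1 / 2 : ℝ)) V (A.X ∅ (om t)) (A'.X ∅ (om t)) ∂(un x T)|
          ≤ ∫ t in F, |rem A.be (N ^ (1 / 2 : ℝ)) V (A.X ∅ (om t)) (A'.X ∅ (om t))| ∂(un x T) :=
        abs_integral_le_integral_abs
      refine (a2.trans a1).trans ?_
      have : C3 / N ≤ (C3 + C4) * N ^ (-(1 / 10) : ℝ) := by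
        calc C3 / N = C3 * (1 / N) := by ring
          _ ≤ C3 * N ^ (-(1 / 10) : ℝ) := by gcongr
          _ ≤ _ := by gcongr; linarith
      gcongr
    · have a1 := h4 A A' T N hA hA' hbe hN4' hT4' hc hNL x F hFm hFs hEv V
      refine a1.trans ?_
      have : C4 * N ^ (-(1 / 5) : ℝ) ≤ (C3 + C4) * N ^ (-(1 / 10) : ℝ) := by
        calc C4 * N ^ (-(1 / 5) : ℝ) ≤ C4 * N ^ (-(1 / 10) : ℝ) := by gcongr
          _ ≤ _ := by gcongr; linarith
      gcongr
  have p3 : |(∫ h in (N ^ (1 / 2 : ℝ))..(2 * N ^ (1 / 2 : ℝ)), ∫ y in Ioi (V + h), (gw A y - gw A' y))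
      / N ^ (1 / 2 : ℝ)| ≤ (60 * Cf * Cp + 6 * Cg) * N ^ (-(1 / 10) : ℝ) * A.G V := by
    refine avg_le hH0 fun h hh => ?_
    have hh0 : 0 ≤ h := by linarith [hh.1]
    rcases le_total (N ^ (-(1 / 4) : ℝ)) A.be with hc | hc
    · refine (far_G hok hN1 hCg hgb hgb' hGG hc hh.1).trans ?_
      have b0 : 0 ≤ 60 * Cf * Cp := by positivity
      have : 6 * Cg ≤ 60 * Cf * Cp + 6 * Cg := by linarith only [b0]
      gcongr
    · rw [integral_sub (hgi (V + h)) (hgi' (V + h))]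
      refine (hF A A' hok hok' hA.hb hA'.hb hbe hvv (V + h)).trans ?_
      have a1 : A.vt - A'.vt ≤ 10 * Cp * N ^ (3 / 20 : ℝ) := by
        refine hvd.trans ?_
        rw [Real.log_rpow hN0]
        have b1 := Real.log_le_rpow_div hN0.le (show (0 : ℝ) < 3 / 20 by norm_num)
        have b2 : N ^ (3 / 20 : ℝ) / (3 / 20) = 20 / 3 * N ^ (3 / 20 : ℝ) := by ring
        rw [b2] at b1
        calc Cp * (3 / 2 * Real.log N) ≤ Cp * (3 / 2 * (20 / 3 * N ^ (3 / 20 : ℝ))) := by gcongr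
          _ = _ := by ring
      have a2 : A.be + 1 / Real.sqrt A'.s2 ≤ 2 * N ^ (-(1 / 4) : ℝ) := by
        have b1 : N ^ (1 / 4 : ℝ) ≤ Real.sqrt A'.s2 := by
          refine Real.le_sqrt_of_sq_le ?_
          rw [← Real.rpow_natCast, ← Real.rpow_mul hN0.le]
          norm_num
          exact hNh
        have b2 : 1 / Real.sqrt A'.s2 ≤ N ^ (-(1 / 4) : ℝ) := by
          rw [Real.rpow_neg hN0.le, ← one_div]
          have : 0 < N ^ (1 / 4 : ℝ) := by positivity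
          gcongr
        linarith
      have a3 : A.G (V + h) + A'.G (V + h) ≤ 3 * A.G V := by
        have b1 := hGG (V + h)
        have b2 : A.G (V + h) ≤ A.G V := by
          rw [A.G_shift (V + h) V]
          refine mul_le_of_le_one_right hG0 ?_
          rw [Real.exp_le_one_iff]
          have b3 : 0 ≤ A.be * h := mul_nonneg hbe0.le hh0
          have b4 : A.be * (V + h - V) = A.be * h := by ring
          linarith only [b3, b4]
        linarith
      have a4 : 0 ≤ A.vt - A'.vt := by linarith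
      have a5 : 0 ≤ A.be + 1 / Real.sqrt A'.s2 := by positivity
      have a6 : 0 ≤ A.G (V + h) + A'.G (V + h) := by
        have b1 := hok.G_pos (V + h)
        have b2 := hok'.G_pos (V + h)
        linarith only [b1, b2]
      have a7 : N ^ (3 / 20 : ℝ) * N ^ (-(1 / 4) : ℝ) = N ^ (-(1 / 10) : ℝ) := by
        rw [← Real.rpow_add hN0]; norm_num
      calc Cf * (A.vt - A'.vt) * (A.be + 1 / Real.sqrt A'.s2) * (A.G (V + h) + A'.G (V + h))
          ≤ Cf * (10 * Cp * N ^ (3 / 20 : ℝ)) * (2 * N ^ (-(1 / 4) : ℝ)) * (3 * A.G V) := by gcongr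
        _ = 60 * Cf * Cp * (N ^ (3 / 20 : ℝ) * N ^ (-(1 / 4) : ℝ)) * A.G V := by ring
        _ = 60 * Cf * Cp * N ^ (-(1 / 10) : ℝ) * A.G V := by rw [a7]
        _ ≤ _ := by
            have : 60 * Cf * Cp ≤ 60 * Cf * Cp + 6 * Cg := by linarith
            gcongr
  rw [hint, hgd]
  have p1' : |(∫ t in F, near t ∂(un x T))
      - (∫ h in (N ^ (1 / 2 : ℝ))..(2 * N ^ (1 / 2 : ℝ)), ∫ y in V..(V + h), (gw A y - gw A' y))
        / N ^ (1 / 2 : ℝ)| ≤ C2 * N ^ (-(1 / 10) : ℝ) * A.G V := by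
    refine p1.trans ?_
    have : C2 / N ≤ C2 * N ^ (-(1 / 10) : ℝ) := by
      calc C2 / N = C2 * (1 / N) := by ring
        _ ≤ _ := by gcongr
    gcongr
  have q1 := abs_le.1 p1'
  have q2 := abs_le.1 p2
  have q3 := abs_le.1 p3
  have hsum : (C2 + C3 + C4 + 60 * Cf * Cp + 6 * Cg) * N ^ (-(1 / 10) : ℝ) * A.G V
      = C2 * N ^ (-(1 / 10) : ℝ) * A.G V + (C3 + C4) * N ^ (-(1 / 10) : ℝ) * A.G V
        + (60 * Cf * Cp + 6 * Cg) * N ^ (-(1 / 10) : ℝ) * A.G V := by ring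
  rw [hsum, abs_le]
  constructor
  · linarith [q1.1, q2.1, q3.2]
  · linarith [q1.2, q2.2, q3.1]

end Pool.Agent.Lib.RA
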