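import Mathlib
import Pool.Agent.Lib.MP_f9aece_nt_rate.Stmts
import Pool.Agent.Lib.MP_f9aece_nt_gt.Cont

/-!
The rate in the central limit theorem for `log |zeta|`: module D1, numbers and exceptional sets of a
chain of levels.
-/

set_option autoImplicit false

namespace Pool.Agent.Lib.RA

open MeasureTheory Set Filter Topology Complex ProbabilityTheory
open scoped ComplexConjugate
open Pool.Agent.Lib.GT
open Pool.Agent.Lib.LC
open Pool.Agent.Lib.LC.E9 (NN)

namespace D1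

lemma meas_good (A : Par) : MeasurableSet {t : ℝ | A.Good ∅ (om t)} := by
  have h : {t : ℝ | A.Good ∅ (om t)}
      = ⋂ g ∈ Finset.range A.J \ ∅, {t : ℝ | ‖A.P g (om t)‖ ≤ RR (A.r g)} := by
    ext t
    simp only [Par.Good, mem_iInter, Set.mem_ofPred_eq]
  rw [h]
  refine Finset.measurableSet_biInter _ fun g _ => ?_
  exact measurableSet_le (((A.continuous_P g).comp continuous_om).norm.measurable) measurable_const

lemma meas_gd (A : ℕ → Par) (m i : ℕ) : MeasurableSet (Gd A m i) := by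
  have h : Gd A m i = ⋂ j ∈ Finset.Icc i m, {t : ℝ | (A j).Good ∅ (om t)} := by
    ext t
    simp only [Gd, mem_iInter, Set.mem_ofPred_eq, Finset.mem_Icc, and_imp]
  rw [h]
  exact Finset.measurableSet_biInter _ fun j _ => meas_good (A j)

lemma meas_lv (A : ℕ → Par) (m i : ℕ) : MeasurableSet (Lv A m i) := by
  have h : Lv A m i = Gd A m i ∩ ⋂ k : ℕ, ⋂ (_ : k + 1 = i), {t : ℝ | (A k).Good ∅ (om t)}ᶜ := by
    ext t
    simp only [Lv, mem_iInter, Set.mem_ofPred_eq, mem_inter_iff, mem_compl_iff]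
  rw [h]
  exact (meas_gd A m i).inter (MeasurableSet.iInter fun k => MeasurableSet.iInter fun _ =>
    (meas_good (A k)).compl)

lemma lint_biUnion (μ : Measure ℝ) (f : ℝ → ENNReal) (S : ℕ → Set ℝ) (s : Finset ℕ) :
    ∫⁻ t in ⋃ j ∈ s, S j, f t ∂μ ≤ ∑ j ∈ s, ∫⁻ t in S j, f t ∂μ := by
  classical
  induction s using Finset.induction_on with
  | empty => simp
  | insert a s ha ih =>
    rw [Finset.set_biUnion_insert, Finset.sum_insert ha]
    exact (lintegral_union_le f _ _).trans (add_le_add le_rfl ih)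

lemma NN_add {N : ℝ} (hN : 0 ≤ N) (i k : ℕ) : NN N (i + k) = NN (NN N i) k := by
  unfold E9.NN
  rw [← Real.rpow_mul hN, pow_add]

/-- the sum of the exceptional numbers -/
lemma sum_exc {N C : ℝ} (hN : 256 ≤ N) (hC : 1 ≤ C) (hNC : 2 * C ≤ N) (v : ℕ → ℕ) (i m : ℕ)
    (hv : ∀ j, i ≤ j → j ≤ m → 5 * Real.log (NN N j) ≤ v j) :
    ∑ j ∈ Finset.Ico i (m + 1), C * Real.exp (-(v j : ℝ)) ≤ NN N i ^ (-(4 : ℝ)) := by
  have h0 : 0 < N := by linarith
  have hNi : N ≤ NN N i := by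
    have := E9.NN_ge hN i
    have h16 : (1 : ℝ) ≤ 16 ^ i := one_le_pow₀ (by norm_num)
    nlinarith
  have hi0 : 0 < NN N i := h0.trans_le hNi
  have hterm : ∀ j ∈ Finset.Ico i (m + 1), C * Real.exp (-(v j : ℝ))
      ≤ C * NN N i ^ (-(5 : ℝ)) * (1 / 2) ^ (j - i) := by
    intro j hj
    obtain ⟨h1, h2⟩ := Finset.mem_Ico.1 hj
    have h3 := hv j h1 (by omega)
    obtain ⟨k, rfl⟩ := Nat.exists_eq_add_of_le h1
    have h4 : NN N i * 16 ^ k ≤ NN N (i + k) := by
      rw [NN_add h0.le]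
      exact E9.NN_ge (hN.trans hNi) k
    have h5 : 0 < NN N i * 16 ^ k := by positivity
    have h6 : 0 < NN N (i + k) := h5.trans_le h4
    have h7 : Real.exp (-(v (i + k) : ℝ)) ≤ (NN N i * 16 ^ k) ^ (-(5 : ℝ)) := by
      have h8 : Real.exp (-(v (i + k) : ℝ)) ≤ NN N (i + k) ^ (-(5 : ℝ)) := by
        rw [Real.rpow_def_of_pos h6]
        refine Real.exp_le_exp.2 ?_
        linarith
      exact h8.trans (Real.rpow_le_rpow_of_nonpos h5 h4 (by norm_num))
    have h9 : (NN N i * 16 ^ k) ^ (-(5 : ℝ)) ≤ NN N i ^ (-(5 : ℝ)) * (1 / 2) ^ k := by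
      rw [Real.mul_rpow hi0.le (by positivity)]
      refine mul_le_mul_of_nonneg_left ?_ (by positivity)
      have e1 : ((16 : ℝ) ^ k) ^ (-(5 : ℝ)) = ((16 : ℝ) ^ (-(5 : ℝ))) ^ k := by
        rw [← Real.rpow_natCast, ← Real.rpow_mul (by norm_num), mul_comm, Real.rpow_mul (by norm_num),
          Real.rpow_natCast]
      rw [e1]
      refine pow_le_pow_left₀ (by positivity) ?_ k
      have e2 : (16 : ℝ) ^ (-(5 : ℝ)) = ((16 : ℝ) ^ 5)⁻¹ := by
        rw [Real.rpow_neg (by norm_num)]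
        norm_num
      rw [e2]
      norm_num
    have e : i + k - i = k := by omega
    rw [e]
    calc C * Real.exp (-(v (i + k) : ℝ)) ≤ C * (NN N i ^ (-(5 : ℝ)) * (1 / 2) ^ k) :=
          mul_le_mul_of_nonneg_left (h7.trans h9) (by linarith)
      _ = _ := by ring
  have hgeo : ∀ n : ℕ, ∑ j ∈ Finset.range n, (1 / 2 : ℝ) ^ j ≤ 2 := by
    intro n
    have h : ∑ j ∈ Finset.range n, (1 / 2 : ℝ) ^ j = 2 - 2 * (1 / 2) ^ n := by
      induction n with
      | zero => simp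
      | succ n ih =>
        rw [Finset.sum_range_succ, ih, pow_succ]
        ring
    rw [h]
    have : (0 : ℝ) ≤ (1 / 2) ^ n := by positivity
    linarith
  have hsum : ∑ j ∈ Finset.Ico i (m + 1), (1 / 2 : ℝ) ^ (j - i) ≤ 2 := by
    rw [Finset.sum_Ico_eq_sum_range]
    have : ∀ k ∈ Finset.range (m + 1 - i), (1 / 2 : ℝ) ^ (i + k - i) = (1 / 2) ^ k := by
      intro k _
      rw [show i + k - i = k by omega]
    rw [Finset.sum_congr rfl this]
    exact hgeo _
  calc ∑ j ∈ Finset.Ico i (m + 1), C * Real.exp (-(v j : ℝ))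
      ≤ ∑ j ∈ Finset.Ico i (m + 1), C * NN N i ^ (-(5 : ℝ)) * (1 / 2) ^ (j - i) :=
        Finset.sum_le_sum hterm
    _ = C * NN N i ^ (-(5 : ℝ)) * ∑ j ∈ Finset.Ico i (m + 1), (1 / 2 : ℝ) ^ (j - i) := by
        rw [Finset.mul_sum]
    _ ≤ C * NN N i ^ (-(5 : ℝ)) * 2 := by gcongr
    _ = (2 * C) * NN N i ^ (-(5 : ℝ)) := by ring
    _ ≤ NN N i * NN N i ^ (-(5 : ℝ)) := by
        refine mul_le_mul_of_nonneg_right (hNC.trans hNi) (by positivity)
    _ = NN N i ^ (-(4 : ℝ)) := by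
        have : NN N i * NN N i ^ (-(5 : ℝ)) = NN N i ^ (1 : ℝ) * NN N i ^ (-(5 : ℝ)) := by
          rw [Real.rpow_one]
        rw [this, ← Real.rpow_add hi0]
        norm_num

end D1

open D1

/-- D1 -/
theorem chainNum (hC : CrossBad) (hS : LC.SpecNum) (hP : SpecPair) : ChainNum := by
  obtain ⟨C1, T1, hC1, hT1, H1⟩ := hC
  obtain ⟨C2, N2, hC2, hN2, H2⟩ := hS
  obtain ⟨C3, N3, hC3, hN3, H3⟩ := hP
  refine ⟨max 256 (max (2 * C1) (max N2 N3)), (by norm_num : (1 : ℝ) ≤ 256).trans (le_max_left _ _),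
    fun N hN => ?_⟩
  have hN256 : 256 ≤ N := (le_max_left _ _).trans hN
  have hN' := (le_max_right _ _).trans hN
  have hNC : 2 * C1 ≤ N := (le_max_left _ _).trans hN'
  have hN' := (le_max_right _ _).trans hN'
  have hNN2 : N2 ≤ N := (le_max_left _ _).trans hN'
  have hNN3 : N3 ≤ N := (le_max_right _ _).trans hN'
  have hN0 : 0 < N := by linarith
  have hN1 : (1 : ℝ) ≤ N := by linarith
  set lm : ℝ := 64 * C2 ^ 2 with hlm
  refine ⟨max T1 (Real.exp (Real.exp lm)), hT1.trans (le_max_left _ _), ?_⟩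
  intro A T m hCh hT0
  have hTT1 : T1 ≤ T := (le_max_left _ _).trans hT0
  have hTe : Real.exp (Real.exp lm) ≤ T := (le_max_right _ _).trans hT0
  have hTp : 0 < T := (Real.exp_pos _).trans_le hTe
  have hLe : Real.exp lm ≤ Real.log T := (Real.le_log_iff_exp_le hTp).2 hTe
  have hLp : 0 < Real.log T := (Real.exp_pos _).trans_le hLe
  have hle : lm ≤ Real.log (Real.log T) := (Real.le_log_iff_exp_le hLp).2 hLe
  have hNge : ∀ j, N ≤ NN N j := fun j => by
    have := E9.NN_ge hN256 j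
    have h16 : (1 : ℝ) ≤ 16 ^ j := one_le_pow₀ (by norm_num)
    nlinarith
  have hmono : Monotone (NN N) := by
    refine monotone_nat_of_le_succ fun j => ?_
    rw [E9.NN_succ hN0.le]
    calc NN N j = NN N j ^ (1 : ℝ) := (Real.rpow_one _).symm
      _ ≤ NN N j ^ (3 / 2 : ℝ) :=
          Real.rpow_le_rpow_of_exponent_le (hN1.trans (hNge j)) (by norm_num)
  have hNl : ∀ j, j ≤ m → NN N j ≤ Real.log (Real.log T) := fun j hj => (hmono hj).trans hCh.size
  have hLen : ∀ j, j ≤ m → Len (A j) T := fun j hj =>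
    (H2 (A j) T (NN N j) (hCh.spec j hj) (hNN2.trans (hNge j))).1
  -- the exceptional sets
  have hbad : ∀ B : Par, B.Ok → Len B T → ∀ i, i ≤ m → ∀ x y : ℝ,
      ∫⁻ t in (Gd A m i)ᶜ, ENNReal.ofReal (B.W ∅ y (om t)) ∂(un x T)
        ≤ ENNReal.ofReal (NN N i ^ (-(4 : ℝ)) * B.G y) := by
    intro B hB hBL i hi x y
    have hsub : (Gd A m i)ᶜ ⊆ ⋃ j ∈ Finset.Ico i (m + 1), {t : ℝ | ¬ (A j).Good ∅ (om t)} := by
      intro t ht
      simp only [Gd, mem_compl_iff, Set.mem_ofPred_eq] at ht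
      push Not at ht
      obtain ⟨j, h1, h2, h3⟩ := ht
      simp only [mem_iUnion, Set.mem_ofPred_eq, Finset.mem_Ico]
      exact ⟨j, ⟨h1, by omega⟩, h3⟩
    have hG := (hB.G_pos y).le
    calc ∫⁻ t in (Gd A m i)ᶜ, ENNReal.ofReal (B.W ∅ y (om t)) ∂(un x T)
        ≤ ∫⁻ t in ⋃ j ∈ Finset.Ico i (m + 1), {t : ℝ | ¬ (A j).Good ∅ (om t)},
            ENNReal.ofReal (B.W ∅ y (om t)) ∂(un x T) := lintegral_mono_set hsub
      _ ≤ ∑ j ∈ Finset.Ico i (m + 1), ∫⁻ t in {t : ℝ | ¬ (A j).Good ∅ (om t)},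
            ENNReal.ofReal (B.W ∅ y (om t)) ∂(un x T) := lint_biUnion _ _ _ _
      _ ≤ ∑ j ∈ Finset.Ico i (m + 1), ENNReal.ofReal (C1 * Real.exp (-((A j).v : ℝ)) * B.G y) := by
          refine Finset.sum_le_sum fun j hj => ?_
          have hj := Finset.mem_Ico.1 hj
          exact H1 B (A j) hB (hCh.spec j (by omega)).ok T hTT1 hBL (hLen j (by omega)) x y
      _ = ENNReal.ofReal (∑ j ∈ Finset.Ico i (m + 1), C1 * Real.exp (-((A j).v : ℝ)) * B.G y) := by
          rw [ENNReal.ofReal_sum_of_nonneg]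
          intro j _
          positivity
      _ ≤ ENNReal.ofReal (NN N i ^ (-(4 : ℝ)) * B.G y) := by
          refine ENNReal.ofReal_le_ofReal ?_
          rw [← Finset.sum_mul]
          refine mul_le_mul_of_nonneg_right ?_ hG
          exact sum_exc hN256 hC1 hNC (fun j => (A j).v) i m fun j h1 h2 => (hCh.spec j h2).hv1
  refine ⟨fun i => ⟨meas_gd A m i, meas_lv A m i⟩, ?_, ?_, ?_, ?_⟩
  · -- the sizes of the windows
    set l : ℝ := Real.log (Real.log T) with hl
    have hl0 : 0 < l := hN0.trans_le ((hNge 0).trans (hNl 0 (Nat.zero_le m)))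
    have hvl : ∀ j, j ≤ m → |(A j).vt - l| ≤ l / 8 := by
      intro j hj
      have h1 := (H2 (A j) T (NN N j) (hCh.spec j hj) (hNN2.trans (hNge j))).2.2.2.2.2.2.2.2
      refine h1.trans ?_
      have h2 : NN N j ^ (1 / 2 : ℝ) ≤ Real.sqrt l := by
        rw [Real.sqrt_eq_rpow]
        exact Real.rpow_le_rpow (hN0.le.trans (hNge j)) (hNl j hj) (by norm_num)
      have h3 : 8 * C2 ≤ Real.sqrt l := by
        refine Real.le_sqrt_of_sq_le ?_
        have : (8 * C2) ^ 2 = lm := by rw [hlm]; ring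
        rw [this]
        exact hle
      have h4 : Real.sqrt l * Real.sqrt l = l := Real.mul_self_sqrt hl0.le
      have h5 : 0 ≤ Real.sqrt l := Real.sqrt_nonneg l
      calc C2 * NN N j ^ (1 / 2 : ℝ) ≤ C2 * Real.sqrt l := by gcongr
        _ ≤ Real.sqrt l / 8 * Real.sqrt l := by
            have : C2 ≤ Real.sqrt l / 8 := by linarith
            exact mul_le_mul_of_nonneg_right this h5
        _ = l / 8 := by rw [div_mul_eq_mul_div, h4]
    have hvt : ∀ j, j ≤ m → (A j).vt ≤ (A 0).vt := by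
      intro j hj
      rcases Nat.eq_zero_or_pos j with rfl | hj0
      · exact le_rfl
      · refine (H3 (A 0) (A j) T (NN N 0) (NN N j) (hCh.spec 0 (Nat.zero_le m)) (hCh.spec j hj)
          (hNN3.trans (hNge 0)) ?_).1
        have := hmono (show 1 ≤ j from hj0)
        rwa [← E9.NN_succ hN0.le]
    intro i hi y
    have hG0 := ((hCh.spec i hi).ok.G_pos y).le
    refine ⟨hG0, ?_⟩
    have h1 := abs_le.1 (hvl i hi)
    have h0 := abs_le.1 (hvl 0 (Nat.zero_le m))
    refine E9.G_cmp (hCh.be i hi) ?_ ?_ ?_ y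
    · unfold Par.s2
      linarith [hvt i hi]
    · unfold Par.s2
      linarith [h1.1, h0.2]
    · unfold Par.s2
      linarith [h1.1]
  · intro i hi x y
    exact hbad (A i) (hCh.spec i hi).ok (hLen i hi) i hi x y
  · intro i hi x y
    exact hbad (A (i + 1)) (hCh.spec (i + 1) hi).ok (hLen (i + 1) hi) i (by omega) x y
  · intro i hi x y
    refine le_trans (lintegral_mono_set ?_)
      (hbad (A (i + 1)) (hCh.spec (i + 1) hi).ok (hLen (i + 1) hi) i (by omega) x y)
    intro t ht hg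
    exact ht.2 i rfl (hg i le_rfl (by omega))

end Pool.Agent.Lib.RA
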