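import Mathlib
import Pool.Agent.Lib.MP_f9aece_nt_rate.Stmts
import Pool.Agent.Lib.MP_f9aece_nt_gt.Cont

/-!
The rate in the central limit theorem for `log |zeta|`: module D3, the smooth step and the first good
level.
-/

set_option autoImplicit false

namespace Pool.Agent.Lib.RA

open MeasureTheory Set Filter Topology Complex ProbabilityTheory
open scoped ComplexConjugate
open Pool.Agent.Lib.GT
open Pool.Agent.Lib.LC
open Pool.Agent.Lib.LC.E9 (NN)

namespace D3x

lemma X_bdd (A : Par) (s : Finset ℕ) : ∃ B : ℝ, ∀ x, |A.X s x| ≤ B := by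
  refine ⟨∑ g ∈ Finset.range A.J \ s, ∑ p ∈ A.S g, ‖(A.h p : ℂ)‖, fun x => ?_⟩
  unfold Par.X
  refine (Finset.abs_sum_le_sum_abs _ _).trans (Finset.sum_le_sum fun g _ => ?_)
  exact (Complex.abs_re_le_norm _).trans (norm_lin_le _ _ _)

/-- a continuous function of the prime sum is integrable -/
lemma int_X {μ : Measure ℝ} [IsFiniteMeasure μ] (A : Par) {f : ℝ → ℝ} (hf : Continuous f) :
    Integrable (fun t => f (A.X ∅ (om t))) μ := by
  obtain ⟨B, hB⟩ := X_bdd A ∅
  obtain ⟨K, hK⟩ := (isCompact_Icc (a := -B) (b := B)).exists_bound_of_continuousOn hf.continuousOn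
  have hc : Continuous fun t => f (A.X ∅ (om t)) := hf.comp ((A.continuous_X ∅).comp continuous_om)
  refine Integrable.of_bound hc.aestronglyMeasurable K (Filter.Eventually.of_forall fun t => ?_)
  exact hK _ (abs_le.1 (hB _))

lemma Lv_zero (A : ℕ → Par) (m : ℕ) : Lv A m 0 = Gd A m 0 := by
  ext t
  unfold Lv
  simp only [mem_ofPred_eq]
  constructor
  · exact fun h => h.1
  · exact fun h => ⟨h, fun k hk => absurd hk (by omega)⟩

lemma Lv_succ (A : ℕ → Par) {m i : ℕ} (hi : i ≤ m) : Lv A m (i + 1) = Gd A m (i + 1) \ Gd A m i := by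
  ext t
  unfold Lv
  simp only [mem_ofPred_eq, Set.mem_sdiff]
  constructor
  · rintro ⟨h1, h2⟩
    refine ⟨h1, fun h3 => ?_⟩
    exact h2 i rfl (h3 i le_rfl hi)
  · rintro ⟨h1, h2⟩
    refine ⟨h1, fun k hk hg => h2 ?_⟩
    have hk' : k = i := by omega
    subst hk'
    intro j hj hjm
    rcases Nat.eq_or_lt_of_le hj with h | h
    · rw [← h]
      exact hg
    · exact h1 j h hjm

lemma Gd_mono (A : ℕ → Par) (m i : ℕ) : Gd A m i ⊆ Gd A m (i + 1) := by
  intro t ht j hj hjm
  exact ht j (by omega) hjm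

/-- summation by parts over the levels -/
lemma tele {μ : Measure ℝ} (A : ℕ → Par) {m : ℕ} (f : ℕ → ℝ → ℝ) (hf : ∀ i, Integrable (f i) μ)
    (hm : ∀ i, MeasurableSet (Gd A m i)) : ∀ n, n ≤ m →
    ∑ i ∈ Finset.range (n + 1), ∫ t in Lv A m i, f i t ∂μ
      = (∫ t in Gd A m n, f n t ∂μ)
        + ∑ i ∈ Finset.range n, ∫ t in Gd A m i, (f i t - f (i + 1) t) ∂μ := by
  intro n
  induction n with
  | zero =>
    intro _
    simp [Lv_zero]
  | succ n ih =>
    intro hn
    rw [Finset.sum_range_succ, ih (by omega), Finset.sum_range_succ]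
    have h1 : ∫ t in Lv A m (n + 1), f (n + 1) t ∂μ
        = (∫ t in Gd A m (n + 1), f (n + 1) t ∂μ) - ∫ t in Gd A m n, f (n + 1) t ∂μ := by
      rw [Lv_succ A (by omega : n ≤ m)]
      rw [setIntegral_sdiff (hm n) (hf (n + 1)).integrableOn (Gd_mono A m n)]
    have h2 : ∫ t in Gd A m n, (f n t - f (n + 1) t) ∂μ
        = (∫ t in Gd A m n, f n t ∂μ) - ∫ t in Gd A m n, f (n + 1) t ∂μ :=
      integral_sub (hf n).integrableOn (hf (n + 1)).integrableOn
    rw [h1, h2]
    ring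

lemma int_G (A : Par) (hbe : 0 < A.be) (V : ℝ) :
    IntegrableOn (fun y => A.G y) (Ioi V) ∧ ∫ y in Ioi V, A.G y = A.G V / A.be := by
  obtain ⟨c, hc⟩ : ∃ c, c = A.G V * Real.exp (A.be * V) := ⟨_, rfl⟩
  have e : ∀ y, A.G y = c * Real.exp (-A.be * y) := by
    intro y
    rw [hc, A.G_shift y V, mul_assoc, ← Real.exp_add]
    congr 2
    ring
  have h1 : IntegrableOn (fun y => Real.exp (-A.be * y)) (Ioi V) :=
    integrableOn_exp_mul_Ioi (by linarith) V
  constructor
  · simp_rw [e]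
    exact h1.const_mul _
  · simp_rw [e]
    rw [integral_const_mul, integral_exp_mul_Ioi (by linarith : -A.be < 0) V]
    field_simp

/-- exchange of the integrals -/
lemma fub (hB : StepBasic) {A : Par} (hbe : 0 < A.be) (hbe1 : A.be ≤ 1 / 10 ^ 4) {μ : Measure ℝ}
    [IsFiniteMeasure μ] (F : Set ℝ) (V : ℝ) :
    IntegrableOn (fun y => ∫ t in F, HH A.be (1 / 20) y (A.X ∅ (om t)) ∂μ) (Ioi V) ∧
    ∫ t in F, st A.be V (A.X ∅ (om t)) ∂μ
      = ∫ y in Ioi V, ∫ t in F, HH A.be (1 / 20) y (A.X ∅ (om t)) ∂μ := by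
  obtain ⟨hc, h0, hi, hs0, hsc, -, -⟩ := hB A.be hbe hbe1
  have hX : Continuous fun t => A.X ∅ (om t) := (A.continuous_X ∅).comp continuous_om
  have hcc : Continuous (fun p : ℝ × ℝ => HH A.be (1 / 20) p.2 (A.X ∅ (om p.1))) := by
    have h1 : Continuous fun p : ℝ × ℝ => (p.2, A.X ∅ (om p.1)) :=
      continuous_snd.prodMk (hX.comp continuous_fst)
    exact hc.comp h1
  have hst : Continuous fun u => st A.be V u := by
    have h1 : Continuous fun u : ℝ => (V, u) := by fun_prop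
    exact hsc.comp h1
  have hint : Integrable (fun p : ℝ × ℝ => HH A.be (1 / 20) p.2 (A.X ∅ (om p.1)))
      ((μ.restrict F).prod (volume.restrict (Ioi V))) := by
    rw [integrable_prod_iff hcc.aestronglyMeasurable]
    constructor
    · exact Filter.Eventually.of_forall fun t => hi V (A.X ∅ (om t))
    · have e : ∀ t, ∫ y in Ioi V, ‖HH A.be (1 / 20) y (A.X ∅ (om t))‖ = st A.be V (A.X ∅ (om t)) := by
        intro t
        unfold st
        refine integral_congr_ae (Filter.Eventually.of_forall fun y => ?_)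
        exact Real.norm_of_nonneg (h0 _ _)
      simp only [e]
      exact (int_X A hst)
  constructor
  · exact hint.integral_prod_right
  · unfold st
    exact integral_integral_swap (f := fun t y => HH A.be (1 / 20) y (A.X ∅ (om t))) hint

lemma geo (n : ℕ) : ∑ j ∈ Finset.range n, (1 / 2 : ℝ) ^ j ≤ 2 := by
  have h : ∑ j ∈ Finset.range n, (1 / 2 : ℝ) ^ j = 2 - 2 * (1 / 2) ^ n := by
    induction n with
    | zero => simp
    | succ n ih =>
      rw [Finset.sum_range_succ, ih, pow_succ]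
      ring
  rw [h]
  have : (0 : ℝ) ≤ (1 / 2) ^ n := by positivity
  linarith

lemma NN_pow {N : ℝ} (hN : 2 ^ 20 ≤ N) (j : ℕ) : NN N j ^ (-(1 / 10) : ℝ) ≤ (1 / 2) ^ j := by
  have h0 : 0 < N := by
    have : (0 : ℝ) < 2 ^ 20 := by positivity
    linarith
  have h1 : (1 : ℝ) ≤ N := by
    have : (1 : ℝ) ≤ 2 ^ 20 := by norm_num
    linarith
  have h2 : (N ^ (1 / 20 : ℝ)) ^ j ≤ NN N j ^ (1 / 10 : ℝ) := by
    unfold NN
    rw [← Real.rpow_natCast, ← Real.rpow_mul h0.le, ← Real.rpow_mul h0.le]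
    refine Real.rpow_le_rpow_of_exponent_le h1 ?_
    have := E9.bern j
    have hj : (0 : ℝ) ≤ j := Nat.cast_nonneg j
    linarith
  have h3 : (2 : ℝ) ≤ N ^ (1 / 20 : ℝ) := by
    have e : (2 : ℝ) = (2 ^ 20) ^ (1 / 20 : ℝ) := by
      rw [← Real.rpow_natCast, ← Real.rpow_mul (by norm_num)]
      norm_num
    calc (2 : ℝ) = (2 ^ 20) ^ (1 / 20 : ℝ) := e
      _ ≤ N ^ (1 / 20 : ℝ) := Real.rpow_le_rpow (by norm_num) hN (by norm_num)
  have h4 : (2 : ℝ) ^ j ≤ NN N j ^ (1 / 10 : ℝ) :=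
    (pow_le_pow_left₀ (by norm_num) h3 j).trans h2
  have h5 : 0 < NN N j := by
    unfold NN
    positivity
  rw [Real.rpow_neg h5.le, one_div_pow, ← one_div (NN N j ^ (1 / 10 : ℝ))]
  exact one_div_le_one_div_of_le (by positivity) h4

lemma NN_mono {N : ℝ} (hN : 1 ≤ N) : Monotone (NN N) := by
  refine monotone_nat_of_le_succ fun j => ?_
  unfold NN
  refine Real.rpow_le_rpow_of_exponent_le hN ?_
  exact pow_le_pow_right₀ (by norm_num) (Nat.le_succ j)

end D3x

open D3x in
/-- D3: the smooth step and the first good level -/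
theorem xTel (hC : ChainNum) (h5 : StepPsi) (hM : WinMain) (_hU : WinUp) (_hE : WMean) (hB : StepBasic)
    (hG : StepGauss) (hS : LC.SpecNum) : XTel := by
  obtain ⟨N1, hN1, hC⟩ := hC
  obtain ⟨C5, N5, T5, hC5, hN5, hT5, h5⟩ := h5
  obtain ⟨CM, TM, v0, hCM, hTM, hM⟩ := hM
  obtain ⟨CG, hCG, hG⟩ := hG
  obtain ⟨CS, NS, hCS, hNS, hS⟩ := hS
  refine ⟨4 * C5 + 8 * CM, max (max N1 N5) (max (max NS (Real.exp v0)) (2 ^ 20)), ?_, ?_, ?_⟩
  · linarith
  · exact hN1.trans ((le_max_left _ _).trans (le_max_left _ _))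
  intro N hN
  have hNa : N1 ≤ N := ((le_max_left _ _).trans (le_max_left _ _)).trans hN
  have hNb : N5 ≤ N := ((le_max_right _ _).trans (le_max_left _ _)).trans hN
  have hNc : NS ≤ N := (((le_max_left _ _).trans (le_max_left _ _)).trans (le_max_right _ _)).trans hN
  have hNd : Real.exp v0 ≤ N :=
    (((le_max_right _ _).trans (le_max_left _ _)).trans (le_max_right _ _)).trans hN
  have hNe : 2 ^ 20 ≤ N := ((le_max_right _ _).trans (le_max_right _ _)).trans hN
  obtain ⟨T1, hT1, hC⟩ := hC N hNa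
  refine ⟨max T1 (max T5 TM), hT1.trans (le_max_left _ _), ?_⟩
  intro A T m hch hT x V
  have hTa : T1 ≤ T := (le_max_left _ _).trans hT
  have hTb : T5 ≤ T := ((le_max_left _ _).trans (le_max_right _ _)).trans hT
  have hTc : TM ≤ T := ((le_max_right _ _).trans (le_max_right _ _)).trans hT
  have hTpos : 0 < T := by linarith
  have hpr : IsProbabilityMeasure (un x T) := prob_un x hTpos
  obtain ⟨hmeas, hGc, hEv, hEv', -⟩ := hC A T m hch hTa
  have hN0 : 1 ≤ N := hN1.trans hNa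
  have hmono := NN_mono hN0
  have hNNge : ∀ j, N ≤ NN N j := fun j => by
    have := hmono (Nat.zero_le j)
    rwa [E9.NN_zero] at this
  have hbe0 : 0 < (A 0).be := (hch.spec 0 (Nat.zero_le _)).ok.hbe
  have hbe1 : (A 0).be ≤ 1 / 10 ^ 4 := (hch.spec 0 (Nat.zero_le _)).hbe
  -- continuity of the smooth step
  have hst : Continuous fun u => st (A 0).be V u := by
    obtain ⟨-, -, -, -, hsc, -, -⟩ := hB (A 0).be hbe0 hbe1
    have h1 : Continuous fun u : ℝ => (V, u) := by fun_prop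
    exact hsc.comp h1
  -- telescoping
  have htel := tele (μ := un x T) A (m := m) (fun i t => st (A 0).be V ((A i).X ∅ (om t)))
    (fun i => int_X (A i) hst) (fun i => (hmeas i).1) m le_rfl
  rw [htel]
  -- the terms
  have hterm : ∀ i ∈ Finset.range m,
      |(∫ t in Gd A m i, (st (A 0).be V ((A i).X ∅ (om t)) - st (A 0).be V ((A (i + 1)).X ∅ (om t)))
          ∂(un x T)) - ((∫ y in Ioi V, gw (A i) y) - ∫ y in Ioi V, gw (A (i + 1)) y)|
        ≤ 2 * C5 * (1 / 2) ^ i * (A 0).G V := by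
    intro i hi
    have hi' : i < m := Finset.mem_range.1 hi
    have hs1 := hch.spec i hi'.le
    have hs2 := hch.spec (i + 1) hi'
    rw [E9.NN_succ (by linarith)] at hs2
    have hb1 := hch.be i hi'.le
    have hb2 := hch.be (i + 1) hi'
    have hsz : NN N i ^ (3 / 2 : ℝ) ≤ Real.log (Real.log T) := by
      rw [← E9.NN_succ (by linarith)]
      exact (hmono hi').trans hch.size
    have hsub : Gd A m i ⊆ {t | (A i).Good ∅ (om t) ∧ (A (i + 1)).Good ∅ (om t)} := by
      intro t ht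
      exact ⟨ht i le_rfl hi'.le, ht (i + 1) (by omega) hi'⟩
    have h := h5 (A i) (A (i + 1)) T (NN N i) hs1 hs2 (by rw [hb1, hb2]) (hNb.trans (hNNge i)) hTb hsz x
      (Gd A m i) (hmeas i).1 hsub (hEv i hi'.le x) (hEv' i hi' x) V
    rw [hb1] at h
    refine h.trans ?_
    have g := hGc i hi'.le V
    have g0 := hGc 0 (Nat.zero_le _) V
    have hp := NN_pow hNe i
    have hnn : 0 ≤ NN N i ^ (-(1 / 10) : ℝ) := by
      have : 0 ≤ NN N i := by linarith [hNNge i]
      positivity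
    calc C5 * NN N i ^ (-(1 / 10) : ℝ) * (A i).G V
        ≤ C5 * (1 / 2) ^ i * (2 * (A 0).G V) := by
          have h1 := g.1
          have h2 := g.2
          gcongr
      _ = _ := by ring
  -- the top
  have htop : |(∫ t in Gd A m m, st (A 0).be V ((A m).X ∅ (om t)) ∂(un x T))
      - ∫ y in Ioi V, gw (A m) y| ≤ 8 * CM * (A 0).G V := by
    have hs := hch.spec m le_rfl
    have hb := hch.be m le_rfl
    have hbm0 : 0 < (A m).be := hs.ok.hbe
    have hbm1 : (A m).be ≤ 1 / 10 ^ 4 := hs.hbe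
    obtain ⟨hf1, hf2⟩ := fub hB hbm0 hbm1 (μ := un x T) (Gd A m m) V
    rw [← hb, hf2]
    have hg1 := (hG (A m) hs.ok hs.hb hbm1 V).1
    rw [← integral_sub hf1 hg1]
    set n := NN N m with hn
    have hn1 : 1 ≤ n := hN0.trans (hNNge m)
    have hn0 : 0 < n := by linarith
    have hSm := hS (A m) T n hs (hNc.trans (hNNge m))
    have hlog : Real.log N ≤ Real.log n := Real.log_le_log (by linarith) (hNNge m)
    have hlogN : (v0 : ℝ) ≤ Real.log N := by
      rw [← Real.log_exp (v0 : ℝ)]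
      exact Real.log_le_log (Real.exp_pos _) hNd
    have hlogN0 : 0 ≤ Real.log N := Real.log_nonneg hN0
    have hv : v0 ≤ (A m).v := by
      have h1 := hs.hv1
      have : (v0 : ℝ) ≤ (A m).v := by linarith
      exact_mod_cast this
    have hFset : {t | (A m).Good ∅ (om t)} ∩ Gd A m m = Gd A m m := by
      refine inter_eq_self_of_subset_right ?_
      intro t ht
      exact ht m le_rfl le_rfl
    have hWM := hM (A m) hs.ok hv hs.hb T hTc hSm.1 x (n ^ (-(4 : ℝ))) (Gd A m m) (by positivity)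
      (hmeas m).1 (hEv m le_rfl x)
    -- the numbers
    have hn4 : n ^ (-(4 : ℝ)) = 1 / n ^ 4 := by
      rw [Real.rpow_neg hn0.le, one_div]
      congr 1
      exact_mod_cast Real.rpow_natCast n 4
    have k1 : Real.exp (-(A m).v) ≤ n ^ (-(4 : ℝ)) := by
      rw [Real.rpow_def_of_pos hn0]
      refine Real.exp_le_exp.2 ?_
      have h1 := hs.hv1
      have h2 : 0 ≤ Real.log n := hlogN0.trans hlog
      linarith
    have k2 : 1 / ((A m).p0 : ℝ) ≤ n ^ (-(4 : ℝ)) := by
      rw [hn4]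
      exact one_div_le_one_div_of_le (by positivity) hs.hp1
    have k3 : 1 / Real.sqrt T ≤ n ^ (-(4 : ℝ)) := by
      rw [hn4]
      refine one_div_le_one_div_of_le (by positivity) ?_
      refine Real.le_sqrt_of_sq_le ?_
      have h1 := hs.hN
      have h2 : Real.log T ≤ T := by
        have := Real.log_le_sub_one_of_pos hTpos
        linarith
      calc (n ^ 4) ^ 2 = n ^ 8 := by ring
        _ ≤ n ^ 12 := pow_le_pow_right₀ hn1 (by norm_num)
        _ ≤ T := h1.trans h2
    have hK : Real.exp (-(A m).v) + 1 / ((A m).p0 : ℝ) + 1 / Real.sqrt T + n ^ (-(4 : ℝ))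
        ≤ 4 * n ^ (-(4 : ℝ)) := by linarith
    have hl0 : n ≤ Real.log (Real.log T) := hch.size
    have hlp : 0 < Real.log (Real.log T) := by linarith
    have hbl : 1 / (A m).be ≤ n ^ (9 / 5 : ℝ) := by
      have h1 := hch.beL
      rw [← hb] at h1
      have h2 : 1 / (A m).be ≤ Real.log (Real.log T) := by
        rw [div_le_iff₀ hbm0]
        rw [div_le_iff₀ hlp] at h1
        linarith
      exact h2.trans hch.top
    obtain ⟨hi1, hi2⟩ := int_G (A m) hbm0 V
    have hpt : ∀ y, |(∫ t in Gd A m m, HH (A m).be (1 / 20) y ((A m).X ∅ (om t)) ∂(un x T))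
        - gw (A m) y| ≤ CM * (4 * n ^ (-(4 : ℝ))) * (A m).G y := by
      intro y
      have h := hWM y
      rw [hFset, hs.hb] at h
      refine h.trans ?_
      have g0 := (hs.ok.G_pos y).le
      gcongr
    have h1 : |∫ y in Ioi V, ((∫ t in Gd A m m, HH (A m).be (1 / 20) y ((A m).X ∅ (om t)) ∂(un x T))
        - gw (A m) y)| ≤ ∫ y in Ioi V, CM * (4 * n ^ (-(4 : ℝ))) * (A m).G y := by
      have h2 := norm_integral_le_of_norm_le (μ := volume.restrict (Ioi V))
        (f := fun y => (∫ t in Gd A m m, HH (A m).be (1 / 20) y ((A m).X ∅ (om t)) ∂(un x T))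
          - gw (A m) y) (g := fun y => CM * (4 * n ^ (-(4 : ℝ))) * (A m).G y)
        (hi1.const_mul _) (Filter.Eventually.of_forall fun y => by
          rw [Real.norm_eq_abs]
          exact hpt y)
      rwa [Real.norm_eq_abs] at h2
    refine h1.trans ?_
    rw [integral_const_mul, hi2]
    have g := hGc m le_rfl V
    have h3 : n ^ (-(4 : ℝ)) * (1 / (A m).be) ≤ 1 := by
      calc n ^ (-(4 : ℝ)) * (1 / (A m).be) ≤ n ^ (-(4 : ℝ)) * n ^ (9 / 5 : ℝ) := by gcongr
        _ = n ^ (-(4 : ℝ) + 9 / 5) := (Real.rpow_add hn0 _ _).symm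
        _ ≤ n ^ (0 : ℝ) := Real.rpow_le_rpow_of_exponent_le hn1 (by norm_num)
        _ = 1 := Real.rpow_zero _
    calc CM * (4 * n ^ (-(4 : ℝ))) * ((A m).G V / (A m).be)
        = 4 * CM * (n ^ (-(4 : ℝ)) * (1 / (A m).be)) * (A m).G V := by ring
      _ ≤ 4 * CM * 1 * (2 * (A 0).G V) := by
          have g1 := g.1
          have g2 := g.2
          gcongr
      _ = _ := by ring
  -- the Gaussian side
  have hgauss : ∫ y in Ioi V, gw (A 0) y
      = (∫ y in Ioi V, gw (A m) y)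
        + ∑ i ∈ Finset.range m, ((∫ y in Ioi V, gw (A i) y) - ∫ y in Ioi V, gw (A (i + 1)) y) := by
    have h := Finset.sum_range_sub' (fun i => ∫ y in Ioi V, gw (A i) y) m
    rw [h]
    ring
  rw [hgauss]
  have hsum : |(∑ i ∈ Finset.range m, ∫ t in Gd A m i, (st (A 0).be V ((A i).X ∅ (om t))
        - st (A 0).be V ((A (i + 1)).X ∅ (om t))) ∂(un x T))
      - ∑ i ∈ Finset.range m, ((∫ y in Ioi V, gw (A i) y) - ∫ y in Ioi V, gw (A (i + 1)) y)|
      ≤ 4 * C5 * (A 0).G V := by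
    rw [← Finset.sum_sub_distrib]
    refine (Finset.abs_sum_le_sum_abs _ _).trans ((Finset.sum_le_sum hterm).trans ?_)
    have e : ∑ i ∈ Finset.range m, 2 * C5 * (1 / 2 : ℝ) ^ i * (A 0).G V
        = 2 * C5 * (A 0).G V * ∑ i ∈ Finset.range m, (1 / 2 : ℝ) ^ i := by
      rw [Finset.mul_sum]
      refine Finset.sum_congr rfl fun i _ => ?_
      ring
    rw [e]
    have g0 := (hGc 0 (Nat.zero_le _) V).1
    have h2 := geo m
    calc 2 * C5 * (A 0).G V * ∑ i ∈ Finset.range m, (1 / 2 : ℝ) ^ i ≤ 2 * C5 * (A 0).G V * 2 := by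
          gcongr
      _ = _ := by ring
  rw [abs_le] at htop hsum ⊢
  constructor
  · linarith [htop.1, hsum.1]
  · linarith [htop.2, hsum.2]

end Pool.Agent.Lib.RA
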