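import Mathlib
import Pool.Agent.Lib.MP_f9aece_nt_rate.Stmts
import Pool.Agent.Lib.MP_f9aece_nt_gt.Cont

/-!
The rate in the central limit theorem for `log |zeta|`, row D4: the law of the prime sum of the
first good level.
-/

set_option autoImplicit false

namespace Pool.Agent.Lib.RA

open MeasureTheory Set Filter Topology Complex ProbabilityTheory
open scoped ComplexConjugate
open Pool.Agent.Lib.GT
open Pool.Agent.Lib.LC
open Pool.Agent.Lib.LC.E9 (NN)

namespace D4x

lemma measurable_X (A : Par) : Measurable fun t : ℝ => A.X ∅ (om t) :=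
  ((Par.continuous_X A ∅).comp continuous_om).measurable

/-- the law of the prime sum of the first good level -/
noncomputable def nu (A : ℕ → Par) (m : ℕ) (μ : Measure ℝ) : Measure ℝ :=
  ∑ i ∈ Finset.range (m + 1), (μ.restrict (Lv A m i)).map (fun t => (A i).X ∅ (om t))

lemma nu_apply (A : ℕ → Par) (m : ℕ) (μ : Measure ℝ) {s : Set ℝ} (hs : MeasurableSet s) :
    nu A m μ s = ∑ i ∈ Finset.range (m + 1), μ {t | t ∈ Lv A m i ∧ (A i).X ∅ (om t) ∈ s} := by
  unfold nu
  rw [Measure.finsetSum_apply]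
  refine Finset.sum_congr rfl fun i _ => ?_
  rw [Measure.map_apply (measurable_X (A i)) hs, Measure.restrict_apply (measurable_X (A i) hs)]
  congr 1
  ext t
  exact and_comm

lemma nu_finite (A : ℕ → Par) (m : ℕ) (μ : Measure ℝ) [IsFiniteMeasure μ] :
    IsFiniteMeasure (nu A m μ) := by
  refine ⟨?_⟩
  rw [nu_apply A m μ MeasurableSet.univ]
  exact ENNReal.sum_lt_top.2 fun i _ => measure_lt_top _ _

lemma nu_integral (A : ℕ → Par) (m : ℕ) (μ : Measure ℝ) (f : ℝ → ℝ) (hf : Integrable f (nu A m μ)) :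
    ∫ u, f u ∂(nu A m μ) =
      ∑ i ∈ Finset.range (m + 1), ∫ t in Lv A m i, f ((A i).X ∅ (om t)) ∂μ := by
  have h1 : ∀ i ∈ Finset.range (m + 1),
      Integrable f ((μ.restrict (Lv A m i)).map (fun t => (A i).X ∅ (om t))) :=
    integrable_finsetSum_measure.1 hf
  unfold nu
  rw [integral_finsetSum_measure h1]
  refine Finset.sum_congr rfl fun i hi => ?_
  rw [integral_map (measurable_X (A i)).aemeasurable (h1 i hi).aestronglyMeasurable]

end D4x

open D4x in
theorem xLaw (hX : XMass) (hT : XTel) (hL : StepLaw) (hG : StepGauss) (_ : ChainNum) : XLaw := by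
  obtain ⟨C1, N1, hC1, hN1, h1⟩ := hX
  obtain ⟨C2, N2, hC2, hN2, h2⟩ := hT
  obtain ⟨C3, hC3, h3⟩ := hL
  obtain ⟨C4, hC4, h4⟩ := hG
  have hC31 : 0 ≤ C3 * C1 := by positivity
  refine ⟨C3 * C1 + C2 + C4, max N1 N2, by linarith, hN1.trans (le_max_left _ _), fun N hN => ?_⟩
  obtain ⟨T1, hT1, k1⟩ := h1 N ((le_max_left _ _).trans hN)
  obtain ⟨T2, hT2, k2⟩ := h2 N ((le_max_right _ _).trans hN)
  refine ⟨max T1 T2, hT1.trans (le_max_left _ _), fun A T m hc hT x V => ?_⟩
  have hT0 : 0 < T := by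
    have := (le_max_left T1 T2).trans hT
    linarith
  have hprob : IsProbabilityMeasure (un x T) := prob_un x hT0
  have hs0 := hc.spec 0 (Nat.zero_le _)
  have hG0 : 0 ≤ (A 0).G V := (Par.Ok.G_pos hs0.ok V).le
  have m1 := k1 A T m hc ((le_max_left _ _).trans hT) x
  have m2 := k2 A T m hc ((le_max_right _ _).trans hT) x V
  have hfin : IsFiniteMeasure (nu A m (un x T)) := nu_finite A m _
  have m3 := h3 (A 0).be hs0.ok.hbe hs0.hbe V (C1 * (A 0).G V) (by positivity) (nu A m (un x T)) hfin (by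
    intro y
    rw [nu_apply A m _ measurableSet_Ioc]
    refine (m1 y).trans (le_of_eq ?_)
    rw [Par.G_shift (A 0) y V, mul_assoc])
  have m4 := h4 (A 0) hs0.ok hs0.hb hs0.hbe V
  obtain ⟨hint, m3⟩ := m3
  rw [nu_integral A m _ _ hint, nu_apply A m _ measurableSet_Ioi, ENNReal.toReal_sum fun i _ =>
    measure_ne_top _ _] at m3
  have m5 : (∑ i ∈ Finset.range (m + 1), (un x T {t | t ∈ Lv A m i ∧ (A i).X ∅ (om t) ∈ Ioi V}).toReal) =
      ∑ i ∈ Finset.range (m + 1), (un x T {t | t ∈ Lv A m i ∧ V < (A i).X ∅ (om t)}).toReal := rfl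
  rw [m5] at m3
  have m6 := m4.2.2
  obtain ⟨a1, a2⟩ := abs_le.1 m2
  obtain ⟨b1, b2⟩ := abs_le.1 m3
  obtain ⟨c1, c2⟩ := abs_le.1 m6
  rw [abs_le]
  constructor <;> nlinarith

end Pool.Agent.Lib.RA
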