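import Mathlib
import Pool.Agent.Lib.MP_f9aece_nt_rate.Stmts
import Pool.Agent.Lib.MP_f9aece_nt_loc.E3

/-!
The rate in the central limit theorem for `log |zeta|`: module E1, large values of zeta at heights
with a small prime sum.
-/

set_option autoImplicit false

namespace Pool.Agent.Lib.RA

open MeasureTheory Set Filter Topology Complex ProbabilityTheory
open scoped ComplexConjugate
open Pool.Agent.Lib.GT
open Pool.Agent.Lib.LC
open Pool.Agent.Lib.LC.E4

namespace E1x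

lemma cont_zeta_shift (w : ℝ) : Continuous fun t : ℝ => riemannZeta (1 / 2 + I * (t + w : ℝ)) :=
  cont_zeta.comp (continuous_id.add continuous_const)

lemma good_empty (A : Par) (x : Om) : A.Bad ∅ x := by
  intro g hg
  simp at hg

/-- `G` at the smaller level -/
lemma G_kp {A : Par} {N V : ℝ} (hbe : A.be ≤ 1 / 10 ^ 4) (hN : 1 ≤ N) :
    A.G (V - 10 * Real.log N) ≤ N ^ (1 / 100 : ℝ) * A.G V := by
  have hN0 : 0 < N := by linarith
  have hl : 0 ≤ Real.log N := Real.log_nonneg hN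
  rw [G_eq A V (V - 10 * Real.log N), mul_comm]
  refine mul_le_mul_of_nonneg_right ?_ (G_nonneg A V)
  rw [Real.rpow_def_of_pos hN0]
  refine Real.exp_le_exp.2 ?_
  nlinarith

lemma log_le {N : ℝ} (hN : 1 ≤ N) : 10 * Real.log N + 1 ≤ 200 * N ^ (9 / 100 : ℝ) := by
  have h1 := Real.log_le_rpow_div (x := N) (by linarith) (ε := 9 / 100) (by norm_num)
  have h2 : 1 ≤ N ^ (9 / 100 : ℝ) := Real.one_le_rpow hN (by norm_num)
  have h3 : N ^ (9 / 100 : ℝ) / (9 / 100) = 100 / 9 * N ^ (9 / 100 : ℝ) := by ring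
  rw [h3] at h1
  linarith

lemma gr_le {T N w : ℝ} (hN : 1 ≤ N) (hw : 0 ≤ w) (hT : 0 ≤ Real.log T)
    (h : w * Real.log T ≤ N ^ (1 / 2 : ℝ)) : gr (Real.log T) w ≤ 32 * N ^ 3 := by
  have hN0 : 0 ≤ N := by linarith
  have h1 : N ^ (1 / 2 : ℝ) ≤ N ^ (1 / 2 : ℝ) := le_rfl
  have h2 : 1 ≤ N ^ (1 / 2 : ℝ) := Real.one_le_rpow hN (by norm_num)
  have h3 : 1 + Real.log T * |w| ≤ 2 * N ^ (1 / 2 : ℝ) := by
    rw [abs_of_nonneg hw, mul_comm]
    linarith
  have h4 : 1 ≤ 1 + Real.log T * |w| := by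
    have := mul_nonneg hT (abs_nonneg w)
    linarith
  unfold gr
  calc (1 + Real.log T * |w|) ^ (17 / 4 : ℝ) ≤ (1 + Real.log T * |w|) ^ (5 : ℝ) :=
        Real.rpow_le_rpow_of_exponent_le h4 (by norm_num)
    _ ≤ (2 * N ^ (1 / 2 : ℝ)) ^ (5 : ℝ) := Real.rpow_le_rpow (by linarith) h3 (by norm_num)
    _ = 2 ^ (5 : ℝ) * N ^ (5 / 2 : ℝ) := by
        rw [Real.mul_rpow (by norm_num) (by positivity), ← Real.rpow_mul hN0]
        norm_num
    _ ≤ 2 ^ (5 : ℝ) * N ^ (3 : ℝ) := by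
        refine mul_le_mul_of_nonneg_left ?_ (by positivity)
        exact Real.rpow_le_rpow_of_exponent_le hN (by norm_num)
    _ = 32 * N ^ 3 := by
        norm_num [Real.rpow_ofNat]

end E1x

open E1x

/-- E1 -/
theorem upPair (hL : LC.LineMeanX) (hT : GT.TiltLow) (hW : WinMass) (hP : GT.WPoint)
    (hS : LC.SpecNum) : UpPair := by
  classical
  obtain ⟨C, v0, hC, HW⟩ := hT
  obtain ⟨C4, T4, hC4, hT4, HL⟩ := hL
  obtain ⟨C5, D5, v5, -, -, H5⟩ := hP
  obtain ⟨C6, N6, hC6, hN6, H6⟩ := hS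
  obtain ⟨C7, v7, hC7, H7⟩ := hW
  obtain ⟨K, hK⟩ : ∃ K : ℝ, K = 200 * C7 + 1280 * (C * (C4 * C6)) := ⟨_, rfl⟩
  have hK1 : 1 ≤ K := by
    have h2 : 1 ≤ C4 * C6 := by nlinarith
    have h3 : 1 ≤ C * (C4 * C6) := by nlinarith
    rw [hK]
    nlinarith
  refine ⟨K, max (Real.exp (max v0 (max v5 v7) : ℕ) + 1) N6, T4, hK1, ?_, hT4, ?_⟩
  · exact le_max_of_le_right hN6
  intro A T N hS hNN hT x V w κ hx hw hwL hκ F hF hWF
  have hA := hS.ok
  have hT1 : 3 ≤ T := hT4.trans hT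
  have hT0 : 0 < T := by linarith
  have hNa : Real.exp (max v0 (max v5 v7) : ℕ) + 1 ≤ N := (le_max_left _ _).trans hNN
  have hNb : N6 ≤ N := (le_max_right _ _).trans hNN
  have hN1 : 1 ≤ N := hN6.trans hNb
  have hN0 : 0 < N := by linarith
  have hlN : 0 ≤ Real.log N := Real.log_nonneg hN1
  have hv : max v0 (max v5 v7) ≤ A.v := by
    have h1 : ((max v0 (max v5 v7) : ℕ) : ℝ) ≤ Real.log N := by
      rw [Real.le_log_iff_exp_le hN0]
      linarith
    have h2 : ((max v0 (max v5 v7) : ℕ) : ℝ) ≤ A.v := by linarith [hS.hv1]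
    exact_mod_cast h2
  have hv0 : v0 ≤ A.v := (le_max_left _ _).trans hv
  have hv5 : v5 ≤ A.v := ((le_max_left _ _).trans (le_max_right _ _)).trans hv
  have hv7 : v7 ≤ A.v := ((le_max_right _ _).trans (le_max_right _ _)).trans hv
  obtain ⟨hLen, -, -, -, -, -, hL9, -, -⟩ := H6 A T N hS hNb
  have hbe := hA.hbe
  have hbe1 := hS.hbe
  have hxT : |x| ≤ T := hx.trans (by
    conv_rhs => rw [← Real.rpow_one T]
    exact Real.rpow_le_rpow_of_exponent_le (by linarith) (by norm_num))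
  have hlT : 0 ≤ Real.log T := Real.log_nonneg (by linarith)
  have hlT1 : N ^ 12 ≤ Real.log T := hS.hN
  -- the shift is small
  have hw1 : w ≤ 1 := by
    have h1 : N ^ (1 / 2 : ℝ) ≤ N ^ 12 := by
      rw [← Real.rpow_natCast N 12]
      exact Real.rpow_le_rpow_of_exponent_le hN1 (by norm_num)
    have h2 : 0 < N ^ 12 := by positivity
    have h3 : w * N ^ 12 ≤ 1 * N ^ 12 := by
      calc w * N ^ 12 ≤ w * Real.log T := mul_le_mul_of_nonneg_left hlT1 hw
        _ ≤ N ^ 12 := hwL.trans h1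
        _ = 1 * N ^ 12 := (one_mul _).symm
    exact le_of_mul_le_mul_right h3 h2
  have hwT : |w| ≤ Real.sqrt T := by
    rw [abs_of_nonneg hw]
    exact hw1.trans (Real.one_le_sqrt.2 (by linarith))
  obtain ⟨μ, hμ⟩ : ∃ μ, μ = un x T := ⟨_, rfl⟩
  have : IsProbabilityMeasure μ := hμ ▸ prob_un x hT0
  obtain ⟨D, hD⟩ : ∃ D : ℝ, D = V - 10 * Real.log N := ⟨_, rfl⟩
  obtain ⟨I0, hI0⟩ : ∃ I0 : Set ℝ, I0 = Icc (T ^ (19 / 20 : ℝ)) (x + T) := ⟨_, rfl⟩
  have hI0m : MeasurableSet I0 := hI0 ▸ measurableSet_Icc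
  obtain ⟨L, hLdef⟩ : ∃ L : ℝ, L = Real.log A.p0 ^ 20 * (Real.log T / A.Y) * (1 + A.lam * A.Y) ^ 17 :=
    ⟨_, rfl⟩
  have hL0 : 0 ≤ L := by
    have h1 := hA.hl
    have h2 := hA.hY
    have h4 : 0 ≤ Real.log A.p0 := Real.log_nonneg (by
      have := hA.hp
      exact_mod_cast (by omega : 1 ≤ A.p0))
    have h5 : 0 < A.Y := by linarith
    rw [hLdef]
    positivity
  rw [← hLdef] at hL9
  have hGV := G_nonneg A V
  have hGD := G_nonneg A D
  have hGDV : A.G D ≤ N ^ (1 / 100 : ℝ) * A.G V := by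
    rw [hD]
    exact G_kp hbe1 hN1
  have hgr := gr_le hN1 hw hlT hwL
  have hgr0 : 0 ≤ gr (Real.log T) w := by
    unfold gr
    positivity
  -- part 1
  obtain ⟨E1, hE1⟩ : ∃ E1 : Set ℝ, E1 = {t | t ∈ F ∧ A.Good ∅ (om t) ∧ D < A.X ∅ (om t) ∧
    A.X ∅ (om t) ≤ V} := ⟨_, rfl⟩
  have b1 : μ E1 ≤ ENNReal.ofReal (200 * C7 * κ * N ^ (1 / 10 : ℝ) * A.G V) := by
    have h1 := H7 A hA hv7 hS.hb x T κ hT0 hκ F hF hWF D V (by rw [hD]; linarith)
    rw [hμ, hE1]
    refine h1.trans (ENNReal.ofReal_le_ofReal ?_)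
    have h2 : V - D + 1 = 10 * Real.log N + 1 := by rw [hD]; ring
    have h3 : N ^ (9 / 100 : ℝ) * N ^ (1 / 100 : ℝ) = N ^ (1 / 10 : ℝ) := by
      rw [← Real.rpow_add hN0]
      norm_num
    have hC70 : 0 ≤ C7 := by linarith
    rw [h2]
    calc C7 * κ * (10 * Real.log N + 1) * A.G D
        ≤ C7 * κ * (200 * N ^ (9 / 100 : ℝ)) * (N ^ (1 / 100 : ℝ) * A.G V) := by
          refine mul_le_mul (mul_le_mul_of_nonneg_left (log_le hN1) (by positivity)) hGDV hGD
            (by positivity)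
      _ = 200 * C7 * κ * (N ^ (9 / 100 : ℝ) * N ^ (1 / 100 : ℝ)) * A.G V := by ring
      _ = 200 * C7 * κ * N ^ (1 / 10 : ℝ) * A.G V := by rw [h3]
  -- part 2
  obtain ⟨E2, hE2⟩ : ∃ E2 : Set ℝ, E2 = {t | t ∈ I0 ∧ A.Good ∅ (om t) ∧ A.X ∅ (om t) ≤ D ∧
    Real.exp V < ‖riemannZeta (1 / 2 + I * (t + w : ℝ))‖} := ⟨_, rfl⟩
  have b2 : μ E2 ≤ ENNReal.ofReal (1280 * (C * (C4 * C6)) * (1 / N) * A.G V) := by
    obtain ⟨m, hm⟩ : ∃ m : ℝ → ℝ, m = fun t => ‖A.mo (-1) ∅ (om t)‖ ^ 2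
      * ‖riemannZeta (1 / 2 + I * (t + w : ℝ))‖ ^ 2 := ⟨_, rfl⟩
    have hmc : Continuous m := by
      have c1 := cont_mo A (-1) ∅
      have c2 := cont_zeta_shift w
      rw [hm]
      exact (c1.norm.pow 2).mul (c2.norm.pow 2)
    have hm0 : ∀ t, 0 ≤ m t := fun t => by rw [hm]; positivity
    obtain ⟨H, hH⟩ : ∃ H : ℝ → ENNReal, H = I0.indicator fun t => ENNReal.ofReal (2 * m t) :=
      ⟨_, rfl⟩
    have hHm : Measurable H := by
      rw [hH]
      refine Measurable.indicator ?_ hI0m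
      exact ENNReal.measurable_ofReal.comp (continuous_const.mul hmc).measurable
    have key := HW A hA hv0 (by rw [hS.hb]; linarith) ∅ (Finset.empty_subset _) x T
      (2 * C4 * L * gr (Real.log T) w) hT0 (by positivity) H hHm ?_ D
    · obtain ⟨S, hSd⟩ : ∃ S : Set ℝ, S = {t | A.Good ∅ (om t) ∧ A.Bad ∅ (om t) ∧
        A.X ∅ (om t) ≤ D} := ⟨_, rfl⟩
      rw [← hSd, ← hμ] at key
      have e1 : E2 ⊆ S := by
        intro t ht
        rw [hE2] at ht
        rw [hSd]
        exact ⟨ht.2.1, good_empty _ _, ht.2.2.1⟩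
      have e2 : μ E2 ≤ ∫⁻ t in S, ENNReal.ofReal (Real.exp (-(20 * Real.log N)))
          * (ENNReal.ofReal (Real.exp (2 * (A.X ∅ (om t) - D))) * H t) ∂μ := by
        rw [← Measure.restrict_eq_self (μ := μ) e1]
        refine meas_le_lintegral₀ ?_ ?_
        · refine Measurable.aemeasurable (measurable_const.mul (Measurable.mul ?_ hHm))
          exact ENNReal.measurable_ofReal.comp
            (Real.continuous_exp.comp (continuous_const.mul ((cont_X A ∅).sub
              continuous_const))).measurable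
        · intro t ht
          rw [hE2] at ht
          obtain ⟨ht1, ht2, ht3, ht4⟩ := ht
          have q1 := (H5 A hA hv5 ∅ (Finset.empty_subset _) (om t) ht2 (good_empty _ _)).2.2.2.2
          rw [hH, Set.indicator_of_mem ht1, ← ENNReal.ofReal_mul (Real.exp_nonneg _),
            ← ENNReal.ofReal_mul (Real.exp_nonneg _), ← ENNReal.ofReal_one]
          refine ENNReal.ofReal_le_ofReal ?_
          have q2 : Real.exp (2 * V) ≤ ‖riemannZeta (1 / 2 + I * (t + w : ℝ))‖ ^ 2 := by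
            have : Real.exp (2 * V) = Real.exp V ^ 2 := by rw [← Real.exp_nat_mul]; norm_num
            rw [this]
            exact pow_le_pow_left₀ (Real.exp_nonneg _) ht4.le 2
          have q3 : 1 / 2 * Real.exp (-(2 * A.X ∅ (om t))) * Real.exp (2 * V) ≤ m t := by
            rw [hm]
            exact mul_le_mul q1 q2 (Real.exp_nonneg _) (by positivity)
          have q5 : Real.exp (-(20 * Real.log N)) * Real.exp (2 * (A.X ∅ (om t) - D))
              = Real.exp (2 * (A.X ∅ (om t) - V)) := by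
            rw [← Real.exp_add]
            congr 1
            rw [hD]
            ring
          calc (1 : ℝ) = Real.exp (2 * (A.X ∅ (om t) - V))
                * (2 * (1 / 2 * Real.exp (-(2 * A.X ∅ (om t))) * Real.exp (2 * V))) := by
                have : Real.exp (2 * (A.X ∅ (om t) - V)) * (Real.exp (-(2 * A.X ∅ (om t)))
                    * Real.exp (2 * V)) = 1 := by
                  rw [← Real.exp_add, ← Real.exp_add]
                  rw [show 2 * (A.X ∅ (om t) - V) + (-(2 * A.X ∅ (om t)) + 2 * V) = 0 by ring,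
                    Real.exp_zero]
                linear_combination -this
            _ ≤ Real.exp (2 * (A.X ∅ (om t) - V)) * (2 * m t) := by
                refine mul_le_mul_of_nonneg_left ?_ (Real.exp_nonneg _)
                linarith
            _ = Real.exp (-(20 * Real.log N)) * (Real.exp (2 * (A.X ∅ (om t) - D)) * (2 * m t)) := by
                rw [← q5]
                ring
      rw [lintegral_const_mul' _ _ ENNReal.ofReal_ne_top] at e2
      refine e2.trans ((mul_le_mul_right key _).trans ?_)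
      rw [← ENNReal.ofReal_mul (Real.exp_nonneg _)]
      refine ENNReal.ofReal_le_ofReal ?_
      have h20 : Real.exp (-(20 * Real.log N)) = (N ^ 20)⁻¹ := by
        rw [Real.exp_neg, ← Real.exp_log (pow_pos hN0 20), Real.log_pow]
        norm_num
      have hb : A.G D / A.b = 20 * A.G D := by
        rw [hS.hb]
        ring
      have hC0 : 0 ≤ C := by linarith
      have hC40 : 0 ≤ C4 := by linarith
      have hC60 : 0 ≤ C6 := by linarith
      have hN100 : N ^ (1 / 100 : ℝ) ≤ N := by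
        conv_rhs => rw [← Real.rpow_one N]
        exact Real.rpow_le_rpow_of_exponent_le hN1 (by norm_num)
      have hNN : (N ^ 20)⁻¹ * (N ^ 9 * N ^ 3 * N) ≤ 1 / N := by
        rw [inv_mul_le_iff₀ (by positivity), mul_one_div, le_div_iff₀ hN0]
        calc N ^ 9 * N ^ 3 * N * N = N ^ 14 := by ring
          _ ≤ N ^ 20 := pow_le_pow_right₀ hN1 (by norm_num)
      rw [h20, hb]
      calc (N ^ 20)⁻¹ * (C * (2 * C4 * L * gr (Real.log T) w) * (20 * A.G D))
          ≤ (N ^ 20)⁻¹ * (C * (2 * C4 * (C6 * N ^ 9) * (32 * N ^ 3)) * (20 * (N * A.G V))) := by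
            have : A.G D ≤ N * A.G V := hGDV.trans (mul_le_mul_of_nonneg_right hN100 hGV)
            gcongr
        _ = 1280 * (C * (C4 * C6)) * ((N ^ 20)⁻¹ * (N ^ 9 * N ^ 3 * N)) * A.G V := by ring
        _ ≤ 1280 * (C * (C4 * C6)) * (1 / N) * A.G V := by gcongr
    · intro y
      have q4 := HL A hA T hT hLen x hxT y w hwT ∅ (Finset.empty_subset _)
      have e2 : ∀ t, ENNReal.ofReal (A.W ∅ y (om t)) * H t
          = I0.indicator (fun t => 2 * ENNReal.ofReal (A.W ∅ y (om t) * m t)) t := by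
        intro t
        rw [hH]
        by_cases ht : t ∈ I0
        · rw [Set.indicator_of_mem ht, Set.indicator_of_mem ht, ← ENNReal.ofReal_mul'
            (by have := hm0 t; positivity)]
          rw [show A.W ∅ y (om t) * (2 * m t) = 2 * (A.W ∅ y (om t) * m t) by ring,
            ENNReal.ofReal_mul (by norm_num)]
          norm_num
        · rw [Set.indicator_of_notMem ht, Set.indicator_of_notMem ht, mul_zero]
      simp_rw [e2]
      rw [lintegral_indicator hI0m, lintegral_const_mul' _ _ (by norm_num)]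
      have e3 : ∫⁻ t in I0, ENNReal.ofReal (A.W ∅ y (om t) * m t) ∂(un x T)
          ≤ ENNReal.ofReal (C4 * L * gr (Real.log T) w * A.G y) := by
        rw [hI0, hm]
        refine q4.trans (ENNReal.ofReal_le_ofReal (le_of_eq ?_))
        rw [hLdef, Finset.sum_empty, neg_zero, Real.exp_zero]
        ring
      refine (mul_le_mul_right e3 2).trans ?_
      rw [show (2 : ENNReal) = ENNReal.ofReal 2 by norm_num, ← ENNReal.ofReal_mul (by norm_num)]
      refine ENNReal.ofReal_le_ofReal (le_of_eq ?_)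
      ring
  -- the covering
  have cov : {t | t ∈ Icc (T ^ (19 / 20 : ℝ)) (x + T) ∧ t ∈ F ∧ A.Good ∅ (om t) ∧
      A.X ∅ (om t) ≤ V ∧ Real.exp V < ‖riemannZeta (1 / 2 + I * (t + w : ℝ))‖} ⊆ E1 ∪ E2 := by
    rintro t ⟨h0, h1, h2, h3, h4⟩
    rcases lt_or_ge D (A.X ∅ (om t)) with h | h
    · left
      rw [hE1]
      exact ⟨h1, h2, h, h3⟩
    · right
      rw [hE2, hI0]
      exact ⟨h0, h2, h, h4⟩
  rw [← hμ]
  refine (measure_mono cov).trans ((measure_union_le _ _).trans ((add_le_add b1 b2).trans ?_))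
  have hC70 : 0 ≤ C7 := by linarith
  have hC0 : 0 ≤ C := by linarith
  have hC40 : 0 ≤ C4 := by linarith
  have hC60 : 0 ≤ C6 := by linarith
  rw [← ENNReal.ofReal_add (by positivity) (by positivity)]
  refine ENNReal.ofReal_le_ofReal ?_
  have h1 : 200 * C7 ≤ K := by
    rw [hK]
    have : 0 ≤ 1280 * (C * (C4 * C6)) := by positivity
    linarith
  have h2 : 1280 * (C * (C4 * C6)) ≤ K := by
    rw [hK]
    linarith
  have h3 : 200 * C7 * (κ * N ^ (1 / 10 : ℝ) * A.G V) ≤ K * (κ * N ^ (1 / 10 : ℝ) * A.G V) :=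
    mul_le_mul_of_nonneg_right h1 (by positivity)
  have h4 : 1280 * (C * (C4 * C6)) * (1 / N * A.G V) ≤ K * (1 / N * A.G V) :=
    mul_le_mul_of_nonneg_right h2 (by positivity)
  calc 200 * C7 * κ * N ^ (1 / 10 : ℝ) * A.G V + 1280 * (C * (C4 * C6)) * (1 / N) * A.G V
      = 200 * C7 * (κ * N ^ (1 / 10 : ℝ) * A.G V) + 1280 * (C * (C4 * C6)) * (1 / N * A.G V) := by
        ring
    _ ≤ K * (κ * N ^ (1 / 10 : ℝ) * A.G V) + K * (1 / N * A.G V) := add_le_add h3 h4
    _ = K * (κ * N ^ (1 / 10 : ℝ) + 1 / N) * A.G V := by ring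

end Pool.Agent.Lib.RA
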