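import Mathlib
import Pool.Agent.Lib.MP_f9aece_nt_rate.Stmts
import Pool.Agent.Lib.MP_f9aece_nt_loc.E3

/-!
The rate in the central limit theorem for `log |zeta|`: module E2, large values of zeta at bad heights.
-/

set_option autoImplicit false

namespace Pool.Agent.Lib.RA

open MeasureTheory Set Filter Topology Complex ProbabilityTheory
open scoped ComplexConjugate
open Pool.Agent.Lib.GT
open Pool.Agent.Lib.LC
open Pool.Agent.Lib.LC.E4

namespace E2x

lemma cont_zetaw (w : ℝ) : Continuous fun t : ℝ => riemannZeta (1 / 2 + I * (t + w : ℝ)) := by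
  have h : Continuous fun t : ℝ => t + w := by fun_prop
  exact cont_zeta.comp h

/-- the density at the lower level -/
lemma G_low (A : Par) (hbe1 : A.be ≤ 1 / 10 ^ 4) {N : ℝ} (hN : 1 ≤ N) (V : ℝ) :
    A.G (V - 10 * Real.log N) ≤ A.G V * N := by
  have hN0 : 0 < N := by linarith
  have hl : 0 ≤ Real.log N := Real.log_nonneg hN
  rw [G_eq A V]
  refine mul_le_mul_of_nonneg_left ?_ (G_nonneg A V)
  conv_rhs => rw [← Real.exp_log hN0]
  refine Real.exp_le_exp.2 ?_
  nlinarith

/-- the growth factor for small shifts -/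
lemma gr_small {T N w : ℝ} (hN : 1 ≤ N) (hT : 0 ≤ Real.log T) (hw : 0 ≤ w)
    (hw2 : w * Real.log T ≤ N ^ (1 / 2 : ℝ)) : gr (Real.log T) w ≤ 32 * N ^ 5 := by
  unfold gr
  rw [abs_of_nonneg hw]
  have h1 : N ^ (1 / 2 : ℝ) ≤ N := by
    conv_rhs => rw [← Real.rpow_one N]
    exact Real.rpow_le_rpow_of_exponent_le hN (by norm_num)
  have h2 : 1 + Real.log T * w ≤ 2 * N := by
    have : Real.log T * w = w * Real.log T := by ring
    linarith
  have h3 : 0 ≤ Real.log T * w := mul_nonneg hT hw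
  calc (1 + Real.log T * w) ^ (17 / 4 : ℝ) ≤ (2 * N) ^ (17 / 4 : ℝ) :=
        Real.rpow_le_rpow (by linarith) h2 (by norm_num)
    _ ≤ (2 * N) ^ (5 : ℝ) := Real.rpow_le_rpow_of_exponent_le (by linarith) (by norm_num)
    _ = 32 * N ^ 5 := by
        have : (2 * N) ^ (5 : ℝ) = (2 * N) ^ 5 := by exact_mod_cast Real.rpow_natCast (2 * N) 5
        rw [this]
        ring

/-- large values of zeta at heights whose prime sum is smaller by `10 log N` -/
theorem lowPart (hL : LC.LineMeanX) (hT : GT.TiltLow) (hP : GT.WPoint) (hS : LC.SpecNum) :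
    ∃ C N0 T0 : ℝ, 1 ≤ C ∧ 1 ≤ N0 ∧ 3 ≤ T0 ∧ ∀ (A : Par) (T N : ℝ), Spec A T N → N0 ≤ N → T0 ≤ T →
    ∀ x V w : ℝ, |x| ≤ T ^ (9 / 10 : ℝ) → 0 ≤ w → w * Real.log T ≤ N ^ (1 / 2 : ℝ) →
    ∀ s : Finset ℕ, s ⊆ Finset.range A.J →
    un x T {t | t ∈ Icc (T ^ (19 / 20 : ℝ)) (x + T) ∧ A.Good s (om t) ∧ A.Bad s (om t) ∧
        A.X s (om t) ≤ V - 10 * Real.log N ∧
        Real.exp V < ‖riemannZeta (1 / 2 + I * (t + w : ℝ))‖}
      ≤ ENNReal.ofReal (C / N * Real.exp (-∑ g ∈ s, (A.r g : ℝ)) * A.G V) := by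
  classical
  obtain ⟨C, v0, hC, HW⟩ := hT
  obtain ⟨C4, T4, hC4, hT4, HL⟩ := hL
  obtain ⟨C5, D5, v5, -, -, H5⟩ := hP
  obtain ⟨C6, N6, hC6, hN6, H6⟩ := hS
  set K : ℝ := 1280 * (C * (C4 * C6)) with hK
  have hK1 : 1 ≤ K := by
    have h2 : 1 ≤ C4 * C6 := by nlinarith
    have h3 : 1 ≤ C * (C4 * C6) := by nlinarith
    rw [hK]
    nlinarith
  refine ⟨K, max (Real.exp (max v0 v5 : ℕ) + 1) N6, T4, hK1, le_max_of_le_right hN6, hT4, ?_⟩
  intro A T N hS hNN hT x V w0 hx hw hw2 s hs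
  have hA := hS.ok
  have hT1 : 3 ≤ T := hT4.trans hT
  have hT0 : 0 < T := by linarith
  have hNa : Real.exp (max v0 v5 : ℕ) + 1 ≤ N := (le_max_left _ _).trans hNN
  have hNb : N6 ≤ N := (le_max_right _ _).trans hNN
  have hN1 : 1 ≤ N := hN6.trans hNb
  have hN0 : 0 < N := by linarith
  have hlN : 0 ≤ Real.log N := Real.log_nonneg hN1
  have hv : max v0 v5 ≤ A.v := by
    have h1 : ((max v0 v5 : ℕ) : ℝ) ≤ Real.log N := by
      rw [Real.le_log_iff_exp_le hN0]
      linarith
    have h2 : ((max v0 v5 : ℕ) : ℝ) ≤ A.v := by linarith [hS.hv1]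
    exact_mod_cast h2
  have hv0 : v0 ≤ A.v := (le_max_left _ _).trans hv
  have hv5 : v5 ≤ A.v := (le_max_right _ _).trans hv
  obtain ⟨hLen, -, -, -, -, -, hL9, -, -⟩ := H6 A T N hS hNb
  have hbe := hA.hbe
  have hbe1 := hS.hbe
  have hb := hS.hb
  have hxT : |x| ≤ T := hx.trans (by
    conv_rhs => rw [← Real.rpow_one T]
    exact Real.rpow_le_rpow_of_exponent_le (by linarith) (by norm_num))
  have hlT0 : 0 ≤ Real.log T := Real.log_nonneg (by linarith)
  -- the shift is small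
  have hw1 : w0 ≤ 1 := by
    have h1 : N ^ (1 / 2 : ℝ) ≤ N ^ (12 : ℝ) :=
      Real.rpow_le_rpow_of_exponent_le hN1 (by norm_num)
    have h2 : N ^ (12 : ℝ) = N ^ 12 := by exact_mod_cast Real.rpow_natCast N 12
    have h3 := hS.hN
    have h4 : w0 * Real.log T ≤ 1 * Real.log T := by
      rw [one_mul]
      exact (hw2.trans h1).trans (h2.le.trans h3)
    have h5 : 0 < Real.log T := lt_of_lt_of_le (pow_pos hN0 12) h3
    exact le_of_mul_le_mul_right h4 h5
  have hwT : |w0| ≤ Real.sqrt T := by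
    rw [abs_of_nonneg hw]
    exact hw1.trans (Real.one_le_sqrt.2 (by linarith))
  set μ := un x T with hμ
  have : IsProbabilityMeasure μ := prob_un x hT0
  set w : Finset ℕ → ℝ := fun s => Real.exp (-∑ g ∈ s, (A.r g : ℝ)) with hwd
  have hws : 0 ≤ w s := Real.exp_nonneg _
  set D : ℝ := V - 10 * Real.log N with hD
  set I0 : Set ℝ := Icc (T ^ (19 / 20 : ℝ)) (x + T) with hI0
  set L : ℝ := Real.log A.p0 ^ 20 * (Real.log T / A.Y) * (1 + A.lam * A.Y) ^ 17 with hLdef
  have hL0 : 0 ≤ L := by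
    have h1 := hA.hl
    have h2 := hA.hY
    have h4 : 0 ≤ Real.log A.p0 := Real.log_nonneg (by
      have := hA.hp
      exact_mod_cast (by omega : 1 ≤ A.p0))
    have h5 : 0 < A.Y := by linarith
    positivity
  set R : ℝ := gr (Real.log T) w0 with hR
  have hR0 : 0 ≤ R := by
    rw [hR]
    unfold gr
    positivity
  have hR1 : R ≤ 32 * N ^ 5 := gr_small hN1 hlT0 hw hw2
  set q : ℝ := (N ^ 20)⁻¹ with hq
  have hq0 : 0 ≤ q := by positivity
  have hqe : Real.exp (-(2 * (V - D))) = q := by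
    rw [hD, hq, ← Real.exp_log (pow_pos hN0 20), ← Real.exp_neg, Real.log_pow]
    congr 1
    push_cast
    ring
  set E : Set ℝ := {t | t ∈ I0 ∧ A.Good s (om t) ∧ A.Bad s (om t) ∧ A.X s (om t) ≤ D ∧
    Real.exp V < ‖riemannZeta (1 / 2 + I * (t + w0 : ℝ))‖} with hE
  have hGV := G_nonneg A V
  set m : ℝ → ℝ := fun t => ‖A.mo (-1) s (om t)‖ ^ 2
    * ‖riemannZeta (1 / 2 + I * (t + w0 : ℝ))‖ ^ 2 with hm
  have hmc : Continuous m := by
    have c1 := cont_mo A (-1) s
    have c2 := cont_zetaw w0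
    exact (c1.norm.pow 2).mul (c2.norm.pow 2)
  have hm0 : ∀ t, 0 ≤ m t := fun t => by positivity
  set H : ℝ → ENNReal := I0.indicator fun t => ENNReal.ofReal (2 * q * m t) with hH
  have hHm : Measurable H := by
    refine Measurable.indicator ?_ measurableSet_Icc
    exact ENNReal.measurable_ofReal.comp (continuous_const.mul hmc).measurable
  have key := HW A hA hv0 (by rw [hb]; linarith) s hs x T (2 * q * (C4 * L * R * w s)) hT0
    (by positivity) H hHm ?_ D
  · refine le_trans ?_ (key.trans ?_)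
    · have e1 : E ⊆ {t | A.Good s (om t) ∧ A.Bad s (om t) ∧ A.X s (om t) ≤ D} :=
        fun t ht => ⟨ht.2.1, ht.2.2.1, ht.2.2.2.1⟩
      rw [← Measure.restrict_eq_self (μ := μ) e1]
      refine meas_le_lintegral₀ ?_ ?_
      · refine Measurable.aemeasurable (Measurable.mul ?_ hHm)
        exact ENNReal.measurable_ofReal.comp (Real.continuous_exp.comp
          (continuous_const.mul ((cont_X A s).sub continuous_const))).measurable
      · rintro t ⟨ht1, ht3, ht4, ht5, ht2⟩
        have q1 := (H5 A hA hv5 s hs (om t) ht3 ht4).2.2.2.2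
        rw [hH, Set.indicator_of_mem ht1, ← ENNReal.ofReal_mul (Real.exp_nonneg _),
          ← ENNReal.ofReal_one]
        refine ENNReal.ofReal_le_ofReal ?_
        have q2 : Real.exp (2 * V) ≤ ‖riemannZeta (1 / 2 + I * (t + w0 : ℝ))‖ ^ 2 := by
          have : Real.exp (2 * V) = Real.exp V ^ 2 := by rw [← Real.exp_nat_mul]; norm_num
          rw [this]
          exact pow_le_pow_left₀ (Real.exp_nonneg _) ht2.le 2
        have q3 : 1 / 2 * Real.exp (-(2 * A.X s (om t))) * Real.exp (2 * V) ≤ m t :=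
          mul_le_mul q1 q2 (Real.exp_nonneg _) (by positivity)
        calc (1 : ℝ) = Real.exp (2 * (A.X s (om t) - D))
              * (2 * q * (1 / 2 * Real.exp (-(2 * A.X s (om t))) * Real.exp (2 * V))) := by
              have : Real.exp (2 * (A.X s (om t) - D)) * (q * (Real.exp (-(2 * A.X s (om t)))
                  * Real.exp (2 * V))) = 1 := by
                rw [← hqe, ← Real.exp_add, ← Real.exp_add, ← Real.exp_add]
                rw [show 2 * (A.X s (om t) - D) + (-(2 * (V - D))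
                  + (-(2 * A.X s (om t)) + 2 * V)) = 0 by ring, Real.exp_zero]
              linear_combination -this
          _ ≤ Real.exp (2 * (A.X s (om t) - D)) * (2 * q * m t) := by
              refine mul_le_mul_of_nonneg_left ?_ (Real.exp_nonneg _)
              exact mul_le_mul_of_nonneg_left q3 (by positivity)
    · refine ENNReal.ofReal_le_ofReal ?_
      have hGD : A.G D ≤ A.G V * N := G_low A hbe1 hN1 V
      have hGD0 := G_nonneg A D
      have hC0 : 0 ≤ C := by linarith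
      have hC40 : 0 ≤ C4 := by linarith
      have hC60 : 0 ≤ C6 := by linarith
      rw [hb]
      calc C * (2 * q * (C4 * L * R * w s)) * (A.G D / (1 / 20))
          ≤ C * (2 * q * (C4 * (C6 * N ^ 9) * (32 * N ^ 5) * w s)) * (A.G V * N / (1 / 20)) := by
            gcongr
        _ = 1280 * (C * (C4 * C6)) * (q * N ^ 15) * w s * A.G V := by ring
        _ ≤ 1280 * (C * (C4 * C6)) * (1 / N) * w s * A.G V := by
            have h1 : q * N ^ 15 ≤ 1 / N := by
              rw [hq, inv_mul_eq_div, div_le_div_iff₀ (pow_pos hN0 20) hN0]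
              calc N ^ 15 * N = N ^ 16 := by ring
                _ ≤ N ^ 20 := pow_le_pow_right₀ hN1 (by norm_num)
                _ = 1 * N ^ 20 := (one_mul _).symm
            gcongr
        _ = K / N * w s * A.G V := by
            rw [hK]
            ring
  · intro y
    have q4 := HL A hA T hT hLen x hxT y w0 hwT s hs
    have e2 : ∀ t, ENNReal.ofReal (A.W s y (om t)) * H t
        = I0.indicator (fun t => ENNReal.ofReal (2 * q) * ENNReal.ofReal (A.W s y (om t) * m t)) t := by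
      intro t
      rw [hH]
      by_cases ht : t ∈ I0
      · rw [Set.indicator_of_mem ht, Set.indicator_of_mem ht, ← ENNReal.ofReal_mul'
          (by have := hm0 t; positivity)]
        rw [show A.W s y (om t) * (2 * q * m t) = 2 * q * (A.W s y (om t) * m t) by ring,
          ENNReal.ofReal_mul (by positivity)]
      · rw [Set.indicator_of_notMem ht, Set.indicator_of_notMem ht, mul_zero]
    simp_rw [e2]
    rw [lintegral_indicator measurableSet_Icc, lintegral_const_mul' _ _ ENNReal.ofReal_ne_top]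
    have e3 : ∫⁻ t in I0, ENNReal.ofReal (A.W s y (om t) * m t) ∂μ
        ≤ ENNReal.ofReal (C4 * Real.log A.p0 ^ 20 * (Real.log T / A.Y) * (1 + A.lam * A.Y) ^ 17
          * R * w s * A.G y) := q4
    refine (mul_le_mul_right e3 _).trans ?_
    rw [← ENNReal.ofReal_mul (by positivity)]
    refine ENNReal.ofReal_le_ofReal (le_of_eq ?_)
    rw [hLdef]
    ring

end E2x

open E2x

/-- E2 -/
theorem topUp (hL : LC.LineMeanX) (hu : GT.TiltUp) (hl : GT.TiltLow) (hM : GT.WMean)
    (hP : GT.WPoint) (hN : GT.GroupNum) (hS : LC.SpecNum) : TopUp := by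
  classical
  obtain ⟨C1, v1, hC1, H1⟩ := hu
  obtain ⟨C3, T3, hC3, hT3, H3⟩ := hM
  obtain ⟨C2, N2, T2, hC2, hN2, hT2, H2⟩ := lowPart hL hl hP hS
  refine ⟨16 * (C1 * C3) + 17 * C2, max (Real.exp v1 + 1) N2, max T2 T3, by nlinarith,
    le_max_of_le_right hN2, le_max_of_le_left hT2, ?_⟩
  intro A T N hS hNN hT x V w0 hx hw hw2
  have hA := hS.ok
  have hTa : T2 ≤ T := (le_max_left _ _).trans hT
  have hTb : T3 ≤ T := (le_max_right _ _).trans hT
  have hT1 : 3 ≤ T := hT2.trans hTa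
  have hT0 : 0 < T := by linarith
  have hNa : Real.exp v1 + 1 ≤ N := (le_max_left _ _).trans hNN
  have hNb : N2 ≤ N := (le_max_right _ _).trans hNN
  have hN1 : 1 ≤ N := hN2.trans hNb
  have hN0 : 0 < N := by linarith
  have hlN : 0 ≤ Real.log N := Real.log_nonneg hN1
  have hv1 : v1 ≤ A.v := by
    have h1 : (v1 : ℝ) ≤ Real.log N := by
      rw [Real.le_log_iff_exp_le hN0]
      linarith
    have h2 : (v1 : ℝ) ≤ A.v := by linarith [hS.hv1]
    exact_mod_cast h2
  have hLen : Len A T := len_of_spec hS (by linarith)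
  have hbe := hA.hbe
  have hbe1 := hS.hbe
  have hGV := G_nonneg A V
  set μ := un x T with hμ
  have : IsProbabilityMeasure μ := prob_un x hT0
  set P := (Finset.range A.J).powerset with hPd
  set w : Finset ℕ → ℝ := fun s => Real.exp (-∑ g ∈ s, (A.r g : ℝ)) with hwd
  set D : ℝ := V - 10 * Real.log N with hD
  have hGD0 := G_nonneg A D
  have hGD : A.G D ≤ A.G V * N := G_low A hbe1 hN1 V
  set I0 : Set ℝ := Icc (T ^ (19 / 20 : ℝ)) (x + T) with hI0
  set EA : Finset ℕ → Set ℝ := fun s => {t | A.Good s (om t) ∧ A.Bad s (om t) ∧ D < A.X s (om t)}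
    with hEA
  set EB : Finset ℕ → Set ℝ := fun s => {t | t ∈ I0 ∧ A.Good s (om t) ∧ A.Bad s (om t) ∧
    A.X s (om t) ≤ D ∧ Real.exp V < ‖riemannZeta (1 / 2 + I * (t + w0 : ℝ))‖} with hEB
  have bA : ∀ s ∈ P, μ (EA s) ≤ ENNReal.ofReal (C1 * (C3 * w s) * (A.G D / A.be)) := by
    intro s hs
    rw [hPd, Finset.mem_powerset] at hs
    have := H1 A hA hv1 s hs x T (C3 * w s) hT0 (by positivity) (fun _ => 1) measurable_const
      (fun y => by
        simp only [mul_one]
        exact H3 A hA T hTb hLen x y s hs) D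
    rwa [setLIntegral_one] at this
  have bB : ∀ s ∈ P, μ (EB s) ≤ ENNReal.ofReal (C2 / N * w s * A.G V) := by
    intro s hs
    rw [hPd, Finset.mem_powerset] at hs
    exact H2 A T N hS hNb hTa x V w0 hx hw hw2 s hs
  -- the covering
  have cov : {t | t ∈ I0 ∧ ¬ A.Good ∅ (om t) ∧
      Real.exp V < ‖riemannZeta (1 / 2 + I * (t + w0 : ℝ))‖}
      ⊆ (⋃ s ∈ P.erase ∅, EA s) ∪ ⋃ s ∈ P, EB s := by
    rintro t ⟨hI, hng, ht⟩
    set s : Finset ℕ := (Finset.range A.J).filter fun g => RR (A.r g) < ‖A.P g (om t)‖ with hs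
    have hsP : s ∈ P := Finset.mem_powerset.2 (Finset.filter_subset _ _)
    have hgood : A.Good s (om t) := by
      intro g hg
      rw [Finset.mem_sdiff, hs, Finset.mem_filter, not_and, not_lt] at hg
      exact hg.2 hg.1
    have hbad : A.Bad s (om t) := by
      intro g hg
      rw [hs, Finset.mem_filter] at hg
      exact hg.2
    have hs0 : s ≠ ∅ := by
      intro h
      rw [h] at hgood
      exact hng hgood
    rcases lt_or_ge D (A.X s (om t)) with hX | hX
    · left
      simp only [Set.mem_iUnion]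
      exact ⟨s, Finset.mem_erase.2 ⟨hs0, hsP⟩, hgood, hbad, hX⟩
    · right
      simp only [Set.mem_iUnion]
      exact ⟨s, hsP, hI, hgood, hbad, hX, ht⟩
  obtain ⟨s1, s2⟩ := sum_sets A.J (fun g => (A.r g : ℝ)) (Real.exp (-(A.v : ℝ))) (Real.exp_nonneg _)
    (Real.exp_le_one_iff.2 (by have : (0 : ℝ) ≤ A.v := Nat.cast_nonneg _; linarith))
    (hN A hA).2.2.2.2.2.1
  have hev : Real.exp (-(A.v : ℝ)) ≤ (N ^ 5)⁻¹ := by
    rw [← Real.exp_log (pow_pos hN0 5), ← Real.exp_neg, Real.log_pow]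
    refine Real.exp_le_exp.2 ?_
    have := hS.hv1
    push_cast
    linarith
  have t1 : μ (⋃ s ∈ P.erase ∅, EA s)
      ≤ ENNReal.ofReal (16 * (C1 * C3) * (1 / (N ^ 4 * A.be)) * A.G V) := by
    refine (measure_biUnion_finset_le _ _).trans ?_
    refine (Finset.sum_le_sum fun s hs => bA s (Finset.mem_of_mem_erase hs)).trans ?_
    rw [← ENNReal.ofReal_sum_of_nonneg (fun s _ => by positivity)]
    refine ENNReal.ofReal_le_ofReal ?_
    rw [← Finset.sum_mul, ← Finset.mul_sum, ← Finset.mul_sum]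
    have hs3 : ∑ s ∈ P.erase ∅, w s ≤ 16 * (N ^ 5)⁻¹ := by
      refine s1.trans ?_
      linarith
    calc C1 * (C3 * ∑ s ∈ P.erase ∅, w s) * (A.G D / A.be)
        ≤ C1 * (C3 * (16 * (N ^ 5)⁻¹)) * (A.G V * N / A.be) := by
          gcongr
      _ = 16 * (C1 * C3) * (1 / (N ^ 4 * A.be)) * A.G V := by
          field_simp
  have t2 : μ (⋃ s ∈ P, EB s) ≤ ENNReal.ofReal (17 * C2 * (1 / N) * A.G V) := by
    refine (measure_biUnion_finset_le _ _).trans ?_
    refine (Finset.sum_le_sum fun s hs => bB s hs).trans ?_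
    rw [← ENNReal.ofReal_sum_of_nonneg (fun s _ => by positivity)]
    refine ENNReal.ofReal_le_ofReal ?_
    rw [← Finset.sum_mul, ← Finset.mul_sum]
    calc C2 / N * (∑ s ∈ P, w s) * A.G V ≤ C2 / N * 17 * A.G V := by gcongr
      _ = 17 * C2 * (1 / N) * A.G V := by ring
  refine (measure_mono cov).trans ((measure_union_le _ _).trans ?_)
  refine (add_le_add t1 t2).trans ?_
  rw [← ENNReal.ofReal_add (by positivity) (by positivity)]
  refine ENNReal.ofReal_le_ofReal ?_
  have hC0 : 0 ≤ C1 * C3 := by nlinarith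
  have a1 : 0 ≤ 1 / (N ^ 4 * A.be) := by positivity
  have a2 : 0 ≤ 1 / N := by positivity
  have a3 : 16 * (C1 * C3) * (1 / (N ^ 4 * A.be)) + 17 * C2 * (1 / N)
      ≤ (16 * (C1 * C3) + 17 * C2) * (1 / (N ^ 4 * A.be) + 1 / N) := by
    have hC20 : 0 ≤ C2 := by linarith
    have b1 : 0 ≤ C1 * C3 * (1 / N) := by positivity
    have b2 : 0 ≤ C2 * (1 / (N ^ 4 * A.be)) := by positivity
    linarith
  calc 16 * (C1 * C3) * (1 / (N ^ 4 * A.be)) * A.G V + 17 * C2 * (1 / N) * A.G V
      = (16 * (C1 * C3) * (1 / (N ^ 4 * A.be)) + 17 * C2 * (1 / N)) * A.G V := by ring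
    _ ≤ (16 * (C1 * C3) + 17 * C2) * (1 / (N ^ 4 * A.be) + 1 / N) * A.G V := by gcongr

end Pool.Agent.Lib.RA
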