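import Mathlib
import Pool.Agent.Lib.MP_f9aece_nt_rate.Stmts
import Pool.Agent.Lib.MP_f9aece_nt_loc.E5

/-!
The rate in the central limit theorem for `log |zeta|`: module E3, the prime sums of two levels far
apart.
-/

set_option autoImplicit false

namespace Pool.Agent.Lib.RA

open MeasureTheory Set Filter Topology Complex ProbabilityTheory
open scoped ComplexConjugate
open Pool.Agent.Lib.GT
open Pool.Agent.Lib.LC
open Pool.Agent.Lib.LC.SF (cont_lin far_int)

/-- E3 -/
theorem farPair (hT : LC.TiltW) (hL : LC.LinMean) (hP : SpecPair) (hS : LC.SpecNum) : FarPair := by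
  classical
  obtain ⟨CW, C1, v0, hCW, hC1, HW⟩ := hT
  obtain ⟨CL, TL, hCL, hTL, HL⟩ := hL
  obtain ⟨CN, N1, hCN, hN1, HN⟩ := hS
  obtain ⟨CS, N2, hCS, hN2, HS⟩ := hP
  -- the logarithm is small
  obtain ⟨N3, hN3, HN3⟩ : ∃ N3 : ℝ, 1 ≤ N3 ∧ ∀ N : ℝ, N3 ≤ N →
      Real.log N ^ 2 ≤ N ^ (1 / 2 : ℝ) ∧ 2 * C1 ≤ N ∧ (v0 : ℝ) ≤ 5 * Real.log N ∧
      1 ≤ Real.log N := by
    have e1 : ∀ᶠ N : ℝ in atTop, Real.log N ^ 2 ≤ N ^ (1 / 2 : ℝ) := by
      have h1 := (isLittleO_log_rpow_rpow_atTop (s := 1 / 2) 2 (by norm_num)).bound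
        (show (0 : ℝ) < 1 by norm_num)
      filter_upwards [h1, eventually_ge_atTop (1 : ℝ)] with N h2 h3
      rw [one_mul, Real.norm_of_nonneg (Real.rpow_nonneg (Real.log_nonneg h3) _),
        Real.norm_of_nonneg (Real.rpow_nonneg (by linarith) _)] at h2
      calc Real.log N ^ 2 = Real.log N ^ (2 : ℝ) := by norm_cast
        _ ≤ _ := h2
    have e2 : ∀ᶠ N : ℝ in atTop, 2 * C1 ≤ N := eventually_ge_atTop _
    have e3 : ∀ᶠ N : ℝ in atTop, (v0 : ℝ) / 5 ≤ Real.log N :=
      Real.tendsto_log_atTop.eventually_ge_atTop _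
    have e4 : ∀ᶠ N : ℝ in atTop, 1 ≤ Real.log N := Real.tendsto_log_atTop.eventually_ge_atTop _
    obtain ⟨N3, H⟩ := eventually_atTop.1 (e1.and (e2.and (e3.and e4)))
    refine ⟨max 1 N3, le_max_left _ _, fun N hN => ?_⟩
    obtain ⟨q1, q2, q3, q4⟩ := H N ((le_max_right _ _).trans hN)
    exact ⟨q1, q2, by linarith, q4⟩
  refine ⟨CW * CL * CS ^ 2 * 32, max N1 (max N2 N3), TL, ?_, le_max_of_le_left hN1, hTL, ?_⟩
  · have : 1 ≤ CW * CL := by nlinarith
    have : 1 ≤ CS ^ 2 := by nlinarith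
    nlinarith
  intro A A' T N M hA hA' hNN hNM hT x V
  have hNN1 : N1 ≤ N := (le_max_left _ _).trans hNN
  have hNN2 : N2 ≤ N := ((le_max_left _ _).trans (le_max_right _ _)).trans hNN
  have hNN3 : N3 ≤ N := ((le_max_right _ _).trans (le_max_right _ _)).trans hNN
  have hNp : 1 ≤ N := hN3.trans hNN3
  have hNM1 : N ≤ M := by
    refine le_trans ?_ hNM
    calc N = N ^ (1 : ℝ) := (Real.rpow_one N).symm
      _ ≤ N ^ (3 / 2 : ℝ) := Real.rpow_le_rpow_of_exponent_le hNp (by norm_num)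
  obtain ⟨-, -, l3, l4⟩ := HN3 N hNN3
  obtain ⟨m1, m2, -, m4⟩ := HN3 M (hNN3.trans hNM1)
  have hT0 : 0 < T := by linarith
  have hOk := hA.ok
  obtain ⟨hLen, -⟩ := HN A T N hA hNN1
  obtain ⟨-, -, -, -, c, c1, c2, c3, c4⟩ := HS A A' T N M hA hA' hNN2 hNM
  have hv : v0 ≤ A.v := by
    have := hA.hv1
    have h1 : (v0 : ℝ) ≤ A.v := by linarith
    exact_mod_cast h1
  have hMp : 0 < M := by linarith
  have hbe := hOk.hbe
  have hGV : 0 ≤ A.G V := by unfold Par.G; positivity
  set μ := un x T with hμ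
  have hprob : IsProbabilityMeasure μ := prob_un x hT0
  set E : Set ℝ := {t | A.Good ∅ (om t) ∧ V + M < A.X ∅ (om t) ∧
    A.X ∅ (om t) - V < 2 * |A.X ∅ (om t) - A'.X ∅ (om t)|} with hE
  set D : ℝ := CS * Real.log M with hD
  have hD1 : 1 ≤ D := by rw [hD]; nlinarith
  set H : ℝ → ENNReal := fun t => ENNReal.ofReal ((lin A.U c (om t)).re ^ 2) with hH
  have hHm : Measurable H := by
    refine ENNReal.measurable_ofReal.comp ?_
    exact ((Complex.continuous_re.comp (cont_lin A.U c)).pow 2).measurable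
  set ω : ℝ → ENNReal := (Ioi (V + M)).indicator fun u => ENNReal.ofReal (4 / (u - V) ^ 2) with hω
  set ω' : ℝ → ENNReal := (Ioi (V + (M - C1))).indicator
    fun u => ENNReal.ofReal (4 * (4 / (u - V) ^ 2)) with hω'
  have hωm : Measurable ω := by
    refine Measurable.indicator ?_ measurableSet_Ioi
    exact ENNReal.measurable_ofReal.comp (by fun_prop)
  have hωm' : Measurable ω' := by
    refine Measurable.indicator ?_ measurableSet_Ioi
    exact ENNReal.measurable_ofReal.comp (by fun_prop)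
  have hcmp : ∀ u y : ℝ, |u - y| ≤ C1 → ω u ≤ ω' y := by
    intro u y huy
    rw [abs_le] at huy
    by_cases hu : u ∈ Ioi (V + M)
    · rw [hω, Set.indicator_of_mem hu]
      rw [mem_Ioi] at hu
      have hy : y ∈ Ioi (V + (M - C1)) := by rw [mem_Ioi]; linarith [huy.2]
      rw [hω', Set.indicator_of_mem hy]
      rw [mem_Ioi] at hy
      refine ENNReal.ofReal_le_ofReal ?_
      have h1 : 0 < y - V := by linarith
      have h2 : 0 < u - V := by linarith
      have h3 : y - V ≤ 2 * (u - V) := by linarith [huy.1]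
      rw [mul_div_assoc', div_le_div_iff₀ (by positivity) (by positivity)]
      nlinarith
    · rw [hω, Set.indicator_of_notMem hu]
      exact zero_le
  have hsE : (∅ : Finset ℕ) ⊆ Finset.range A.J := Finset.empty_subset _
  have hU : A.U \ (∅ : Finset ℕ).biUnion A.S = A.U := by simp
  have key := HW A hOk hv hA.hb ∅ hsE μ inferInstance (CL * D ^ 2) (by positivity) H hHm
    (fun y => by
      have := HL A hOk T hT hLen x y ∅ hsE c c1 D hD1 (by rw [hU]; exact c3) (by rw [hU]; exact c4)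
      rw [Finset.sum_empty, neg_zero, Real.exp_zero, mul_one] at this
      refine le_trans (le_of_eq ?_) this
      refine lintegral_congr fun t => ?_
      rw [hH]
      simp only
      rw [← ENNReal.ofReal_mul' (sq_nonneg _)])
    ω ω' hωm hωm' hcmp
  have hup : μ E ≤ ∫⁻ t in {t | A.Good ∅ (om t) ∧ A.Bad ∅ (om t)}, ω (A.X ∅ (om t)) * H t ∂μ := by
    have e1 : E ⊆ {t | A.Good ∅ (om t) ∧ A.Bad ∅ (om t)} :=
      fun t ht => ⟨ht.1, fun g hg => absurd hg (Finset.notMem_empty g)⟩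
    rw [← Measure.restrict_eq_self (μ := μ) e1]
    refine meas_le_lintegral₀ ?_ ?_
    · refine Measurable.aemeasurable (Measurable.mul (hωm.comp ?_) hHm)
      unfold Par.X
      exact (continuous_finsetSum _ fun g _ => Complex.continuous_re.comp
        (cont_lin _ _)).measurable
    · rintro t ⟨ht1, ht2, ht3⟩
      rw [hω, Set.indicator_of_mem (show A.X ∅ (om t) ∈ Ioi (V + M) from ht2), hH]
      simp only
      rw [← ENNReal.ofReal_mul (by positivity), ← ENNReal.ofReal_one]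
      refine ENNReal.ofReal_le_ofReal ?_
      rw [← c2 (om t)]
      have h2 : 0 < A.X ∅ (om t) - V := by linarith
      rw [div_mul_eq_mul_div, one_le_div (by positivity)]
      have h3 : (2 * |A.X ∅ (om t) - A'.X ∅ (om t)|) ^ 2
          = 4 * (A.X ∅ (om t) - A'.X ∅ (om t)) ^ 2 := by rw [mul_pow, sq_abs]; ring
      rw [← h3]
      exact pow_le_pow_left₀ h2.le ht3.le 2
  refine hup.trans (key.trans ?_)
  have hpt : ∀ y : ℝ, ω' y * ENNReal.ofReal (A.G y)
      ≤ (Ioi (V + (M - C1))).indicator (fun u => ENNReal.ofReal (4 / (u - V) ^ 2)) y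
        * ENNReal.ofReal (4 * A.G V) := by
    intro y
    by_cases hy : y ∈ Ioi (V + (M - C1))
    · rw [hω', Set.indicator_of_mem hy, Set.indicator_of_mem hy,
        ← ENNReal.ofReal_mul (by positivity), ← ENNReal.ofReal_mul (by positivity)]
      refine ENNReal.ofReal_le_ofReal ?_
      rw [mem_Ioi] at hy
      have h0 : A.G y ≤ A.G V := by
        unfold Par.G
        have h1 : V ≤ y := by linarith
        have h2 : A.be * V ≤ A.be * y := mul_le_mul_of_nonneg_left h1 hbe.le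
        gcongr
      calc 4 * (4 / (y - V) ^ 2) * A.G y ≤ 4 * (4 / (y - V) ^ 2) * A.G V := by gcongr
        _ = 4 / (y - V) ^ 2 * (4 * A.G V) := by ring
    · rw [hω', Set.indicator_of_notMem hy, zero_mul]
      exact zero_le
  have hint : ∫⁻ y : ℝ, ω' y * ENNReal.ofReal (A.G y)
      ≤ ENNReal.ofReal (32 / M * A.G V) := by
    refine (lintegral_mono hpt).trans ?_
    rw [lintegral_mul_const _ (by
      refine Measurable.indicator ?_ measurableSet_Ioi
      exact ENNReal.measurable_ofReal.comp (by fun_prop)), lintegral_indicator measurableSet_Ioi,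
      far_int (by linarith), ← ENNReal.ofReal_mul (div_nonneg (by norm_num) (by linarith))]
    refine ENNReal.ofReal_le_ofReal ?_
    have h1 : 4 / (M - C1) ≤ 8 / M := by
      rw [div_le_div_iff₀ (by linarith) hMp]
      linarith
    calc 4 / (M - C1) * (4 * A.G V) ≤ 8 / M * (4 * A.G V) := by gcongr
      _ = 32 / M * A.G V := by ring
  refine (mul_le_mul_right hint _).trans ?_
  rw [← ENNReal.ofReal_mul (by positivity)]
  refine ENNReal.ofReal_le_ofReal ?_
  have hM2 : M ^ (-(1 / 2) : ℝ) = M ^ (1 / 2 : ℝ) / M := by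
    rw [eq_div_iff hMp.ne']
    nth_rewrite 2 [← Real.rpow_one M]
    rw [← Real.rpow_add hMp]
    norm_num
  have e2 : D ^ 2 / M ≤ CS ^ 2 * M ^ (-(1 / 2) : ℝ) := by
    rw [hM2, hD, mul_pow, mul_div_assoc]
    gcongr
  calc CW * (CL * D ^ 2) * (32 / M * A.G V) = CW * CL * 32 * (D ^ 2 / M) * A.G V := by ring
    _ ≤ CW * CL * 32 * (CS ^ 2 * M ^ (-(1 / 2) : ℝ)) * A.G V := by gcongr
    _ = CW * CL * CS ^ 2 * 32 * M ^ (-(1 / 2) : ℝ) * A.G V := by ring

end Pool.Agent.Lib.RA
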