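import Mathlib
import Pool.Agent.Lib.MP_f9aece_nt_rate.Stmts
import Pool.Agent.Lib.MP_f9aece_nt_loc.D3
import Pool.Agent.Lib.MP_f9aece_nt_gt.F1

/-!
Row E4: nice heights with a large prime sum and small values of zeta nearby; heights which are not nice.
-/

set_option autoImplicit false
set_option linter.unusedVariables false

namespace Pool.Agent.Lib.RA

open MeasureTheory Set Filter Topology Complex ProbabilityTheory
open scoped ComplexConjugate
open Pool.Agent.Lib.GT
open Pool.Agent.Lib.LC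
open Pool.Agent.Lib.LC.D3aux (G_anti win_set cont_zeta)
open Pool.Agent.Lib.GT.P4aux (meas_good markov)

namespace E4x

/-- Tonelli for the shifts -/
lemma ton {m : Measure ℝ} [SFinite m] {l0 : ℝ} {M : Set ℝ} (hM : MeasurableSet M)
    {R : Set (ℝ × ℝ)} (hR : MeasurableSet R) {K : ℝ → ENNReal}
    (hK : ∀ τ ∈ M, volume {w : ℝ | w ∈ Icc 0 l0 ∧ (τ, w) ∈ R} ≤ K τ) :
    ∫⁻ w in Icc 0 l0, m {t | t ∈ M ∧ (t, w) ∈ R} ≤ ∫⁻ t in M, K t ∂m := by
  have hI : Measurable (R.indicator (fun _ => (1 : ENNReal))) := measurable_const.indicator hR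
  have h1 : ∀ w : ℝ, m {t | t ∈ M ∧ (t, w) ∈ R}
      = ∫⁻ t in M, R.indicator (fun _ => (1 : ENNReal)) (t, w) ∂m := by
    intro w
    have hRw : MeasurableSet {τ : ℝ | (τ, w) ∈ R} := by
      have : Measurable fun τ : ℝ => ((τ, w) : ℝ × ℝ) := by fun_prop
      exact this hR
    calc m {t | t ∈ M ∧ (t, w) ∈ R} = (m.restrict M) {τ : ℝ | (τ, w) ∈ R} := by
          rw [Measure.restrict_apply hRw, inter_comm]
          rfl
      _ = ∫⁻ t in M, {τ : ℝ | (τ, w) ∈ R}.indicator (fun _ => (1 : ENNReal)) t ∂m := by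
          rw [lintegral_indicator hRw, setLIntegral_const, one_mul]
      _ = ∫⁻ t in M, R.indicator (fun _ => (1 : ENNReal)) (t, w) ∂m := by
          refine lintegral_congr fun τ => ?_
          by_cases h : (τ, w) ∈ R
          · rw [indicator_of_mem h, indicator_of_mem (by exact h)]
          · rw [indicator_of_notMem h, indicator_of_notMem (by exact h)]
  calc ∫⁻ w in Icc 0 l0, m {t | t ∈ M ∧ (t, w) ∈ R}
      = ∫⁻ w in Icc 0 l0, ∫⁻ t in M, R.indicator (fun _ => (1 : ENNReal)) (t, w) ∂m := by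
        simp only [h1]
    _ = ∫⁻ t in M, (∫⁻ w in Icc 0 l0, R.indicator (fun _ => (1 : ENNReal)) (t, w)) ∂m := by
        have hI2 : Measurable (Function.uncurry fun w τ : ℝ =>
            R.indicator (fun _ => (1 : ENNReal)) (τ, w)) := hI.comp measurable_swap
        exact lintegral_lintegral_swap hI2.aemeasurable
    _ ≤ ∫⁻ t in M, K t ∂m := by
        refine setLIntegral_mono' hM fun τ hτ => ?_
        refine le_trans (le_of_eq ?_) (hK τ hτ)
        have hRt : MeasurableSet {w : ℝ | (τ, w) ∈ R} := by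
          have : Measurable fun w : ℝ => ((τ, w) : ℝ × ℝ) := by fun_prop
          exact this hR
        have e : ∀ w : ℝ, R.indicator (fun _ => (1 : ENNReal)) (τ, w)
            = {w : ℝ | (τ, w) ∈ R}.indicator (fun _ => (1 : ENNReal)) w := by
          intro w
          by_cases h : (τ, w) ∈ R
          · rw [indicator_of_mem h, indicator_of_mem (by exact h)]
          · rw [indicator_of_notMem h, indicator_of_notMem (by exact h)]
        simp only [e]
        rw [lintegral_indicator hRt, setLIntegral_const, one_mul, Measure.restrict_apply hRt,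
          inter_comm]
        rfl

/-- an exponential integral -/
lemma int_exp {k B : ℝ} (hk : 0 < k) (hB : 0 ≤ B) (V a : ℝ) :
    ∫⁻ y in Ioi (V + a), ENNReal.ofReal (B * Real.exp (-(k * (y - V))))
      = ENNReal.ofReal (B * (Real.exp (-(k * a)) / k)) := by
  have hG : ∀ y, B * Real.exp (-(k * (y - V))) = B * Real.exp (k * V) * Real.exp (-k * y) := by
    intro y
    rw [mul_assoc, ← Real.exp_add]
    congr 2
    ring
  have hi : IntegrableOn (fun y => B * Real.exp (k * V) * Real.exp (-k * y)) (Ioi (V + a)) :=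
    (integrableOn_exp_mul_Ioi (by linarith) (V + a)).const_mul _
  have e1 : ∫⁻ y in Ioi (V + a), ENNReal.ofReal (B * Real.exp (-(k * (y - V)))) =
      ENNReal.ofReal (∫ y in Ioi (V + a), B * Real.exp (k * V) * Real.exp (-k * y)) := by
    rw [ofReal_integral_eq_lintegral_ofReal hi (Eventually.of_forall fun y => by positivity)]
    exact lintegral_congr fun y => by rw [hG y]
  rw [e1]
  congr 1
  rw [integral_const_mul, integral_exp_mul_Ioi (by linarith)]
  rw [mul_assoc, ← mul_div_assoc, mul_neg, ← Real.exp_add]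
  rw [show k * V + -k * (V + a) = -(k * a) by ring]
  field_simp

/-- the numbers -/
lemma num {K c : ℝ} (hK : 1 ≤ K) (hc : 0 < c) : ∃ N0 : ℝ, 1 ≤ N0 ∧ ∀ N : ℝ, N0 ≤ N →
    K * (N ^ (1 / 2 : ℝ) / c) * Real.exp (-(c * N ^ (1 / 2 : ℝ) / 4)) ≤ Real.exp (-(N ^ (1 / 4 : ℝ))) := by
  obtain ⟨z0, hz0⟩ : ∃ z0 : ℝ, z0 = 12 / c + |Real.log (2 * (K / c))| := ⟨_, rfl⟩
  have hz00 : 0 ≤ z0 := by
    rw [hz0]
    positivity
  refine ⟨max 1 (z0 ^ 4), le_max_left _ _, ?_⟩
  intro N hN
  have hN1 : 1 ≤ N := (le_max_left _ _).trans hN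
  have hN0 : 0 < N := by linarith
  have hN4 : z0 ^ 4 ≤ N := (le_max_right _ _).trans hN
  obtain ⟨z, hz⟩ : ∃ z : ℝ, z = N ^ (1 / 4 : ℝ) := ⟨_, rfl⟩
  have hzz : N ^ (1 / 2 : ℝ) = z ^ 2 := by
    rw [hz, ← Real.rpow_natCast, ← Real.rpow_mul hN0.le]
    norm_num
  have hz1 : z0 ≤ z := by
    rw [hz]
    have h1 : z0 = (z0 ^ 4) ^ (1 / 4 : ℝ) := by
      rw [← Real.rpow_natCast, ← Real.rpow_mul hz00]
      norm_num
    rw [h1]
    exact Real.rpow_le_rpow (by positivity) hN4 (by norm_num)
  have hz2 : 0 ≤ z := hz00.trans hz1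
  have h12 : 12 / c ≤ z := by
    have := abs_nonneg (Real.log (2 * (K / c)))
    linarith
  have hlog : Real.log (2 * (K / c)) ≤ z := by
    have h1 := le_abs_self (Real.log (2 * (K / c)))
    have h2 : 0 ≤ 12 / c := by positivity
    linarith
  rw [← hz, hzz]
  have h3 : 3 * z ≤ c * z ^ 2 / 4 := by
    have h4 : 12 ≤ z * c := by rwa [div_le_iff₀ hc] at h12
    nlinarith
  have h5 : z ^ 2 ≤ 2 * Real.exp z := by
    have := Real.quadratic_le_exp_of_nonneg hz2
    linarith
  have hKc : 0 < 2 * (K / c) := by positivity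
  calc K * (z ^ 2 / c) * Real.exp (-(c * z ^ 2 / 4))
      = (K / c) * z ^ 2 * Real.exp (-(c * z ^ 2 / 4)) := by ring
    _ ≤ (K / c) * (2 * Real.exp z) * Real.exp (-(c * z ^ 2 / 4)) := by gcongr
    _ = Real.exp (Real.log (2 * (K / c))) * Real.exp z * Real.exp (-(c * z ^ 2 / 4)) := by
        rw [Real.exp_log hKc]
        ring
    _ = Real.exp (Real.log (2 * (K / c)) + z + -(c * z ^ 2 / 4)) := by
        rw [Real.exp_add, Real.exp_add]
    _ ≤ Real.exp (-z) := Real.exp_le_exp.2 (by linarith)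

end E4x

open E4x

/-- E4 -/
theorem lowNice (hN : LC.NiceMean) (hD : LC.NiceShift) (hM : WMean) (hT : LC.TiltW)
    (hS : LC.SpecNum) : LowNice := by
  obtain ⟨CT, C1, v1, hCT, hC1, hW⟩ := hT
  obtain ⟨CM, TM, hCM, hTM, hM⟩ := hM
  obtain ⟨CN, C2, TN, hCN, hC2, hTN, hN⟩ := hN
  obtain ⟨cI, CI, TI, vI, hcI, hCI, hTI, hI⟩ := hD C2 hC2
  obtain ⟨CS, NS, hCS, hNS, hS⟩ := hS
  have hEI := Real.exp_pos CI
  have hK1 : 1 ≤ CT * CM * Real.exp (CI + cI * C1) := by
    have h1 : 1 ≤ Real.exp (CI + cI * C1) := Real.one_le_exp (by positivity)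
    exact one_le_mul_of_one_le_of_one_le (one_le_mul_of_one_le_of_one_le hCT hCM) h1
  obtain ⟨N1, hN11, hN1⟩ := num hK1 hcI
  have hCC : 1 ≤ CT * CN * CS * Real.exp C1 * (3 * C1) := by
    have h1 : 1 ≤ Real.exp C1 := Real.one_le_exp (by linarith)
    exact one_le_mul_of_one_le_of_one_le (one_le_mul_of_one_le_of_one_le
      (one_le_mul_of_one_le_of_one_le (one_le_mul_of_one_le_of_one_le hCT hCN) hCS) h1) (by linarith)
  refine ⟨CT * CN * CS * Real.exp C1 * (3 * C1), C2,
    max (max NS N1) (max (4 * C1) (Real.exp (v1 + vI))), max TM (max TN TI), hCC, hC2,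
    (hNS.trans (le_max_left _ _)).trans (le_max_left _ _), hTM.trans (le_max_left _ _), ?_⟩
  intro A T N hA hNN hTT x V hx
  have hok := hA.ok
  have hNS' : NS ≤ N := ((le_max_left _ _).trans (le_max_left _ _)).trans hNN
  have hN1' : N1 ≤ N := ((le_max_right _ _).trans (le_max_left _ _)).trans hNN
  have hN4 : 4 * C1 ≤ N := ((le_max_left _ _).trans (le_max_right _ _)).trans hNN
  have hNv : Real.exp (v1 + vI) ≤ N := ((le_max_right _ _).trans (le_max_right _ _)).trans hNN
  have hTM' : TM ≤ T := (le_max_left _ _).trans hTT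
  have hTN' : TN ≤ T := ((le_max_left _ _).trans (le_max_right _ _)).trans hTT
  have hTI' : TI ≤ T := ((le_max_right _ _).trans (le_max_right _ _)).trans hTT
  have hN1r : 1 ≤ N := hNS.trans hNS'
  have hN0 : 0 < N := by linarith
  have hlogN : (v1 : ℝ) + vI ≤ Real.log N := (Real.le_log_iff_exp_le hN0).2 hNv
  have hv5 := hA.hv1
  have hv1 : v1 ≤ A.v := by
    have h1 : (0 : ℝ) ≤ vI := Nat.cast_nonneg _
    have h2 : (0 : ℝ) ≤ v1 := Nat.cast_nonneg _
    have : (v1 : ℝ) ≤ A.v := by linarith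
    exact_mod_cast this
  have hvI : vI ≤ A.v := by
    have h1 : (0 : ℝ) ≤ vI := Nat.cast_nonneg _
    have h2 : (0 : ℝ) ≤ v1 := Nat.cast_nonneg _
    have : (vI : ℝ) ≤ A.v := by linarith
    exact_mod_cast this
  obtain ⟨hLen, hp0, hlY, hlT, hl1, hkap, -⟩ := hS A T N hA hNS'
  have hT3 : 3 ≤ T := hTM.trans hTM'
  have hT0 : 0 < T := by linarith
  have hlogT : 1 < Real.log T := by
    rw [Real.lt_log_iff_exp_lt hT0]
    have := Real.exp_one_lt_d9
    linarith
  have hlt0 : 0 < Real.log T := by linarith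
  have hl := hok.hl
  have hl0 : 0 < A.lam := by
    by_contra h
    have : A.lam = 0 := le_antisymm (not_lt.mp h) hl
    rw [this] at hlT
    linarith
  have hqN : A.lam * Real.log T = N ^ (1 / 2 : ℝ) := by
    rw [hA.hl]
    field_simp
  have hxT : |x| ≤ T := hx.trans (by
    calc T ^ (9 / 10 : ℝ) ≤ T ^ (1 : ℝ) :=
          Real.rpow_le_rpow_of_exponent_le (by linarith) (by norm_num)
      _ = T := Real.rpow_one T)
  have h910 : T ^ (9 / 10 : ℝ) ≤ T ^ (19 / 20 : ℝ) :=
    Real.rpow_le_rpow_of_exponent_le (by linarith) (by norm_num)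
  have hprob := prob_un x hT0
  have hbb : 0 ≤ A.b := hok.b_pos.le
  have hGV := (hok.G_pos V).le
  have hbe0 := hok.hbe
  -- the tilt
  have htilt : ∀ κ : ℝ, 0 ≤ κ → ∀ H : ℝ → ENNReal, Measurable H →
      (∀ y : ℝ, ∫⁻ t, ENNReal.ofReal (A.W ∅ y (om t)) * H t ∂(un x T)
        ≤ ENNReal.ofReal (κ * A.G y)) →
      ∀ ω ω' : ℝ → ENNReal, Measurable ω → Measurable ω' → (∀ u y : ℝ, |u - y| ≤ C1 → ω u ≤ ω' y) →
      ∫⁻ t in {t | A.Good ∅ (om t) ∧ A.Bad ∅ (om t)}, ω (A.X ∅ (om t)) * H t ∂(un x T)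
        ≤ ENNReal.ofReal (CT * κ) * ∫⁻ y : ℝ, ω' y * ENNReal.ofReal (A.G y) :=
    fun κ hκ H hH hW' => hW A hok hv1 hA.hb ∅ (Finset.empty_subset _) (un x T)
      inferInstance κ hκ H hH hW'
  -- measurability
  have hNm : MeasurableSet {t : ℝ | Nice C2 A T t} :=
    (hN A hok T hTN' hLen hp0 hlY hlT hl1 x hxT 0).1
  have hXm : Measurable fun t : ℝ => A.X ∅ (om t) := ((A.continuous_X ∅).comp continuous_om).measurable
  -- heights which are not nice
  have hkap0 : 0 ≤ kap A T := by
    unfold kap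
    have : 0 ≤ Real.log (A.p0 : ℝ) := Real.log_natCast_nonneg _
    have := hok.hY
    positivity
  obtain ⟨Bx, hBx⟩ : ∃ Bx : Set ℝ, Bx = {t | t ∈ Icc (T ^ (19 / 20 : ℝ)) (x + T) ∧
      ¬ Nice C2 A T t} := ⟨_, rfl⟩
  have hBxm : MeasurableSet Bx := by
    rw [hBx]
    exact measurableSet_Icc.inter hNm.compl
  have hWB : ∀ y : ℝ, ∫⁻ t, ENNReal.ofReal (A.W ∅ y (om t) * Bx.indicator (fun _ => (1 : ℝ)) t)
      ∂(un x T) ≤ ENNReal.ofReal (CN * (CS / N ^ 3) * A.G y) := by
    intro y
    have hGy := (hok.G_pos y).le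
    have h1 : ∫⁻ t, ENNReal.ofReal (A.W ∅ y (om t) * Bx.indicator (fun _ => (1 : ℝ)) t) ∂(un x T)
        ≤ ENNReal.ofReal (CN * kap A T * A.G y) := by
      refine le_trans (le_of_eq ?_) ((hN A hok T hTN' hLen hp0 hlY hlT hl1 x hxT y).2)
      rw [← hBx, ← lintegral_indicator hBxm]
      congr 1
      ext t
      by_cases ht : t ∈ Bx
      · rw [indicator_of_mem ht, indicator_of_mem ht, mul_one]
      · rw [indicator_of_notMem ht, indicator_of_notMem ht, mul_zero, ENNReal.ofReal_zero]
    refine h1.trans (ENNReal.ofReal_le_ofReal ?_)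
    gcongr
  have hGC : A.G (V - C1) ≤ A.G V * Real.exp C1 := by
    rw [A.G_shift (V - C1) V]
    have h1 : -(A.be * (V - C1 - V)) ≤ C1 := by
      have h2 := hA.hbe
      nlinarith
    gcongr
  have hN3 : 0 < N ^ 3 := by positivity
  refine ⟨hNm, ?_, ?_, ?_⟩
  · -- (1)
    intro l0 hl00 hl0l
    obtain ⟨M, hMd⟩ : ∃ M : Set ℝ, M = {t | t ∈ Icc (T ^ (19 / 20 : ℝ)) (x + T) ∧
        A.Good ∅ (om t) ∧ Nice C2 A T t ∧ V + N / 2 < A.X ∅ (om t)} := ⟨_, rfl⟩
    have hMm : MeasurableSet M := by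
      rw [hMd]
      exact measurableSet_Icc.inter ((meas_good A).inter (hNm.inter
        (measurableSet_lt measurable_const hXm)))
    obtain ⟨R, hRd⟩ : ∃ R : Set (ℝ × ℝ), R = {p | ‖riemannZeta (1 / 2 + I * (p.1 + p.2 : ℝ))‖
        ≤ Real.exp V} := ⟨_, rfl⟩
    have hRm : MeasurableSet R := by
      rw [hRd]
      refine measurableSet_le ?_ measurable_const
      have h1 : Continuous fun p : ℝ × ℝ => riemannZeta (1 / 2 + I * (p.1 + p.2 : ℝ)) :=
        cont_zeta.comp (f := fun p : ℝ × ℝ => p.1 + p.2) (by fun_prop)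
      exact h1.norm.measurable
    obtain ⟨q, hq⟩ : ∃ q : ℝ, q = N ^ (1 / 2 : ℝ) := ⟨_, rfl⟩
    have hq1 : 1 ≤ q := by
      rw [hq]
      exact Real.one_le_rpow hN1r (by norm_num)
    have hq0 : 0 < q := by linarith
    have hton := ton (m := un x T) (l0 := l0) hMm hRm
      (K := fun t => ENNReal.ofReal (A.lam * Real.exp (CI - cI * (A.X ∅ (om t) - V) / q))) (by
        intro τ hτ
        rw [hMd] at hτ
        obtain ⟨g1, g2, g3, g4⟩ := hτ
        have hτ3 : τ ≤ 3 * T := by
          have h1 := g1.2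
          have h2 := (abs_le.1 hxT).2
          linarith
        have h1 := hI A hok hvI T hTI' hlT hl1 τ (h910.trans g1.1) hτ3 g2 g3 (A.X ∅ (om τ) - V)
        rw [hqN, ← hq] at h1
        refine le_trans (measure_mono ?_) h1
        rintro w ⟨hw1, hw2⟩
        rw [hRd] at hw2
        refine ⟨⟨hw1.1, hw1.2.trans hl0l⟩, ?_⟩
        rw [sub_sub_cancel]
        exact hw2)
    have hset : ∀ w : ℝ, {t | t ∈ Icc (T ^ (19 / 20 : ℝ)) (x + T) ∧ A.Good ∅ (om t) ∧
        Nice C2 A T t ∧ V + N / 2 < A.X ∅ (om t) ∧ ‖riemannZeta (1 / 2 + I * (t + w : ℝ))‖ ≤ Real.exp V}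
        = {t | t ∈ M ∧ (t, w) ∈ R} := by
      intro w
      ext t
      rw [hMd, hRd]
      simp only [mem_setOf_eq, and_assoc]
    simp only [hset]
    refine hton.trans ?_
    -- the tilt
    obtain ⟨ω, hω⟩ : ∃ ω : ℝ → ENNReal, ω = (Ioi (V + N / 2)).indicator
      (fun u => ENNReal.ofReal (A.lam * Real.exp (CI - cI * (u - V) / q))) := ⟨_, rfl⟩
    obtain ⟨ω', hω'⟩ : ∃ ω' : ℝ → ENNReal, ω' = (Ioi (V + N / 4)).indicator
      (fun y => ENNReal.ofReal (A.lam * Real.exp (CI + cI * C1) * Real.exp (-(cI / q * (y - V))))) :=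
      ⟨_, rfl⟩
    have hωm : Measurable ω := by
      rw [hω]
      refine Measurable.indicator ?_ measurableSet_Ioi
      fun_prop
    have hωm' : Measurable ω' := by
      rw [hω']
      refine Measurable.indicator ?_ measurableSet_Ioi
      fun_prop
    have h2 := htilt CM (by linarith) (fun _ => 1) measurable_const (by
      intro y
      have h1 := hM A hok T hTM' hLen x y ∅ (Finset.empty_subset _)
      simpa using h1) ω ω' hωm hωm' (by
      intro u y huy
      have h3 := abs_le.1 huy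
      rw [hω, hω']
      by_cases hu : u ∈ Ioi (V + N / 2)
      · have hu' : V + N / 2 < u := hu
        have hy : y ∈ Ioi (V + N / 4) := by
          show V + N / 4 < y
          linarith [h3.2]
        rw [indicator_of_mem hu, indicator_of_mem hy]
        apply ENNReal.ofReal_le_ofReal
        rw [mul_assoc, ← Real.exp_add]
        refine mul_le_mul_of_nonneg_left (Real.exp_le_exp.2 ?_) hl
        have h4 : cI * (y - V) / q - cI * (u - V) / q ≤ cI * C1 := by
          rw [← sub_div, div_le_iff₀ hq0]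
          have h5 : y - u ≤ C1 := by linarith [h3.1]
          have h6 : cI * (y - V) - cI * (u - V) = cI * (y - u) := by ring
          rw [h6]
          calc cI * (y - u) ≤ cI * C1 := by gcongr
            _ = cI * C1 * 1 := (mul_one _).symm
            _ ≤ cI * C1 * q := by gcongr
        have h7 : cI / q * (y - V) = cI * (y - V) / q := by ring
        rw [h7]
        linarith
      · rw [indicator_of_notMem hu]
        exact zero_le)
    have h3 : ∫⁻ t in M, ENNReal.ofReal (A.lam * Real.exp (CI - cI * (A.X ∅ (om t) - V) / q))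
        ∂(un x T) ≤ ∫⁻ t in {t | A.Good ∅ (om t) ∧ A.Bad ∅ (om t)}, ω (A.X ∅ (om t)) * 1 ∂(un x T) := by
      calc ∫⁻ t in M, ENNReal.ofReal (A.lam * Real.exp (CI - cI * (A.X ∅ (om t) - V) / q)) ∂(un x T)
          ≤ ∫⁻ t in M, ω (A.X ∅ (om t)) * 1 ∂(un x T) := by
            refine setLIntegral_mono' hMm fun t ht => ?_
            rw [hMd] at ht
            have h4 : A.X ∅ (om t) ∈ Ioi (V + N / 2) := ht.2.2.2
            rw [hω, indicator_of_mem h4, mul_one]
        _ ≤ _ := by
            refine lintegral_mono_set ?_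
            intro t ht
            rw [hMd] at ht
            refine ⟨ht.2.1, ?_⟩
            intro g hg
            simp at hg
    refine (h3.trans h2).trans ?_
    have hB0 : 0 ≤ A.lam * Real.exp (CI + cI * C1) * A.G V := by positivity
    have h4 : ∫⁻ y : ℝ, ω' y * ENNReal.ofReal (A.G y)
        ≤ ENNReal.ofReal (A.lam * Real.exp (CI + cI * C1) * A.G V
          * (Real.exp (-(cI / q * (N / 4))) / (cI / q))) := by
      rw [← int_exp (div_pos hcI hq0) hB0 V (N / 4), ← lintegral_indicator measurableSet_Ioi]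
      refine lintegral_mono fun y => ?_
      rw [hω']
      by_cases hy : y ∈ Ioi (V + N / 4)
      · rw [indicator_of_mem hy, indicator_of_mem hy, ← ENNReal.ofReal_mul (by positivity)]
        apply ENNReal.ofReal_le_ofReal
        have hy' : V + N / 4 < y := hy
        have h5 : A.G y ≤ A.G V := G_anti hok (by linarith)
        calc A.lam * Real.exp (CI + cI * C1) * Real.exp (-(cI / q * (y - V))) * A.G y
            ≤ A.lam * Real.exp (CI + cI * C1) * Real.exp (-(cI / q * (y - V))) * A.G V := by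
              gcongr
          _ = _ := by ring
      · rw [indicator_of_notMem hy, indicator_of_notMem hy, zero_mul]
    have h5 := hN1 N hN1'
    rw [← hq] at h5
    have h6 : cI / q * (N / 4) = cI * q / 4 := by
      have h7 : N = q * q := by
        rw [hq, ← Real.rpow_add hN0]
        norm_num
      rw [h7]
      field_simp
    calc ENNReal.ofReal (CT * CM) * ∫⁻ y : ℝ, ω' y * ENNReal.ofReal (A.G y)
        ≤ ENNReal.ofReal (CT * CM) * ENNReal.ofReal (A.lam * Real.exp (CI + cI * C1) * A.G V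
          * (Real.exp (-(cI / q * (N / 4))) / (cI / q))) := by gcongr
      _ = ENNReal.ofReal (CT * CM * (A.lam * Real.exp (CI + cI * C1) * A.G V
          * (Real.exp (-(cI / q * (N / 4))) / (cI / q)))) := by
          rw [← ENNReal.ofReal_mul (by positivity)]
      _ ≤ ENNReal.ofReal (A.lam * Real.exp (-(N ^ (1 / 4 : ℝ))) * A.G V) := by
          apply ENNReal.ofReal_le_ofReal
          rw [h6]
          calc CT * CM * (A.lam * Real.exp (CI + cI * C1) * A.G V
                * (Real.exp (-(cI * q / 4)) / (cI / q)))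
              = A.lam * (CT * CM * Real.exp (CI + cI * C1) * (q / cI) * Real.exp (-(cI * q / 4)))
                * A.G V := by
                field_simp
            _ ≤ A.lam * Real.exp (-(N ^ (1 / 4 : ℝ))) * A.G V := by gcongr
  · -- (2)
    intro h hh
    refine le_trans (win_set (C1 := C1) (by linarith) hok htilt
      (f := Bx.indicator (fun _ => (1 : ℝ)))
      ?_ ?_ (κ := CN * (CS / N ^ 3)) (by positivity) hWB V (V + h)
      (c := 1) zero_le_one ?_) ?_
    · exact measurable_const.indicator hBxm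
    · intro t
      exact Set.indicator_nonneg (fun _ _ => zero_le_one) t
    · intro t ht
      obtain ⟨g1, g2, g3, g4, g5⟩ := ht
      refine ⟨g2, g4, g5, ?_⟩
      have hm : t ∈ Bx := by
        rw [hBx]
        exact ⟨g1, g3⟩
      rw [indicator_of_mem hm, mul_one]
    · apply ENNReal.ofReal_le_ofReal
      have h1 : V + h - V + 2 * C1 ≤ 3 * C1 * h := by nlinarith
      have h2 : 0 ≤ V + h - V + 2 * C1 := by linarith
      have h3 := (hok.G_pos (V - C1)).le
      calc CT * (1 * (CN * (CS / N ^ 3))) * (A.G (V - C1) * (V + h - V + 2 * C1))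
          ≤ CT * (1 * (CN * (CS / N ^ 3))) * (A.G V * Real.exp C1 * (3 * C1 * h)) := by gcongr
        _ = CT * CN * CS * Real.exp C1 * (3 * C1) * h / N ^ 3 * A.G V := by ring
  · -- (3)
    obtain ⟨ω, hω⟩ : ∃ ω : ℝ → ENNReal, ω = (Ioi V).indicator (fun _ => 1) := ⟨_, rfl⟩
    obtain ⟨ω', hω'⟩ : ∃ ω' : ℝ → ENNReal, ω' = (Ici (V - C1)).indicator (fun _ => 1) := ⟨_, rfl⟩
    have hωm : Measurable ω := by
      rw [hω]
      exact measurable_const.indicator measurableSet_Ioi
    have hωm' : Measurable ω' := by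
      rw [hω']
      exact measurable_const.indicator measurableSet_Ici
    have hHm : Measurable fun t => ENNReal.ofReal (Bx.indicator (fun _ => (1 : ℝ)) t) :=
      (measurable_const.indicator hBxm).ennreal_ofReal
    have h1 := htilt (CN * (CS / N ^ 3)) (by positivity)
      (fun t => ENNReal.ofReal (Bx.indicator (fun _ => (1 : ℝ)) t)) hHm (by
        intro y
        refine le_trans (le_of_eq ?_) (hWB y)
        refine lintegral_congr fun t => ?_
        rw [ENNReal.ofReal_mul (A.W_nonneg hbb ∅ y (om t))]) ω ω' hωm hωm' (by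
        intro u y huy
        rw [hω, hω']
        by_cases hu : u ∈ Ioi V
        · have hu' : V < u := hu
          have hy : y ∈ Ici (V - C1) := by
            have h2 := abs_le.1 huy
            show V - C1 ≤ y
            linarith [h2.2]
          rw [indicator_of_mem hu, indicator_of_mem hy]
        · rw [indicator_of_notMem hu]
          exact zero_le)
    have h2 : un x T {t | t ∈ Icc (T ^ (19 / 20 : ℝ)) (x + T) ∧ A.Good ∅ (om t) ∧
        ¬ Nice C2 A T t ∧ V < A.X ∅ (om t)} ≤ ∫⁻ t in {t | A.Good ∅ (om t) ∧ A.Bad ∅ (om t)},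
        ω (A.X ∅ (om t)) * ENNReal.ofReal (Bx.indicator (fun _ => (1 : ℝ)) t) ∂(un x T) := by
      refine markov ((hωm.comp hXm).mul hHm) ?_
      intro t ht
      obtain ⟨g1, g2, g3, g4⟩ := ht
      refine ⟨⟨g2, ?_⟩, ?_⟩
      · intro g hg
        simp at hg
      · have hm : A.X ∅ (om t) ∈ Ioi V := g4
        have hm2 : t ∈ Bx := by
          rw [hBx]
          exact ⟨g1, g3⟩
        show 1 ≤ ω (A.X ∅ (om t)) * ENNReal.ofReal (Bx.indicator (fun _ => (1 : ℝ)) t)
        rw [hω, indicator_of_mem hm, indicator_of_mem hm2, one_mul, ENNReal.ofReal_one]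
    refine h2.trans (h1.trans ?_)
    have h3 : ∫⁻ y : ℝ, ω' y * ENNReal.ofReal (A.G y) ≤ ENNReal.ofReal (A.G (V - C1) / A.be) := by
      have h4 := F1.int_G_up A hbe0 (V - C1)
      simp only [one_mul] at h4
      refine le_trans (le_of_eq ?_) h4
      rw [← setLIntegral_congr Ioi_ae_eq_Ici.symm, ← lintegral_indicator measurableSet_Ici]
      refine lintegral_congr fun y => ?_
      rw [hω']
      by_cases hy : y ∈ Ici (V - C1)
      · rw [indicator_of_mem hy, indicator_of_mem hy, one_mul]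
      · rw [indicator_of_notMem hy, indicator_of_notMem hy, zero_mul]
    have h5 := (hok.G_pos (V - C1)).le
    calc ENNReal.ofReal (CT * (CN * (CS / N ^ 3))) * ∫⁻ y : ℝ, ω' y * ENNReal.ofReal (A.G y)
        ≤ ENNReal.ofReal (CT * (CN * (CS / N ^ 3))) * ENNReal.ofReal (A.G (V - C1) / A.be) := by
          gcongr
      _ = ENNReal.ofReal (CT * (CN * (CS / N ^ 3)) * (A.G (V - C1) / A.be)) := by
          rw [← ENNReal.ofReal_mul (by positivity)]
      _ ≤ _ := by
          apply ENNReal.ofReal_le_ofReal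
          calc CT * (CN * (CS / N ^ 3)) * (A.G (V - C1) / A.be)
              ≤ CT * (CN * (CS / N ^ 3)) * (A.G V * Real.exp C1 / A.be) := by gcongr
            _ = CT * CN * CS * Real.exp C1 * 1 / (N ^ 3 * A.be) * A.G V := by
                field_simp
            _ ≤ CT * CN * CS * Real.exp C1 * (3 * C1) / (N ^ 3 * A.be) * A.G V := by
                gcongr
                linarith

end Pool.Agent.Lib.RA
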