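import Pool.Agent.Lib.MP_f9aece_nt_rate.Stmts

/-!
Project RATE, row E5: large values of zeta and the first good level, upper bound.
-/

set_option autoImplicit false

namespace Pool.Agent.Lib.RA

open MeasureTheory Set Filter Topology Complex ProbabilityTheory
open scoped ComplexConjugate
open Pool.Agent.Lib.GT
open Pool.Agent.Lib.LC
open Pool.Agent.Lib.LC.E9 (NN NN_zero NN_succ NN_ge)

namespace E5x

lemma un_out {T x : ℝ} (hT : 3 ≤ T) (hx : |x| ≤ T ^ (9 / 10 : ℝ)) :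
    un x T (Icc (T ^ (19 / 20 : ℝ)) (x + T))ᶜ ≤ ENNReal.ofReal (2 * T ^ (-(1 / 20) : ℝ)) := by
  have hT0 : 0 < T := by linarith
  unfold un
  rw [Measure.smul_apply, Measure.restrict_apply measurableSet_Icc.compl, smul_eq_mul]
  have h1 : (Icc (T ^ (19 / 20 : ℝ)) (x + T))ᶜ ∩ Icc x (x + T) ⊆ Ico x (T ^ (19 / 20 : ℝ)) := by
    rintro t ⟨ht, ht1, ht2⟩
    refine ⟨ht1, ?_⟩
    by_contra h
    exact ht ⟨not_lt.1 h, ht2⟩
  have h2 : T ^ (9 / 10 : ℝ) ≤ T ^ (19 / 20 : ℝ) :=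
    Real.rpow_le_rpow_of_exponent_le (by linarith) (by norm_num)
  have h3 : volume ((Icc (T ^ (19 / 20 : ℝ)) (x + T))ᶜ ∩ Icc x (x + T))
      ≤ ENNReal.ofReal (2 * T ^ (19 / 20 : ℝ)) := by
    refine (measure_mono h1).trans ?_
    rw [Real.volume_Ico]
    refine ENNReal.ofReal_le_ofReal ?_
    have := (abs_le.1 hx).1
    linarith
  calc (ENNReal.ofReal T)⁻¹ * volume ((Icc (T ^ (19 / 20 : ℝ)) (x + T))ᶜ ∩ Icc x (x + T))
      ≤ (ENNReal.ofReal T)⁻¹ * ENNReal.ofReal (2 * T ^ (19 / 20 : ℝ)) := by gcongr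
    _ = ENNReal.ofReal (2 * T ^ (-(1 / 20) : ℝ)) := by
        rw [← ENNReal.ofReal_inv_of_pos hT0, ← ENNReal.ofReal_mul (by positivity)]
        congr 1
        have : T ^ (-(1 / 20) : ℝ) = T ^ (19 / 20 : ℝ) * T ^ (-1 : ℝ) := by
          rw [← Real.rpow_add hT0]
          norm_num
        rw [this, Real.rpow_neg_one]
        ring

lemma un_univ (x : ℝ) {T : ℝ} (hT : 0 < T) : un x T univ = 1 := by
  unfold un
  rw [Measure.smul_apply, Measure.restrict_apply MeasurableSet.univ, univ_inter, Real.volume_Icc,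
    smul_eq_mul, add_sub_cancel_left]
  exact ENNReal.inv_mul_cancel (by simpa using hT) ENNReal.ofReal_ne_top

lemma un_ne_top (x : ℝ) {T : ℝ} (hT : 0 < T) (s : Set ℝ) : un x T s ≠ ⊤ := by
  have h := measure_mono (μ := un x T) (subset_univ s)
  rw [un_univ x hT] at h
  exact ne_top_of_le_ne_top ENNReal.one_ne_top h

lemma T_small {T : ℝ} (hT : Real.exp 120 ≤ T) : 2 * T ^ (-(1 / 20) : ℝ) ≤ T ^ (-(1 / 30) : ℝ) := by
  have hT0 : 0 < T := (Real.exp_pos _).trans_le hT
  have hL : 120 ≤ Real.log T := by rwa [Real.le_log_iff_exp_le hT0]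
  have hlow : 2 ≤ T ^ (1 / 60 : ℝ) := by
    rw [Real.rpow_def_of_pos hT0]
    have := Real.add_one_le_exp (Real.log T * (1 / 60))
    linarith
  have hsplit : T ^ (-(1 / 30) : ℝ) = T ^ (1 / 60 : ℝ) * T ^ (-(1 / 20) : ℝ) := by
    rw [← Real.rpow_add hT0]
    norm_num
  rw [hsplit]
  exact mul_le_mul_of_nonneg_right hlow (Real.rpow_nonneg hT0.le _)

/-- the first good level -/
lemma first {A : ℕ → Par} {m : ℕ} {t : ℝ} (h : (A m).Good ∅ (om t)) :
    ∃ i, i ≤ m ∧ t ∈ Lv A m i := by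
  classical
  have hex : ∃ i, t ∈ Gd A m i := ⟨m, fun j h1 h2 => by
    have : j = m := le_antisymm h2 h1
    rw [this]
    exact h⟩
  have hmem := Nat.find_spec hex
  have hmin : ∀ k, k < Nat.find hex → t ∉ Gd A m k := fun k hk => Nat.find_min hex hk
  have hle : Nat.find hex ≤ m := Nat.find_min' hex fun j h1 h2 => by
    have : j = m := le_antisymm h2 h1
    rw [this]
    exact h
  generalize Nat.find hex = i at hmem hmin hle
  refine ⟨i, hle, hmem, fun k hk hg => ?_⟩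
  refine hmin k (by omega) fun j h1 h2 => ?_
  rcases Nat.eq_or_lt_of_le h1 with rfl | h3
  · exact hg
  · exact hmem j (by omega) h2

lemma Lv_good {A : ℕ → Par} {m i : ℕ} {t : ℝ} (hi : i ≤ m) (h : t ∈ Lv A m i) :
    (A i).Good ∅ (om t) := h.1 i le_rfl hi

lemma G_nonneg (A : Par) (V : ℝ) : 0 ≤ A.G V := by unfold Par.G; positivity

lemma NN_ge_self {N : ℝ} (hN : 256 ≤ N) (j : ℕ) : N ≤ NN N j := by
  have h1 := NN_ge hN j
  have h2 : (1 : ℝ) ≤ 16 ^ j := one_le_pow₀ (by norm_num)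
  nlinarith

lemma inv_NN {N : ℝ} (hN : 256 ≤ N) (j : ℕ) : 1 / NN N j ≤ (1 / 2) ^ (j + 2) := by
  have h1 := NN_ge hN j
  have h2 : (2 : ℝ) ^ j ≤ 16 ^ j := pow_le_pow_left₀ (by norm_num) (by norm_num) j
  have h3 : (2 : ℝ) ^ (j + 2) ≤ NN N j := by
    have h4 : (0 : ℝ) < 2 ^ j := by positivity
    rw [pow_add]
    nlinarith
  rw [one_div_pow]
  exact one_div_le_one_div_of_le (by positivity) h3

/-- the bound of one level above the first -/
lemma level_num {N : ℝ} (hN : 256 ≤ N) (j : ℕ) :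
    NN N j ^ (-(4 : ℝ)) * NN N (j + 1) ^ (1 / 10 : ℝ) + 1 / NN N (j + 1) ≤ 2 / NN N j := by
  have h0 : 256 ≤ NN N j := hN.trans (NN_ge_self hN j)
  have hp : 0 < NN N j := by linarith
  have h1 : (1 : ℝ) ≤ NN N j := by linarith
  rw [NN_succ (by linarith : (0 : ℝ) ≤ N)]
  have e1 : NN N j ^ (-(4 : ℝ)) * (NN N j ^ (3 / 2 : ℝ)) ^ (1 / 10 : ℝ) ≤ 1 / NN N j := by
    have e0 : 1 / NN N j = NN N j ^ (-(1 : ℝ)) := by
      rw [Real.rpow_neg_one]
      exact one_div _
    rw [← Real.rpow_mul hp.le, ← Real.rpow_add hp, e0]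
    exact Real.rpow_le_rpow_of_exponent_le h1 (by norm_num)
  have e2 : 1 / NN N j ^ (3 / 2 : ℝ) ≤ 1 / NN N j := by
    refine one_div_le_one_div_of_le hp ?_
    calc NN N j = NN N j ^ (1 : ℝ) := (Real.rpow_one _).symm
      _ ≤ NN N j ^ (3 / 2 : ℝ) := Real.rpow_le_rpow_of_exponent_le h1 (by norm_num)
  calc _ ≤ 1 / NN N j + 1 / NN N j := add_le_add e1 e2
    _ = 2 / NN N j := by ring

lemma geo (n : ℕ) : ∑ j ∈ Finset.range n, (1 / 2 : ℝ) ^ (j + 2) ≤ 1 := by
  have h : ∑ j ∈ Finset.range n, (1 / 2 : ℝ) ^ (j + 2) = 1 / 2 - 1 / 2 * (1 / 2) ^ n := by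
    induction n with
    | zero => simp
    | succ n ih =>
      rw [Finset.sum_range_succ, ih, pow_succ, pow_add]
      ring
  rw [h]
  have : (0 : ℝ) ≤ (1 / 2) ^ n := by positivity
  linarith

end E5x

open E5x

set_option maxHeartbeats 4000000 in
/-- E5 -/
theorem crossUp (hC : ChainNum) (hM : WMean) (hU : UpPair) (hT : TopUp) : CrossUp := by
  obtain ⟨N1, hN1, H1⟩ := hC
  obtain ⟨C2, T2, hC2, hT2, H2⟩ := hM
  obtain ⟨C3, N3, T3, hC3, hN3, hT3, H3⟩ := hU
  obtain ⟨C4, N4, T4, hC4, hN4, hT4, H4⟩ := hT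
  refine ⟨max 256 (max N1 (max N3 N4)), (by norm_num : (1 : ℝ) ≤ 256).trans (le_max_left _ _),
    fun N hN => ?_⟩
  have hN256 : 256 ≤ N := (le_max_left _ _).trans hN
  have hN' := (le_max_right _ _).trans hN
  have hNN1 : N1 ≤ N := (le_max_left _ _).trans hN'
  have hN' := (le_max_right _ _).trans hN'
  have hNN3 : N3 ≤ N := (le_max_left _ _).trans hN'
  have hNN4 : N4 ≤ N := (le_max_right _ _).trans hN'
  have hN0 : 0 < N := by linarith
  obtain ⟨T1, hT1, H1⟩ := H1 N hNN1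
  have hN10 : 0 ≤ N ^ (1 / 10 : ℝ) := by positivity
  have hCN : 0 ≤ C3 * (C2 * N ^ (1 / 10 : ℝ) + 1 / N) := by positivity
  refine ⟨C3 * (C2 * N ^ (1 / 10 : ℝ) + 1 / N) + 4 * C3 + 4 * C4,
    max (max (max T1 T2) (max T3 T4)) (Real.exp 120), by linarith,
    hT1.trans ((le_max_left _ _).trans ((le_max_left _ _).trans (le_max_left _ _))), ?_⟩
  intro A T m hA hT0 x V hx
  have hTT1 : T1 ≤ T := ((le_max_left _ _).trans ((le_max_left _ _).trans (le_max_left _ _))).trans hT0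
  have hTT2 : T2 ≤ T := ((le_max_right _ _).trans ((le_max_left _ _).trans (le_max_left _ _))).trans hT0
  have hTT3 : T3 ≤ T := ((le_max_left _ _).trans ((le_max_right _ _).trans (le_max_left _ _))).trans hT0
  have hTT4 : T4 ≤ T := ((le_max_right _ _).trans ((le_max_right _ _).trans (le_max_left _ _))).trans hT0
  have hTe : Real.exp 120 ≤ T := (le_max_right _ _).trans hT0
  have hT3' : 3 ≤ T := hT1.trans hTT1
  have hTp : 0 < T := by linarith
  obtain ⟨hmeas, hG, -, -, hLv⟩ := H1 A T m hA hTT1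
  have hNg : ∀ j, N ≤ NN N j := NN_ge_self hN256
  have hNp : ∀ j, 0 < NN N j := fun j => hN0.trans_le (hNg j)
  have hG0 : 0 ≤ (A 0).G V := G_nonneg _ _
  -- the sets
  obtain ⟨Z, hZ⟩ : ∃ Z : Set ℝ, Z = {t : ℝ | Real.exp V < ‖riemannZeta (1 / 2 + I * t)‖} := ⟨_, rfl⟩
  obtain ⟨B, hB⟩ : ∃ B : Set ℝ, B = {t : ℝ | t ∈ Icc (T ^ (19 / 20 : ℝ)) (x + T) ∧
      ¬ (A m).Good ∅ (om t) ∧ Real.exp V < ‖riemannZeta (1 / 2 + I * (t + (0 : ℝ) : ℝ))‖} :=
    ⟨_, rfl⟩
  obtain ⟨D, hD⟩ : ∃ D : ℕ → Set ℝ, D = fun i => {t : ℝ | t ∈ Lv A m i ∧ V < (A i).X ∅ (om t)} :=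
    ⟨_, rfl⟩
  obtain ⟨E, hE⟩ : ∃ E : ℕ → Set ℝ, E = fun i => {t : ℝ | t ∈ Icc (T ^ (19 / 20 : ℝ)) (x + T) ∧
      t ∈ Lv A m i ∧ (A i).Good ∅ (om t) ∧ (A i).X ∅ (om t) ≤ V ∧
      Real.exp V < ‖riemannZeta (1 / 2 + I * (t + (0 : ℝ) : ℝ))‖} := ⟨_, rfl⟩
  have hsub : Z ⊆ (Icc (T ^ (19 / 20 : ℝ)) (x + T))ᶜ ∪ (B ∪
      ⋃ i ∈ Finset.range (m + 1), (D i ∪ E i)) := by
    intro t ht
    rw [hZ] at ht
    by_cases h1 : t ∈ Icc (T ^ (19 / 20 : ℝ)) (x + T)
    · right
      by_cases h2 : (A m).Good ∅ (om t)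
      · right
        obtain ⟨i, hi, hti⟩ := first h2
        refine mem_biUnion (Finset.mem_coe.2 (Finset.mem_range.2 (Nat.lt_succ_of_le hi))) ?_
        by_cases h3 : V < (A i).X ∅ (om t)
        · left
          rw [hD]
          exact ⟨hti, h3⟩
        · right
          rw [hE]
          refine ⟨h1, hti, Lv_good hi hti, not_lt.1 h3, ?_⟩
          rw [add_zero]
          exact ht
      · left
        rw [hB]
        refine ⟨h1, h2, ?_⟩
        rw [add_zero]
        exact ht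
    · exact Or.inl h1
  -- the top
  have hBm : un x T B ≤ ENNReal.ofReal (4 * C4 * (A 0).G V) := by
    rw [hB]
    refine (H4 (A m) T (NN N m) (hA.spec m le_rfl) (hNN4.trans (hNg m)) hTT4 x V 0 hx le_rfl
      (by rw [zero_mul]; exact Real.rpow_nonneg (hNp m).le _)).trans (ENNReal.ofReal_le_ofReal ?_)
    rw [hA.be m le_rfl]
    have hbe0 : 0 < (A 0).be := (hA.spec 0 (Nat.zero_le m)).ok.hbe
    have h1 : (1 : ℝ) ≤ NN N m := by linarith [hNg m]
    have hl : 0 < Real.log (Real.log T) := by linarith [hA.size]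
    have h2 : 1 / (A 0).be ≤ NN N m ^ 4 := by
      have h3 := hA.beL
      have h4 : 1 / (A 0).be ≤ Real.log (Real.log T) := by
        rw [div_le_iff₀ hl] at h3
        rw [div_le_iff₀ hbe0]
        linarith
      refine (h4.trans hA.top).trans ?_
      rw [← Real.rpow_natCast (NN N m) 4]
      exact Real.rpow_le_rpow_of_exponent_le h1 (by norm_num)
    have h3 : 1 / (NN N m ^ 4 * (A 0).be) ≤ 1 := by
      have hp4 : 0 < NN N m ^ 4 := pow_pos (hNp m) 4
      rw [div_le_iff₀ hbe0] at h2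
      rw [div_le_one (mul_pos hp4 hbe0)]
      exact h2
    have h4 : 1 / NN N m ≤ 1 := by
      rw [div_le_one (hNp m)]
      exact h1
    have h5 := (hG m le_rfl V).2
    have h6 := (hG m le_rfl V).1
    have h7 : 0 ≤ 1 / (NN N m ^ 4 * (A 0).be) + 1 / NN N m := by
      have := hNp m
      positivity
    calc C4 * (1 / (NN N m ^ 4 * (A 0).be) + 1 / NN N m) * (A m).G V
        ≤ C4 * (1 + 1) * (2 * (A 0).G V) := by
          refine mul_le_mul (mul_le_mul_of_nonneg_left (add_le_add h3 h4) (by linarith)) h5 h6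
            (by linarith)
      _ = 4 * C4 * (A 0).G V := by ring
  -- the levels
  obtain ⟨a, ha⟩ : ∃ a : ℕ → ℝ, a = fun i => match i with
      | 0 => C3 * (C2 * N ^ (1 / 10 : ℝ) + 1 / N) * (A 0).G V
      | j + 1 => 4 * C3 * (A 0).G V * (1 / 2) ^ (j + 2) := ⟨_, rfl⟩
  have ha0 : ∀ i, 0 ≤ a i := by
    intro i
    rw [ha]
    rcases i with _ | j
    · exact mul_nonneg hCN hG0
    · have : (0 : ℝ) ≤ C3 := by linarith
      simp only
      positivity
  have hEi : ∀ i, i ≤ m → un x T (E i) ≤ ENNReal.ofReal (a i) := by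
    intro i hi
    rcases i with _ | j
    · have h1 := H3 (A 0) T (NN N 0) (hA.spec 0 (Nat.zero_le m)) (hNN3.trans (hNg 0)) hTT3 x V 0 C2 hx
        le_rfl (by rw [zero_mul]; exact Real.rpow_nonneg (hNp 0).le _) (by linarith) (Lv A m 0)
        (hmeas 0).2 (fun y => by
          have hS := hA.spec 0 (Nat.zero_le m)
          have hlen : Len (A 0) T := by
            unfold Len
            rw [hS.hY]
            have hlogT : 0 ≤ Real.log T := Real.log_nonneg (by linarith)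
            rcases Nat.eq_zero_or_pos (A 0).v with h0 | h0
            · rw [h0]
              simp only [Nat.cast_zero, mul_zero, div_zero]
              exact hlogT
            · have hv : (0 : ℝ) < (A 0).v := by exact_mod_cast h0
              have e : 10 ^ 10 * ((A 0).v : ℝ) * (Real.log T / (10 ^ 11 * (A 0).v))
                  = Real.log T / 10 := by
                field_simp
              rw [e]
              linarith
          refine (setLIntegral_le_lintegral _ _).trans ?_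
          have h2 := H2 (A 0) hS.ok T hTT2 hlen x y ∅ (Finset.empty_subset _)
          rw [Finset.sum_empty, neg_zero, Real.exp_zero, mul_one] at h2
          exact h2)
      rw [NN_zero] at h1
      rw [hE, ha]
      exact h1
    · have h1 := H3 (A (j + 1)) T (NN N (j + 1)) (hA.spec (j + 1) hi) (hNN3.trans (hNg (j + 1))) hTT3
        x V 0 (NN N j ^ (-(4 : ℝ))) hx le_rfl
        (by rw [zero_mul]; exact Real.rpow_nonneg (hNp _).le _) (Real.rpow_nonneg (hNp j).le _)
        (Lv A m (j + 1)) (hmeas (j + 1)).2 (fun y => hLv j hi x y)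
      rw [hE, ha]
      refine h1.trans (ENNReal.ofReal_le_ofReal ?_)
      simp only
      have h2 := level_num hN256 j
      have h3 := inv_NN hN256 j
      have h4 := (hG (j + 1) hi V).2
      have h5 := (hG (j + 1) hi V).1
      have h6 : 2 / NN N j ≤ 2 * (1 / 2) ^ (j + 2) := by
        have : 2 / NN N j = 2 * (1 / NN N j) := by ring
        rw [this]
        linarith
      calc C3 * (NN N j ^ (-(4 : ℝ)) * NN N (j + 1) ^ (1 / 10 : ℝ) + 1 / NN N (j + 1))
            * (A (j + 1)).G V ≤ C3 * (2 * (1 / 2) ^ (j + 2)) * (2 * (A 0).G V) := by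
            refine mul_le_mul (mul_le_mul_of_nonneg_left (h2.trans h6) (by linarith)) h4 h5 ?_
            have : (0 : ℝ) ≤ C3 := by linarith
            positivity
        _ = 4 * C3 * (A 0).G V * (1 / 2) ^ (j + 2) := by ring
  have hsuma : ∑ i ∈ Finset.range (m + 1), a i
      ≤ (C3 * (C2 * N ^ (1 / 10 : ℝ) + 1 / N) + 4 * C3) * (A 0).G V := by
    rw [Finset.sum_range_succ', ha]
    simp only
    rw [← Finset.mul_sum]
    have h1 := geo m
    have h2 : 0 ≤ 4 * C3 * (A 0).G V := mul_nonneg (by linarith) hG0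
    nlinarith
  -- all together
  have hlow := un_out hT3' hx
  have htot : un x T Z ≤ ∑ i ∈ Finset.range (m + 1), un x T (D i)
      + ENNReal.ofReal ((C3 * (C2 * N ^ (1 / 10 : ℝ) + 1 / N) + 4 * C3 + 4 * C4) * (A 0).G V
        + T ^ (-(1 / 30) : ℝ)) := by
    calc un x T Z ≤ un x T ((Icc (T ^ (19 / 20 : ℝ)) (x + T))ᶜ ∪ (B ∪
          ⋃ i ∈ Finset.range (m + 1), (D i ∪ E i))) := measure_mono hsub
      _ ≤ un x T (Icc (T ^ (19 / 20 : ℝ)) (x + T))ᶜ + (un x T B +
          ∑ i ∈ Finset.range (m + 1), (un x T (D i) + un x T (E i))) := by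
          refine (measure_union_le _ _).trans (add_le_add le_rfl ?_)
          refine (measure_union_le _ _).trans (add_le_add le_rfl ?_)
          refine (measure_biUnion_finset_le _ _).trans (Finset.sum_le_sum fun i _ => ?_)
          exact measure_union_le _ _
      _ = ∑ i ∈ Finset.range (m + 1), un x T (D i) + (un x T (Icc (T ^ (19 / 20 : ℝ)) (x + T))ᶜ +
          un x T B + ∑ i ∈ Finset.range (m + 1), un x T (E i)) := by
          rw [Finset.sum_add_distrib]
          ring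
      _ ≤ ∑ i ∈ Finset.range (m + 1), un x T (D i) + (ENNReal.ofReal (T ^ (-(1 / 30) : ℝ)) +
          ENNReal.ofReal (4 * C4 * (A 0).G V) + ∑ i ∈ Finset.range (m + 1), ENNReal.ofReal (a i)) := by
          refine add_le_add le_rfl (add_le_add (add_le_add ?_ hBm) (Finset.sum_le_sum fun i hi => ?_))
          · exact hlow.trans (ENNReal.ofReal_le_ofReal (T_small hTe))
          · exact hEi i (Nat.lt_succ_iff.1 (Finset.mem_range.1 hi))
      _ = ∑ i ∈ Finset.range (m + 1), un x T (D i) + ENNReal.ofReal (T ^ (-(1 / 30) : ℝ) +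
          4 * C4 * (A 0).G V + ∑ i ∈ Finset.range (m + 1), a i) := by
          rw [← ENNReal.ofReal_sum_of_nonneg fun i _ => ha0 i,
            ← ENNReal.ofReal_add (Real.rpow_nonneg hTp.le _) (mul_nonneg (by linarith) hG0),
            ← ENNReal.ofReal_add (add_nonneg (Real.rpow_nonneg hTp.le _)
              (mul_nonneg (by linarith) hG0)) (Finset.sum_nonneg fun i _ => ha0 i)]
      _ ≤ _ := by
          refine add_le_add le_rfl (ENNReal.ofReal_le_ofReal ?_)
          nlinarith [hsuma]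
  have hR0 : 0 ≤ (C3 * (C2 * N ^ (1 / 10 : ℝ) + 1 / N) + 4 * C3 + 4 * C4) * (A 0).G V
        + T ^ (-(1 / 30) : ℝ) :=
    add_nonneg (mul_nonneg (by linarith) hG0) (Real.rpow_nonneg hTp.le _)
  have hfin : ∑ i ∈ Finset.range (m + 1), un x T (D i) ≠ ⊤ :=
    ENNReal.sum_ne_top.2 fun i _ => un_ne_top x hTp _
  have h1 := ENNReal.toReal_mono (ENNReal.add_ne_top.2 ⟨hfin, ENNReal.ofReal_ne_top⟩) htot
  rw [ENNReal.toReal_add hfin ENNReal.ofReal_ne_top, ENNReal.toReal_ofReal hR0,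
    ENNReal.toReal_sum fun i _ => un_ne_top x hTp _, hZ, hD] at h1
  linarith

end Pool.Agent.Lib.RA
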