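import Mathlib
import Pool.Agent.Lib.MP_f9aece_nt_gt.Cont
import Pool.Agent.Lib.MP_f9aece_nt_rate.Stmts

/-!
The rate in the central limit theorem for `log |zeta|`: module E6, large values of zeta and the first
good level, lower bound.
-/

set_option autoImplicit false

namespace Pool.Agent.Lib.RA

open MeasureTheory Set Filter Topology Complex ProbabilityTheory
open scoped ComplexConjugate
open Pool.Agent.Lib.GT
open Pool.Agent.Lib.LC
open Pool.Agent.Lib.LC.E9 (NN NN_zero NN_succ NN_ge)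

namespace E6x

/-! ### the sizes -/

lemma NN_one {N : ℝ} (hN : 256 ≤ N) (j : ℕ) : N ≤ NN N j ∧ (16 : ℝ) ^ j ≤ NN N j := by
  have h := NN_ge hN j
  have h16 : (1 : ℝ) ≤ 16 ^ j := one_le_pow₀ (by norm_num)
  constructor <;> nlinarith

lemma NN_mono {N : ℝ} (hN : 256 ≤ N) : Monotone (NN N) := by
  refine monotone_nat_of_le_succ fun j => ?_
  have h1 : (1 : ℝ) ≤ NN N j := by linarith [(NN_one hN j).1]
  rw [NN_succ (by linarith)]
  calc NN N j = NN N j ^ (1 : ℝ) := (Real.rpow_one _).symm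
    _ ≤ NN N j ^ (3 / 2 : ℝ) := Real.rpow_le_rpow_of_exponent_le h1 (by norm_num)

/-- powers of the sizes with exponent at most `-1/2` -/
lemma NN_pow {N : ℝ} (hN : 256 ≤ N) (j : ℕ) {e : ℝ} (he : e ≤ -(1 / 2)) :
    NN N j ^ e ≤ (1 / 4 : ℝ) ^ j := by
  have h1 : (1 : ℝ) ≤ NN N j := by linarith [(NN_one hN j).1]
  have h2 := (NN_one hN j).2
  calc NN N j ^ e ≤ NN N j ^ (-(1 / 2) : ℝ) := Real.rpow_le_rpow_of_exponent_le h1 he
    _ ≤ ((16 : ℝ) ^ j) ^ (-(1 / 2) : ℝ) :=
        Real.rpow_le_rpow_of_nonpos (by positivity) h2 (by norm_num)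
    _ = (1 / 4 : ℝ) ^ j := by
        rw [← Real.rpow_natCast 16 j, ← Real.rpow_mul (by norm_num),
          show (16 : ℝ) = (1 / 4) ^ (-(2 : ℝ)) by
            rw [Real.rpow_neg (by norm_num), show ((2 : ℝ)) = ((2 : ℕ) : ℝ) by norm_num,
              Real.rpow_natCast]
            norm_num,
          ← Real.rpow_mul (by norm_num), ← Real.rpow_natCast]
        congr 1
        ring

lemma geo4 (n : ℕ) : ∑ j ∈ Finset.range n, (1 / 4 : ℝ) ^ j ≤ 2 := by
  have h : ∑ j ∈ Finset.range n, (1 / 4 : ℝ) ^ j = 4 / 3 - 4 / 3 * (1 / 4) ^ n := by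
    induction n with
    | zero => simp
    | succ n ih =>
      rw [Finset.sum_range_succ, ih, pow_succ]
      ring
  rw [h]
  have : (0 : ℝ) ≤ (1 / 4) ^ n := by positivity
  linarith

lemma geo2 (n : ℕ) : ∑ j ∈ Finset.range n, (j : ℝ) * (1 / 4 : ℝ) ^ j ≤ 2 := by
  have h : ∑ j ∈ Finset.range n, (j : ℝ) * (1 / 4 : ℝ) ^ j ≤ ∑ j ∈ Finset.range n, (1 / 2 : ℝ) ^ j := by
    refine Finset.sum_le_sum fun j _ => ?_
    have h1 : (j : ℝ) ≤ 2 ^ j := by exact_mod_cast (Nat.lt_two_pow_self (n := j)).le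
    calc (j : ℝ) * (1 / 4 : ℝ) ^ j ≤ 2 ^ j * (1 / 4 : ℝ) ^ j := by gcongr
      _ = (1 / 2 : ℝ) ^ j := by
          rw [← mul_pow]
          norm_num
  refine h.trans ?_
  clear h
  have h : ∑ j ∈ Finset.range n, (1 / 2 : ℝ) ^ j = 2 - 2 * (1 / 2) ^ n := by
    induction n with
    | zero => simp
    | succ n ih =>
      rw [Finset.sum_range_succ, ih, pow_succ]
      ring
  rw [h]
  have : (0 : ℝ) ≤ (1 / 2) ^ n := by positivity
  linarith

/-- the exponential against the powers -/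
lemma exp_pow {u : ℝ} (hu : 1 ≤ u) : u ^ (1 / 2 : ℝ) * Real.exp (-(u ^ (1 / 4 : ℝ)))
    ≤ 24 * u ^ (-(1 / 2) : ℝ) := by
  have hu0 : 0 < u := by linarith
  have h1 : (u ^ (1 / 4 : ℝ)) ^ 4 / 24 ≤ Real.exp (u ^ (1 / 4 : ℝ)) := by
    have h := Real.pow_div_factorial_le_exp (u ^ (1 / 4 : ℝ)) (by positivity) 4
    norm_num [Nat.factorial] at h
    linarith
  have h2 : (u ^ (1 / 4 : ℝ)) ^ 4 = u := by
    rw [← Real.rpow_natCast, ← Real.rpow_mul hu0.le]
    norm_num
  rw [h2] at h1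
  have h3 : Real.exp (-(u ^ (1 / 4 : ℝ))) ≤ 24 * u⁻¹ := by
    rw [Real.exp_neg]
    calc (Real.exp (u ^ (1 / 4 : ℝ)))⁻¹ ≤ (u / 24)⁻¹ := inv_anti₀ (by positivity) h1
      _ = 24 * u⁻¹ := by rw [inv_div]; ring
  calc u ^ (1 / 2 : ℝ) * Real.exp (-(u ^ (1 / 4 : ℝ)))
      ≤ u ^ (1 / 2 : ℝ) * (24 * u⁻¹) := by gcongr
    _ = 24 * (u ^ (1 / 2 : ℝ) * u ^ (-1 : ℝ)) := by rw [Real.rpow_neg_one]; ring
    _ = _ := by
        rw [← Real.rpow_add hu0]
        norm_num

/-! ### the uniform measure -/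

/-- a shift -/
lemma un_shift {T x w : ℝ} (hT : 0 < T) (hw : 0 ≤ w) (P : Set ℝ) :
    un x T {t | t + w ∈ P} ≤ un x T P + ENNReal.ofReal (w / T) := by
  unfold un
  rw [Measure.smul_apply, Measure.smul_apply, smul_eq_mul, smul_eq_mul,
    Measure.restrict_apply' measurableSet_Icc, Measure.restrict_apply' measurableSet_Icc]
  have h1 : volume ({t | t + w ∈ P} ∩ Icc x (x + T)) = volume (P ∩ Icc (x + w) (x + T + w)) := by
    rw [← measure_preimage_add_right volume w (P ∩ Icc (x + w) (x + T + w))]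
    congr 1
    ext t
    simp only [mem_inter_iff, mem_ofPred_eq, mem_Icc, mem_preimage]
    constructor
    · rintro ⟨h, h1, h2⟩
      exact ⟨h, by linarith, by linarith⟩
    · rintro ⟨h, h1, h2⟩
      exact ⟨h, by linarith, by linarith⟩
  have h2 : volume (P ∩ Icc (x + w) (x + T + w))
      ≤ volume (P ∩ Icc x (x + T)) + ENNReal.ofReal w := by
    have h3 : P ∩ Icc (x + w) (x + T + w) ⊆ (P ∩ Icc x (x + T)) ∪ Icc (x + T) (x + T + w) := by
      rintro t ⟨h, h1, h2⟩
      by_cases h4 : t ≤ x + T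
      · exact Or.inl ⟨h, by linarith, h4⟩
      · exact Or.inr ⟨by linarith, h2⟩
    refine (measure_mono h3).trans ((measure_union_le _ _).trans ?_)
    rw [Real.volume_Icc]
    gcongr
    linarith
  calc (ENNReal.ofReal T)⁻¹ * volume ({t | t + w ∈ P} ∩ Icc x (x + T))
      ≤ (ENNReal.ofReal T)⁻¹ * (volume (P ∩ Icc x (x + T)) + ENNReal.ofReal w) := by
        rw [h1]
        gcongr
    _ = (ENNReal.ofReal T)⁻¹ * volume (P ∩ Icc x (x + T)) + ENNReal.ofReal (w / T) := by
        rw [mul_add, ← ENNReal.ofReal_inv_of_pos hT, ← ENNReal.ofReal_mul (by positivity)]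
        congr 2
        rw [div_eq_mul_inv, mul_comm]

/-- the low heights -/
lemma un_out {T x : ℝ} (hT : 3 ≤ T) (hx : |x| ≤ T ^ (9 / 10 : ℝ)) :
    un x T (Icc (T ^ (19 / 20 : ℝ)) (x + T))ᶜ ≤ ENNReal.ofReal (2 * T ^ (-(1 / 20) : ℝ)) := by
  have hT0 : 0 < T := by linarith
  unfold un
  rw [Measure.smul_apply, Measure.restrict_apply measurableSet_Icc.compl, smul_eq_mul]
  have h1 : (Icc (T ^ (19 / 20 : ℝ)) (x + T))ᶜ ∩ Icc x (x + T) ⊆ Ico x (T ^ (19 / 20 : ℝ)) := by
    rintro t ⟨ht, ht1, ht2⟩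
    refine ⟨ht1, ?_⟩
    by_contra h
    exact ht ⟨not_lt.1 h, ht2⟩
  have h2 : T ^ (9 / 10 : ℝ) ≤ T ^ (19 / 20 : ℝ) :=
    Real.rpow_le_rpow_of_exponent_le (by linarith) (by norm_num)
  have h3 : volume ((Icc (T ^ (19 / 20 : ℝ)) (x + T))ᶜ ∩ Icc x (x + T))
      ≤ ENNReal.ofReal (2 * T ^ (19 / 20 : ℝ)) := by
    refine (measure_mono h1).trans ?_
    rw [Real.volume_Ico]
    refine ENNReal.ofReal_le_ofReal ?_
    have := (abs_le.1 hx).1
    linarith
  calc (ENNReal.ofReal T)⁻¹ * volume ((Icc (T ^ (19 / 20 : ℝ)) (x + T))ᶜ ∩ Icc x (x + T))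
      ≤ (ENNReal.ofReal T)⁻¹ * ENNReal.ofReal (2 * T ^ (19 / 20 : ℝ)) := by gcongr
    _ = ENNReal.ofReal (2 * T ^ (-(1 / 20) : ℝ)) := by
        rw [← ENNReal.ofReal_inv_of_pos hT0, ← ENNReal.ofReal_mul (by positivity)]
        congr 1
        have : T ^ (-(1 / 20) : ℝ) = T ^ (19 / 20 : ℝ) * T ^ (-1 : ℝ) := by
          rw [← Real.rpow_add hT0]
          norm_num
        rw [this, Real.rpow_neg_one]
        ring

/-- averages over the shifts -/
lemma pick {μ : Measure ℝ} {lam : ℝ} (hl : 0 < lam) {E K1 : ENNReal} (n : ℕ) (D : ℕ → ℝ → Set ℝ)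
    (K : ℕ → ENNReal) (hDm : ∀ j, Measurable fun w => μ (D j w))
    (h : ∀ w ∈ Icc 0 lam, E ≤ K1 + ∑ j ∈ Finset.range n, μ (D j w))
    (hD : ∀ j ∈ Finset.range n, ∫⁻ w in Icc 0 lam, μ (D j w) ≤ ENNReal.ofReal lam * K j) :
    E ≤ K1 + ∑ j ∈ Finset.range n, K j := by
  have h0 : ENNReal.ofReal lam ≠ 0 := by simpa using hl
  have h1 : ENNReal.ofReal lam * E ≤ ENNReal.ofReal lam * (K1 + ∑ j ∈ Finset.range n, K j) := by
    calc ENNReal.ofReal lam * E = ∫⁻ w in Icc 0 lam, E := by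
          rw [setLIntegral_const, Real.volume_Icc, sub_zero, mul_comm]
      _ ≤ ∫⁻ w in Icc 0 lam, (K1 + ∑ j ∈ Finset.range n, μ (D j w)) :=
          setLIntegral_mono' measurableSet_Icc h
      _ = (∫⁻ w in Icc 0 lam, K1) + ∑ j ∈ Finset.range n, ∫⁻ w in Icc 0 lam, μ (D j w) := by
          rw [lintegral_add_left measurable_const, lintegral_finsetSum _ fun j _ => hDm j]
      _ ≤ ENNReal.ofReal lam * K1 + ∑ j ∈ Finset.range n, ENNReal.ofReal lam * K j := by
          refine add_le_add (le_of_eq ?_) (Finset.sum_le_sum hD)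
          rw [setLIntegral_const, Real.volume_Icc, sub_zero, mul_comm]
      _ = _ := by rw [mul_add, Finset.mul_sum]
  exact (ENNReal.mul_le_mul_iff_right h0 ENNReal.ofReal_ne_top).1 h1

/-- a cover -/
lemma cover {μ : Measure ℝ} {P B0 : Set ℝ} (n : ℕ) (a Nn Y : ℕ → Set ℝ) (F : ℕ → ℕ → Set ℝ)
    (h : ∀ t ∈ P, t ∈ B0 ∨ (∃ i < n, t ∈ a i) ∨ (∃ j < n, ∃ i < j, t ∈ F i j) ∨
      (∃ j < n, t ∈ Nn j) ∨ ∃ j < n, t ∈ Y j) :
    μ P ≤ μ B0 + (∑ i ∈ Finset.range n, μ (a i) + (∑ j ∈ Finset.range n, ∑ i ∈ Finset.range j,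
      μ (F i j) + (∑ j ∈ Finset.range n, μ (Nn j) + ∑ j ∈ Finset.range n, μ (Y j)))) := by
  have hs : P ⊆ B0 ∪ ((⋃ i ∈ Finset.range n, a i) ∪ ((⋃ j ∈ Finset.range n, ⋃ i ∈ Finset.range j,
      F i j) ∪ ((⋃ j ∈ Finset.range n, Nn j) ∪ ⋃ j ∈ Finset.range n, Y j))) := by
    intro t ht
    simp only [mem_union, mem_iUnion, Finset.mem_range, exists_prop]
    exact h t ht
  refine (measure_mono hs).trans ((measure_union_le _ _).trans (add_le_add le_rfl
    ((measure_union_le _ _).trans (add_le_add (measure_biUnion_finset_le _ _)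
    ((measure_union_le _ _).trans (add_le_add ?_ ((measure_union_le _ _).trans
    (add_le_add (measure_biUnion_finset_le _ _) (measure_biUnion_finset_le _ _)))))))))
  exact (measure_biUnion_finset_le _ _).trans (Finset.sum_le_sum fun j _ =>
    measure_biUnion_finset_le _ _)

lemma cont_zeta : Continuous fun t : ℝ => riemannZeta (1 / 2 + I * t) := by
  rw [continuous_iff_continuousAt]
  intro t
  have h1 : (1 / 2 + I * t : ℂ) ≠ 1 := by
    intro h
    have := congrArg Complex.re h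
    norm_num at this
  have h2 : ContinuousAt (fun t : ℝ => (1 / 2 + I * t : ℂ)) t := by fun_prop
  exact ContinuousAt.comp (g := riemannZeta) (f := fun t : ℝ => (1 / 2 + I * t : ℂ))
    (differentiableAt_riemannZeta h1).continuousAt h2

lemma meas_good (A : Par) : MeasurableSet {t : ℝ | A.Good ∅ (om t)} := by
  have h : {t : ℝ | A.Good ∅ (om t)} = ⋂ g ∈ Finset.range A.J \ ∅, {t | ‖A.P g (om t)‖ ≤ RR (A.r g)} := by
    ext t
    simp only [Par.Good, mem_ofPred_eq, mem_iInter]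
  rw [h]
  exact Finset.measurableSet_biInter _ fun g _ =>
    (isClosed_le (((A.continuous_P g).comp continuous_om).norm) continuous_const).measurableSet

/-- the place of a number among the levels -/
lemma place {f : ℕ → ℝ} {d : ℝ} {i m : ℕ} (him : i ≤ m) (h : f i < d) :
    ∃ j, i ≤ j ∧ j ≤ m ∧ f j < d ∧ (j < m → d ≤ f (j + 1)) := by
  by_contra hcon
  push Not at hcon
  have h1 : ∀ j, i ≤ j → j ≤ m → f j < d := by
    intro j hij
    induction j, hij using Nat.le_induction with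
    | base => intro _; exact h
    | succ j hij ih =>
      intro hj
      exact (hcon j hij (by omega) (ih (by omega))).2
  have h2 := (hcon m him le_rfl (h1 m him le_rfl)).1
  exact lt_irrefl _ h2

/-- the levels are disjoint -/
lemma disj (A : ℕ → Par) (m : ℕ) {i j : ℕ} (hij : i < j) (hj : j ≤ m) {t : ℝ} (hi : t ∈ Lv A m i)
    (hjt : t ∈ Lv A m j) : False := by
  obtain ⟨k, rfl⟩ : ∃ k, j = k + 1 := ⟨j - 1, by omega⟩
  exact hjt.2 k rfl (hi.1 k (by omega) (by omega))

/-- the geometric part: a height with large prime sum and small value nearby -/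
lemma geom (A : ℕ → Par) (m : ℕ) {N x T V w C2 : ℝ} (hN : 256 ≤ N) {i : ℕ} (him : i ≤ m) {t : ℝ}
    (ht : t ∈ Lv A m i) (hV : V < (A i).X ∅ (om t))
    (hz : ‖riemannZeta (1 / 2 + I * (t + w : ℝ))‖ ≤ Real.exp V) :
    t ∈ (Icc (T ^ (19 / 20 : ℝ)) (x + T))ᶜ ∨
    (∃ i < m + 1, t ∈ {t | t ∈ Lv A m i ∧ (A i).Good ∅ (om t) ∧ V < (A i).X ∅ (om t) ∧
      (A i).X ∅ (om t) ≤ V + NN N i}) ∨
    (∃ j < m + 1, ∃ i < j, t ∈ {t | (A i).Good ∅ (om t) ∧ V + NN N j < (A i).X ∅ (om t) ∧
      (A i).X ∅ (om t) - V < 2 * |(A i).X ∅ (om t) - (A j).X ∅ (om t)|}) ∨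
    (∃ j < m + 1, t ∈ {t | t ∈ Icc (T ^ (19 / 20 : ℝ)) (x + T) ∧ (A j).Good ∅ (om t) ∧
      ¬ Nice C2 (A j) T t ∧ V < (A j).X ∅ (om t) ∧ (j < m → (A j).X ∅ (om t) ≤ V + 2 * NN N (j + 1))}) ∨
    ∃ j < m + 1, t ∈ {t | t ∈ Icc (T ^ (19 / 20 : ℝ)) (x + T) ∧ (A j).Good ∅ (om t) ∧
        Nice C2 (A j) T t ∧ V + NN N j / 2 < (A j).X ∅ (om t) ∧
        ‖riemannZeta (1 / 2 + I * (t + w : ℝ))‖ ≤ Real.exp V} := by
  by_cases hI : t ∈ Icc (T ^ (19 / 20 : ℝ)) (x + T)
  swap
  · exact Or.inl hI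
  right
  have hgood : ∀ j, i ≤ j → j ≤ m → (A j).Good ∅ (om t) := fun j h1 h2 => ht.1 j h1 h2
  by_cases hd : (A i).X ∅ (om t) ≤ V + NN N i
  · exact Or.inl ⟨i, by omega, ht, hgood i le_rfl him, hV, hd⟩
  right
  push Not at hd
  obtain ⟨j, hij, hjm, h1, h2⟩ := place (f := NN N) (d := (A i).X ∅ (om t) - V) him (by linarith)
  have hNj : 0 < NN N j := by linarith [(NN_one hN j).1]
  by_cases hF : (A i).X ∅ (om t) - V < 2 * |(A i).X ∅ (om t) - (A j).X ∅ (om t)|
  · left
    refine ⟨j, by omega, i, ?_, hgood i le_rfl him, by linarith, hF⟩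
    rcases Nat.lt_or_ge i j with h | h
    · exact h
    · exfalso
      obtain rfl : i = j := le_antisymm hij h
      rw [sub_self, abs_zero] at hF
      linarith
  right
  push Not at hF
  have hF' := abs_le.1 (show |(A i).X ∅ (om t) - (A j).X ∅ (om t)| ≤ ((A i).X ∅ (om t) - V) / 2 by
    linarith)
  have hX : V + NN N j / 2 < (A j).X ∅ (om t) := by linarith [hF'.2]
  by_cases hn : Nice C2 (A j) T t
  · exact Or.inr ⟨j, by omega, hI, hgood j hij hjm, hn, hX, hz⟩
  · refine Or.inl ⟨j, by omega, hI, hgood j hij hjm, hn, by linarith, fun hj => ?_⟩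
    have h3 := h2 hj
    linarith [hF'.1]

end E6x

open E6x

set_option maxHeartbeats 4000000 in
/-- E6 -/
theorem crossLow (hC : ChainNum) (hM : WMean) (hW : WinMass) (hF : FarPair) (hL : LowNice) :
    CrossLow := by
  classical
  obtain ⟨N1, hN1, H1⟩ := hC
  obtain ⟨CM, TM, hCM, hTM, HM⟩ := hM
  obtain ⟨CW, v0, hCW, HW⟩ := hW
  obtain ⟨CF, NF, TF, hCF, hNF, hTF, HF⟩ := hF
  obtain ⟨CL, C2, NL, TL, hCL, hC2, hNL, hTL, HL⟩ := hL
  refine ⟨max 256 (max N1 (max NF (max NL (Real.exp v0)))),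
    (by norm_num : (1 : ℝ) ≤ 256).trans (le_max_left _ _), fun N hN => ?_⟩
  have hN256 : 256 ≤ N := (le_max_left _ _).trans hN
  have hN' := (le_max_right _ _).trans hN
  have hNN1 : N1 ≤ N := (le_max_left _ _).trans hN'
  have hN' := (le_max_right _ _).trans hN'
  have hNNF : NF ≤ N := (le_max_left _ _).trans hN'
  have hN' := (le_max_right _ _).trans hN'
  have hNNL : NL ≤ N := (le_max_left _ _).trans hN'
  have hNNv : Real.exp v0 ≤ N := (le_max_right _ _).trans hN'
  have hN0 : 0 < N := by linarith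
  obtain ⟨T1, hT1, H1⟩ := H1 N hNN1
  refine ⟨CW * CM * (N + 1) + 8 * CW + 4 * CF + 10 * CL + 96,
    max (3 ^ 60) (max T1 (max TM (max TF TL))), ?_,
    (by norm_num : (3 : ℝ) ≤ 3 ^ 60).trans (le_max_left _ _), ?_⟩
  · have : 0 ≤ CW * CM * (N + 1) := by positivity
    linarith
  intro A T m hch hT x V hx
  have hT60 : (3 : ℝ) ^ 60 ≤ T := (le_max_left _ _).trans hT
  have hT' := (le_max_right _ _).trans hT
  have hTT1 : T1 ≤ T := (le_max_left _ _).trans hT'
  have hT' := (le_max_right _ _).trans hT'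
  have hTTM : TM ≤ T := (le_max_left _ _).trans hT'
  have hT' := (le_max_right _ _).trans hT'
  have hTTF : TF ≤ T := (le_max_left _ _).trans hT'
  have hTTL : TL ≤ T := (le_max_right _ _).trans hT'
  have hT3 : 3 ≤ T := hT1.trans hTT1
  have hT0 : 0 < T := by linarith
  obtain ⟨Hm, HG, -, -, HE⟩ := H1 A T m hch hTT1
  have hprob : IsProbabilityMeasure (un x T) := prob_un x hT0
  have hNj : ∀ j, N ≤ NN N j := fun j => (NN_one hN256 j).1
  have hNj1 : ∀ j, 1 ≤ NN N j := fun j => by linarith [hNj j]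
  have hNj0 : ∀ j, 0 < NN N j := fun j => by linarith [hNj j]
  have hG0 : 0 ≤ (A 0).G V := (HG 0 (Nat.zero_le m) V).1
  have hL0 : 0 < Real.log T := Real.log_pos (by linarith)
  -- the sets
  obtain ⟨a, ha⟩ : ∃ a : ℕ → Set ℝ, a = fun i => {t | t ∈ Lv A m i ∧ (A i).Good ∅ (om t) ∧
      V < (A i).X ∅ (om t) ∧ (A i).X ∅ (om t) ≤ V + NN N i} := ⟨_, rfl⟩
  obtain ⟨F, hFd⟩ : ∃ F : ℕ → ℕ → Set ℝ, F = fun i j => {t | (A i).Good ∅ (om t) ∧
      V + NN N j < (A i).X ∅ (om t) ∧
      (A i).X ∅ (om t) - V < 2 * |(A i).X ∅ (om t) - (A j).X ∅ (om t)|} := ⟨_, rfl⟩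
  obtain ⟨Nn, hNn⟩ : ∃ Nn : ℕ → Set ℝ, Nn = fun j => {t | t ∈ Icc (T ^ (19 / 20 : ℝ)) (x + T) ∧
      (A j).Good ∅ (om t) ∧ ¬ Nice C2 (A j) T t ∧ V < (A j).X ∅ (om t) ∧
      (j < m → (A j).X ∅ (om t) ≤ V + 2 * NN N (j + 1))} := ⟨_, rfl⟩
  obtain ⟨Y, hY⟩ : ∃ Y : ℕ → ℝ → Set ℝ, Y = fun j w => {t | j ≤ m ∧
      (t ∈ Icc (T ^ (19 / 20 : ℝ)) (x + T) ∧ (A j).Good ∅ (om t) ∧
        Nice C2 (A j) T t ∧ V + NN N j / 2 < (A j).X ∅ (om t) ∧
        ‖riemannZeta (1 / 2 + I * (t + w : ℝ))‖ ≤ Real.exp V)} := ⟨_, rfl⟩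
  -- the bounds
  have hpow : ∀ (j : ℕ) {e : ℝ}, e ≤ -(1 / 2) → NN N j ^ e ≤ (1 / 4 : ℝ) ^ j :=
    fun j e he => NN_pow hN256 j he
  have b1 : ∀ i ∈ Finset.range (m + 1), un x T (a i) ≤ ENNReal.ofReal
      ((if i = 0 then CW * CM * (N + 1) else 4 * CW * (1 / 4) ^ (i - 1)) * (A 0).G V) := by
    intro i hi
    rw [Finset.mem_range] at hi
    have hs := hch.spec i (by omega)
    have hv : v0 ≤ (A i).v := by
      have h1 : (v0 : ℝ) ≤ Real.log N := (Real.le_log_iff_exp_le hN0).2 hNNv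
      have h2 : Real.log N ≤ Real.log (NN N i) := Real.log_le_log hN0 (hNj i)
      have h3 : 0 ≤ Real.log N := Real.log_nonneg (by linarith)
      have h4 := hs.hv1
      have h5 : (v0 : ℝ) ≤ (A i).v := by linarith
      exact_mod_cast h5
    by_cases hi0 : i = 0
    · subst hi0
      have hlen : Len (A 0) T := by
        have hv4 : (4 : ℝ) ≤ (A 0).v := by exact_mod_cast hs.ok.hv
        unfold Len
        rw [hs.hY]
        have : 10 ^ 10 * ((A 0).v : ℝ) * (Real.log T / (10 ^ 11 * (A 0).v)) = Real.log T / 10 := by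
          field_simp
        rw [this]
        linarith
      have h1 := HW (A 0) hs.ok hv hs.hb x T CM hT0 (by linarith) univ MeasurableSet.univ (by
        intro y
        have h := HM (A 0) hs.ok T hTTM hlen x y ∅ (Finset.empty_subset _)
        simpa using h) V (V + N) (by linarith)
      refine le_trans (measure_mono ?_) (h1.trans (le_of_eq ?_))
      · rw [ha]
        rintro t ⟨h2, h3, h4, h5⟩
        rw [NN_zero] at h5
        exact ⟨mem_univ t, h3, h4, h5⟩
      · rw [if_pos rfl]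
        congr 1
        ring
    · obtain ⟨k, rfl⟩ := Nat.exists_eq_succ_of_ne_zero hi0
      rw [if_neg hi0]
      have h1 := HW (A (k + 1)) hs.ok hv hs.hb x T (NN N k ^ (-(4 : ℝ))) hT0
        (Real.rpow_nonneg (hNj0 k).le _) (Lv A m (k + 1)) (Hm (k + 1)).2
        (fun y => HE k (by omega) x y) V (V + NN N (k + 1)) (by linarith [hNj0 (k + 1)])
      refine le_trans (measure_mono ?_) (h1.trans (ENNReal.ofReal_le_ofReal ?_))
      · rw [ha]
      · have h2 := (HG (k + 1) (by omega) V).2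
        have h2' := (HG (k + 1) (by omega) V).1
        have h3 : NN N k ^ (-(4 : ℝ)) * (V + NN N (k + 1) - V + 1) ≤ 2 * (1 / 4) ^ k := by
          calc NN N k ^ (-(4 : ℝ)) * (V + NN N (k + 1) - V + 1)
              ≤ NN N k ^ (-(4 : ℝ)) * (2 * NN N (k + 1)) := by
                refine mul_le_mul_of_nonneg_left ?_ (Real.rpow_nonneg (hNj0 k).le _)
                linarith [hNj1 (k + 1)]
            _ = 2 * NN N k ^ (-(5 / 2) : ℝ) := by
                rw [NN_succ hN0.le, show (-(5 / 2) : ℝ) = -4 + 3 / 2 by norm_num,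
                  Real.rpow_add (hNj0 k)]
                ring
            _ ≤ 2 * (1 / 4) ^ k := by
                have := hpow k (show (-(5 / 2) : ℝ) ≤ -(1 / 2) by norm_num)
                linarith
        calc CW * NN N k ^ (-(4 : ℝ)) * (V + NN N (k + 1) - V + 1) * (A (k + 1)).G V
            = CW * (NN N k ^ (-(4 : ℝ)) * (V + NN N (k + 1) - V + 1)) * (A (k + 1)).G V := by ring
          _ ≤ CW * (2 * (1 / 4) ^ k) * (2 * (A 0).G V) := by gcongr
          _ = _ := by
              rw [Nat.succ_eq_add_one, Nat.add_sub_cancel]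
              ring
  have b2 : ∀ j ∈ Finset.range (m + 1), ∀ i ∈ Finset.range j, un x T (F i j)
      ≤ ENNReal.ofReal (2 * CF * (1 / 4) ^ j * (A 0).G V) := by
    intro j hj i hi
    rw [Finset.mem_range] at hi hj
    have h1 := HF (A i) (A j) T (NN N i) (NN N j) (hch.spec i (by omega)) (hch.spec j (by omega))
      (hNNF.trans (hNj i)) (by
        rw [← NN_succ hN0.le]
        exact NN_mono hN256 hi) hTTF x V
    rw [hFd]
    refine h1.trans (ENNReal.ofReal_le_ofReal ?_)
    have h2 := HG i (by omega) V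
    calc CF * NN N j ^ (-(1 / 2) : ℝ) * (A i).G V ≤ CF * (1 / 4) ^ j * (2 * (A 0).G V) := by
          have h3 := hpow j (le_refl (-(1 / 2) : ℝ))
          have h4 : 0 ≤ (A i).G V := h2.1
          gcongr
          exact h2.2
      _ = _ := by ring
  have b3 : ∀ j ∈ Finset.range (m + 1), un x T (Nn j)
      ≤ ENNReal.ofReal ((4 * CL * (1 / 4) ^ j + (if j = m then 2 * CL else 0)) * (A 0).G V) := by
    intro j hj
    rw [Finset.mem_range] at hj
    have hs := hch.spec j (by omega)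
    obtain ⟨-, -, h2, h3⟩ := HL (A j) T (NN N j) hs (hNNL.trans (hNj j)) hTTL x V hx
    have hGj := HG j (by omega) V
    by_cases hjm : j = m
    · rw [if_pos hjm]
      refine le_trans (measure_mono ?_) (h3.trans (ENNReal.ofReal_le_ofReal ?_))
      · rw [hNn]
        rintro t ⟨g1, g2, g3, g4, g5⟩
        exact ⟨g1, g2, g3, g4⟩
      · have hl : 0 < Real.log (Real.log T) := by linarith [hch.size, hNj0 m]
        have hbe : 1 / Real.log (Real.log T) ≤ (A j).be := by
          rw [hch.be j (by omega)]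
          exact hch.beL
        have hbe0 : 0 < (A j).be := hs.ok.hbe
        have h4 : CL / (NN N j ^ 3 * (A j).be) ≤ CL := by
          rw [div_le_iff₀ (by have := hNj0 j; positivity)]
          have h5 : 1 ≤ NN N j ^ 3 * (A j).be := by
            have h6 : 1 ≤ Real.log (Real.log T) * (A j).be := by
              rwa [div_le_iff₀ hl, mul_comm] at hbe
            have h7 : Real.log (Real.log T) ≤ NN N j ^ 3 := by
              rw [hjm]
              refine hch.top.trans ?_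
              rw [← Real.rpow_natCast]
              exact Real.rpow_le_rpow_of_exponent_le (hNj1 m) (by norm_num)
            calc 1 ≤ Real.log (Real.log T) * (A j).be := h6
              _ ≤ NN N j ^ 3 * (A j).be := by gcongr
          nlinarith
        calc CL / (NN N j ^ 3 * (A j).be) * (A j).G V ≤ CL * (2 * (A 0).G V) := by
              have h4' : 0 ≤ (A j).G V := hGj.1
              gcongr
              exact hGj.2
          _ ≤ (4 * CL * (1 / 4) ^ j + 2 * CL) * (A 0).G V := by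
              have : 0 ≤ 4 * CL * (1 / 4) ^ j * (A 0).G V := by positivity
              nlinarith
    · rw [if_neg hjm, add_zero]
      have h4 := h2 (2 * NN N (j + 1)) (by linarith [hNj1 (j + 1)])
      refine le_trans (measure_mono ?_) (h4.trans (ENNReal.ofReal_le_ofReal ?_))
      · rw [hNn]
        rintro t ⟨g1, g2, g3, g4, g5⟩
        exact ⟨g1, g2, g3, g4, g5 (by omega)⟩
      · have h5 : NN N (j + 1) / NN N j ^ 3 ≤ (1 / 4) ^ j := by
          have h6 : NN N (j + 1) / NN N j ^ 3 = NN N j ^ (-(3 / 2) : ℝ) := by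
            rw [NN_succ hN0.le, show (-(3 / 2) : ℝ) = 3 / 2 - 3 by norm_num,
              Real.rpow_sub (hNj0 j)]
            congr 1
            rw [← Real.rpow_natCast]
            norm_num
          rw [h6]
          exact hpow j (by norm_num)
        calc CL * (2 * NN N (j + 1)) / NN N j ^ 3 * (A j).G V
            = CL * 2 * (NN N (j + 1) / NN N j ^ 3) * (A j).G V := by ring
          _ ≤ CL * 2 * (1 / 4) ^ j * (2 * (A 0).G V) := by
              have h4' : 0 ≤ (A j).G V := hGj.1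
              gcongr
              exact hGj.2
          _ = _ := by ring
  have hlam0 : 0 < (A 0).lam := by
    rw [(hch.spec 0 (Nat.zero_le m)).hl]
    have := hNj0 0
    positivity
  have b4 : ∀ j ∈ Finset.range (m + 1), ∫⁻ w in Icc 0 (A 0).lam, un x T (Y j w)
      ≤ ENNReal.ofReal (A 0).lam * ENNReal.ofReal (48 * (1 / 4) ^ j * (A 0).G V) := by
    intro j hj
    rw [Finset.mem_range] at hj
    have hs := hch.spec j (by omega)
    obtain ⟨-, h1, -, -⟩ := HL (A j) T (NN N j) hs (hNNL.trans (hNj j)) hTTL x V hx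
    have hle : (A 0).lam ≤ (A j).lam := by
      rw [(hch.spec 0 (Nat.zero_le m)).hl, hs.hl]
      have h2 := NN_mono hN256 (Nat.zero_le j)
      have h3 := hNj0 0
      gcongr
    have h2 := h1 (A 0).lam hlam0 hle
    rw [← ENNReal.ofReal_mul hlam0.le]
    refine le_trans (lintegral_mono fun w => ?_) (h2.trans (ENNReal.ofReal_le_ofReal ?_))
    · rw [hY]
      exact measure_mono fun t ht => ht.2
    · have h3 := exp_pow (hNj1 j)
      have h4 := hpow j (le_refl (-(1 / 2) : ℝ))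
      have h5 : 1 ≤ NN N 0 ^ (1 / 2 : ℝ) := Real.one_le_rpow (hNj1 0) (by norm_num)
      have hGj := HG j (by omega) V
      calc (A j).lam * Real.exp (-(NN N j ^ (1 / 4 : ℝ))) * (A j).G V
          = (NN N j ^ (1 / 2 : ℝ) * Real.exp (-(NN N j ^ (1 / 4 : ℝ)))) / Real.log T * (A j).G V := by
            rw [hs.hl]
            ring
        _ ≤ (24 * (1 / 4) ^ j) * NN N 0 ^ (1 / 2 : ℝ) / Real.log T * (2 * (A 0).G V) := by
            have h6 : NN N j ^ (1 / 2 : ℝ) * Real.exp (-(NN N j ^ (1 / 4 : ℝ)))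
                ≤ (24 * (1 / 4) ^ j) * NN N 0 ^ (1 / 2 : ℝ) := by
              have h7 : (0 : ℝ) ≤ (1 / 4) ^ j := by positivity
              nlinarith
            have h8 : 0 ≤ (A j).G V := hGj.1
            gcongr
            exact hGj.2
        _ = _ := by
            rw [(hch.spec 0 (Nat.zero_le m)).hl]
            ring
  -- the sums
  have hsum : ∀ (n : ℕ) (f : ℕ → ENNReal) (g : ℕ → ℝ) (B : ℝ), (∀ j ∈ Finset.range n, 0 ≤ g j) →
      (∀ j ∈ Finset.range n, f j ≤ ENNReal.ofReal (g j)) → ∑ j ∈ Finset.range n, g j ≤ B →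
      ∑ j ∈ Finset.range n, f j ≤ ENNReal.ofReal B := by
    intro n f g B h0 h1 h2
    calc ∑ j ∈ Finset.range n, f j ≤ ∑ j ∈ Finset.range n, ENNReal.ofReal (g j) :=
          Finset.sum_le_sum h1
      _ = ENNReal.ofReal (∑ j ∈ Finset.range n, g j) := (ENNReal.ofReal_sum_of_nonneg h0).symm
      _ ≤ _ := ENNReal.ofReal_le_ofReal h2
  have s1 : ∑ i ∈ Finset.range (m + 1), un x T (a i)
      ≤ ENNReal.ofReal ((CW * CM * (N + 1) + 8 * CW) * (A 0).G V) := by
    refine hsum _ _ _ _ ?_ b1 ?_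
    · intro i _
      split_ifs <;> positivity
    · rw [← Finset.sum_mul]
      refine mul_le_mul_of_nonneg_right ?_ hG0
      rw [Finset.sum_range_succ']
      simp only [Nat.succ_ne_zero, if_false, if_true, Nat.add_sub_cancel]
      rw [← Finset.mul_sum]
      have := geo4 m
      nlinarith
  have s2 : ∑ j ∈ Finset.range (m + 1), ∑ i ∈ Finset.range j, un x T (F i j)
      ≤ ENNReal.ofReal (4 * CF * (A 0).G V) := by
    refine hsum _ _ (fun j => (j : ℝ) * (2 * CF * (1 / 4) ^ j * (A 0).G V)) _ ?_ ?_ ?_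
    · intro j _
      positivity
    · intro j hj
      refine hsum _ _ (fun _ => 2 * CF * (1 / 4) ^ j * (A 0).G V) _ ?_ (b2 j hj) ?_
      · intro i _
        positivity
      · rw [Finset.sum_const, Finset.card_range, nsmul_eq_mul]
    · have h1 : ∑ j ∈ Finset.range (m + 1), (j : ℝ) * (2 * CF * (1 / 4) ^ j * (A 0).G V)
          = 2 * CF * (A 0).G V * ∑ j ∈ Finset.range (m + 1), (j : ℝ) * (1 / 4) ^ j := by
        rw [Finset.mul_sum]
        exact Finset.sum_congr rfl fun j _ => by ring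
      rw [h1]
      have h2 := geo2 (m + 1)
      have h3 : 0 ≤ 2 * CF * (A 0).G V := by positivity
      nlinarith
  have s3 : ∑ j ∈ Finset.range (m + 1), un x T (Nn j) ≤ ENNReal.ofReal (10 * CL * (A 0).G V) := by
    refine hsum _ _ _ _ ?_ b3 ?_
    · intro j _
      have : (0 : ℝ) ≤ if j = m then 2 * CL else 0 := by split_ifs <;> positivity
      positivity
    · rw [← Finset.sum_mul]
      refine mul_le_mul_of_nonneg_right ?_ hG0
      rw [Finset.sum_add_distrib, Finset.sum_ite_eq' (Finset.range (m + 1)) m (fun _ => 2 * CL),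
        if_pos (Finset.mem_range.2 (Nat.lt_succ_self m)), ← Finset.mul_sum]
      have := geo4 (m + 1)
      nlinarith
  have s4 : ∑ j ∈ Finset.range (m + 1), ENNReal.ofReal (48 * (1 / 4) ^ j * (A 0).G V)
      ≤ ENNReal.ofReal (96 * (A 0).G V) := by
    refine hsum _ _ (fun j => 48 * (1 / 4) ^ j * (A 0).G V) _ ?_ (fun _ _ => le_rfl) ?_
    · intro j _
      positivity
    · rw [← Finset.sum_mul, ← Finset.mul_sum]
      refine mul_le_mul_of_nonneg_right ?_ hG0
      have := geo4 (m + 1)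
      linarith
  -- measurability in the shift
  have hYm : ∀ j, Measurable fun w => un x T (Y j w) := by
    intro j
    by_cases hj : j ≤ m
    · have hs := hch.spec j hj
      obtain ⟨hNm, -, -, -⟩ := HL (A j) T (NN N j) hs (hNNL.trans (hNj j)) hTTL x V hx
      have hR : MeasurableSet {p : ℝ × ℝ | p.2 ∈ Icc (T ^ (19 / 20 : ℝ)) (x + T) ∧
          (A j).Good ∅ (om p.2) ∧ Nice C2 (A j) T p.2 ∧ V + NN N j / 2 < (A j).X ∅ (om p.2) ∧
          ‖riemannZeta (1 / 2 + I * (p.2 + p.1 : ℝ))‖ ≤ Real.exp V} := by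
        have hXm : Measurable fun t : ℝ => (A j).X ∅ (om t) :=
          (((A j).continuous_X ∅).comp continuous_om).measurable
        have m1 : MeasurableSet {t : ℝ | t ∈ Icc (T ^ (19 / 20 : ℝ)) (x + T)} := measurableSet_Icc
        have m4 : MeasurableSet {t : ℝ | V + NN N j / 2 < (A j).X ∅ (om t)} :=
          measurableSet_lt measurable_const hXm
        have m5 : MeasurableSet {p : ℝ × ℝ | ‖riemannZeta (1 / 2 + I * (p.2 + p.1 : ℝ))‖
            ≤ Real.exp V} := by
          have h1 : Continuous fun p : ℝ × ℝ => riemannZeta (1 / 2 + I * (p.2 + p.1 : ℝ)) :=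
            cont_zeta.comp (f := fun p : ℝ × ℝ => p.2 + p.1) (by fun_prop)
          exact measurableSet_le h1.norm.measurable measurable_const
        exact (measurable_snd m1).inter ((measurable_snd (meas_good (A j))).inter
          ((measurable_snd hNm).inter ((measurable_snd m4).inter m5)))
      have h := measurable_measure_prodMk_left (ν := un x T) hR
      convert h using 2 with w
      congr 1
      rw [hY]
      ext t
      simp only [mem_ofPred_eq, mem_preimage, hj, true_and]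
    · have : (fun w => un x T (Y j w)) = fun _ => 0 := by
        funext w
        have : Y j w = ∅ := by
          rw [hY]
          ext t
          simp only [mem_ofPred_eq, mem_empty_iff_false, iff_false]
          exact fun h => hj h.1
        rw [this, measure_empty]
      rw [this]
      exact measurable_const
  -- the sets with large prime sums
  obtain ⟨S, hS⟩ : ∃ S : ℕ → Set ℝ, S = fun i => {t | t ∈ Lv A m i ∧ V < (A i).X ∅ (om t)} := ⟨_, rfl⟩
  have hSm : ∀ i, MeasurableSet (S i) := by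
    intro i
    rw [hS]
    exact (Hm i).2.inter (measurableSet_lt measurable_const
      (((A i).continuous_X ∅).comp continuous_om).measurable)
  obtain ⟨K1, hK1⟩ : ∃ K1 : ENNReal, K1 = (un x T {t | Real.exp V < ‖riemannZeta (1 / 2 + I * t)‖}
      + ENNReal.ofReal (1 / T)) + (ENNReal.ofReal (2 * T ^ (-(1 / 20) : ℝ))
      + (ENNReal.ofReal ((CW * CM * (N + 1) + 8 * CW) * (A 0).G V)
      + (ENNReal.ofReal (4 * CF * (A 0).G V) + ENNReal.ofReal (10 * CL * (A 0).G V)))) := ⟨_, rfl⟩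
  have hE : ∑ i ∈ Finset.range (m + 1), un x T (S i) ≤ K1
      + ∑ j ∈ Finset.range (m + 1), ENNReal.ofReal (48 * (1 / 4) ^ j * (A 0).G V) := by
    refine pick hlam0 (m + 1) Y _ hYm ?_ b4
    intro w hw
    have e1 : ∑ i ∈ Finset.range (m + 1), un x T (S i)
        = un x T (⋃ i ∈ Finset.range (m + 1), S i) := by
      rw [measure_biUnion_finset]
      · intro i hi j hj hij
        rw [Finset.mem_coe, Finset.mem_range] at hi hj
        rw [Function.onFun, Set.disjoint_left]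
        intro t h1 h2
        rw [hS] at h1 h2
        rcases lt_or_gt_of_ne hij with h | h
        · exact disj A m h (by omega) h1.1 h2.1
        · exact disj A m h (by omega) h2.1 h1.1
      · exact fun i _ => hSm i
    have e2 : un x T (⋃ i ∈ Finset.range (m + 1), S i)
        ≤ un x T {t | t + w ∈ {t : ℝ | Real.exp V < ‖riemannZeta (1 / 2 + I * t)‖}}
          + un x T ((⋃ i ∈ Finset.range (m + 1), S i) ∩
            {t | ‖riemannZeta (1 / 2 + I * (t + w : ℝ))‖ ≤ Real.exp V}) := by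
      refine (measure_mono ?_).trans (measure_union_le _ _)
      intro t ht
      by_cases h : ‖riemannZeta (1 / 2 + I * (t + w : ℝ))‖ ≤ Real.exp V
      · exact Or.inr ⟨ht, h⟩
      · refine Or.inl ?_
        push Not at h
        exact h
    have e3 := un_shift (x := x) hT0 hw.1 {t : ℝ | Real.exp V < ‖riemannZeta (1 / 2 + I * t)‖}
    have e4 : ENNReal.ofReal (w / T) ≤ ENNReal.ofReal (1 / T) := by
      refine ENNReal.ofReal_le_ofReal ?_
      have h1 := (hch.spec 0 (Nat.zero_le m)).ok.hl1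
      have h2 := hw.2
      gcongr
      linarith
    have e5 := cover (μ := un x T) (P := (⋃ i ∈ Finset.range (m + 1), S i) ∩
            {t | ‖riemannZeta (1 / 2 + I * (t + w : ℝ))‖ ≤ Real.exp V})
            (B0 := (Icc (T ^ (19 / 20 : ℝ)) (x + T))ᶜ) (m + 1) a Nn (fun j => Y j w) F (by
      rintro t ⟨ht, hz⟩
      simp only [mem_iUnion, Finset.mem_range, exists_prop] at ht
      obtain ⟨i, hi, ht⟩ := ht
      rw [hS] at ht
      have h := geom A m (x := x) (T := T) (w := w) (C2 := C2) hN256 (by omega : i ≤ m) ht.1 ht.2 hz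
      rw [ha, hFd, hNn, hY]
      rcases h with h | h | h | h | ⟨j, hj, h⟩
      · exact Or.inl h
      · exact Or.inr (Or.inl h)
      · exact Or.inr (Or.inr (Or.inl h))
      · exact Or.inr (Or.inr (Or.inr (Or.inl h)))
      · exact Or.inr (Or.inr (Or.inr (Or.inr ⟨j, hj, by omega, h⟩))))
    have e6 := un_out hT3 hx
    rw [e1, hK1]
    refine e2.trans ((add_le_add (e3.trans (add_le_add le_rfl e4)) (e5.trans (add_le_add e6
      (add_le_add s1 (add_le_add s2 (add_le_add s3 le_rfl)))))).trans (le_of_eq ?_))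
    ring
  -- the end
  obtain ⟨Q, hQ⟩ : ∃ Q : ℝ, Q = 1 / T + (2 * T ^ (-(1 / 20) : ℝ)
      + ((CW * CM * (N + 1) + 8 * CW) * (A 0).G V + (4 * CF * (A 0).G V + 10 * CL * (A 0).G V)))
      + 96 * (A 0).G V := ⟨_, rfl⟩
  have hT20 : 0 < T ^ (-(1 / 20) : ℝ) := Real.rpow_pos_of_pos hT0 _
  have hQ0 : 0 ≤ Q := by
    rw [hQ]
    positivity
  have hE2 : ∑ i ∈ Finset.range (m + 1), un x T (S i)
      ≤ un x T {t | Real.exp V < ‖riemannZeta (1 / 2 + I * t)‖} + ENNReal.ofReal Q := by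
    refine (hE.trans (add_le_add le_rfl s4)).trans (le_of_eq ?_)
    rw [hK1, hQ, ENNReal.ofReal_add (by positivity) (by positivity),
      ENNReal.ofReal_add (by positivity) (by positivity),
      ENNReal.ofReal_add (by positivity) (by positivity),
      ENNReal.ofReal_add (by positivity) (by positivity),
      ENNReal.ofReal_add (by positivity) (by positivity)]
    ring
  have hQC : Q ≤ (CW * CM * (N + 1) + 8 * CW + 4 * CF + 10 * CL + 96) * (A 0).G V
      + T ^ (-(1 / 30) : ℝ) := by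
    have h1 : 1 / T ≤ T ^ (-(1 / 20) : ℝ) := by
      rw [one_div, ← Real.rpow_neg_one]
      exact Real.rpow_le_rpow_of_exponent_le (by linarith) (by norm_num)
    have h2 : 3 * T ^ (-(1 / 20) : ℝ) ≤ T ^ (-(1 / 30) : ℝ) := by
      have h3 : T ^ (-(1 / 30) : ℝ) = T ^ (1 / 60 : ℝ) * T ^ (-(1 / 20) : ℝ) := by
        rw [← Real.rpow_add hT0]
        norm_num
      rw [h3]
      refine mul_le_mul_of_nonneg_right ?_ hT20.le
      calc (3 : ℝ) = ((3 : ℝ) ^ 60) ^ (1 / 60 : ℝ) := by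
            rw [← Real.rpow_natCast, ← Real.rpow_mul (by norm_num)]
            norm_num
        _ ≤ T ^ (1 / 60 : ℝ) := Real.rpow_le_rpow (by positivity) hT60 (by norm_num)
    rw [hQ]
    nlinarith
  have hfin : ∀ P : Set ℝ, un x T P ≠ ⊤ := fun P => measure_ne_top _ _
  have hS' : ∀ i, un x T {t | t ∈ Lv A m i ∧ V < (A i).X ∅ (om t)} = un x T (S i) := fun i => by rw [hS]
  calc ∑ i ∈ Finset.range (m + 1), (un x T {t | t ∈ Lv A m i ∧ V < (A i).X ∅ (om t)}).toReal
      = (∑ i ∈ Finset.range (m + 1), un x T (S i)).toReal := by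
        rw [ENNReal.toReal_sum fun i _ => hfin _]
        exact Finset.sum_congr rfl fun i _ => by rw [hS']
    _ ≤ (un x T {t | Real.exp V < ‖riemannZeta (1 / 2 + I * t)‖} + ENNReal.ofReal Q).toReal :=
        ENNReal.toReal_mono (ENNReal.add_ne_top.2 ⟨hfin _, ENNReal.ofReal_ne_top⟩) hE2
    _ = (un x T {t | Real.exp V < ‖riemannZeta (1 / 2 + I * t)‖}).toReal + Q := by
        rw [ENNReal.toReal_add (hfin _) ENNReal.ofReal_ne_top, ENNReal.toReal_ofReal hQ0]
    _ ≤ _ := by linarith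

end Pool.Agent.Lib.RA
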