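import Mathlib
import Pool.Agent.Lib.MP_f9aece_nt_rate.Stmts

/-!
The rate in the central limit theorem for `log |zeta|`, F1: the rate, with the parameters.
-/

set_option autoImplicit false

namespace Pool.Agent.Lib.RA

open MeasureTheory Set Filter Topology Complex ProbabilityTheory
open scoped ComplexConjugate
open Pool.Agent.Lib.GT
open Pool.Agent.Lib.LC
open Pool.Agent.Lib.LC.E9 (NN NN_zero NN_succ NN_ge last)

namespace F1x

/-- existence of a chain of levels above a given set of parameters -/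
lemma chain_ex (hE : LC.SpecEx) : ∃ N0 : ℝ, 1 ≤ N0 ∧ ∀ N : ℝ, N0 ≤ N → ∃ T0 : ℝ, 3 ≤ T0 ∧
    ∀ (A : Par) (T : ℝ), Spec A T N → T0 ≤ T → 1 / Real.log (Real.log T) ≤ A.be →
    ∃ (B : ℕ → Par) (m : ℕ), B 0 = A ∧ Chain B T N m := by
  obtain ⟨N3, hN3, H3⟩ := hE
  refine ⟨max 256 N3, (by norm_num : (1 : ℝ) ≤ 256).trans (le_max_left _ _), fun N hN => ?_⟩
  have hN256 : 256 ≤ N := (le_max_left _ _).trans hN
  have hNN3 : N3 ≤ N := (le_max_right _ _).trans hN
  have hN0 : 0 < N := by linarith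
  obtain ⟨l0, hl0⟩ : ∃ l0 : ℝ, ∀ l : ℝ, l0 ≤ l → l ^ 10 ≤ Real.exp l := by
    have h := (Real.tendsto_pow_mul_exp_neg_atTop_nhds_zero 10).eventually
      (gt_mem_nhds (show (0 : ℝ) < 1 by norm_num))
    obtain ⟨l0, h⟩ := eventually_atTop.1 h
    refine ⟨l0, fun l hl => ?_⟩
    have h1 := h l hl
    rw [Real.exp_neg] at h1
    have h2 := Real.exp_pos l
    have h3 : l ^ 10 < Real.exp l := by
      rwa [← div_eq_mul_inv, div_lt_one h2] at h1
    exact h3.le
  set lm : ℝ := max (N ^ 2 + 1) l0 with hlm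
  refine ⟨max 3 (Real.exp (Real.exp lm)), le_max_left _ _, ?_⟩
  intro A T hA hT0 hbe
  have hTe : Real.exp (Real.exp lm) ≤ T := (le_max_right _ _).trans hT0
  have hTp : 0 < T := (Real.exp_pos _).trans_le hTe
  have hLe : Real.exp lm ≤ Real.log T := (Real.le_log_iff_exp_le hTp).2 hTe
  have hLp : 0 < Real.log T := (Real.exp_pos _).trans_le hLe
  have hle : lm ≤ Real.log (Real.log T) := (Real.le_log_iff_exp_le hLp).2 hLe
  set l : ℝ := Real.log (Real.log T) with hl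
  have hlN : N ^ 2 < l := by
    have := (le_max_left (N ^ 2 + 1) l0).trans hle
    linarith
  have hl0' : l ^ 10 ≤ Real.log T := by
    have h1 := hl0 l ((le_max_right (N ^ 2 + 1) l0).trans hle)
    rwa [hl, Real.exp_log hLp] at h1
  have hl1 : 1 < l := by nlinarith
  have hlp : 0 < l := by linarith
  obtain ⟨m, hm1, hm2, hm3⟩ := last hN256 hlN
  have hNge : ∀ j, N ≤ NN N j := fun j => by
    have := NN_ge hN256 j
    have h16 : (1 : ℝ) ≤ 16 ^ j := one_le_pow₀ (by norm_num)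
    nlinarith
  have hNl : ∀ j, j ≤ m → NN N j ≤ l := fun j hj => by
    refine (hm2 j hj).trans ?_
    calc l ^ (5 / 6 : ℝ) ≤ l ^ (1 : ℝ) := Real.rpow_le_rpow_of_exponent_le hl1.le (by norm_num)
      _ = l := Real.rpow_one _
  have hN12 : ∀ j, j ≤ m → NN N j ^ 12 ≤ Real.log T := fun j hj => by
    have h0 : 0 ≤ NN N j := hN0.le.trans (hNge j)
    calc NN N j ^ 12 ≤ (l ^ (5 / 6 : ℝ)) ^ 12 := pow_le_pow_left₀ h0 (hm2 j hj) 12
      _ = l ^ 10 := by
          rw [← Real.rpow_natCast, ← Real.rpow_mul hlp.le, ← Real.rpow_natCast]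
          norm_num
      _ ≤ Real.log T := hl0'
  have hex : ∀ j : ℕ, ∃ B : Par, (j ≤ m → Spec B T (NN N j) ∧ B.be = A.be) ∧ (j = 0 → B = A) := by
    intro j
    rcases Nat.eq_zero_or_pos j with rfl | hj
    · refine ⟨A, fun _ => ⟨?_, rfl⟩, fun _ => rfl⟩
      rw [NN_zero]
      exact hA
    · by_cases hjm : j ≤ m
      · obtain ⟨B, hB⟩ := H3 (NN N j) (hNN3.trans (hNge j)) T (hN12 j hjm) (hNl j hjm)
        exact ⟨{ B with be := A.be }, fun _ => ⟨hB A.be hA.ok.hbe hA.hbe, rfl⟩, fun h => by omega⟩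
      · exact ⟨A, fun h => absurd h hjm, fun h => by omega⟩
  choose B hB hB0 using hex
  have h0 : B 0 = A := hB0 0 rfl
  refine ⟨B, m, h0, ?_, ?_, ?_, hm1, hNl m le_rfl⟩
  · exact fun j hj => (hB j hj).1
  · intro j hj
    rw [(hB j hj).2, h0]
  · rw [h0]
    exact hbe

end F1x

open F1x

/-- F1 -/
theorem rateLevel (hX : XLaw) (hU : CrossUp) (hL : CrossLow) (hE : LC.SpecEx) (_hS : LC.SpecNum) :
    RateLevel := by
  obtain ⟨N1, hN1, H1⟩ := chain_ex hE
  obtain ⟨C2, N2, hC2, hN2, H2⟩ := hX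
  obtain ⟨N3, hN3, H3⟩ := hU
  obtain ⟨N4, hN4, H4⟩ := hL
  refine ⟨max (max N1 N2) (max N3 N4), hN1.trans ((le_max_left _ _).trans (le_max_left _ _)),
    fun N hN => ?_⟩
  have hNN1 : N1 ≤ N := ((le_max_left _ _).trans (le_max_left _ _)).trans hN
  have hNN2 : N2 ≤ N := ((le_max_right _ _).trans (le_max_left _ _)).trans hN
  have hNN3 : N3 ≤ N := ((le_max_left _ _).trans (le_max_right _ _)).trans hN
  have hNN4 : N4 ≤ N := ((le_max_right _ _).trans (le_max_right _ _)).trans hN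
  obtain ⟨T1, hT1, H1⟩ := H1 N hNN1
  obtain ⟨T2, hT2, H2⟩ := H2 N hNN2
  obtain ⟨C3, T3, hC3, hT3, H3⟩ := H3 N hNN3
  obtain ⟨C4, T4, hC4, hT4, H4⟩ := H4 N hNN4
  refine ⟨C2 + C3 + C4, max (max T1 T2) (max T3 T4), by linarith,
    hT1.trans ((le_max_left _ _).trans (le_max_left _ _)), fun A T hA hT hbe x V hx => ?_⟩
  have hTT1 : T1 ≤ T := ((le_max_left _ _).trans (le_max_left _ _)).trans hT
  have hTT2 : T2 ≤ T := ((le_max_right _ _).trans (le_max_left _ _)).trans hT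
  have hTT3 : T3 ≤ T := ((le_max_left _ _).trans (le_max_right _ _)).trans hT
  have hTT4 : T4 ≤ T := ((le_max_right _ _).trans (le_max_right _ _)).trans hT
  obtain ⟨B, m, hB0, hch⟩ := H1 A T hA hTT1 hbe
  have h2 := H2 B T m hch hTT2 x V
  have h3 := H3 B T m hch hTT3 x V hx
  have h4 := H4 B T m hch hTT4 x V hx
  rw [hB0] at h2 h3 h4
  have hG : 0 ≤ A.G V := by
    unfold Par.G
    positivity
  have h5 := abs_le.1 h2
  have h6 : 0 ≤ C2 * A.G V := by positivity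
  have h7 : 0 ≤ C3 * A.G V := by positivity
  have h8 : 0 ≤ C4 * A.G V := by positivity
  rw [abs_le]
  constructor
  · linarith [h5.1, h5.2]
  · linarith [h5.1, h5.2]

end Pool.Agent.Lib.RA
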