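import Mathlib
import Pool.Agent.Lib.MP_f9aece_nt_rate.Stmts
import Pool.Agent.Lib.MP_f9aece_nt_loc.E12
import Pool.Agent.Lib.MP_f9aece_nt_gt.G1
import Pool.Agent.Lib.MP_f9aece_nt_gt.G2

/-!
The rate in the central limit theorem for `log |zeta|`, module F2: choice of the parameters.
-/

set_option autoImplicit false

namespace Pool.Agent.Lib.RA

open MeasureTheory Set Filter Topology Complex ProbabilityTheory
open scoped ComplexConjugate
open Pool.Agent.Lib.GT
open Pool.Agent.Lib.LC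

namespace F2x

lemma chernoff {x : ℝ} (hx : 0 ≤ x) : tl x ≤ Real.exp (-(x ^ 2 / 2)) := by
  have h1 := measure_ge_le_exp_mul_mgf (μ := gaussianReal 0 1) (X := id) x hx
    (by simpa using integrable_exp_mul_gaussianReal (μ := 0) (v := 1) x)
  have h2 : tl x ≤ (gaussianReal 0 1).real {ω | x ≤ id ω} := by
    unfold tl Measure.real
    apply ENNReal.toReal_mono (measure_ne_top _ _)
    apply measure_mono
    intro y hy
    have hy' : x < y := hy
    exact hy'.le
  refine h2.trans (h1.trans (le_of_eq ?_))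
  rw [mgf_id_gaussianReal, ← Real.exp_add]
  congr 1
  simp only [NNReal.coe_one]
  ring

lemma symm (x : ℝ) : tl (-x) = 1 - tl x := by
  have h1 : gaussianReal 0 1 (Ioi (-x)) = gaussianReal 0 1 (Iio x) := by
    have h2 := gaussianReal_map_neg (μ := 0) (v := 1)
    rw [neg_zero] at h2
    conv_lhs => rw [← h2]
    rw [Measure.map_apply measurable_neg measurableSet_Ioi]
    congr 1
    ext y
    simp
  have h3 : gaussianReal 0 1 (Iio x) = gaussianReal 0 1 (Iic x) := by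
    rw [← Iio_union_right, measure_union (by simp) (measurableSet_singleton x)]
    have : gaussianReal 0 1 {x} = 0 := by
      have := nullSingletonClass_gaussianReal (μ := 0) (v := 1) one_ne_zero
      exact measure_singleton x
    rw [this, add_zero]
  have h4 : (gaussianReal 0 1 (Ioi x)) = 1 - gaussianReal 0 1 (Iic x) := by
    rw [← compl_Iic, prob_compl_eq_one_sub measurableSet_Iic]
  unfold tl
  rw [h1, h3, h4, ENNReal.toReal_sub_of_le prob_le_one ENNReal.one_ne_top, ENNReal.toReal_one]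
  ring

/-- the numbers of the parameters -/
lemma nums {l s2 K : ℝ} (hl : 4 ≤ l) (hK : 2 * K ≤ l) (hs : |s2 - l / 2| ≤ K / 2) :
    l / 4 ≤ s2 ∧ s2 ≤ l ∧ 1 ≤ Real.sqrt s2 ∧ Real.sqrt l ≤ 2 * Real.sqrt s2 ∧
      Real.sqrt s2 ≤ Real.sqrt l ∧ Real.sqrt s2 ^ 2 = s2 := by
  obtain ⟨h1, h2⟩ := abs_le.1 hs
  have h3 : l / 4 ≤ s2 := by linarith
  have h4 : s2 ≤ l := by linarith
  have h5 : 0 ≤ s2 := by linarith
  refine ⟨h3, h4, Real.le_sqrt_of_sq_le (by linarith), ?_, Real.sqrt_le_sqrt h4, Real.sq_sqrt h5⟩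
  apply le_of_sq_le_sq _ (by positivity)
  rw [Real.sq_sqrt (by linarith), mul_pow, Real.sq_sqrt h5]
  linarith

/-- the two standard deviations -/
lemma inv_diff {l s2 K : ℝ} (hl : 4 ≤ l) (hK : 2 * K ≤ l) (hs : |s2 - l / 2| ≤ K / 2) :
    |1 / Real.sqrt s2 - 1 / Real.sqrt (l / 2)| ≤ 4 * K / (l * Real.sqrt l) := by
  obtain ⟨h1, h2, h3, h4, h5, h6⟩ := nums hl hK hs
  have hl0 : 0 < l := by linarith
  set σ := Real.sqrt s2 with hσ
  set s := Real.sqrt (l / 2) with hsd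
  have hσ0 : 0 < σ := by linarith
  have hs0 : 0 < s := Real.sqrt_pos.mpr (by linarith)
  have hss : s ^ 2 = l / 2 := Real.sq_sqrt (by linarith)
  have hsl0 : 0 < Real.sqrt l := Real.sqrt_pos.mpr hl0
  have hsl : Real.sqrt l ^ 2 = l := Real.sq_sqrt hl0.le
  have hs1 : Real.sqrt l ≤ 2 * s := by
    apply le_of_sq_le_sq _ (by positivity)
    rw [hsl, mul_pow, hss]
    linarith
  have e1 : 1 / σ - 1 / s = -((s2 - l / 2) / (σ * s * (σ + s))) := by
    rw [← h6, ← hss]
    field_simp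
    ring
  rw [e1, abs_neg, abs_div, abs_of_pos (show 0 < σ * s * (σ + s) by positivity)]
  have hK0 : 0 ≤ K := by
    have := abs_nonneg (s2 - l / 2)
    linarith
  have e2 : l * Real.sqrt l / 8 ≤ σ * s * (σ + s) := by
    have e3 : l / 4 ≤ σ * s := by
      calc l / 4 = Real.sqrt l / 2 * (Real.sqrt l / 2) := by
            nlinarith
        _ ≤ σ * s := by
            apply mul_le_mul _ _ (by positivity) (by positivity)
            · linarith
            · linarith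
    calc l * Real.sqrt l / 8 ≤ l / 4 * Real.sqrt l := by nlinarith
      _ ≤ σ * s * (σ + s) := by
          apply mul_le_mul e3 (by linarith) (by positivity) (by positivity)
  calc |s2 - l / 2| / (σ * s * (σ + s)) ≤ (K / 2) / (l * Real.sqrt l / 8) := by gcongr
    _ = 4 * K / (l * Real.sqrt l) := by field_simp; ring

/-- Gaussian tails with two standard deviations, `V` nonnegative -/
lemma tl_pos {l s2 K δ V : ℝ} (hl : 4 ≤ l) (hK : 2 * K ≤ l) (hs : |s2 - l / 2| ≤ K / 2) (hK0 : 0 ≤ K)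
    (ha : Antitone tl) (hδ1 : δ ≤ 1) (hδ : 4 * δ ^ 2 * K ≤ 1) (hV : 0 ≤ V) (hVδ : V ≤ δ * l) :
    |tl (V / Real.sqrt s2) - tl (V / Real.sqrt (l / 2))|
      ≤ 12 * K * (1 / Real.sqrt l) * Real.exp (-(V ^ 2 / l)) := by
  obtain ⟨h1, h2, h3, h4, h5, h6⟩ := nums hl hK hs
  have hd := inv_diff hl hK hs
  have hl0 : 0 < l := by linarith
  have hs20 : 0 < s2 := by linarith
  set σ := Real.sqrt s2 with hσ
  set s := Real.sqrt (l / 2) with hsd
  have hσ0 : 0 < σ := by linarith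
  have hs0 : 0 < s := Real.sqrt_pos.mpr (by linarith)
  have hss : s ^ 2 = l / 2 := Real.sq_sqrt (by linarith)
  have hsl0 : 0 < Real.sqrt l := Real.sqrt_pos.mpr hl0
  have hV2 : V ^ 2 ≤ δ ^ 2 * l ^ 2 := by
    have : V ^ 2 ≤ (δ * l) ^ 2 := by gcongr
    linarith [mul_pow δ l 2]
  have hδ0 : 0 ≤ δ := by
    by_contra h
    push Not at h
    have : δ * l < 0 := mul_neg_of_neg_of_pos h hl0
    linarith
  -- general bound
  have key : ∀ a b : ℝ, 0 ≤ a → a ≤ b → V ^ 2 / l - 1 ≤ a ^ 2 / 2 → b - a ≤ V * (4 * K / (l * Real.sqrt l)) →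
      |tl a - tl b| ≤ 12 * K * (1 / Real.sqrt l) * Real.exp (-(V ^ 2 / l)) := by
    intro a b ha0 hab h7 h8
    have h9 := G1.upper ha0 (show 0 ≤ b - a by linarith)
    rw [show a + (b - a) = b by ring] at h9
    have h10 : 0 ≤ tl a - tl b := by
      have := ha hab
      linarith
    rw [abs_of_nonneg h10]
    have h11 : (Real.sqrt (2 * Real.pi))⁻¹ ≤ 1 := by
      apply inv_le_one_of_one_le₀
      rw [Real.one_le_sqrt]
      have := Real.pi_gt_three
      linarith
    have h12 : Real.exp (-(a ^ 2 / 2)) ≤ 3 * Real.exp (-(V ^ 2 / l)) := by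
      calc Real.exp (-(a ^ 2 / 2)) ≤ Real.exp (1 + -(V ^ 2 / l)) := Real.exp_le_exp.2 (by linarith)
        _ = Real.exp 1 * Real.exp (-(V ^ 2 / l)) := Real.exp_add _ _
        _ ≤ 3 * Real.exp (-(V ^ 2 / l)) := by
            gcongr
            exact Real.exp_one_lt_three.le
    have h13 : V * (4 * K / (l * Real.sqrt l)) ≤ 4 * K * (1 / Real.sqrt l) := by
      calc V * (4 * K / (l * Real.sqrt l)) ≤ (1 * l) * (4 * K / (l * Real.sqrt l)) := by
            gcongr
            exact hVδ.trans (by gcongr)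
        _ = 4 * K * (1 / Real.sqrt l) := by field_simp
    calc tl a - tl b ≤ (b - a) * ((Real.sqrt (2 * Real.pi))⁻¹ * Real.exp (-(a ^ 2 / 2))) := h9
      _ ≤ (4 * K * (1 / Real.sqrt l)) * (1 * (3 * Real.exp (-(V ^ 2 / l)))) := by
          gcongr
          linarith
      _ = 12 * K * (1 / Real.sqrt l) * Real.exp (-(V ^ 2 / l)) := by ring
  have hdV : |V / σ - V / s| ≤ V * (4 * K / (l * Real.sqrt l)) := by
    have : V / σ - V / s = V * (1 / σ - 1 / s) := by ring
    rw [this, abs_mul, abs_of_nonneg hV]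
    gcongr
  obtain ⟨hd1, hd2⟩ := abs_le.1 hdV
  obtain ⟨g1, g2⟩ := abs_le.1 hs
  rcases le_total (V / σ) (V / s) with h | h
  · refine key _ _ (by positivity) h ?_ (by linarith)
    -- V ^ 2 / s2 against 2 V ^ 2 / l
    rw [div_pow, h6]
    have e1 : V ^ 2 / l - V ^ 2 / s2 / 2 = V ^ 2 * (s2 - l / 2) / (l * s2) := by
      field_simp
    have e2 : V ^ 2 * (s2 - l / 2) / (l * s2) ≤ 1 := by
      rw [div_le_one (by positivity)]
      calc V ^ 2 * (s2 - l / 2) ≤ V ^ 2 * (K / 2) := by gcongr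
        _ ≤ δ ^ 2 * l ^ 2 * (K / 2) := by gcongr
        _ = (4 * δ ^ 2 * K) * (l * (l / 4)) / 2 := by ring
        _ ≤ 1 * (l * (l / 4)) / 2 := by gcongr
        _ ≤ l * s2 := by nlinarith
    linarith
  · rw [abs_sub_comm]
    refine key _ _ (by positivity) h ?_ (by linarith)
    rw [div_pow, hss]
    have : V ^ 2 / (l / 2) / 2 = V ^ 2 / l := by field_simp
    linarith

lemma log_le {l : ℝ} (hl : 256 ≤ l) : Real.log l + 1 ≤ Real.sqrt l := by
  have h0 : 0 < l := by linarith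
  set r := Real.sqrt (Real.sqrt l) with hr
  have h1 : (16 : ℝ) ≤ Real.sqrt l := Real.le_sqrt_of_sq_le (by linarith)
  have h2 : (4 : ℝ) ≤ r := Real.le_sqrt_of_sq_le (by linarith)
  have h3 : r ^ 2 = Real.sqrt l := Real.sq_sqrt (by linarith)
  have h4 : r ^ 4 = l := by
    have : r ^ 4 = (r ^ 2) ^ 2 := by ring
    rw [this, h3, Real.sq_sqrt h0.le]
  have h5 : Real.log l = 4 * Real.log r := by
    rw [← h4, Real.log_pow]
    norm_num
  have h6 : Real.log r ≤ r - 1 := Real.log_le_sub_one_of_pos (by linarith)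
  rw [h5, ← h3]
  nlinarith

/-- Gaussian tails with two standard deviations -/
lemma tl_all {l s2 K δ V : ℝ} (hl : 256 ≤ l) (hK : 2 * K ≤ l) (hs : |s2 - l / 2| ≤ K / 2) (hK0 : 0 ≤ K)
    (ha : Antitone tl) (hδ1 : δ ≤ 1) (hδ : 4 * δ ^ 2 * K ≤ 1) (hV : -(Real.sqrt l * Real.log l) ≤ V)
    (hVδ : V ≤ δ * l) :
    |tl (V / Real.sqrt s2) - tl (V / Real.sqrt (l / 2))|
      ≤ 12 * K * (1 / Real.sqrt l) * Real.exp (-((max V 0) ^ 2 / l)) := by
  rcases le_total 0 V with h | h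
  · rw [max_eq_left h]
    exact tl_pos (by linarith) hK hs hK0 ha hδ1 hδ h hVδ
  · rw [max_eq_right h]
    have h0 : 0 < l := by linarith
    have hd := inv_diff (by linarith) hK hs
    have h1 := log_le hl
    have hsl0 : 0 < Real.sqrt l := Real.sqrt_pos.mpr h0
    have hsl : Real.sqrt l * Real.sqrt l = l := Real.mul_self_sqrt h0.le
    have h2 : V / Real.sqrt s2 - V / Real.sqrt (l / 2) = V * (1 / Real.sqrt s2 - 1 / Real.sqrt (l / 2)) := by
      ring
    have h3 : |V| ≤ Real.sqrt l * Real.sqrt l := by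
      rw [abs_of_nonpos h]
      have : Real.sqrt l * Real.log l ≤ Real.sqrt l * Real.sqrt l := by
        gcongr
        linarith
      linarith
    calc |tl (V / Real.sqrt s2) - tl (V / Real.sqrt (l / 2))|
        ≤ |V / Real.sqrt s2 - V / Real.sqrt (l / 2)| := lip_abs ha _ _
      _ = |V| * |1 / Real.sqrt s2 - 1 / Real.sqrt (l / 2)| := by rw [h2, abs_mul]
      _ ≤ (Real.sqrt l * Real.sqrt l) * (4 * K / (l * Real.sqrt l)) := by gcongr
      _ = 4 * K * (1 / Real.sqrt l) := by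
          rw [hsl]
          field_simp
      _ ≤ 12 * K * (1 / Real.sqrt l) * Real.exp (-((0 : ℝ) ^ 2 / l)) := by
          have : Real.exp (-((0 : ℝ) ^ 2 / l)) = 1 := by norm_num
          rw [this, mul_one]
          gcongr
          linarith

/-- the tilt and the size of the windows -/
lemma pick (A0 : Par) {l V D δ N : ℝ} (hl : 256 ≤ l) (hD : 2 * D ≤ l) (hD0 : 0 ≤ D)
    (hs : |A0.s2 - l / 2| ≤ D / 2) (hV1 : -(Real.sqrt l * Real.log l) ≤ V) (hV2 : V ≤ δ * l)
    (hδ0 : 0 ≤ δ) (hδa : 4 * δ ≤ 1 / (2 * 10 ^ 4)) (hδb : 4 * δ * (1 + 2 * N) ≤ 1 / 2)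
    (hδ : 2 * δ ^ 2 * D ≤ 1) (q2 : 4 * (1 + 2 * N) ≤ Real.sqrt l) (q3 : (4 * 10 ^ 4 : ℝ) ≤ Real.sqrt l)
    (hN : 0 ≤ N) : ∃ be : ℝ, 0 < be ∧ be ≤ 1 / 10 ^ 4 ∧ 1 / l ≤ be ∧
      ({ A0 with be := be } : Par).G V ≤ 4 * Real.exp 5 * (1 / Real.sqrt l) * Real.exp (-((max V 0) ^ 2 / l)) := by
  obtain ⟨h1, h2, h3, h4, h5, h6⟩ := nums (by linarith) hD hs
  have hl0 : 0 < l := by linarith
  have hs20 : 0 < A0.s2 := by linarith
  have hsl0 : 0 < Real.sqrt l := Real.sqrt_pos.mpr hl0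
  have hsl : Real.sqrt l * Real.sqrt l = l := Real.mul_self_sqrt hl0.le
  have hlog := log_le hl
  rcases le_total 0 V with h | h
  · have hm0 : 0 ≤ max V 0 := le_max_right _ _
    have hmV : max V 0 ≤ δ * l := max_le hV2 (by positivity)
    obtain ⟨b0, b1, b2, b3⟩ := tilt hl0 h1 h2 rfl hm0 hmV hδa hδb q2 q3 (h := 1) le_rfl zero_le_one hN
    have hV1' : -(Real.sqrt l / 1) ≤ V := by
      have : 0 ≤ Real.sqrt l / 1 := by positivity
      linarith
    have hg := G_le (A := { A0 with be := (max V 0 + Real.sqrt A0.s2) / A0.s2 }) one_pos (by linarith) hD hD0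
      hs hV1' hV2 hδ rfl
    refine ⟨_, b0, b1, ?_, ?_⟩
    · refine le_trans ?_ b3
      apply one_div_le_one_div_of_le hsl0
      nlinarith
    · refine hg.trans ?_
      rw [max_eq_left h, Real.sq_sqrt (by linarith)]
      have e1 : 1 / Real.sqrt (l / 2) ≤ 2 * (1 / Real.sqrt l) := by
        rw [mul_one_div, div_le_div_iff₀ (Real.sqrt_pos.mpr (by linarith)) hsl0]
        have : Real.sqrt l ≤ 2 * Real.sqrt (l / 2) := by
          apply le_of_sq_le_sq _ (by positivity)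
          rw [Real.sq_sqrt hl0.le, mul_pow, Real.sq_sqrt (by linarith)]
          linarith
        linarith
      have e2 : V ^ 2 / (2 * (l / 2)) = V ^ 2 / l := by
        congr 1
        ring
      rw [e2, show (2 : ℝ) / 1 + 1 / 1 ^ 2 + 2 = 5 by norm_num]
      calc 2 * Real.exp 5 * (1 / Real.sqrt (l / 2) * Real.exp (-(V ^ 2 / l)))
          ≤ 2 * Real.exp 5 * (2 * (1 / Real.sqrt l) * Real.exp (-(V ^ 2 / l))) := by gcongr
        _ = 4 * Real.exp 5 * (1 / Real.sqrt l) * Real.exp (-(V ^ 2 / l)) := by ring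
  · have hσV : 0 < Real.sqrt A0.s2 - V := by linarith
    have e1 : (1 : ℝ) / 10 ^ 4 = 1 / (10 ^ 4) := rfl
    refine ⟨1 / (Real.sqrt A0.s2 - V), by positivity, ?_, ?_, ?_⟩
    · apply one_div_le_one_div_of_le (by norm_num)
      linarith
    · apply one_div_le_one_div_of_le hσV
      have : Real.sqrt l * (Real.log l + 1) ≤ Real.sqrt l * Real.sqrt l := by gcongr
      nlinarith
    · rw [max_eq_right h]
      have e2 : ({ A0 with be := 1 / (Real.sqrt A0.s2 - V) } : Par).G V = 1 / Real.sqrt A0.s2 *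
          Real.exp (-(1 / (Real.sqrt A0.s2 - V) * V) + (1 / (Real.sqrt A0.s2 - V)) ^ 2 * A0.s2 / 2) := rfl
      rw [e2]
      have e3 : -(1 / (Real.sqrt A0.s2 - V) * V) ≤ 1 := by
        have : -(1 / (Real.sqrt A0.s2 - V) * V) = (-V) / (Real.sqrt A0.s2 - V) := by ring
        rw [this, div_le_one hσV]
        linarith
      have e4 : (1 / (Real.sqrt A0.s2 - V)) ^ 2 * A0.s2 / 2 ≤ 1 := by
        have e5 : (1 / (Real.sqrt A0.s2 - V)) ^ 2 * A0.s2 = (Real.sqrt A0.s2 / (Real.sqrt A0.s2 - V)) ^ 2 := by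
          rw [div_pow, div_pow, h6]
          ring
        have e6 : Real.sqrt A0.s2 / (Real.sqrt A0.s2 - V) ≤ 1 := by
          rw [div_le_one hσV]
          linarith
        have e7 : 0 ≤ Real.sqrt A0.s2 / (Real.sqrt A0.s2 - V) := by positivity
        rw [e5]
        have : (Real.sqrt A0.s2 / (Real.sqrt A0.s2 - V)) ^ 2 ≤ 1 := pow_le_one₀ e7 e6
        linarith
      have e8 : 1 / Real.sqrt A0.s2 ≤ 2 * (1 / Real.sqrt l) := by
        rw [mul_one_div, div_le_div_iff₀ (by linarith) hsl0]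
        linarith
      have e9 : Real.exp (-((0 : ℝ) ^ 2 / l)) = 1 := by norm_num
      rw [e9, mul_one]
      calc 1 / Real.sqrt A0.s2 * Real.exp (-(1 / (Real.sqrt A0.s2 - V) * V)
            + (1 / (Real.sqrt A0.s2 - V)) ^ 2 * A0.s2 / 2)
          ≤ 2 * (1 / Real.sqrt l) * Real.exp 5 := by
            gcongr
            linarith
        _ ≤ 4 * Real.exp 5 * (1 / Real.sqrt l) := by
            have : 0 ≤ Real.exp 5 * (1 / Real.sqrt l) := by positivity
            linarith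

/-- far to the left -/
lemma far_left {l s V P P0 c : ℝ} (hl : 256 ≤ l) (hs : s = Real.sqrt (l / 2)) (ha : Antitone tl)
    (hV : V ≤ -(Real.sqrt l * Real.log l)) (hP1 : P ≤ 1) (hPP : P0 ≤ P) (ht1 : ∀ x : ℝ, tl x ≤ 1)
    (hP0 : |P0 - tl (-(Real.sqrt l * Real.log l) / s)| ≤ c) (hc : 0 ≤ c) :
    |P - tl (V / s)| ≤ c + 1 / Real.sqrt l := by
  have hl0 : 0 < l := by linarith
  have hsl0 : 0 < Real.sqrt l := Real.sqrt_pos.mpr hl0
  have hs0 : 0 < s := by rw [hs]; exact Real.sqrt_pos.mpr (by linarith)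
  have hss : s ^ 2 = l / 2 := by rw [hs]; exact Real.sq_sqrt (by linarith)
  have hlog1 : 1 ≤ Real.log l := by
    rw [Real.le_log_iff_exp_le hl0]
    exact Real.exp_one_lt_three.le.trans (by linarith)
  have h1 : tl (-(Real.sqrt l * Real.log l) / s) ≤ tl (V / s) := ha (by gcongr)
  have h2 : 1 - 1 / Real.sqrt l ≤ tl (-(Real.sqrt l * Real.log l) / s) := by
    rw [neg_div, symm]
    have h3 := chernoff (x := Real.sqrt l * Real.log l / s) (by positivity)
    have h4 : Real.exp (-((Real.sqrt l * Real.log l / s) ^ 2 / 2)) ≤ 1 / Real.sqrt l := by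
      have e1 : (Real.sqrt l * Real.log l / s) ^ 2 / 2 = Real.log l ^ 2 := by
        rw [div_pow, mul_pow, Real.sq_sqrt hl0.le, hss]
        field_simp
      rw [e1]
      have e2 : 1 / Real.sqrt l = Real.exp (-(Real.log l / 2)) := by
        rw [Real.exp_neg, ← Real.log_sqrt hl0.le, Real.exp_log hsl0, one_div]
      rw [e2]
      apply Real.exp_le_exp.2
      nlinarith
    linarith
  have h5 := ht1 (V / s)
  obtain ⟨h6, h7⟩ := abs_le.1 hP0
  rw [abs_le]
  constructor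
  · linarith
  · linarith

lemma tl_le_one (x : ℝ) : tl x ≤ 1 := by
  unfold tl
  have : gaussianReal 0 1 (Ioi x) ≤ 1 := prob_le_one
  exact ENNReal.toReal_le_of_le_ofReal zero_le_one (by simpa using this)

/-- the additive error -/
lemma add_le {l L V δ t : ℝ} (hl : 256 ≤ l) (hlL : l ≤ L) (hL : l = Real.log L) (hL0 : 0 < L)
    (_hδ0 : 0 ≤ δ) (hδ1 : δ ≤ 1) (hV : V ≤ δ * l) (ht : t ≤ 1 / L ^ 2) :
    t ≤ 1 / Real.sqrt l * Real.exp (-((max V 0) ^ 2 / l)) := by
  have hl0 : 0 < l := by linarith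
  have hsl0 : 0 < Real.sqrt l := Real.sqrt_pos.mpr hl0
  refine ht.trans ?_
  have h1 : (max V 0) ^ 2 / l ≤ l := by
    rw [div_le_iff₀ hl0]
    have h2 : max V 0 ≤ l := max_le (hV.trans (by nlinarith)) hl0.le
    have h3 : 0 ≤ max V 0 := le_max_right _ _
    nlinarith
  have h2 : 1 / L ≤ Real.exp (-((max V 0) ^ 2 / l)) := by
    have : 1 / L = Real.exp (-l) := by rw [hL, Real.exp_neg, Real.exp_log hL0, one_div]
    rw [this]
    gcongr
  have h3 : 1 / L ≤ 1 / Real.sqrt l := by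
    apply one_div_le_one_div_of_le hsl0
    have : Real.sqrt l ≤ l := by
      rw [Real.sqrt_le_left hl0.le]
      nlinarith
    linarith
  calc 1 / L ^ 2 = 1 / L * (1 / L) := by
        rw [one_div_mul_one_div]
        congr 1
        ring
    _ ≤ 1 / Real.sqrt l * Real.exp (-((max V 0) ^ 2 / l)) := by gcongr

end F2x

/-- F2 -/
theorem rate (hR : RateLevel) (hE : LC.SpecEx) (hS : LC.SpecNum) (hT : TailFacts) : Rate := by
  obtain ⟨N1, hN1, HR⟩ := hR
  obtain ⟨N2, hN2, HE⟩ := hE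
  obtain ⟨C3, N3, hC3, hN3, HS⟩ := hS
  obtain ⟨c0, C0, hc0, hC0, -, -, hT3, ha⟩ := hT
  obtain ⟨N, hNa, hNb, hNc⟩ : ∃ N : ℝ, N1 ≤ N ∧ N2 ≤ N ∧ N3 ≤ N :=
    ⟨max (max N1 N2) N3, (le_max_left _ _).trans (le_max_left _ _),
      (le_max_right _ _).trans (le_max_left _ _), le_max_right _ _⟩
  have hN : 1 ≤ N := hN1.trans hNa
  have hN0 : 0 < N := by linarith only [hN]
  obtain ⟨C1, T1, hC1, hT1, HR⟩ := HR N hNa
  set D := C3 * N ^ (1 / 2 : ℝ) with hD
  have hD0 : 0 < D := by positivity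
  obtain ⟨δ, hδ0, hδ1, hδa, hδb, hδc, hδd, hδe⟩ := choose_d (H := 1) one_pos hN0 hD0 one_pos one_pos
  have p1 : 0 ≤ (4 * (1 + 2 * N)) ^ 2 := by positivity
  obtain ⟨T0, hT0⟩ := eventually_atTop.mp (ev_big (max T1 3)
    (256 + N + 2 * D + (4 * (1 + 2 * N)) ^ 2 + (4 * 10 ^ 4) ^ 2) (N ^ 12) 1 one_pos)
  set CG := 4 * Real.exp 5 with hCG
  have hCG0 : 0 < CG := by positivity
  refine ⟨C1 * CG + 12 * D + 2, δ, T0, by positivity, hδ0, fun x T V hT hx hV => ?_⟩
  obtain ⟨b1, b2, b3, b4, b5⟩ := hT0 T hT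
  obtain ⟨hT1', hT3'⟩ := max_le_iff.mp b1
  have hTp : 0 < T := by linarith only [hT3']
  obtain ⟨c1, c2, c3, c4, c5⟩ : 256 ≤ Real.log (Real.log T) ∧ N ≤ Real.log (Real.log T) ∧
      2 * D ≤ Real.log (Real.log T) ∧ (4 * (1 + 2 * N)) ^ 2 ≤ Real.log (Real.log T) ∧
      (4 * 10 ^ 4) ^ 2 ≤ Real.log (Real.log T) :=
    ⟨by linarith only [p1, hN0, hD0, b2], by linarith only [p1, hN0, hD0, b2],
      by linarith only [p1, hN0, hD0, b2], by linarith only [p1, hN0, hD0, b2],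
      by linarith only [p1, hN0, hD0, b2]⟩
  clear b1 b2 p1
  set L := Real.log T with hL
  set l := Real.log L with hl
  have hl0 : 0 < l := by linarith only [c1]
  have hL0 : 0 < L := by linarith only [hl0, b4]
  have hsl0 : 0 < Real.sqrt l := Real.sqrt_pos.mpr hl0
  have q2 : 4 * (1 + 2 * N) ≤ Real.sqrt l := Real.le_sqrt_of_sq_le c4
  have q3 : (4 * 10 ^ 4 : ℝ) ≤ Real.sqrt l := Real.le_sqrt_of_sq_le c5
  obtain ⟨A0, HA0⟩ := HE N hNb T b3 c2
  have hsp0 := HA0 (1 / 10 ^ 4) (by norm_num) le_rfl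
  have hvt : |A0.vt - l| ≤ D := (HS _ T N hsp0 hNc).2.2.2.2.2.2.2.2
  have hsd : |A0.s2 - l / 2| ≤ D / 2 := by
    unfold Par.s2
    rw [abs_le] at hvt ⊢
    constructor
    · linarith only [hvt.1]
    · linarith only [hvt.2]
  obtain ⟨g1, g2, g3, g4, g5, g6⟩ := F2x.nums (by linarith only [c1]) c3 hsd
  have hδ4 : 4 * δ ^ 2 * D ≤ 1 := by linarith only [hδe, mul_nonneg (sq_nonneg δ) hD0.le]
  have ht : T ^ (-(1 / 30) : ℝ) ≤ 1 / L ^ 2 := by
    have : 0 ≤ 2 * T ^ (-(1 / 20) : ℝ) := by positivity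
    linarith only [this, b5]
  have := prob_un x hTp
  -- the middle range
  have mid : ∀ W : ℝ, -(Real.sqrt l * Real.log l) ≤ W → W ≤ δ * l →
      |(un x T {t | Real.exp W < ‖riemannZeta (1 / 2 + I * t)‖}).toReal
        - tl (W / Real.sqrt (l / 2))| ≤ (C1 * CG + 12 * D + 1) * (1 / Real.sqrt l)
          * Real.exp (-((max W 0) ^ 2 / l)) := by
    intro W hW1 hW2
    obtain ⟨be, e1, e2, e3, e4⟩ := F2x.pick A0 c1 c3 hD0.le hsd hW1 hW2 hδ0.le hδa hδb hδc q2 q3 hN0.le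
    have e5 := HR { A0 with be := be } T (HA0 be e1 e2) hT1' e3 x W hx
    have e6 : (gaussianReal 0 (Real.toNNReal ({ A0 with be := be } : Par).s2) (Ioi W)).toReal
        = tl (W / Real.sqrt A0.s2) := by
      rw [← hT3 (Real.sqrt A0.s2) W (by linarith only [g3]), g6]
      rfl
    rw [e6] at e5
    have e7 := F2x.tl_all c1 c3 hsd hD0.le ha hδ1 hδ4 hW1 hW2
    have e8 := F2x.add_le c1 b4 rfl hL0 hδ0.le hδ1 hW2 ht
    have e9 : C1 * ({ A0 with be := be } : Par).G W ≤ C1 * (CG * (1 / Real.sqrt l)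
        * Real.exp (-((max W 0) ^ 2 / l))) := by gcongr
    rw [abs_le] at e5 e7 ⊢
    constructor
    · linarith only [e5.1, e7.1, e8, e9]
    · linarith only [e5.2, e7.2, e8, e9]
  have hvol := vol_eq x hTp (fun z => Real.exp V < ‖riemannZeta z‖)
  have hvol' : volume {u : ℝ | u ∈ Icc (0 : ℝ) 1 ∧
      Real.exp V < ‖riemannZeta (1 / 2 + I * x + I * u * T)‖} =
      un x T {t : ℝ | Real.exp V < ‖riemannZeta (1 / 2 + I * t)‖} := hvol
  rw [hvol']
  rcases le_total (-(Real.sqrt l * Real.log l)) V with h | h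
  · refine (mid V h hV).trans ?_
    have e1 : (C1 * CG + 12 * D + 2) / Real.sqrt l * Real.exp (-((max V 0) ^ 2 / l))
        = (C1 * CG + 12 * D + 1) * (1 / Real.sqrt l) * Real.exp (-((max V 0) ^ 2 / l))
          + 1 / Real.sqrt l * Real.exp (-((max V 0) ^ 2 / l)) := by ring
    rw [e1]
    have : 0 ≤ 1 / Real.sqrt l * Real.exp (-((max V 0) ^ 2 / l)) := by positivity
    linarith only [this]
  · have hlog1 : 1 ≤ Real.log l := by
      rw [Real.le_log_iff_exp_le hl0]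
      exact Real.exp_one_lt_three.le.trans (by linarith only [c1])
    have hneg : -(Real.sqrt l * Real.log l) ≤ 0 := by
      have : 0 ≤ Real.sqrt l * Real.log l := by positivity
      linarith only [this]
    have e0 := mid (-(Real.sqrt l * Real.log l)) le_rfl (hneg.trans (by positivity))
    rw [max_eq_right hneg] at e0
    rw [max_eq_right (h.trans hneg)]
    have e9 : Real.exp (-((0 : ℝ) ^ 2 / l)) = 1 := by norm_num
    rw [e9, mul_one] at e0 ⊢
    have hP1 : (un x T {t : ℝ | Real.exp V < ‖riemannZeta (1 / 2 + I * t)‖}).toReal ≤ 1 := by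
      apply ENNReal.toReal_le_of_le_ofReal zero_le_one
      simpa using (prob_le_one (μ := un x T) (s := {t : ℝ | Real.exp V < ‖riemannZeta (1 / 2 + I * t)‖}))
    have hPP : (un x T {t : ℝ | Real.exp (-(Real.sqrt l * Real.log l)) < ‖riemannZeta (1 / 2 + I * t)‖}).toReal
        ≤ (un x T {t : ℝ | Real.exp V < ‖riemannZeta (1 / 2 + I * t)‖}).toReal := by
      apply ENNReal.toReal_mono (measure_ne_top _ _)
      apply measure_mono
      intro t ht'
      exact lt_of_le_of_lt (Real.exp_le_exp.2 h) ht'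
    have e1 := F2x.far_left c1 rfl ha h hP1 hPP F2x.tl_le_one e0 (by positivity)
    refine e1.trans (le_of_eq ?_)
    ring

end Pool.Agent.Lib.RA
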