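import Mathlib
import Pool.Agent.Lib.MP_f9aece_nt_loc.All
import Pool.Agent.Lib.MP_f9aece_nt_rate.A0
import Pool.Agent.Lib.MP_f9aece_nt_rate.A1
import Pool.Agent.Lib.MP_f9aece_nt_rate.A2
import Pool.Agent.Lib.MP_f9aece_nt_rate.A3
import Pool.Agent.Lib.MP_f9aece_nt_rate.A4
import Pool.Agent.Lib.MP_f9aece_nt_rate.A5
import Pool.Agent.Lib.MP_f9aece_nt_rate.A6
import Pool.Agent.Lib.MP_f9aece_nt_rate.A7
import Pool.Agent.Lib.MP_f9aece_nt_rate.A8
import Pool.Agent.Lib.MP_f9aece_nt_rate.B1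
import Pool.Agent.Lib.MP_f9aece_nt_rate.B2
import Pool.Agent.Lib.MP_f9aece_nt_rate.B3
import Pool.Agent.Lib.MP_f9aece_nt_rate.B4
import Pool.Agent.Lib.MP_f9aece_nt_rate.B5
import Pool.Agent.Lib.MP_f9aece_nt_rate.C1
import Pool.Agent.Lib.MP_f9aece_nt_rate.C2
import Pool.Agent.Lib.MP_f9aece_nt_rate.C3
import Pool.Agent.Lib.MP_f9aece_nt_rate.C4
import Pool.Agent.Lib.MP_f9aece_nt_rate.C5
import Pool.Agent.Lib.MP_f9aece_nt_rate.D1
import Pool.Agent.Lib.MP_f9aece_nt_rate.D2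
import Pool.Agent.Lib.MP_f9aece_nt_rate.D3
import Pool.Agent.Lib.MP_f9aece_nt_rate.D4
import Pool.Agent.Lib.MP_f9aece_nt_rate.E1
import Pool.Agent.Lib.MP_f9aece_nt_rate.E2
import Pool.Agent.Lib.MP_f9aece_nt_rate.E3
import Pool.Agent.Lib.MP_f9aece_nt_rate.E4
import Pool.Agent.Lib.MP_f9aece_nt_rate.E5
import Pool.Agent.Lib.MP_f9aece_nt_rate.E6
import Pool.Agent.Lib.MP_f9aece_nt_rate.F1
import Pool.Agent.Lib.MP_f9aece_nt_rate.F2

/-!
The rate in the central limit theorem for `log |zeta|`: the assembly.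
-/

set_option autoImplicit false

namespace Pool.Agent.Lib.RA

open Pool.Agent.Lib

/-- the rate, no hypothesis left -/
theorem all : Rate := by
  have hN1 := GT.groupNum
  have hN2 := GT.primeSums
  have hV := GT.variance
  have hB2 := GT.prodPrimes GT.onePrime
  have hB4 := GT.groupMain hB2 GT.expMom
  have hB5 := GT.groupBad GT.expMom
  have hB6 := GT.allMain hB4 hN1
  have hB7 := GT.allBd hB4 hB5 hN1
  have hC1 := GT.psiBd GT.winDecay
  have hC4 := GT.wLen hN1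
  have hC5 := GT.wTransfer GT.wForm hC4
  have hC6 := GT.wGauss hC1
  have hC7 := GT.wMain GT.wForm hB6 hC6 hN1
  have hC8 := GT.wBd GT.wForm hB6 hB7 hC6 hN1
  have hC9 := GT.pointwise GT.winDecay
  have hC10 := GT.wPoint hC1 hC9
  have hD6 := GT.fNear hC7 hC6 hN2
  have hE1 := GT.wMean hC5 hC8 hN1
  have hE2 := GT.wAsym hC5 hC7 hC6 hN1
  have hD3 := GT.suBound GT.kerRep
  -- the modules of the law at bounded scale
  have hLA1 := LC.fBoundX hC8 hN2
  have hLA2 := LC.lineMeanX GT.smoothAfe hD3 GT.roughS hLA1 hC5 hC8 hN1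
  have hLA4 := LC.suBoundX GT.kerRep LC.ker3
  have hLA5 := LC.nearTorusX hLA4 GT.roughS hLA1 hD6 hN1
  have hLA6 := LC.msmMean hC5 hC8 hN1
  have hLA7 := LC.lowPt hLA5 hLA2 hLA6 hC5 hC8 hN1
  have hLBB := LC.supMean hLA2 hC5 hC8 hN1
  have hTW := LC.tiltW hC1 hC9
  have hLM := LC.linMean hC5 hC8 hN1
  have hLD1 := LC.niceMean hLA7 hLBB
  have hLD2 := LC.niceShift LC.discSup LC.cartan hC9
  have hSN := LC.specNum hV
  have hSE := LC.specEx GT.variance'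
  -- A
  have a0 := expW hC8 hN1 hB2
  have a1 := powW a0 hC5
  have a2 := crossBad a1 hN1
  have a3 := momFour a0 hC5
  have a4 := signMean a0 hC7 hC6 hC5 hN1
  have a5 := winUp hC10 hC1
  have a6 := winMain hE2 hE1 a2 hC10 a5
  have a7 := winSign a4 hLM hE1 a2 hC10 a5
  have a8 := winMass hTW
  -- B
  have b1 := stepBasic hC1
  have b2 := stepLaw hC1 b1
  have b3 := stepGauss hC6 hC1 b2 b1
  have b4 := gaussFar hC6 b1
  have b5 := stepId b1
  -- C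
  have c1 := specPair hN1
  have c2 := stepNear a6 a5 hE1 hSN c1 b1 b3
  have c3 := stepFarA hE1 a5 hSN c1 b1
  have c4 := stepFarB a7 a3 hE1 a5 hSN c1 b1 b5
  have c5 := stepPsi c2 c3 c4 b1 b5 b3 b4 hE1 a5 hSN c1
  -- D
  have d1 := chainNum a2 hSN c1
  have d2 := xMass d1 hE1 a8
  have d3 := xTel d1 c5 a6 a5 hE1 b1 b3 hSN
  have d4 := xLaw d2 d3 b2 b3 d1
  -- E
  have e1 := upPair hLA2 (GT.tiltLow hC10) a8 hC10 hSN
  have e2 := topUp hLA2 (GT.tiltUp hC10) (GT.tiltLow hC10) hE1 hC10 hN1 hSN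
  have e3 := farPair hTW hLM c1 hSN
  have e4 := lowNice hLD1 hLD2 hE1 hTW hSN
  have e5 := crossUp d1 hE1 e1 e2
  have e6 := crossLow d1 hE1 a8 e3 e4
  -- F
  have f1 := rateLevel d4 e5 e6 hSE hSN
  exact rate f1 hSE hSN GT.tailFacts

end Pool.Agent.Lib.RA
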