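import Pool.Agent.Lib.MP_f9aece_nt_rate.Stmts

/-!
RATE row B1: the smooth step, elementary facts (helper77).
-/

set_option autoImplicit false

namespace Pool.Agent.Lib.RA

open MeasureTheory Set Filter Topology
open Pool.Agent.Lib.GT

namespace B1x

/-- the window as a function of the difference -/
noncomputable def kk (be r : ℝ) : ℝ :=
  (1 / 20) / c0 * (Real.exp (be * r) * ‖psi (1 / 20 * r)‖ ^ 2)

lemma hh_eq (be y u : ℝ) : HH be (1 / 20) y u = kk be (u - y) := rfl

lemma kk_cont (hc : Continuous psi) (be : ℝ) : Continuous (kk be) := by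
  unfold kk
  fun_prop

lemma kk_nonneg (h0 : 0 < c0) (be r : ℝ) : 0 ≤ kk be r := by
  unfold kk
  positivity

lemma hh_cont (hc : Continuous psi) (be : ℝ) :
    Continuous fun p : ℝ × ℝ => HH be (1 / 20) p.1 p.2 := by
  have h : (fun p : ℝ × ℝ => HH be (1 / 20) p.1 p.2) = fun p => kk be (p.2 - p.1) := rfl
  rw [h]
  exact (kk_cont hc be).comp (by fun_prop)

lemma hh_cont1 (hc : Continuous psi) (be u : ℝ) : Continuous fun y : ℝ => HH be (1 / 20) y u :=
  (hh_cont hc be).comp (f := fun y : ℝ => (y, u)) (by fun_prop)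

lemma hh_int (hc : Continuous psi) (h0 : 0 < c0) (hi : Integrable fun r => ‖psi r‖ ^ 2) {be : ℝ}
    (hbe : 0 < be) (V u : ℝ) : IntegrableOn (fun y => HH be (1 / 20) y u) (Ioi V) := by
  have h1 : Integrable fun r : ℝ => ‖psi (1 / 20 * r)‖ ^ 2 :=
    hi.comp_mul_left' (R := 1 / 20) (by norm_num)
  have h2 : Integrable fun y : ℝ => ‖psi (1 / 20 * (u - y))‖ ^ 2 :=
    h1.comp_sub_left u
  have h3 : Integrable fun y : ℝ => (1 / 20) / c0 * (Real.exp (be * (u - V)) *
      ‖psi (1 / 20 * (u - y))‖ ^ 2) := (h2.const_mul _).const_mul _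
  refine (h3.integrableOn (s := Ioi V)).mono'
    (hh_cont1 hc be u).aestronglyMeasurable ?_
  refine (ae_restrict_iff' measurableSet_Ioi).2 (ae_of_all _ fun y hy => ?_)
  have hy' : V < y := hy
  rw [hh_eq, Real.norm_of_nonneg (kk_nonneg h0 be _)]
  unfold kk
  have h4 : Real.exp (be * (u - y)) ≤ Real.exp (be * (u - V)) := by
    apply Real.exp_le_exp.2
    nlinarith
  gcongr

lemma hh_shift (be y u d : ℝ) : HH be (1 / 20) (y + d) (u + d) = HH be (1 / 20) y u := by
  rw [hh_eq, hh_eq]
  congr 1
  ring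

lemma st_shift (be V u d : ℝ) : st be (V + d) (u + d) = st be V u := by
  unfold st
  have h := (measurePreserving_add_right volume d).setIntegral_preimage_emb
    (measurableEmbedding_addRight d) (fun y => HH be (1 / 20) y (u + d)) (Ioi (V + d))
  have h2 : (fun x : ℝ => x + d) ⁻¹' Ioi (V + d) = Ioi V := by
    ext x
    simp
  rw [h2] at h
  rw [← h]
  exact integral_congr_ae (ae_of_all _ fun y => hh_shift be y u d)

end B1x

open B1x in
theorem stepBasic (hW : PsiBd) : StepBasic := by
  obtain ⟨C, hC, hb, hc, h0, hi⟩ := hW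
  intro be hbe _
  have hint := fun V u : ℝ => hh_int hc h0 hi hbe V u
  have hsub : ∀ V u h : ℝ, 0 ≤ h → st be V u - st be (V + h) u
      = ∫ y in V..(V + h), HH be (1 / 20) y u := by
    intro V u h hh
    unfold st
    exact intervalIntegral.integral_Ioi_sub_Ioi (hint V u) (by linarith)
  refine ⟨hh_cont hc be, fun y u => by rw [hh_eq]; exact kk_nonneg h0 be _, hint, ?_, ?_,
    st_shift be, hsub⟩
  · intro V u
    unfold st
    exact integral_nonneg fun y => by
      show 0 ≤ HH be (1 / 20) y u
      rw [hh_eq]; exact kk_nonneg h0 be _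
  · have h1 : ∀ V : ℝ, st be V 0 = st be 0 0 - ∫ y in (0 : ℝ)..V, HH be (1 / 20) y 0 := by
      intro V
      unfold st
      have := intervalIntegral.integral_Ioi_sub_Ioi' (hint 0 0) (hint V 0)
      linarith
    have h2 : Continuous fun V : ℝ => st be V 0 := by
      have h3 : (fun V : ℝ => st be V 0)
          = fun V => st be 0 0 - ∫ y in (0 : ℝ)..V, HH be (1 / 20) y 0 := funext h1
      rw [h3]
      exact continuous_const.sub (intervalIntegral.continuous_primitive
        (fun a b => (hh_cont1 hc be 0).intervalIntegrable a b) 0)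
    have h4 : (fun p : ℝ × ℝ => st be p.1 p.2) = fun p => st be (p.1 - p.2) 0 := by
      funext p
      have := st_shift be (p.1 - p.2) 0 p.2
      rw [sub_add_cancel, zero_add] at this
      exact this
    rw [h4]
    exact h2.comp (by fun_prop)

end Pool.Agent.Lib.RA
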