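import Mathlib
import Pool.Agent.Lib.MP_f9aece_nt_rate.Stmts

/-!
The rate in the central limit theorem for `log |zeta|`: module D2, masses of intervals.
-/

set_option autoImplicit false

namespace Pool.Agent.Lib.RA

open MeasureTheory Set Filter Topology Complex ProbabilityTheory
open scoped ComplexConjugate
open Pool.Agent.Lib.GT
open Pool.Agent.Lib.LC
open Pool.Agent.Lib.LC.E9 (NN)

namespace D2x

/-- the length condition of a level -/
lemma len {A : Par} {T N : ℝ} (h : Spec A T N) : Len A T := by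
  unfold Len
  rw [h.hY]
  have hv : (4 : ℝ) ≤ A.v := by exact_mod_cast h.ok.hv
  have hL : 0 ≤ Real.log T := le_trans (by positivity) h.hN
  have e : 10 ^ 10 * (A.v : ℝ) * (Real.log T / (10 ^ 11 * A.v)) = Real.log T / 10 := by
    field_simp
  rw [e]
  linarith

/-- the sum of the small weights -/
lemma sum_small {N : ℝ} (hN : 256 ≤ N) (m : ℕ) :
    ∑ j ∈ Finset.range m, NN N j ^ (-(4 : ℝ)) ≤ 2 := by
  have h1 : ∀ j : ℕ, NN N j ^ (-(4 : ℝ)) ≤ (1 / 2 : ℝ) ^ j := by
    intro j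
    have h2 := E9.NN_ge hN j
    have h16 : (1 : ℝ) ≤ 16 ^ j := one_le_pow₀ (by norm_num)
    have h3 : (2 : ℝ) ^ j ≤ NN N j := by
      calc (2 : ℝ) ^ j ≤ 16 ^ j := pow_le_pow_left₀ (by norm_num) (by norm_num) j
        _ ≤ N * 16 ^ j := by nlinarith
        _ ≤ NN N j := h2
    have h4 : (1 : ℝ) ≤ NN N j := le_trans (one_le_pow₀ (by norm_num)) h3
    have h5 : (0 : ℝ) < 2 ^ j := by positivity
    calc NN N j ^ (-(4 : ℝ)) ≤ NN N j ^ (-(1 : ℝ)) :=
          Real.rpow_le_rpow_of_exponent_le h4 (by norm_num)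
      _ = 1 / NN N j := by rw [Real.rpow_neg (by linarith), Real.rpow_one, one_div]
      _ ≤ 1 / 2 ^ j := one_div_le_one_div_of_le h5 h3
      _ = (1 / 2 : ℝ) ^ j := by rw [one_div_pow]
  calc ∑ j ∈ Finset.range m, NN N j ^ (-(4 : ℝ)) ≤ ∑ j ∈ Finset.range m, (1 / 2 : ℝ) ^ j :=
        Finset.sum_le_sum fun j _ => h1 j
    _ ≤ 2 := by
        rw [geom_sum_eq (by norm_num)]
        have : (0 : ℝ) < (1 / 2) ^ m := by positivity
        have e : ((1 / 2 : ℝ) ^ m - 1) / (1 / 2 - 1) = 2 * (1 - (1 / 2) ^ m) := by ring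
        rw [e]
        linarith

end D2x

theorem xMass (hC : ChainNum) (hM : WMean) (hW : WinMass) : XMass := by
  obtain ⟨N1, hN1, H1⟩ := hC
  obtain ⟨CM, TM, hCM, hTM, HM⟩ := hM
  obtain ⟨CW, v0, hCW, HW⟩ := hW
  refine ⟨4 * CW * (CM + 2), max (max N1 256) (Real.exp v0), by nlinarith,
    hN1.trans ((le_max_left _ _).trans (le_max_left _ _)), fun N hN => ?_⟩
  have hNN1 : N1 ≤ N := ((le_max_left _ _).trans (le_max_left _ _)).trans hN
  have hN256 : 256 ≤ N := ((le_max_right _ _).trans (le_max_left _ _)).trans hN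
  have hNe : Real.exp v0 ≤ N := (le_max_right _ _).trans hN
  obtain ⟨T1, hT1, HT1⟩ := H1 N hNN1
  refine ⟨max T1 TM, hT1.trans (le_max_left _ _), fun A T m hCh hT x y => ?_⟩
  obtain ⟨hmeas, hG, -, -, hLv⟩ := HT1 A T m hCh ((le_max_left _ _).trans hT)
  have hT3 : 3 ≤ T := (hT1.trans (le_max_left _ _)).trans hT
  have hTM' : TM ≤ T := (le_max_right _ _).trans hT
  have hNge : ∀ j, N ≤ NN N j := fun j => by
    have h2 := E9.NN_ge hN256 j
    have h16 : (1 : ℝ) ≤ 16 ^ j := one_le_pow₀ (by norm_num)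
    nlinarith
  have hv : ∀ i, i ≤ m → v0 ≤ (A i).v := by
    intro i hi
    have hS := hCh.spec i hi
    have h1 : (v0 : ℝ) ≤ Real.log (NN N i) := by
      rw [Real.le_log_iff_exp_le (by linarith [hNge i])]
      exact hNe.trans (hNge i)
    have h2 : (0 : ℝ) ≤ v0 := Nat.cast_nonneg v0
    have h3 : (v0 : ℝ) ≤ (A i).v := by linarith [hS.hv1]
    exact_mod_cast h3
  have hG0 : 0 ≤ (A 0).G y := (hG 0 (Nat.zero_le _) y).1
  -- one level
  have key : ∀ i, i ≤ m → ∀ κ : ℝ, 0 ≤ κ →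
      (∀ y : ℝ, ∫⁻ t in Lv A m i, ENNReal.ofReal ((A i).W ∅ y (om t)) ∂(un x T)
        ≤ ENNReal.ofReal (κ * (A i).G y)) →
      un x T {t | t ∈ Lv A m i ∧ y < (A i).X ∅ (om t) ∧ (A i).X ∅ (om t) ≤ y + 1}
        ≤ ENNReal.ofReal (κ * (4 * CW * (A 0).G y)) := by
    intro i hi κ hκ hF
    have h := HW (A i) (hCh.spec i hi).ok (hv i hi) (hCh.spec i hi).hb x T κ (by linarith) hκ
      (Lv A m i) (hmeas i).2 hF y (y + 1) (by linarith)
    refine le_trans (measure_mono ?_) (h.trans (ENNReal.ofReal_le_ofReal ?_))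
    · rintro t ⟨ht, h1, h2⟩
      exact ⟨ht, ht.1 i le_rfl hi, h1, h2⟩
    · have hGi := hG i hi y
      have e : CW * κ * (y + 1 - y + 1) * (A i).G y = κ * (2 * CW * (A i).G y) := by ring
      rw [e]
      have : CW * (A i).G y ≤ CW * (2 * (A 0).G y) :=
        mul_le_mul_of_nonneg_left hGi.2 (by linarith)
      exact mul_le_mul_of_nonneg_left (by linarith) hκ
  rw [Finset.sum_range_succ']
  have h0 : un x T {t | t ∈ Lv A m 0 ∧ y < (A 0).X ∅ (om t) ∧ (A 0).X ∅ (om t) ≤ y + 1}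
      ≤ ENNReal.ofReal (CM * (4 * CW * (A 0).G y)) := by
    refine key 0 (Nat.zero_le _) CM (by linarith) fun y => ?_
    have h := HM (A 0) (hCh.spec 0 (Nat.zero_le _)).ok T hTM' (D2x.len (hCh.spec 0 (Nat.zero_le _)))
      x y ∅ (Finset.empty_subset _)
    refine (setLIntegral_le_lintegral _ _).trans (h.trans (le_of_eq ?_))
    simp
  have hs : ∀ i ∈ Finset.range m, un x T {t | t ∈ Lv A m (i + 1) ∧ y < (A (i + 1)).X ∅ (om t) ∧
      (A (i + 1)).X ∅ (om t) ≤ y + 1}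
      ≤ ENNReal.ofReal (NN N i ^ (-(4 : ℝ)) * (4 * CW * (A 0).G y)) := by
    intro i hi
    rw [Finset.mem_range] at hi
    have hp : 0 ≤ NN N i ^ (-(4 : ℝ)) := Real.rpow_nonneg (by linarith [hNge i]) _
    exact key (i + 1) hi _ hp (fun y => hLv i hi x y)
  have hK : 0 ≤ 4 * CW * (A 0).G y := by
    have : 0 ≤ CW := by linarith
    positivity
  calc _ ≤ (∑ i ∈ Finset.range m, ENNReal.ofReal (NN N i ^ (-(4 : ℝ)) * (4 * CW * (A 0).G y)))
        + ENNReal.ofReal (CM * (4 * CW * (A 0).G y)) := add_le_add (Finset.sum_le_sum hs) h0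
    _ = ENNReal.ofReal ((∑ i ∈ Finset.range m, NN N i ^ (-(4 : ℝ)) * (4 * CW * (A 0).G y))
        + CM * (4 * CW * (A 0).G y)) := by
        rw [← ENNReal.ofReal_sum_of_nonneg, ← ENNReal.ofReal_add]
        · exact Finset.sum_nonneg fun i _ =>
            mul_nonneg (Real.rpow_nonneg (by linarith [hNge i]) _) hK
        · exact mul_nonneg (by linarith) hK
        · exact fun i _ => mul_nonneg (Real.rpow_nonneg (by linarith [hNge i]) _) hK
    _ ≤ ENNReal.ofReal (4 * CW * (CM + 2) * (A 0).G y) := by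
        apply ENNReal.ofReal_le_ofReal
        rw [← Finset.sum_mul, ← add_mul]
        have h := D2x.sum_small hN256 m
        calc (∑ i ∈ Finset.range m, NN N i ^ (-(4 : ℝ)) + CM) * (4 * CW * (A 0).G y)
            ≤ (2 + CM) * (4 * CW * (A 0).G y) :=
              mul_le_mul_of_nonneg_right (by linarith) hK
          _ = _ := by ring

end Pool.Agent.Lib.RA
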