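import Mathlib
import Pool.Agent.Lib.MP_f9aece_nt_rate.Stmts
import Pool.Agent.Lib.MP_f9aece_nt_gt.G3

/-!
The rate in the central limit theorem for `log |zeta|`, module F3: small moments of `|zeta|`, with
a rate.
-/

set_option autoImplicit false

namespace Pool.Agent.Lib.RA

open MeasureTheory Set Filter Topology Complex ProbabilityTheory
open Pool.Agent.Lib.GT

/-- F3: the moments of small order, with a rate -/
def MomRate : Prop := ∃ C δ T0 : ℝ, 0 < C ∧ 0 < δ ∧ ∀ x T b : ℝ, T0 ≤ T → |x| ≤ T ^ (9 / 10 : ℝ) →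
  0 < b → b ≤ δ →
  |(∫ u in Icc (0 : ℝ) 1, ‖riemannZeta (1 / 2 + I * x + I * u * T)‖ ^ b) - Real.log T ^ (b ^ 2 / 4)|
    ≤ C * (b + 1 / Real.sqrt (Real.log (Real.log T))) * Real.log T ^ (b ^ 2 / 4)

namespace F3x

section LayerCake

variable {α α' : Type} [MeasurableSpace α] [MeasurableSpace α'] {ν : Measure α} {γ : Measure α'}
  [IsFiniteMeasure ν] [IsFiniteMeasure γ] {f : α → ℝ} {g : α' → ℝ}

/-- truncated moments from tails, with an additive error -/
lemma trunc_add (hf : Measurable f) (hf0 : ∀ a, 0 ≤ f a) (hg : Measurable g) (hg0 : ∀ a, 0 ≤ g a)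
    {Y : ℝ} (hY : 0 < Y) {b : ℝ} (hb : 0 < b) {E : ℝ → ℝ} (hE : ∀ V, 0 ≤ E V) (hEm : Measurable E)
    {B : ℝ} (hB0 : 0 ≤ B)
    (hB : ∫⁻ V, ENNReal.ofReal (E V * Real.exp (b * V)) ≤ ENNReal.ofReal B)
    (h : ∀ y : ℝ, 0 < y → y < Y → (ν {a | y < f a}).toReal
      ≤ (γ {a | y < g a}).toReal + E (Real.log y)) :
    ∫ a, min (f a) Y ^ b ∂ν ≤ ∫ a, min (g a) Y ^ b ∂γ + b * B := by
  have i1 := integrable_trunc (ν := ν) hf hf0 hY hb
  have i2 := integrable_trunc (ν := γ) hg hg0 hY hb
  have n1 : ∀ a, 0 ≤ min (f a) Y := fun a => le_min (hf0 a) hY.le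
  have n2 : ∀ a, 0 ≤ min (g a) Y := fun a => le_min (hg0 a) hY.le
  -- change of variables
  have hcv : ∫⁻ y in Ioi (0 : ℝ), ENNReal.ofReal (E (Real.log y)) * ENNReal.ofReal (y ^ (b - 1))
      ≤ ENNReal.ofReal B := by
    have h1 := lintegral_image_eq_lintegral_abs_deriv_mul (s := (univ : Set ℝ)) (f := Real.exp)
      (f' := Real.exp) MeasurableSet.univ (fun x _ => (Real.hasDerivAt_exp x).hasDerivWithinAt)
      Real.exp_injective.injOn
      (fun y => ENNReal.ofReal (E (Real.log y)) * ENNReal.ofReal (y ^ (b - 1)))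
    rw [image_univ, Real.range_exp] at h1
    rw [h1]
    refine le_trans (le_of_eq ?_) hB
    rw [Measure.restrict_univ]
    refine lintegral_congr fun V => ?_
    rw [abs_of_pos (Real.exp_pos V), Real.log_exp, ← ENNReal.ofReal_mul (hE V),
      ← ENNReal.ofReal_mul (Real.exp_pos V).le]
    congr 1
    rw [← Real.exp_mul, mul_left_comm, ← Real.exp_add]
    congr 2
    ring
  have h1 : ENNReal.ofReal (∫ a, min (f a) Y ^ b ∂ν)
      ≤ ENNReal.ofReal (∫ a, min (g a) Y ^ b ∂γ) + ENNReal.ofReal b * ENNReal.ofReal B := by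
    rw [ofReal_integral_eq_lintegral_ofReal i1 (Eventually.of_forall fun a => by
        have := n1 a
        positivity),
      ofReal_integral_eq_lintegral_ofReal i2 (Eventually.of_forall fun a => by
        have := n2 a
        positivity),
      lintegral_rpow_eq_lintegral_meas_lt_mul ν (Eventually.of_forall n1)
        (hf.min measurable_const).aemeasurable hb,
      lintegral_rpow_eq_lintegral_meas_lt_mul γ (Eventually.of_forall n2)
        (hg.min measurable_const).aemeasurable hb, ← mul_add]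
    refine mul_le_mul' le_rfl ?_
    refine le_trans ?_ (add_le_add le_rfl hcv)
    have hm : Measurable fun y : ℝ =>
        ENNReal.ofReal (E (Real.log y)) * ENNReal.ofReal (y ^ (b - 1)) := by
      have := hEm.comp Real.measurable_log
      have h3 : Measurable fun y : ℝ => y ^ (b - 1) := by fun_prop
      exact (ENNReal.measurable_ofReal.comp this).mul (ENNReal.measurable_ofReal.comp h3)
    rw [← lintegral_add_right _ hm]
    apply setLIntegral_mono' measurableSet_Ioi
    intro y hy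
    rw [← add_mul]
    gcongr
    rcases lt_or_ge y Y with hyY | hyY
    · have e1 : {a | y < min (f a) Y} = {a | y < f a} := by
        ext a
        simp [hyY]
      have e2 : {a | y < min (g a) Y} = {a | y < g a} := by
        ext a
        simp [hyY]
      rw [e1, e2]
      have h2 := h y hy hyY
      rw [← ENNReal.ofReal_toReal (measure_ne_top ν {a | y < f a}),
        ← ENNReal.ofReal_toReal (measure_ne_top γ {a | y < g a}),
        ← ENNReal.ofReal_add ENNReal.toReal_nonneg (hE _)]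
      exact ENNReal.ofReal_le_ofReal h2
    · have e1 : {a | y < min (f a) Y} = ∅ := by
        ext a
        simp only [mem_ofPred_eq, lt_min_iff, mem_empty_iff_false, iff_false, not_and, not_lt]
        intro _
        exact hyY
      rw [e1, measure_empty]
      exact zero_le
  have n3 : 0 ≤ ∫ a, min (g a) Y ^ b ∂γ := integral_nonneg fun a => by
    have := n2 a
    positivity
  rw [← ENNReal.ofReal_mul hb.le, ← ENNReal.ofReal_add n3 (by positivity)] at h1
  exact (ENNReal.ofReal_le_ofReal_iff (by positivity)).mp h1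

end LayerCake

/-- the error, integrated -/
lemma err_int {l b K : ℝ} (hl : 0 < l) (hb : 0 < b) (hK : 0 ≤ K) :
    ∫⁻ V : ℝ, ENNReal.ofReal (K * Real.exp (-((max V 0) ^ 2 / l)) * Real.exp (b * V))
      ≤ ENNReal.ofReal (K * (1 / b + Real.sqrt (Real.pi * l) * Real.exp (b ^ 2 / 4 * l))) := by
  -- the Gaussian part
  have g1 : Integrable (fun V : ℝ => Real.exp (-(1 / l) * (V - b * l / 2) ^ 2)) := by
    have := integrable_exp_neg_mul_sq (b := 1 / l) (by positivity)
    exact this.comp_sub_right (b * l / 2)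
  have g2 : ∫ V : ℝ, Real.exp (-(1 / l) * (V - b * l / 2) ^ 2) = Real.sqrt (Real.pi * l) := by
    rw [integral_sub_right_eq_self (fun V : ℝ => Real.exp (-(1 / l) * V ^ 2)) (b * l / 2),
      integral_gaussian]
    congr 1
    field_simp
  -- the part at the negative numbers
  have g3 : IntegrableOn (fun V : ℝ => Real.exp (b * V)) (Iic 0) := integrableOn_exp_mul_Iic hb 0
  have g4 : ∫ V in Iic (0 : ℝ), Real.exp (b * V) = 1 / b := by
    rw [integral_exp_mul_Iic hb 0]
    simp
  have hpt : ∀ V : ℝ, K * Real.exp (-((max V 0) ^ 2 / l)) * Real.exp (b * V)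
      ≤ K * ((Iic (0 : ℝ)).indicator (fun V => Real.exp (b * V)) V
        + Real.exp (b ^ 2 / 4 * l) * Real.exp (-(1 / l) * (V - b * l / 2) ^ 2)) := by
    intro V
    rw [mul_assoc]
    refine mul_le_mul_of_nonneg_left ?_ hK
    rcases le_or_gt V 0 with h | h
    · rw [indicator_of_mem (by simpa using h), max_eq_right h]
      have h1 : Real.exp (-((0 : ℝ) ^ 2 / l)) = 1 := by simp
      rw [h1, one_mul]
      have : 0 ≤ Real.exp (b ^ 2 / 4 * l) * Real.exp (-(1 / l) * (V - b * l / 2) ^ 2) := by positivity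
      linarith
    · rw [indicator_of_notMem (by simpa using h), max_eq_left h.le, zero_add, ← Real.exp_add,
        ← Real.exp_add]
      apply le_of_eq
      congr 1
      field_simp
      ring
  have i1 : Integrable ((Iic (0 : ℝ)).indicator fun V => Real.exp (b * V)) :=
    (integrable_indicator_iff measurableSet_Iic).mpr g3
  have i2 := g1.const_mul (Real.exp (b ^ 2 / 4 * l))
  have i3 : Integrable (fun V : ℝ => K * ((Iic (0 : ℝ)).indicator (fun V => Real.exp (b * V)) V
        + Real.exp (b ^ 2 / 4 * l) * Real.exp (-(1 / l) * (V - b * l / 2) ^ 2))) :=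
    (i1.add i2).const_mul K
  calc ∫⁻ V : ℝ, ENNReal.ofReal (K * Real.exp (-((max V 0) ^ 2 / l)) * Real.exp (b * V))
      ≤ ∫⁻ V : ℝ, ENNReal.ofReal (K * ((Iic (0 : ℝ)).indicator (fun V => Real.exp (b * V)) V
        + Real.exp (b ^ 2 / 4 * l) * Real.exp (-(1 / l) * (V - b * l / 2) ^ 2))) :=
        lintegral_mono fun V => ENNReal.ofReal_le_ofReal (hpt V)
    _ = ENNReal.ofReal (∫ V : ℝ, K * ((Iic (0 : ℝ)).indicator (fun V => Real.exp (b * V)) V
        + Real.exp (b ^ 2 / 4 * l) * Real.exp (-(1 / l) * (V - b * l / 2) ^ 2))) := by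
        rw [ofReal_integral_eq_lintegral_ofReal i3 (Eventually.of_forall fun V => ?_)]
        exact (by positivity : 0 ≤ K * Real.exp (-((max V 0) ^ 2 / l)) * Real.exp (b * V)).trans (hpt V)
    _ = _ := by
        congr 1
        rw [integral_const_mul, integral_add i1 i2, integral_indicator measurableSet_Iic, g4,
          integral_const_mul, g2]
        ring

end F3x

open F3x

/-- F3: the moments of small order, with a rate -/
theorem momRate (hR : Rate) : MomRate := by
  obtain ⟨C2, T2, hC2, hT2, h2⟩ := second_zf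
  obtain ⟨C, δ0, T1, hC, hδ0, h⟩ := hR
  obtain ⟨δ1, hδ1, hδ10, hδ11⟩ : ∃ δ1 : ℝ, 0 < δ1 ∧ δ1 ≤ δ0 ∧ δ1 ≤ 1 :=
    ⟨min δ0 1, lt_min hδ0 one_pos, min_le_left _ _, min_le_right _ _⟩
  obtain ⟨δ, hδ⟩ : ∃ δ : ℝ, δ = δ1 ^ 2 / 2 := ⟨_, rfl⟩
  have hδp : 0 < δ := by rw [hδ]; positivity
  have hδh : δ ≤ 1 / 2 := by
    have h1 := pow_le_one₀ (n := 2) hδ1.le hδ11
    linarith only [hδ, h1]
  -- large `T`
  obtain ⟨T3, hT3⟩ := eventually_atTop.mp (tendsto_loglog.eventually (eventually_ge_atTop 1))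
  refine ⟨4 * C + (4 + C + C2) / δ, δ, max (max T1 T2) T3, by positivity, hδp,
    fun x T b hT hx hb hbδ => ?_⟩
  have hTT1 : T1 ≤ T := ((le_max_left _ _).trans (le_max_left _ _)).trans hT
  have hTT2 : T2 ≤ T := ((le_max_right _ _).trans (le_max_left _ _)).trans hT
  have hl := hT3 T ((le_max_right _ _).trans hT)
  have hT16 : 16 ≤ T := hT2.trans hTT2
  have hTp : 0 < T := by linarith
  have hL1 : 1 < Real.log T := by
    rw [Real.lt_log_iff_exp_lt hTp]
    have := Real.exp_one_lt_d9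
    linarith
  have hLp : 0 < Real.log T := by linarith
  obtain ⟨l, hldef⟩ : ∃ l : ℝ, l = Real.log (Real.log T) := ⟨_, rfl⟩
  rw [← hldef] at hl
  have hlp : 0 < l := by linarith
  have hpow : ∀ a : ℝ, Real.log T ^ a = Real.exp (a * l) := by
    intro a
    rw [Real.rpow_def_of_pos hLp, ← hldef, mul_comm]
  have hx1 : |x| ≤ T := by
    refine hx.trans ?_
    calc T ^ (9 / 10 : ℝ) ≤ T ^ (1 : ℝ) := Real.rpow_le_rpow_of_exponent_le (by linarith) (by norm_num)
      _ = T := Real.rpow_one T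
  obtain ⟨s, hs⟩ : ∃ s : ℝ, s = Real.sqrt (l / 2) := ⟨_, rfl⟩
  have hsp : 0 < s := by rw [hs]; exact Real.sqrt_pos.mpr (by linarith)
  have hss : s ^ 2 = l / 2 := by rw [hs]; exact Real.sq_sqrt (by linarith)
  obtain ⟨r, hr⟩ : ∃ r : ℝ, r = Real.sqrt l := ⟨_, rfl⟩
  have hrp : 0 < r := by rw [hr]; exact Real.sqrt_pos.mpr hlp
  have hrr : r ^ 2 = l := by rw [hr]; exact Real.sq_sqrt hlp.le
  have hr1 : 1 ≤ r := by rw [hr]; exact Real.one_le_sqrt.mpr hl
  have htail : ∀ V : ℝ, V ≤ δ1 * l → |(volume {u : ℝ | u ∈ Icc (0 : ℝ) 1 ∧ Real.exp V < zf x T u}).toReal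
      - tl (V / s)| ≤ C / r * Real.exp (-((max V 0) ^ 2 / l)) := by
    intro V hV
    rw [hs, hr, hldef]
    refine h x T V hTT1 hx (hV.trans ?_)
    rw [← hldef]
    exact mul_le_mul_of_nonneg_right hδ10 (by linarith)
  show |(∫ u in Icc (0 : ℝ) 1, zf x T u ^ b) - Real.log T ^ (b ^ 2 / 4)| ≤ _
  rw [← hldef, ← hr]
  have hfm : Measurable (zf x T) := (continuous_zf x T).measurable
  have hf0 : ∀ u, 0 ≤ zf x T u := fun u => norm_nonneg _
  have hgm : Measurable fun z : ℝ => Real.exp (s * z) := by fun_prop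
  have hg0 : ∀ z : ℝ, 0 ≤ Real.exp (s * z) := fun z => (Real.exp_pos _).le
  have hfin : IsFiniteMeasure (volume.restrict (Icc (0 : ℝ) 1)) := inferInstance
  have hY : 0 < Real.exp (δ1 * l) := Real.exp_pos _
  -- truncated moments
  set M := Real.exp (b ^ 2 / 4 * l) with hMdef
  have hM1 : 1 ≤ M := Real.one_le_exp (by positivity)
  set B := C / r * (1 / b + Real.sqrt (Real.pi * l) * M) with hBdef
  have hB0 : 0 ≤ B := by positivity
  have hBi := err_int (l := l) (b := b) (K := C / r) hlp hb (by positivity)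
  have hEm : Measurable fun V : ℝ => C / r * Real.exp (-((max V 0) ^ 2 / l)) := by fun_prop
  have hE0 : ∀ V : ℝ, 0 ≤ C / r * Real.exp (-((max V 0) ^ 2 / l)) := fun V => by positivity
  have hlog : ∀ y : ℝ, 0 < y → y < Real.exp (δ1 * l) → Real.log y ≤ δ1 * l := by
    intro y hy hyY
    rw [Real.log_le_iff_le_exp hy]
    exact hyY.le
  have c2 : ∫ u in Icc (0 : ℝ) 1, min (zf x T u) (Real.exp (δ1 * l)) ^ b
      ≤ (∫ z, min (Real.exp (s * z)) (Real.exp (δ1 * l)) ^ b ∂(gaussianReal 0 1)) + b * B := by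
    refine trunc_add (ν := volume.restrict (Icc (0 : ℝ) 1)) (γ := gaussianReal 0 1) hfm hf0 hgm hg0
      hY hb hE0 hEm hB0 hBi fun y hy hyY => ?_
    rw [zeta_set x T hy, gauss_set hsp hy]
    have := (abs_le.mp (htail _ (hlog y hy hyY))).2
    linarith
  have c3 : ∫ z, min (Real.exp (s * z)) (Real.exp (δ1 * l)) ^ b ∂(gaussianReal 0 1)
      ≤ (∫ u in Icc (0 : ℝ) 1, min (zf x T u) (Real.exp (δ1 * l)) ^ b) + b * B := by
    refine trunc_add (γ := volume.restrict (Icc (0 : ℝ) 1)) (ν := gaussianReal 0 1) hgm hg0 hfm hf0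
      hY hb hE0 hEm hB0 hBi fun y hy hyY => ?_
    rw [zeta_set x T hy, gauss_set hsp hy]
    have := (abs_le.mp (htail _ (hlog y hy hyY))).1
    linarith
  have hbB : b * B ≤ 2 * C * (b + 1 / r) * M := by
    have e1 : Real.sqrt (Real.pi * l) = Real.sqrt Real.pi * r := by
      rw [Real.sqrt_mul Real.pi_pos.le, hr]
    have e2 : b * B = C * (1 / r) + C * Real.sqrt Real.pi * b * M := by
      rw [hBdef, e1]
      field_simp
    have e3 : Real.sqrt Real.pi ≤ 2 := by
      apply Real.sqrt_le_iff.mpr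
      constructor
      · norm_num
      · have := Real.pi_lt_four
        linarith
    have e4 : C * (1 / r) ≤ C * (1 / r) * M := le_mul_of_one_le_right (by positivity) hM1
    have e5 : C * Real.sqrt Real.pi * b * M ≤ C * 2 * b * M := by gcongr
    have e6 : 0 ≤ C * (1 / r) * M := by positivity
    rw [e2]
    linarith
  -- the part above the truncation
  have hb2 : b ≤ 2 := by linarith
  have hf2 : Integrable (fun u => zf x T u ^ 2) (volume.restrict (Icc (0 : ℝ) 1)) :=
    ((continuous_zf x T).pow 2).continuousOn.integrableOn_compact isCompact_Icc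
  obtain ⟨-, a1, a2⟩ := moment_le (K := Real.log T) hfm hf0 hY hLp hb hb2 hf2
  have g2 := gauss_moment s 2
  have hg2 : Integrable (fun z : ℝ => Real.exp (s * z) ^ 2) (gaussianReal 0 1) := by
    have := g2.1
    refine this.congr (Eventually.of_forall fun z => ?_)
    beta_reduce
    rw [← Real.rpow_natCast]
    norm_num
  have hg2' : ∫ z, Real.exp (s * z) ^ 2 ∂(gaussianReal 0 1) = Real.exp l := by
    have e : ∫ z, Real.exp (s * z) ^ 2 ∂(gaussianReal 0 1)
        = ∫ z, Real.exp (s * z) ^ (2 : ℝ) ∂(gaussianReal 0 1) := by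
      refine integral_congr_ae (Eventually.of_forall fun z => ?_)
      beta_reduce
      rw [← Real.rpow_natCast]
      norm_num
    rw [e, g2.2, hss]
    congr 1
    ring
  obtain ⟨-, b1, b2⟩ := moment_le (K := Real.log T) hgm hg0 hY hLp hb hb2 hg2
  have b3 := (gauss_moment s b).2
  have hMe : Real.exp (b ^ 2 * s ^ 2 / 2) = M := by
    rw [hss, hMdef]
    congr 1
    ring
  rw [hMe] at b3
  rw [b3, hg2', gauss_set hsp hY, Real.log_exp] at b2
  rw [b3] at b1
  rw [zeta_set x T hY, Real.log_exp] at a2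
  have hE := h2 x T hTT2 hx1
  rw [hpow, ← hMdef]
  rw [hpow b, hpow (b - 2)] at a2 b2
  have hLe : Real.log T = Real.exp l := by
    rw [hldef, Real.exp_log hLp]
  rw [hLe] at hE
  have t1 := htail (δ1 * l) le_rfl
  have t2 : tl (δ1 * l / s) ≤ Real.exp (-(δ1 ^ 2 * l)) := by
    have h4 := tl_chernoff (x := δ1 * l / s) (by positivity)
    have h5 : (δ1 * l / s) ^ 2 / 2 = δ1 ^ 2 * l := by
      rw [div_pow, hss]
      field_simp
    rwa [h5] at h4
  have t3 := (abs_le.mp t1).2
  have t4 : (volume {u : ℝ | u ∈ Icc (0 : ℝ) 1 ∧ Real.exp (δ1 * l) < zf x T u}).toReal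
      ≤ (1 + C) * Real.exp (-(δ1 ^ 2 * l)) := by
    have h5 : Real.exp (-((max (δ1 * l) 0) ^ 2 / l)) = Real.exp (-(δ1 ^ 2 * l)) := by
      rw [max_eq_left (by positivity)]
      congr 2
      field_simp
    have h6 : C / r ≤ C := div_le_self hC.le hr1
    rw [h5] at t3
    have h7 : C / r * Real.exp (-(δ1 ^ 2 * l)) ≤ C * Real.exp (-(δ1 ^ 2 * l)) := by gcongr
    linarith
  -- the small quantity
  obtain ⟨q, hq⟩ : ∃ q : ℝ, q = Real.exp (-(δ * l)) := ⟨_, rfl⟩
  have hq0 : 0 < q := by rw [hq]; exact Real.exp_pos _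
  have q1 : Real.exp (b * l) * Real.exp (-(δ1 ^ 2 * l)) ≤ q := by
    rw [hq, ← Real.exp_add]
    apply Real.exp_le_exp.mpr
    have h6 : b * l ≤ δ * l := mul_le_mul_of_nonneg_right hbδ (by linarith)
    have h7 : δ1 ^ 2 * l = 2 * (δ * l) := by rw [hδ]; ring
    linarith
  have q2 : Real.exp ((b - 2) * l) * Real.exp l ≤ q := by
    rw [hq, ← Real.exp_add]
    apply Real.exp_le_exp.mpr
    have h6 : b * l ≤ δ * l := mul_le_mul_of_nonneg_right hbδ (by linarith)
    have h7 : δ * l ≤ 1 / 2 * l := mul_le_mul_of_nonneg_right hδh (by linarith)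
    linarith
  have q3 : q ≤ 1 / δ * (1 / r) := by
    have h6 : δ * l ≤ Real.exp (δ * l) := by
      have := Real.add_one_le_exp (δ * l)
      linarith
    have h7 : r ≤ l := by
      rw [← hrr]
      exact le_self_pow₀ hr1 (by norm_num)
    have h8 : δ * r ≤ Real.exp (δ * l) := (mul_le_mul_of_nonneg_left h7 hδp.le).trans h6
    rw [hq, Real.exp_neg, one_div_mul_one_div, one_div]
    exact inv_anti₀ (by positivity) h8
  have r1 : Real.exp (b * l) * (volume {u : ℝ | u ∈ Icc (0 : ℝ) 1 ∧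
      Real.exp (δ1 * l) < zf x T u}).toReal ≤ (1 + C) * q := by
    calc _ ≤ Real.exp (b * l) * ((1 + C) * Real.exp (-(δ1 ^ 2 * l))) :=
          mul_le_mul_of_nonneg_left t4 (Real.exp_pos _).le
      _ = (1 + C) * (Real.exp (b * l) * Real.exp (-(δ1 ^ 2 * l))) := by ring
      _ ≤ (1 + C) * q := mul_le_mul_of_nonneg_left q1 (by linarith)
  have r2 : Real.exp ((b - 2) * l) * ∫ u in Icc (0 : ℝ) 1, zf x T u ^ 2 ≤ C2 * q := by
    calc _ ≤ Real.exp ((b - 2) * l) * (C2 * Real.exp l) :=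
          mul_le_mul_of_nonneg_left hE (Real.exp_pos _).le
      _ = C2 * (Real.exp ((b - 2) * l) * Real.exp l) := by ring
      _ ≤ C2 * q := mul_le_mul_of_nonneg_left q2 hC2
  have r3 : Real.exp (b * l) * tl (δ1 * l / s) ≤ q :=
    (mul_le_mul_of_nonneg_left t2 (Real.exp_pos _).le).trans q1
  set If := ∫ u in Icc (0 : ℝ) 1, zf x T u ^ b with hIf
  set Jf := ∫ u in Icc (0 : ℝ) 1, min (zf x T u) (Real.exp (δ1 * l)) ^ b with hJf
  set Jg := ∫ z, min (Real.exp (s * z)) (Real.exp (δ1 * l)) ^ b ∂(gaussianReal 0 1) with hJg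
  have hfin2 : |If - M| ≤ b * B + (3 + C + C2) * q := by
    rw [abs_le]
    have p1 := mul_pos hC hq0
    have p2 := mul_nonneg hC2 hq0.le
    constructor <;> linarith only [a1, a2, b1, b2, c2, c3, r1, r2, r3, q2, hq0, p1, p2]
  have hq4 : (3 + C + C2) * q ≤ (4 + C + C2) / δ * (1 / r) * M := by
    calc (3 + C + C2) * q ≤ (4 + C + C2) * (1 / δ * (1 / r)) := by gcongr; linarith
      _ = (4 + C + C2) / δ * (1 / r) := by ring
      _ ≤ _ := le_mul_of_one_le_right (by positivity) hM1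
  have hfb : 0 ≤ (4 + C + C2) / δ * b * M := by positivity
  have hfc : 0 ≤ C * (b + 1 / r) * M := by positivity
  calc |If - M| ≤ b * B + (3 + C + C2) * q := hfin2
    _ ≤ 2 * C * (b + 1 / r) * M + (4 + C + C2) / δ * (1 / r) * M := add_le_add hbB hq4
    _ ≤ _ := by linarith

end Pool.Agent.Lib.RA
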