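import Pool.Agent.Lib.MP_f9aece_nt_rate.Stmts
import Pool.Agent.Lib.MP_f9aece_nt_gt.G3

/-!
The rate in the central limit theorem for `log |zeta|`: the moments of small order.
-/

set_option autoImplicit false

namespace Pool.Agent.Lib.RA

open MeasureTheory Set Filter Topology Complex ProbabilityTheory
open Pool.Agent.Lib.GT

/-- the moments of small order, with rate -/
def RateM : Prop := ∃ C δ T0 : ℝ, 0 < C ∧ 0 < δ ∧ ∀ x T β : ℝ, T0 ≤ T → |x| ≤ T ^ (9 / 10 : ℝ) →
  0 < β → β ≤ δ →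
  |(∫ u in Icc (0 : ℝ) 1, ‖riemannZeta (1 / 2 + I * x + I * u * T)‖ ^ β) - Real.log T ^ (β ^ 2 / 4)|
    ≤ C * (β + 1 / Real.sqrt (Real.log (Real.log T))) * Real.log T ^ (β ^ 2 / 4)

namespace Momx

section LayerCake

variable {α α' : Type} [MeasurableSpace α] [MeasurableSpace α'] {ν : Measure α} {γ : Measure α'}
  [IsFiniteMeasure ν] [IsFiniteMeasure γ] {f : α → ℝ} {g : α' → ℝ}

/-- comparison of truncated moments with an additive error -/
lemma trunc_add (hf : Measurable f) (hf0 : ∀ a, 0 ≤ f a) (hg : Measurable g) (hg0 : ∀ a, 0 ≤ g a)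
    {Y : ℝ} (hY : 0 < Y) {β : ℝ} (hβ : 0 < β) {e : ℝ → ℝ} (he : ∀ y, 0 ≤ e y) (hem : Measurable e)
    {E : ℝ} (hE0 : 0 ≤ E)
    (hE : ∫⁻ y in Ioi (0 : ℝ), ENNReal.ofReal (e y * y ^ (β - 1)) ≤ ENNReal.ofReal E)
    (h : ∀ y : ℝ, 0 < y → y < Y → (ν {a | y < f a}).toReal ≤ (γ {a | y < g a}).toReal + e y) :
    ∫ a, min (f a) Y ^ β ∂ν ≤ (∫ a, min (g a) Y ^ β ∂γ) + β * E := by
  have i1 := integrable_trunc (ν := ν) hf hf0 hY hβ
  have i2 := integrable_trunc (ν := γ) hg hg0 hY hβ
  have n1 : ∀ a, 0 ≤ min (f a) Y := fun a => le_min (hf0 a) hY.le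
  have n2 : ∀ a, 0 ≤ min (g a) Y := fun a => le_min (hg0 a) hY.le
  have n3 : 0 ≤ ∫ a, min (g a) Y ^ β ∂γ := integral_nonneg fun a => by
    have := n2 a
    positivity
  have hmE : Measurable fun y : ℝ => ENNReal.ofReal (e y * y ^ (β - 1)) :=
    (hem.mul (measurable_id.pow_const _)).ennreal_ofReal
  have h1 : ENNReal.ofReal (∫ a, min (f a) Y ^ β ∂ν)
      ≤ ENNReal.ofReal (∫ a, min (g a) Y ^ β ∂γ) + ENNReal.ofReal β * ENNReal.ofReal E := by
    rw [ofReal_integral_eq_lintegral_ofReal i1 (Eventually.of_forall fun a => by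
        have := n1 a
        positivity),
      ofReal_integral_eq_lintegral_ofReal i2 (Eventually.of_forall fun a => by
        have := n2 a
        positivity),
      lintegral_rpow_eq_lintegral_meas_lt_mul ν (Eventually.of_forall n1)
        (hf.min measurable_const).aemeasurable hβ,
      lintegral_rpow_eq_lintegral_meas_lt_mul γ (Eventually.of_forall n2)
        (hg.min measurable_const).aemeasurable hβ, ← mul_add]
    refine mul_le_mul' le_rfl ?_
    refine le_trans ?_ (add_le_add le_rfl hE)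
    rw [← lintegral_add_right _ hmE]
    apply setLIntegral_mono' measurableSet_Ioi
    intro y hy
    have hy0 : 0 < y := hy
    rcases lt_or_ge y Y with hyY | hyY
    · have e1 : {a | y < min (f a) Y} = {a | y < f a} := by
        ext a
        simp [hyY]
      have e2 : {a | y < min (g a) Y} = {a | y < g a} := by
        ext a
        simp [hyY]
      rw [e1, e2]
      have h2 := h y hy hyY
      rw [ENNReal.ofReal_mul (he y), ← add_mul]
      gcongr
      rw [← ENNReal.ofReal_toReal (measure_ne_top ν {a | y < f a}),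
        ← ENNReal.ofReal_toReal (measure_ne_top γ {a | y < g a}),
        ← ENNReal.ofReal_add ENNReal.toReal_nonneg (he y)]
      exact ENNReal.ofReal_le_ofReal h2
    · have e1 : {a | y < min (f a) Y} = ∅ := by
        ext a
        simp only [mem_ofPred_eq, lt_min_iff, mem_empty_iff_false, iff_false, not_and, not_lt]
        intro _
        exact hyY
      rw [e1, measure_empty, zero_mul]
      exact zero_le
  rw [← ENNReal.ofReal_mul hβ.le, ← ENNReal.ofReal_add n3 (by positivity)] at h1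
  exact (ENNReal.ofReal_le_ofReal_iff (by positivity)).mp h1

end LayerCake

/-- the Gaussian integral in the variable `V` -/
lemma gauss_int {l β : ℝ} (hl : 0 < l) :
    ∫⁻ V : ℝ, ENNReal.ofReal (Real.exp (β * V - V ^ 2 / l))
      = ENNReal.ofReal (Real.sqrt (Real.pi * l) * Real.exp (β ^ 2 * l / 4)) := by
  have h1 : ∀ V : ℝ, Real.exp (β * V - V ^ 2 / l)
      = Real.exp (β ^ 2 * l / 4) * Real.exp (-l⁻¹ * (V - β * l / 2) ^ 2) := by
    intro V
    rw [← Real.exp_add]
    congr 1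
    field_simp
    ring
  have h2 : Integrable fun V : ℝ => Real.exp (-l⁻¹ * (V - β * l / 2) ^ 2) :=
    (integrable_exp_neg_mul_sq (inv_pos.mpr hl)).comp_sub_right (β * l / 2)
  have h3 : ∫ V : ℝ, Real.exp (-l⁻¹ * (V - β * l / 2) ^ 2) = Real.sqrt (Real.pi * l) := by
    have h4 := integral_sub_right_eq_self (μ := volume) (fun V : ℝ => Real.exp (-l⁻¹ * V ^ 2)) (β * l / 2)
    rw [h4, integral_gaussian]
    congr 1
    field_simp
  have h5 : Integrable fun V : ℝ => Real.exp (β * V - V ^ 2 / l) := by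
    simp only [h1]
    exact h2.const_mul _
  rw [← ofReal_integral_eq_lintegral_ofReal h5 (Eventually.of_forall fun V => (Real.exp_pos _).le)]
  congr 1
  simp only [h1]
  rw [integral_const_mul, h3, mul_comm]

/-- the error after integration -/
lemma err_int {l β C : ℝ} (hl : 0 < l) (hβ : 0 < β) (hC : 0 ≤ C) :
    ∫⁻ y in Ioi (0 : ℝ), ENNReal.ofReal (C * Real.exp (-((max (Real.log y) 0) ^ 2 / l)) * y ^ (β - 1))
      ≤ ENNReal.ofReal (C * (1 / β + Real.sqrt (Real.pi * l) * Real.exp (β ^ 2 * l / 4))) := by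
  have hs : Ioi (0 : ℝ) = Ioc 0 1 ∪ Ioi 1 := (Ioc_union_Ioi_eq_Ioi zero_le_one).symm
  have hp : 0 ≤ Real.sqrt (Real.pi * l) * Real.exp (β ^ 2 * l / 4) := by positivity
  rw [hs, mul_add, ENNReal.ofReal_add (by positivity) (by positivity)]
  refine (lintegral_union_le _ _ _).trans (add_le_add ?_ ?_)
  · have h1 : ∫⁻ y in Ioc (0 : ℝ) 1, ENNReal.ofReal (C * Real.exp (-((max (Real.log y) 0) ^ 2 / l))
        * y ^ (β - 1)) = ∫⁻ y in Ioc (0 : ℝ) 1, ENNReal.ofReal (C * y ^ (β - 1)) := by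
      refine setLIntegral_congr_fun measurableSet_Ioc fun y hy => ?_
      have h2 : max (Real.log y) 0 = 0 := max_eq_right (Real.log_nonpos hy.1.le hy.2)
      rw [h2]
      norm_num
    have h3 : IntegrableOn (fun y : ℝ => C * y ^ (β - 1)) (Ioc 0 1) :=
      ((intervalIntegral.intervalIntegrable_rpow' (a := 0) (b := 1) (r := β - 1) (by linarith)).1).const_mul C
    rw [h1, ← ofReal_integral_eq_lintegral_ofReal h3 (by
      filter_upwards [ae_restrict_mem measurableSet_Ioc] with y hy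
      have := hy.1
      positivity)]
    refine ENNReal.ofReal_le_ofReal (le_of_eq ?_)
    rw [integral_const_mul, ← intervalIntegral.integral_of_le zero_le_one,
      integral_rpow (Or.inl (by linarith))]
    rw [sub_add_cancel, Real.one_rpow, Real.zero_rpow hβ.ne', sub_zero]
  · have himg : Real.exp '' Ioi 0 = Ioi (1 : ℝ) := by
      ext y
      constructor
      · rintro ⟨V, hV, rfl⟩
        exact Real.one_lt_exp_iff.mpr hV
      · intro hy
        have hy1 : (1 : ℝ) < y := hy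
        exact ⟨Real.log y, Real.log_pos hy1, Real.exp_log (by linarith)⟩
    rw [← himg, lintegral_image_eq_lintegral_abs_deriv_mul measurableSet_Ioi
      (fun V _ => (Real.hasDerivAt_exp V).hasDerivWithinAt) Real.exp_injective.injOn]
    have h1 : ∫⁻ V in Ioi (0 : ℝ), ENNReal.ofReal |Real.exp V| * ENNReal.ofReal (C *
        Real.exp (-((max (Real.log (Real.exp V)) 0) ^ 2 / l)) * Real.exp V ^ (β - 1))
        = ∫⁻ V in Ioi (0 : ℝ), ENNReal.ofReal C * ENNReal.ofReal (Real.exp (β * V - V ^ 2 / l)) := by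
      refine setLIntegral_congr_fun measurableSet_Ioi fun V hV => ?_
      have hV0 : 0 < V := hV
      rw [Real.log_exp, max_eq_left hV0.le, abs_of_pos (Real.exp_pos V),
        ← ENNReal.ofReal_mul (Real.exp_pos V).le, ← ENNReal.ofReal_mul hC]
      congr 1
      rw [← Real.exp_mul]
      have : Real.exp V * (C * Real.exp (-(V ^ 2 / l)) * Real.exp (V * (β - 1)))
          = C * (Real.exp V * Real.exp (-(V ^ 2 / l)) * Real.exp (V * (β - 1))) := by ring
      rw [this, ← Real.exp_add, ← Real.exp_add]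
      congr 2
      ring
    rw [h1, lintegral_const_mul' _ _ ENNReal.ofReal_ne_top, ENNReal.ofReal_mul hC]
    refine mul_le_mul' le_rfl ?_
    rw [← gauss_int hl]
    exact setLIntegral_le_lintegral _ _

end Momx

/-- **Moments of small order, with rate.** -/
theorem moments (h : Rate) : RateM := by
  obtain ⟨C2, T2, hC2, hT2, h2⟩ := second_zf
  obtain ⟨C, δ0, T1, hC, hδ0, h⟩ := h
  obtain ⟨δ1, hδ1, hδ10, hδ11⟩ : ∃ δ1 : ℝ, 0 < δ1 ∧ δ1 ≤ δ0 ∧ δ1 ≤ 1 :=
    ⟨min δ0 1, lt_min hδ0 one_pos, min_le_left _ _, min_le_right _ _⟩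
  obtain ⟨δ, hδ⟩ : ∃ δ : ℝ, δ = δ1 ^ 2 / 2 := ⟨_, rfl⟩
  have hδp : 0 < δ := by rw [hδ]; positivity
  have hδh : δ ≤ 1 / 2 := by rw [hδ]; nlinarith
  -- large `T`
  have hlim : Tendsto (fun l : ℝ => (3 + C + C2) * (Real.sqrt l * Real.exp (-(δ * l)))) atTop
      (𝓝 ((3 + C + C2) * 0)) := by
    refine Tendsto.const_mul _ ?_
    have h1 := tendsto_rpow_mul_exp_neg_mul_atTop_nhds_zero (1 / 2) δ hδp
    refine h1.congr fun l => ?_
    rw [Real.sqrt_eq_rpow, neg_mul]
  rw [mul_zero] at hlim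
  have hev : ∀ᶠ T : ℝ in atTop, 1 ≤ Real.log (Real.log T) ∧
      (3 + C + C2) * (Real.sqrt (Real.log (Real.log T)) * Real.exp (-(δ * Real.log (Real.log T)))) ≤ 1 := by
    have h1 := (hlim.eventually (gt_mem_nhds one_pos)).and (eventually_ge_atTop 1)
    filter_upwards [tendsto_loglog.eventually h1] with T h2
    exact ⟨h2.2, h2.1.le⟩
  obtain ⟨T3, hT3⟩ := eventually_atTop.mp hev
  refine ⟨2 * C + 1, δ, max (max T1 T2) T3, by positivity, hδp, fun x T β hT hx hβ hβδ => ?_⟩
  have hTT1 : T1 ≤ T := ((le_max_left _ _).trans (le_max_left _ _)).trans hT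
  have hTT2 : T2 ≤ T := ((le_max_right _ _).trans (le_max_left _ _)).trans hT
  obtain ⟨hl, hsm⟩ := hT3 T ((le_max_right _ _).trans hT)
  have hT16 : 16 ≤ T := hT2.trans hTT2
  have hTp : 0 < T := by linarith
  have hL1 : 1 < Real.log T := by
    rw [Real.lt_log_iff_exp_lt hTp]
    have := Real.exp_one_lt_d9
    linarith
  have hLp : 0 < Real.log T := by linarith
  obtain ⟨l, hldef⟩ : ∃ l : ℝ, l = Real.log (Real.log T) := ⟨_, rfl⟩
  have h' := h x T
  rw [← hldef] at hl hsm h' ⊢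
  have hl0 : 0 < l := by linarith
  have hpow : ∀ a : ℝ, Real.log T ^ a = Real.exp (a * l) := by
    intro a
    rw [Real.rpow_def_of_pos hLp, ← hldef, mul_comm]
  have hx1 : |x| ≤ T := by
    refine hx.trans ?_
    calc T ^ (9 / 10 : ℝ) ≤ T ^ (1 : ℝ) := Real.rpow_le_rpow_of_exponent_le (by linarith) (by norm_num)
      _ = T := Real.rpow_one T
  obtain ⟨s, hs⟩ : ∃ s : ℝ, s = Real.sqrt (l / 2) := ⟨_, rfl⟩
  have hsp : 0 < s := by rw [hs]; exact Real.sqrt_pos.mpr (by linarith)
  have hss : s ^ 2 = l / 2 := by rw [hs]; exact Real.sq_sqrt (by linarith)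
  obtain ⟨r, hr⟩ : ∃ r : ℝ, r = Real.sqrt l := ⟨_, rfl⟩
  have hrp : 0 < r := by rw [hr]; exact Real.sqrt_pos.mpr hl0
  rw [← hr] at hsm
  rw [← hr, ← hs] at h'
  rw [← hr]
  have htail : ∀ V : ℝ, V ≤ δ1 * l → |(volume {u : ℝ | u ∈ Icc (0 : ℝ) 1 ∧ Real.exp V < zf x T u}).toReal
      - tl (V / s)| ≤ C / r * Real.exp (-((max V 0) ^ 2 / l)) := by
    intro V hV
    exact h' V hTT1 hx (hV.trans (mul_le_mul_of_nonneg_right hδ10 hl0.le))
  have hfm : Measurable (zf x T) := (continuous_zf x T).measurable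
  have hf0 : ∀ u, 0 ≤ zf x T u := fun u => norm_nonneg _
  have hgm : Measurable fun z : ℝ => Real.exp (s * z) := by fun_prop
  have hg0 : ∀ z : ℝ, 0 ≤ Real.exp (s * z) := fun z => (Real.exp_pos _).le
  have hfin : IsFiniteMeasure (volume.restrict (Icc (0 : ℝ) 1)) := inferInstance
  have hY : 0 < Real.exp (δ1 * l) := Real.exp_pos _
  -- the truncated moments
  obtain ⟨M, hM⟩ : ∃ M : ℝ, M = Real.exp (β ^ 2 / 4 * l) := ⟨_, rfl⟩
  have hM1 : 1 ≤ M := by rw [hM]; exact Real.one_le_exp (by positivity)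
  obtain ⟨E, hEd⟩ : ∃ E : ℝ, E = C / r * (1 / β + Real.sqrt (Real.pi * l) * Real.exp (β ^ 2 * l / 4)) :=
    ⟨_, rfl⟩
  have hE0 : 0 ≤ E := by rw [hEd]; positivity
  have hEb : β * E ≤ C / r + 2 * C * β * M := by
    have e1 : Real.exp (β ^ 2 * l / 4) = M := by rw [hM]; congr 1; ring
    have e2 : Real.sqrt (Real.pi * l) ≤ 2 * r := by
      rw [Real.sqrt_mul Real.pi_pos.le, ← hr]
      have : Real.sqrt Real.pi ≤ 2 := by
        rw [Real.sqrt_le_left (by norm_num)]
        have := Real.pi_le_four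
        linarith
      exact mul_le_mul_of_nonneg_right this hrp.le
    rw [hEd, e1]
    have e3 : β * (C / r * (1 / β + Real.sqrt (Real.pi * l) * M))
        = C / r + C * β * M * (Real.sqrt (Real.pi * l) / r) := by
      field_simp
    have e4 : Real.sqrt (Real.pi * l) / r ≤ 2 := by
      rw [div_le_iff₀ hrp]
      exact e2
    have e5 : C * β * M * (Real.sqrt (Real.pi * l) / r) ≤ C * β * M * 2 := by
      gcongr
    rw [e3]
    linarith
  have hEi := Momx.err_int (l := l) (β := β) (C := C / r) hl0 hβ (by positivity)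
  rw [← hEd] at hEi
  have he0 : ∀ y : ℝ, 0 ≤ C / r * Real.exp (-((max (Real.log y) 0) ^ 2 / l)) := fun y => by positivity
  have hem : Measurable fun y : ℝ => C / r * Real.exp (-((max (Real.log y) 0) ^ 2 / l)) := by
    have : Measurable fun y : ℝ => max (Real.log y) 0 := Real.measurable_log.max measurable_const
    fun_prop
  have hcmp : ∀ y : ℝ, 0 < y → y < Real.exp (δ1 * l) →
      |(volume.restrict (Icc (0 : ℝ) 1) {u | y < zf x T u}).toReal
        - (gaussianReal 0 1 {z | y < Real.exp (s * z)}).toReal|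
        ≤ C / r * Real.exp (-((max (Real.log y) 0) ^ 2 / l)) := by
    intro y hy hyY
    rw [zeta_set x T hy, gauss_set hsp hy]
    apply htail
    rw [Real.log_le_iff_le_exp hy]
    exact hyY.le
  have c1 := Momx.trunc_add (ν := volume.restrict (Icc (0 : ℝ) 1)) (γ := gaussianReal 0 1) hfm hf0 hgm hg0
    hY hβ he0 hem hE0 hEi (fun y hy hyY => by
      have := (abs_le.mp (hcmp y hy hyY)).2
      linarith)
  have c2 := Momx.trunc_add (ν := gaussianReal 0 1) (γ := volume.restrict (Icc (0 : ℝ) 1)) hgm hg0 hfm hf0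
    hY hβ he0 hem hE0 hEi (fun y hy hyY => by
      have := (abs_le.mp (hcmp y hy hyY)).1
      linarith)
  -- the parts above the truncation
  have hβ2 : β ≤ 2 := by linarith
  have hf2 : Integrable (fun u => zf x T u ^ 2) (volume.restrict (Icc (0 : ℝ) 1)) :=
    ((continuous_zf x T).pow 2).continuousOn.integrableOn_compact isCompact_Icc
  obtain ⟨-, a1, a2⟩ := moment_le (K := Real.log T) hfm hf0 hY hLp hβ hβ2 hf2
  have g2 := gauss_moment s 2
  have hg2 : Integrable (fun z : ℝ => Real.exp (s * z) ^ 2) (gaussianReal 0 1) := by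
    refine g2.1.congr (Eventually.of_forall fun z => ?_)
    beta_reduce
    rw [← Real.rpow_natCast]
    norm_num
  have hg2' : ∫ z, Real.exp (s * z) ^ 2 ∂(gaussianReal 0 1) = Real.exp l := by
    have e : ∫ z, Real.exp (s * z) ^ 2 ∂(gaussianReal 0 1)
        = ∫ z, Real.exp (s * z) ^ (2 : ℝ) ∂(gaussianReal 0 1) := by
      refine integral_congr_ae (Eventually.of_forall fun z => ?_)
      beta_reduce
      rw [← Real.rpow_natCast]
      norm_num
    rw [e, g2.2, hss]
    congr 1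
    ring
  obtain ⟨-, b1, b2⟩ := moment_le (K := Real.log T) hgm hg0 hY hLp hβ hβ2 hg2
  have b3 := (gauss_moment s β).2
  have hMe : Real.exp (β ^ 2 * s ^ 2 / 2) = M := by
    rw [hss, hM]
    congr 1
    ring
  rw [hMe] at b3
  rw [b3, hg2', gauss_set hsp hY, Real.log_exp] at b2
  rw [b3] at b1
  rw [zeta_set x T hY, Real.log_exp] at a2
  have hE := h2 x T hTT2 hx1
  rw [hpow β, hpow (β - 2)] at a2 b2
  have hLe : Real.log T = Real.exp l := by
    rw [hldef, Real.exp_log hLp]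
  rw [hpow, ← hM]
  rw [hLe] at hE
  have t1 := htail (δ1 * l) le_rfl
  have t2 : tl (δ1 * l / s) ≤ Real.exp (-(δ1 ^ 2 * l)) := by
    have h4 := tl_chernoff (x := δ1 * l / s) (by positivity)
    have h5 : (δ1 * l / s) ^ 2 / 2 = δ1 ^ 2 * l := by
      rw [div_pow, hss]
      field_simp
    rwa [h5] at h4
  have t5 : C / r * Real.exp (-((max (δ1 * l) 0) ^ 2 / l)) ≤ C * Real.exp (-(δ1 ^ 2 * l)) := by
    rw [max_eq_left (by positivity)]
    have e1 : (δ1 * l) ^ 2 / l = δ1 ^ 2 * l := by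
      field_simp
    rw [e1]
    have e2 : C / r ≤ C := by
      apply div_le_self hC.le
      rw [hr, Real.one_le_sqrt]
      exact hl
    gcongr
  have t3 := (abs_le.mp t1).2
  have t4 : (volume {u : ℝ | u ∈ Icc (0 : ℝ) 1 ∧ Real.exp (δ1 * l) < zf x T u}).toReal
      ≤ (1 + C) * Real.exp (-(δ1 ^ 2 * l)) := by
    linarith
  -- the small quantity
  obtain ⟨q, hq⟩ : ∃ q : ℝ, q = Real.exp (-(δ * l)) := ⟨_, rfl⟩
  have hq0 : 0 < q := by rw [hq]; exact Real.exp_pos _
  have q1 : Real.exp (β * l) * Real.exp (-(δ1 ^ 2 * l)) ≤ q := by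
    rw [hq, ← Real.exp_add]
    apply Real.exp_le_exp.mpr
    have h6 : β * l ≤ δ * l := mul_le_mul_of_nonneg_right hβδ (by linarith)
    have h7 : δ1 ^ 2 * l = 2 * (δ * l) := by rw [hδ]; ring
    linarith
  have q2 : Real.exp ((β - 2) * l) * Real.exp l ≤ q := by
    rw [hq, ← Real.exp_add]
    apply Real.exp_le_exp.mpr
    have h6 : β * l ≤ δ * l := mul_le_mul_of_nonneg_right hβδ (by linarith)
    have h7 : δ * l ≤ 1 / 2 * l := mul_le_mul_of_nonneg_right hδh (by linarith)
    linarith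
  have r1 : Real.exp (β * l) * (volume {u : ℝ | u ∈ Icc (0 : ℝ) 1 ∧
      Real.exp (δ1 * l) < zf x T u}).toReal ≤ (1 + C) * q := by
    calc _ ≤ Real.exp (β * l) * ((1 + C) * Real.exp (-(δ1 ^ 2 * l))) :=
          mul_le_mul_of_nonneg_left t4 (Real.exp_pos _).le
      _ = (1 + C) * (Real.exp (β * l) * Real.exp (-(δ1 ^ 2 * l))) := by ring
      _ ≤ (1 + C) * q := mul_le_mul_of_nonneg_left q1 (by positivity)
  have r2 : Real.exp ((β - 2) * l) * ∫ u in Icc (0 : ℝ) 1, zf x T u ^ 2 ≤ C2 * q := by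
    calc _ ≤ Real.exp ((β - 2) * l) * (C2 * Real.exp l) :=
          mul_le_mul_of_nonneg_left hE (Real.exp_pos _).le
      _ = C2 * (Real.exp ((β - 2) * l) * Real.exp l) := by ring
      _ ≤ C2 * q := mul_le_mul_of_nonneg_left q2 hC2
  have r3 : Real.exp (β * l) * tl (δ1 * l / s) ≤ q :=
    (mul_le_mul_of_nonneg_left t2 (Real.exp_pos _).le).trans q1
  have hqs : (3 + C + C2) * q ≤ 1 / r := by
    rw [le_div_iff₀ hrp, hq]
    calc (3 + C + C2) * Real.exp (-(δ * l)) * r = (3 + C + C2) * (r * Real.exp (-(δ * l))) := by ring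
      _ ≤ 1 := hsm
  have hgoal : |(∫ u in Icc (0 : ℝ) 1, zf x T u ^ β) - M| ≤ (2 * C + 1) * (β + 1 / r) * M := by
    have hCq : 0 ≤ C2 * q := by positivity
    have hCq' : 0 ≤ C * q := by positivity
    have k1 : 1 / r ≤ 1 / r * M := le_mul_of_one_le_right (by positivity) hM1
    have k2 : C / r ≤ C * (1 / r * M) := by
      calc C / r = C * (1 / r) := by ring
        _ ≤ C * (1 / r * M) := by gcongr
    have k3 : 0 ≤ β * M := by positivity
    have k4 : 0 ≤ C * (1 / r * M) := by positivity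
    have k5 : (2 * C + 1) * (β + 1 / r) * M
        = 2 * C * β * M + β * M + 2 * (C * (1 / r * M)) + 1 / r * M := by ring
    rw [k5, abs_le]
    constructor
    · linarith
    · linarith
  exact hgoal

end Pool.Agent.Lib.RA
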